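import Pool.Agent.Lib_MP_3538b5.CoreDefs

/-! # Piece CLEM: closedness and intersections -/

set_option autoImplicit false

namespace MP35

universe u v w

section

variable {T : Type v} [CommRing T] [TopologicalSpace T] [IsTopologicalRing T]

/-- PROOF. `{0}ᶜ`-type argument: the complement of `{x}` is a neighbourhood of `0`, so it contains an open ideal `I`
(`IsLinearTopology.hasBasis_open_ideal`), `x ∉ I`; `c ^ n ∈ I` for some `n`. -/
theorem exists_not_pow_dvd [T2Space T] [IsLinearTopology T T] {c : T} (hc : IsTopologicallyNilpotent c)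
    {x : T} (hx : x ≠ 0) : ∃ n : ℕ, ¬ c ^ n ∣ x := by
  have hU : ({x}ᶜ : Set T) ∈ nhds (0 : T) :=
    isOpen_compl_singleton.mem_nhds (fun h => hx (Set.mem_singleton_iff.1 h).symm)
  obtain ⟨I, hI, hIs⟩ := (IsLinearTopology.hasBasis_open_ideal (R := T)).mem_iff.1 hU
  have hIn : (I : Set T) ∈ nhds (0 : T) := hI.mem_nhds I.zero_mem
  have hev : ∀ᶠ n : ℕ in Filter.atTop, c ^ n ∈ (I : Set T) := hc hIn
  obtain ⟨n, hn⟩ := hev.exists
  refine ⟨n, fun hd => ?_⟩
  obtain ⟨r, hr⟩ := hd
  have hxI : x ∈ (I : Set T) := by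
    rw [hr]
    exact I.mul_mem_right _ hn
  exact hIs hxI rfl

variable {X Y Z : T}

/-- PROOF. Coordinatewise from `exists_not_pow_dvd`. -/
theorem eq_zero_of_dv [T2Space T] [IsLinearTopology T T] {c : T} (hc : IsTopologicallyNilpotent c)
    {x : QO T X Y Z} (h : ∀ n : ℕ, Dv (c ^ n) x) : x = 0 := by
  have key : ∀ t : T, (∀ n : ℕ, c ^ n ∣ t) → t = 0 := by
    intro t ht
    by_contra h0
    obtain ⟨n, hn⟩ := exists_not_pow_dvd hc h0
    exact hn (ht n)
  refine QO.ext ?_ ?_ ?_ ?_
  · refine key _ fun n => ?_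
    obtain ⟨r, hr⟩ := h n
    exact ⟨r.c0, congrArg QO.c0 hr⟩
  · refine key _ fun n => ?_
    obtain ⟨r, hr⟩ := h n
    exact ⟨r.c1, congrArg QO.c1 hr⟩
  · refine key _ fun n => ?_
    obtain ⟨r, hr⟩ := h n
    exact ⟨r.c2, congrArg QO.c2 hr⟩
  · refine key _ fun n => ?_
    obtain ⟨r, hr⟩ := h n
    exact ⟨r.c3, congrArg QO.c3 hr⟩

/-- PROOF. The set is the image of the compact space `QO T X Y Z` under the continuous map `r ↦ c • r`. -/
theorem isClosed_dv [T2Space T] [CompactSpace T] (c : T) : IsClosed {x : QO T X Y Z | Dv c x} := by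
  have h : {x : QO T X Y Z | Dv c x} = Set.range (fun r : QO T X Y Z => c • r) := by
    ext x
    constructor
    · rintro ⟨r, hr⟩
      exact ⟨r, hr.symm⟩
    · rintro ⟨r, hr⟩
      exact ⟨r, hr.symm⟩
  rw [h]
  exact (isCompact_range (continuous_const_smul c)).isClosed

/-- PROOF. For fixed `v ∈ V` and the closed set `V`, `{t | ∀ v ∈ V, t • v ∈ V}` is a closed subring of `T` (`V` is closed under addition and negation) which
contains `X^2, Y^2, Z^2`; use `Subring.closure_le` and `Subring.topologicalClosure_minimal`. -/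
theorem ts_smul_mem (V : AddSubgroup (QO T X Y Z)) (hV : IsClosed (V : Set (QO T X Y Z)))
    (h : ∀ v ∈ V, X ^ 2 • v ∈ V ∧ Y ^ 2 • v ∈ V ∧ Z ^ 2 • v ∈ V) :
    ∀ t ∈ Ts X Y Z, ∀ v ∈ V, t • v ∈ V := by
  let S : Subring T :=
    { carrier := {t | ∀ v ∈ V, t • v ∈ V}
      mul_mem' := fun {s t} hs ht v hv => by
        rw [mul_smul]
        exact hs _ (ht v hv)
      one_mem' := fun v hv => by
        rw [one_smul]
        exact hv
      add_mem' := fun {s t} hs ht v hv => by
        rw [add_smul]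
        exact V.add_mem (hs v hv) (ht v hv)
      zero_mem' := fun v _ => by
        rw [zero_smul]
        exact V.zero_mem
      neg_mem' := fun {t} ht v hv => by
        rw [neg_smul]
        exact V.neg_mem (ht v hv) }
  have hS : IsClosed (S : Set T) := by
    have hEq : (S : Set T) = ⋂ v ∈ V, (fun t : T => t • v) ⁻¹' (V : Set (QO T X Y Z)) := by
      ext t
      simp only [Set.mem_iInter, Set.mem_preimage, SetLike.mem_coe]
      rfl
    rw [hEq]
    refine isClosed_biInter fun v _ => ?_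
    exact hV.preimage (continuous_id.smul continuous_const)
  have hle : Subring.closure {X ^ 2, Y ^ 2, Z ^ 2} ≤ S := by
    rw [Subring.closure_le]
    rintro t (rfl | rfl | rfl)
    · exact fun v hv => (h v hv).1
    · exact fun v hv => (h v hv).2.1
    · exact fun v hv => (h v hv).2.2
  have hle2 : Ts X Y Z ≤ S := Subring.topologicalClosure_minimal _ hle hS
  exact fun t ht v hv => hle2 ht v hv

/-- PROOF. `QO T X Y Z` is isomorphic to `T × T × T × T` as a `T`-module, so as a module over the subring. -/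
theorem noeth_QO (h : IsNoetherian (Ts X Y Z) T) : IsNoetherian (Ts X Y Z) (QO T X Y Z) := by
  let E : (T × T × T × T) ≃ₗ[Ts X Y Z] QO T X Y Z :=
    { toFun := fun p => ⟨p.1, p.2.1, p.2.2.1, p.2.2.2⟩
      invFun := fun x => (x.c0, x.c1, x.c2, x.c3)
      map_add' := fun _ _ => rfl
      map_smul' := fun _ _ => rfl
      left_inv := fun _ => rfl
      right_inv := fun _ => rfl }
  exact isNoetherian_of_linearEquiv E

variable {G : Type u} [Group G] [TopologicalSpace G] (C : Core G T X Y Z)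

/-- PROOF. Preimage of the closed set of `isClosed_dv` under the continuous map `g ↦ j g - 1`. -/
theorem Core.N_closed [T2Space T] [CompactSpace T] (c : T) : IsClosed (C.N c : Set G) := by
  have h : (C.N c : Set G) = (fun g => C.j g - 1) ⁻¹' {x : QO T X Y Z | Dv c x} := rfl
  rw [h]
  exact (isClosed_dv c).preimage (C.cont.sub continuous_const)

/-- PROOF. `eq_zero_of_dv` and `C.inj`. -/
theorem Core.eq_one_of_N [T2Space T] [IsLinearTopology T T] {c : T} (hc : IsTopologicallyNilpotent c)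
    {g : G} (h : ∀ n : ℕ, g ∈ C.N (c ^ n)) : g = 1 := by
  have h0 : C.j g - 1 = 0 := eq_zero_of_dv hc h
  apply C.inj
  rw [map_one]
  exact sub_eq_zero.1 h0

variable [IsTopologicalGroup G]

omit [IsTopologicalRing T] in
theorem Core.eq_one_of_sq (hG : GP G) {g : G} (h : C.j g * C.j g = -1) : g = 1 := by
  apply hG.tors
  apply hG.tors
  apply C.inj
  rw [map_mul, map_mul, h, map_one, neg_mul_neg, one_mul]

include C in
/-- PROOF. If `X = 0` then `a ^ 4 = 1` in `G` (`QO.ga ^ 2 = X • QO.ga - 1`, injectivity of `j`), so `a = 1` by `GP.tors` (twice), and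
`QO.ga = 1`, which is false (coordinate `c1`, `T` is nontrivial). The same for `Y` with `b` and for `Z` with `a b` (`(ab)^2 = Z ab - 1`). -/
theorem Core.X_ne [Nontrivial T] (hG : GP G) : X ≠ 0 ∧ Y ≠ 0 ∧ Z ≠ 0 := by
  refine ⟨fun h0 => ?_, fun h0 => ?_, fun h0 => ?_⟩
  · have h1 : C.j C.a * C.j C.a = -1 := by
      rw [C.ja]
      refine QO.ext ?_ ?_ ?_ ?_ <;> simp [h0]
    have h2 := C.eq_one_of_sq hG h1
    have h3 : QO.ga X Y Z = 1 := by rw [← C.ja, h2, map_one]
    have h4 := congrArg QO.c1 h3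
    simp at h4
  · have h1 : C.j C.b * C.j C.b = -1 := by
      rw [C.jb]
      refine QO.ext ?_ ?_ ?_ ?_ <;> simp [h0]
    have h2 := C.eq_one_of_sq hG h1
    have h3 : QO.gb X Y Z = 1 := by rw [← C.jb, h2, map_one]
    have h4 := congrArg QO.c2 h3
    simp at h4
  · have h1 : C.j (C.a * C.b) * C.j (C.a * C.b) = -1 := by
      rw [map_mul, C.ja, C.jb]
      refine QO.ext ?_ ?_ ?_ ?_ <;> simp [h0]
    have h2 := C.eq_one_of_sq hG h1
    have h3 : QO.ga X Y Z * QO.gb X Y Z = 1 := by rw [← C.ja, ← C.jb, ← map_mul, h2, map_one]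
    have h4 := congrArg QO.c3 h3
    simp at h4

/-- PROOF. `a b ≠ b a`: otherwise `QO.ga * QO.gb = QO.gb * QO.ga`, but `(QO.gb * QO.ga).c2 = X ≠ 0` and `(QO.ga * QO.gb).c2 = 0`. -/
theorem Core.ab_ne [Nontrivial T] (hG : GP G) : C.a * C.b ≠ C.b * C.a := by
  intro h
  have h1 : QO.ga X Y Z * QO.gb X Y Z = QO.gb X Y Z * QO.ga X Y Z := by
    rw [← C.ja, ← C.jb, ← map_mul, ← map_mul, h]
  have h2 := congrArg QO.c2 h1
  simp at h2
  exact (C.X_ne hG).1 h2.symm

/-- PROOF. `C.N c` is a normal subgroup and `≠ ⊥` (`N_ne_bot`). If it were commutative then by `GP.ncn` (with `M = N = C.N c`) `G` would be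
commutative, against `ab_ne`. -/
theorem Core.N_nc [Nontrivial T] (hG : GP G) {c : T} (hc : c ≠ 0) : ∃ x ∈ C.N c, ∃ y ∈ C.N c, x * y ≠ y * x := by
  by_contra hcon
  push Not at hcon
  exact C.ab_ne hG (hG.ncn (C.N c) (C.N c) (C.N_normal c) (C.N_normal c) (C.N_ne_bot hc)
    (C.N_ne_bot hc) hcon C.a C.b)

end

end MP35
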