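import Pool.Agent.Lib_MP_3538b5.CLem

/-! # Piece C0A: leading vectors -/

set_option autoImplicit false

namespace MP35

universe u v w

section

variable {G : Type u} [Group G] [TopologicalSpace G] {T : Type v} [CommRing T]
    [TopologicalSpace T] {X Y Z : T} (C : Core G T X Y Z)

/-- the leading vectors `x` of the elements `1 + s x` of `G`, modulo `r` -/
def Core.V (s r : T) : Set (QO T X Y Z) := {x | ∃ (g : G) (z : QO T X Y Z), C.j g = 1 + s • (x + r • z)}

/-- PROOF. If `j g = 1 + s (x + r z)`, `j h = 1 + s (y + r z')` and `s = r e`, then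
`j (g h) = 1 + s (x + y + r (z + z' + e (x + r z) (y + r z')))`. -/
theorem Core.V_add {s r : T} (hrs : r ∣ s) {x y : QO T X Y Z} (hx : x ∈ C.V s r) (hy : y ∈ C.V s r) :
    x + y ∈ C.V s r := by
  obtain ⟨g, z, hg⟩ := hx
  obtain ⟨h, z', hh⟩ := hy
  obtain ⟨e, rfl⟩ := hrs
  refine ⟨g * h, z + z' + e • ((x + r • z) * (y + r • z')), ?_⟩
  rw [map_mul, hg, hh]
  simp only [add_mul, mul_add, one_mul, mul_one, smul_mul_assoc, mul_smul_comm, smul_add, smul_smul]
  module

/-- PROOF. `j g = 1 + s x'`, `x' = x + r z`: `j g⁻¹ = 1 - s x' j g⁻¹ = 1 - s x' + s² x' x' j g⁻¹`. -/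
theorem Core.V_neg {s r : T} (hrs : r ∣ s) {x : QO T X Y Z} (hx : x ∈ C.V s r) : -x ∈ C.V s r := by
  obtain ⟨g, z, hg⟩ := hx
  obtain ⟨e, rfl⟩ := hrs
  refine ⟨g⁻¹, -z + e • ((x + r • z) * (x + r • z) * C.j g⁻¹), ?_⟩
  have h1 : C.j g * C.j g⁻¹ = 1 := by rw [← map_mul, mul_inv_cancel, map_one]
  obtain ⟨u, hu⟩ : ∃ u, C.j g⁻¹ = u := ⟨_, rfl⟩
  obtain ⟨x', hx'⟩ : ∃ x', x + r • z = x' := ⟨_, rfl⟩
  rw [hg, hx', hu] at h1
  rw [hu, hx']
  have h2 : u = 1 - (r * e) • (x' * u) := by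
    rw [add_mul, one_mul, smul_mul_assoc] at h1
    rw [← h1]
    abel
  have h3 : x' * u = x' - (r * e) • (x' * x' * u) := by
    conv_lhs => rw [h2]
    rw [mul_sub, mul_one, mul_smul_comm, mul_assoc]
  have h4 : -x + r • (-z + e • (x' * x' * u)) = -x' + (r * e) • (x' * x' * u) := by
    rw [← hx']
    module
  rw [h4]
  conv_lhs => rw [h2, h3]
  module

/-- PROOF. `g = 1`: `1 = 1 + s (r z + r (-z))`. -/
theorem Core.V_smul (s r : T) (z : QO T X Y Z) : r • z ∈ C.V s r := by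
  refine ⟨1, -z, ?_⟩
  rw [map_one, ← smul_add, add_neg_cancel, smul_zero, smul_zero, add_zero]

/-- PROOF. Conjugate the equation with `j h` (`(j h).cj = j h⁻¹`, `Core.j_inv`). -/
theorem Core.V_conj {s r : T} {x : QO T X Y Z} (hx : x ∈ C.V s r) (h : G) :
    C.j h * x * (C.j h).cj ∈ C.V s r := by
  obtain ⟨g, z, hg⟩ := hx
  refine ⟨h * g * h⁻¹, C.j h * z * (C.j h).cj, ?_⟩
  have h1 := C.mul_cj h
  rw [map_mul, map_mul, C.j_inv, hg, mul_add, add_mul, mul_one, h1, mul_smul_comm, smul_mul_assoc,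
    mul_add, add_mul, mul_smul_comm, smul_mul_assoc]

/-- PROOF. The projection to `x` of the closed set `{(x, g, z) | j g = 1 + s (x + r z)}` of the compact space `QO × G × QO`. -/
theorem Core.V_closed [IsTopologicalRing T] [CompactSpace T] [T2Space T] [CompactSpace G] (s r : T) :
    IsClosed (C.V s r) := by
  have h1 : IsClosed {p : QO T X Y Z × (G × QO T X Y Z) |
      C.j p.2.1 = 1 + s • (p.1 + r • p.2.2)} := by
    refine isClosed_eq (C.cont.comp (continuous_fst.comp continuous_snd)) ?_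
    have h2 : Continuous (fun p : QO T X Y Z × (G × QO T X Y Z) => p.1) := continuous_fst
    have h3 : Continuous (fun p : QO T X Y Z × (G × QO T X Y Z) => p.2.2) :=
      continuous_snd.comp continuous_snd
    exact continuous_const.add ((h2.add (h3.const_smul r)).const_smul s)
  have h4 : C.V s r = Prod.fst '' {p : QO T X Y Z × (G × QO T X Y Z) |
      C.j p.2.1 = 1 + s • (p.1 + r • p.2.2)} := by
    ext x
    constructor
    · rintro ⟨g, z, h⟩
      exact ⟨(x, (g, z)), h, rfl⟩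
    · rintro ⟨⟨x', g, z⟩, h, rfl⟩
      exact ⟨g, z, h⟩
  rw [h4]
  exact isClosedMap_fst_of_compactSpace _ h1

/-- the leading vectors as an additive subgroup -/
def Core.Vg {s r : T} (hrs : r ∣ s) : AddSubgroup (QO T X Y Z) where
  carrier := C.V s r
  add_mem' := C.V_add hrs
  zero_mem' := by
    have := C.V_smul s r 0
    rwa [smul_zero] at this
  neg_mem' := C.V_neg hrs

end

end MP35
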