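import Pool.Agent.Lib_MP_3538b5.Core0A

/-! # Piece C0B: the module structure -/

set_option autoImplicit false

namespace MP35

universe u v w

section

variable {G : Type u} [Group G] [TopologicalSpace G] {T : Type v} [CommRing T]
    [TopologicalSpace T] [IsTopologicalRing T] {X Y Z : T} (C : Core G T X Y Z)

omit [TopologicalSpace T] [IsTopologicalRing T] in
theorem c0b_trsq (g : QO T X Y Z) : (g * g).tr = g.tr ^ 2 - 2 * g.nm := by
  simp [QO.tr, QO.nm]; ring

omit [IsTopologicalRing T] in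
theorem c0b_key (k h : G) (w : QO T X Y Z) :
    (C.j k * C.j k).tr • QO.xop (C.j h) w =
      QO.xop (C.j (k⁻¹ * h * k)) (C.j k⁻¹ * w * (C.j k⁻¹).cj)
      + QO.xop (C.j h) (C.j k * w * (C.j k).cj) + QO.xop (C.j (k * h * k⁻¹)) w
      - QO.xop (C.j h) w := by
  have hs := QO.star_eq (C.j k) (C.j h) w
  rw [C.norm, one_smul] at hs
  have hg1 : C.j k * C.j k⁻¹ = 1 := by rw [← map_mul, mul_inv_cancel, map_one]
  have hg2 : C.j k⁻¹ * C.j k = 1 := by rw [← map_mul, inv_mul_cancel, map_one]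
  have hcj : (C.j k).cj = C.j k⁻¹ := (C.j_inv k).symm
  have hcj2 : (C.j k⁻¹).cj = C.j k := by rw [← hcj, QO.cj_cj]
  have t1 : (C.j (k⁻¹ * h * k)).tr = (C.j h).tr := by
    rw [map_mul, map_mul, QO.tr_mul_comm, ← mul_assoc, hg1, one_mul]
  have t2 : (C.j (k * h * k⁻¹)).tr = (C.j h).tr := by
    rw [map_mul, map_mul, QO.tr_mul_comm, ← mul_assoc, hg2, one_mul]
  have e1 : C.j (k⁻¹ * h * k) * (C.j k⁻¹ * w * (C.j k⁻¹).cj)
      - (C.j k⁻¹ * w * (C.j k⁻¹).cj) * C.j (k⁻¹ * h * k)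
      = (C.j k).cj * (C.j h * w - w * C.j h) * C.j k := by
    rw [hcj2, hcj, map_mul, map_mul]
    have h1 : ∀ z, C.j k * (C.j k⁻¹ * z) = z := fun z => by rw [← mul_assoc, hg1, one_mul]
    simp only [mul_sub, sub_mul, mul_assoc, h1]
  have e3 : C.j (k * h * k⁻¹) = C.j k * C.j h * (C.j k).cj := by
    rw [hcj, map_mul, map_mul]
  simp only [QO.xop, QO.xh_eq]
  rw [t1, t2, smul_comm, hs, e1, e3, smul_sub, smul_add, smul_add]

omit [IsTopologicalRing T] in
theorem c0b_gen (A : AddSubgroup (QO T X Y Z))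
    (hconj : ∀ (h : G), ∀ x ∈ A, C.j h * x * (C.j h).cj ∈ A) (h : G) (w : QO T X Y Z)
    (hw : w ∈ A) : QO.xop (C.j h) w ∈ A := by
  have h1 := hconj h w hw
  have h2 := hconj h⁻¹ w hw
  have h3 : (C.j h).cj = C.j h⁻¹ := (C.j_inv h).symm
  have h4 : (C.j h⁻¹).cj = C.j h := by rw [← h3, QO.cj_cj]
  rw [h4] at h2
  unfold QO.xop
  rw [h3] at h1 ⊢
  exact A.sub_mem h1 h2


/-- PROOF. Let `U0` be the additive subgroup generated by the elements `xop (j h) w` (`h ∈ G`, `w ∈ A`) and `U` its topological closure. `U ≤ A`: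
`xop (j h) w = j h * w * (j h).cj - (j h⁻¹) * w * (j h⁻¹).cj` and `A` is closed. For `g, h ∈ G`, `w ∈ A` (write `g, h` for `j g, j h`; `nm g = 1`): multiply
`QO.star_eq` by `tr h = tr (ḡ h g) = tr (g h ḡ)` and use `QO.xh_eq` (`xop h w = tr h • (h w - w h)`):
`tr (g g) • xop h w = xop (ḡ h g) (ḡ w g) + xop h (g w ḡ) + xop (g h ḡ) w - xop h w`. So `U0`, and then `U`, is stable under multiplication with
`tr (g g) = (tr g)^2 - 2` and so with `(tr g)^2` for `g ∈ G`. For `g = a, b, a b` the traces are `X, Y, Z`. Now use `ts_smul_mem` for `U`. -/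
theorem xop_ts (A : AddSubgroup (QO T X Y Z)) (hA : IsClosed (A : Set (QO T X Y Z)))
    (hconj : ∀ (h : G), ∀ x ∈ A, C.j h * x * (C.j h).cj ∈ A) :
    ∀ t ∈ Ts X Y Z, ∀ (h : G), ∀ w ∈ A, t • QO.xop (C.j h) w ∈ A := by
  let S : Set (QO T X Y Z) := {x | ∃ (h : G) (w : QO T X Y Z), w ∈ A ∧ x = QO.xop (C.j h) w}
  let U0 : AddSubgroup (QO T X Y Z) := AddSubgroup.closure S
  have hU0A : U0 ≤ A := by
    refine (AddSubgroup.closure_le A).2 ?_
    rintro x ⟨h, w, hw, rfl⟩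
    exact c0b_gen C A hconj h w hw
  have hUA : U0.topologicalClosure ≤ A := AddSubgroup.topologicalClosure_minimal _ hU0A hA
  have hmem : ∀ (h : G) (w : QO T X Y Z), w ∈ A → QO.xop (C.j h) w ∈ U0 := fun h w hw =>
    AddSubgroup.subset_closure ⟨h, w, hw, rfl⟩
  have hgg : ∀ (k : G), ∀ v ∈ U0, (C.j k * C.j k).tr • v ∈ U0 := by
    intro k v hv
    refine AddSubgroup.closure_induction (p := fun v _ => (C.j k * C.j k).tr • v ∈ U0)
      ?_ ?_ ?_ ?_ hv
    · rintro x ⟨h, w, hw, rfl⟩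
      rw [c0b_key C k h w]
      have w1 := hconj k⁻¹ w hw
      have w2 := hconj k w hw
      exact U0.sub_mem (U0.add_mem (U0.add_mem (hmem _ _ w1) (hmem _ _ w2)) (hmem _ _ hw))
        (hmem _ _ hw)
    · rw [smul_zero]
      exact U0.zero_mem
    · intro x y _ _ hx hy
      rw [smul_add]
      exact U0.add_mem hx hy
    · intro x _ hx
      rw [smul_neg]
      exact U0.neg_mem hx
  have hsq : ∀ (k : G), ∀ v ∈ U0.topologicalClosure, (C.j k).tr ^ 2 • v ∈ U0.topologicalClosure := by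
    intro k v hv
    have h1 : (C.j k).tr ^ 2 = (C.j k * C.j k).tr + 2 := by
      rw [c0b_trsq, C.norm]
      ring
    have h2 : (C.j k * C.j k).tr • v ∈ U0.topologicalClosure := by
      have hc : Continuous (fun v : QO T X Y Z => (C.j k * C.j k).tr • v) :=
        continuous_const_smul _
      exact map_mem_closure hc hv (fun z hz => hgg k z hz)
    rw [h1, add_smul, two_smul]
    exact AddSubgroup.add_mem _ h2 (AddSubgroup.add_mem _ hv hv)
  have key := ts_smul_mem U0.topologicalClosure (AddSubgroup.isClosed_topologicalClosure U0)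
    (fun v hv => by
      have hX := hsq C.a v hv
      have hY := hsq C.b v hv
      have hZ := hsq (C.a * C.b) v hv
      rw [C.ja, QO.tr_ga] at hX
      rw [C.jb, QO.tr_gb] at hY
      rw [map_mul, C.ja, C.jb, QO.tr_gab] at hZ
      exact ⟨hX, hY, hZ⟩)
  intro t ht h w hw
  exact hUA (key t ht _ (U0.le_topologicalClosure (hmem h w hw)))

/-- PROOF. By `QO.alt_eq` the element is `t` times a sum of six terms `± xop (j h) w'` with `h ∈ {a, b, a b}` and
`w' = xop (j h') (xop (j h'') w) ∈ A`; use `xop_ts` for each (first with `t = 1` to see that `w' ∈ A`). -/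
theorem alt_ts (A : AddSubgroup (QO T X Y Z)) (hA : IsClosed (A : Set (QO T X Y Z)))
    (hconj : ∀ (h : G), ∀ x ∈ A, C.j h * x * (C.j h).cj ∈ A) :
    ∀ t ∈ Ts X Y Z, ∀ w ∈ A, t • ((4 * X * Y * Z * QO.nu X Y Z) • w
      - (2 * X * Y * Z * QO.nu X Y Z * w.tr) • (1 : QO T X Y Z)) ∈ A := by
  have h0 := xop_ts C A hA hconj
  intro t ht w hw
  have h1 : ∀ (h : G), ∀ w ∈ A, QO.xop (C.j h) w ∈ A := fun h w hw => c0b_gen C A hconj h w hw
  rw [← QO.alt_eq w, ← C.ja, ← C.jb, ← map_mul]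
  simp only [smul_sub, smul_add]
  have h3 : ∀ (h1' h2' h3' : G), t • QO.xop (C.j h1') (QO.xop (C.j h2') (QO.xop (C.j h3') w)) ∈ A :=
    fun a b c => h0 t ht a _ (h1 b _ (h1 c _ hw))
  exact A.sub_mem (A.add_mem (A.add_mem (A.sub_mem (A.sub_mem (h3 _ _ _) (h3 _ _ _)) (h3 _ _ _))
    (h3 _ _ _)) (h3 _ _ _)) (h3 _ _ _)

end

end MP35
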