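import Pool.Agent.Lib_MP_3538b5.Core0B

/-! # Piece C0C: the increasing family of leading modules -/

set_option autoImplicit false

namespace MP35

universe u v w

/-- the constant `c = 4 X Y Z nu` -/
def cc {T : Type v} [CommRing T] (X Y Z : T) : T := 4 * X * Y * Z * QO.nu X Y Z

section

variable {G : Type u} [Group G] [TopologicalSpace G] [CompactSpace G] {T : Type v} [CommRing T] [IsDomain T]
    [TopologicalSpace T] [IsTopologicalRing T] [CompactSpace T] [T2Space T] {X Y Z : T}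
    (C : Core G T X Y Z)

/-- PROOF. Write `c = cc X Y Z`. There are `g, z` with `j g = 1 + s x'`, `x' = x + c z`. From the norm (`QO.nm_add_smul`, `nm (j g) = 1`): `s tr x' + s² nm x' = 0`, so
`tr x' = - s nm x'` is divisible by `s`, so by `c²`. `x' ∈ V s (c²)`; apply `alt_ts` to the closed `Ad`-stable subgroup `A = Vg` for `(s, c²)`:
`t • (c • x') - (t 2XYZ nu tr x') • 1 ∈ V s (c²)`, and the second term is in `c² QO ⊆ V s (c²)` (`V_smul`). So `t c x' ∈ V s (c²)`: there are `g', z'` with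
`j g' = 1 + s (t c x' + c² z') = 1 + (s c) (t x' + c z') = 1 + (s c) (t x + c (t z + z'))`. -/
theorem V_step {s : T} (hs : s ≠ 0) (hcs : cc X Y Z ^ 2 ∣ s) {x : QO T X Y Z}
    (hx : x ∈ C.V s (cc X Y Z)) {t : T} (ht : t ∈ Ts X Y Z) : t • x ∈ C.V (s * cc X Y Z) (cc X Y Z) := by
  obtain ⟨g, z, hg⟩ := hx
  have hnm : s * ((x + cc X Y Z • z).tr + s * (x + cc X Y Z • z).nm) = 0 := by
    have h1 := C.norm g
    have h2 := QO.nm_add_smul (X := X) (Y := Y) (Z := Z) 1 s (x + cc X Y Z • z)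
    rw [one_smul, ← hg, h1] at h2
    linear_combination -h2
  have htr : (x + cc X Y Z • z).tr = -(s * (x + cc X Y Z • z).nm) :=
    eq_neg_of_add_eq_zero_left ((mul_eq_zero.1 hnm).resolve_left hs)
  have hx' : x + cc X Y Z • z ∈ C.V s (cc X Y Z ^ 2) := ⟨g, 0, by rw [smul_zero, add_zero]; exact hg⟩
  have hA := alt_ts C (C.Vg hcs) (C.V_closed s (cc X Y Z ^ 2))
    (fun h y hy => C.V_conj hy h) t ht (x + cc X Y Z • z) hx'
  obtain ⟨e, he⟩ := hcs
  have hB : cc X Y Z ^ 2 • ((t * (2 * X * Y * Z * QO.nu X Y Z) * (-(e * (x + cc X Y Z • z).nm))) •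
      (1 : QO T X Y Z)) ∈ C.V s (cc X Y Z ^ 2) := C.V_smul s _ _
  have hAB : t • (cc X Y Z • (x + cc X Y Z • z)) ∈ C.V s (cc X Y Z ^ 2) := by
    have h3 := C.V_add ⟨e, he⟩ hA hB
    have h4 : t • ((4 * X * Y * Z * QO.nu X Y Z) • (x + cc X Y Z • z)
        - (2 * X * Y * Z * QO.nu X Y Z * (x + cc X Y Z • z).tr) • (1 : QO T X Y Z)) +
        cc X Y Z ^ 2 • ((t * (2 * X * Y * Z * QO.nu X Y Z) * (-(e * (x + cc X Y Z • z).nm))) •
          (1 : QO T X Y Z)) = t • (cc X Y Z • (x + cc X Y Z • z)) := by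
      rw [htr, smul_sub, smul_smul (cc X Y Z ^ 2), smul_smul t, smul_smul t, smul_smul t]
      have h5 : t * (2 * X * Y * Z * QO.nu X Y Z * -(s * (x + cc X Y Z • z).nm)) =
          cc X Y Z ^ 2 * (t * (2 * X * Y * Z * QO.nu X Y Z) * -(e * (x + cc X Y Z • z).nm)) := by
        rw [he]
        ring
      rw [h5, sub_add_cancel]
      rfl
    rwa [h4] at h3
  obtain ⟨g', z', hg'⟩ := hAB
  refine ⟨g', t • z + z', ?_⟩
  rw [hg']
  congr 1
  rw [mul_smul]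
  congr 1
  module

omit [CompactSpace G] [IsDomain T] [IsTopologicalRing T] [CompactSpace T] [T2Space T] in
/-- PROOF. `j g = 1 + s y`, `y = x + c z`, `s = 2 c e`: `j (g²) = 1 + 2 s y + s² y² = 1 + 2 s (y + c e y²) = 1 + 2 s (x + c (z + e y²))`. -/
theorem V_sq {s : T} (hcs : 2 * cc X Y Z ∣ s) {x : QO T X Y Z} (hx : x ∈ C.V s (cc X Y Z)) :
    x ∈ C.V (2 * s) (cc X Y Z) := by
  obtain ⟨g, z, hg⟩ := hx
  obtain ⟨e, he⟩ := hcs
  refine ⟨g * g, z + e • ((x + cc X Y Z • z) * (x + cc X Y Z • z)), ?_⟩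
  rw [map_mul, hg]
  set y := x + cc X Y Z • z with hy
  have h1 : (1 + s • y) * (1 + s • y) = 1 + (2 * s) • y + (s * s) • (y * y) := by
    have h0 : ∀ u : QO T X Y Z, (1 + u) * (1 + u) = 1 + (u + u) + u * u := by
      intro u
      noncomm_ring
    rw [h0, smul_mul_smul_comm, two_mul, add_smul]
  have h2 : x + cc X Y Z • (z + e • (y * y)) = y + (cc X Y Z * e) • (y * y) := by
    rw [smul_add, smul_smul, ← add_assoc, ← hy]
  have h3 : s * s = 2 * s * (cc X Y Z * e) := by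
    rw [he]
    ring
  rw [h1, h2, smul_add (2 * s) y, smul_smul (2 * s), add_assoc, h3]

/-- PROOF. Write `V i k = V (2^i c^k) c` (additive subgroups for `k ≥ 1`). For `i ≥ 2`, `k ≥ 2`: `V i k ⊆ V i (k+1)` and `V i k ⊆ V (i+1) k` (`V_step` with `t = 1`; `V_sq`), and
`t • V i k ⊆ V i (k+1)` for `t ∈ Ts`. Let `M n` (`n ≥ 2`) be the `Ts`-submodule of `QO T X Y Z` spanned by `V n n`. Then
`V n n ⊆ M n ⊆ V n (n+1) ⊆ V (n+1) (n+1) ⊆ M (n+1)`. `QO T X Y Z` is a noetherian `Ts`-module (`noeth_QO`), so `M n = M n0` for `n ≥ n0` (`n0 ≥ 2`;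
`monotone_stabilizes_iff_noetherian`). Let `n = n0 + 1`. For `i, k ≥ n` and `m = max i k`: `V i k ⊆ V m m ⊆ M m = M n0 ⊆ V (n0+1) (n0+1) = V n n ⊆ V i k`. -/
theorem V_stab (h2 : (2 : T) ≠ 0) (hc : cc X Y Z ≠ 0) (hN : IsNoetherian (Ts X Y Z) T) :
    ∃ n : ℕ, 2 ≤ n ∧ ∀ i k : ℕ, n ≤ i → n ≤ k →
      C.V (2 ^ i * cc X Y Z ^ k) (cc X Y Z) = C.V (2 ^ n * cc X Y Z ^ n) (cc X Y Z) := by
  have hV : ∀ i k : ℕ, (2 : T) ^ i * cc X Y Z ^ k ≠ 0 := fun i k =>
    mul_ne_zero (pow_ne_zero _ h2) (pow_ne_zero _ hc)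
  -- the step in `k` with scalars
  have F1 : ∀ i k : ℕ, 2 ≤ k → ∀ x ∈ C.V (2 ^ i * cc X Y Z ^ k) (cc X Y Z), ∀ t ∈ Ts X Y Z,
      t • x ∈ C.V (2 ^ i * cc X Y Z ^ (k + 1)) (cc X Y Z) := by
    intro i k hk x hx t ht
    have h := V_step C (hV i k) (Dvd.dvd.mul_left (pow_dvd_pow _ hk) _) hx ht
    rwa [mul_assoc, ← pow_succ] at h
  have F1' : ∀ i k : ℕ, 2 ≤ k → C.V (2 ^ i * cc X Y Z ^ k) (cc X Y Z) ⊆
      C.V (2 ^ i * cc X Y Z ^ (k + 1)) (cc X Y Z) := by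
    intro i k hk x hx
    have h := F1 i k hk x hx 1 (one_mem _)
    rwa [one_smul] at h
  have F2 : ∀ i k : ℕ, 1 ≤ i → 1 ≤ k → C.V (2 ^ i * cc X Y Z ^ k) (cc X Y Z) ⊆
      C.V (2 ^ (i + 1) * cc X Y Z ^ k) (cc X Y Z) := by
    intro i k hi hk x hx
    have hd : 2 * cc X Y Z ∣ 2 ^ i * cc X Y Z ^ k :=
      mul_dvd_mul (dvd_pow_self 2 (by omega)) (dvd_pow_self _ (by omega))
    have h := V_sq C hd hx
    rwa [← mul_assoc, ← pow_succ'] at h
  have G1 : ∀ i k k' : ℕ, 2 ≤ k → k ≤ k' → C.V (2 ^ i * cc X Y Z ^ k) (cc X Y Z) ⊆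
      C.V (2 ^ i * cc X Y Z ^ k') (cc X Y Z) := by
    intro i k k' hk hkk
    induction k', hkk using Nat.le_induction with
    | base => exact subset_rfl
    | succ m hm ih => exact ih.trans (F1' i m (hk.trans hm))
  have G2 : ∀ i i' k : ℕ, 1 ≤ i → 1 ≤ k → i ≤ i' → C.V (2 ^ i * cc X Y Z ^ k) (cc X Y Z) ⊆
      C.V (2 ^ i' * cc X Y Z ^ k) (cc X Y Z) := by
    intro i i' k hi hk hii
    induction i', hii using Nat.le_induction with
    | base => exact subset_rfl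
    | succ m hm ih => exact ih.trans (F2 m k (hi.trans hm) hk)
  have G : ∀ i k i' k' : ℕ, 2 ≤ i → 2 ≤ k → i ≤ i' → k ≤ k' →
      C.V (2 ^ i * cc X Y Z ^ k) (cc X Y Z) ⊆ C.V (2 ^ i' * cc X Y Z ^ k') (cc X Y Z) :=
    fun i k i' k' hi hk hii hkk => (G1 i k k' hk hkk).trans
      (G2 i i' k' (by omega) (by omega) hii)
  let M : ℕ → Submodule (Ts X Y Z) (QO T X Y Z) := fun n =>
    Submodule.span (Ts X Y Z) (C.V (2 ^ n * cc X Y Z ^ n) (cc X Y Z))
  have hM1 : ∀ n : ℕ, C.V (2 ^ n * cc X Y Z ^ n) (cc X Y Z) ⊆ M n := fun n => Submodule.subset_span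
  have hM2 : ∀ n : ℕ, 2 ≤ n → ∀ x ∈ M n, x ∈ C.V (2 ^ n * cc X Y Z ^ (n + 1)) (cc X Y Z) := by
    intro n hn x hx
    have hd : cc X Y Z ∣ 2 ^ n * cc X Y Z ^ (n + 1) :=
      Dvd.dvd.mul_left (dvd_pow_self _ (by omega)) _
    have hx2 : x ∈ Submodule.span (Ts X Y Z) (C.V (2 ^ n * cc X Y Z ^ n) (cc X Y Z)) := hx
    clear hx
    induction hx2 using Submodule.closure_induction with
    | zero =>
      have := C.V_smul (2 ^ n * cc X Y Z ^ (n + 1)) (cc X Y Z) 0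
      rwa [smul_zero] at this
    | add x y hx hy h1 h2 => exact C.V_add hd h1 h2
    | smul_mem r x h => exact F1 n n hn x h r.1 r.2
  have hM3 : ∀ n : ℕ, 2 ≤ n → M n ≤ M (n + 1) := by
    intro n hn x hx
    exact hM1 (n + 1) (G2 n (n + 1) (n + 1) (by omega) (by omega) (by omega) (hM2 n hn x hx))
  let f : ℕ →o Submodule (Ts X Y Z) (QO T X Y Z) :=
    ⟨fun m => M (m + 2), monotone_nat_of_le_succ fun m => hM3 (m + 2) (by omega)⟩
  obtain ⟨N, hNs⟩ := monotone_stabilizes_iff_noetherian.2 (noeth_QO (X := X) (Y := Y) (Z := Z) hN) f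
  have hNs' : ∀ m, N + 2 ≤ m → M (N + 2) = M m := by
    intro m hm
    have := hNs (m - 2) (by omega)
    have e : m - 2 + 2 = m := by omega
    change M (N + 2) = M (m - 2 + 2) at this
    rwa [e] at this
  refine ⟨N + 3, by omega, fun i k hi hk => Set.Subset.antisymm ?_ ?_⟩
  · intro x hx
    have h1 := G i k (max i k) (max i k) (by omega) (by omega) (le_max_left _ _) (le_max_right _ _) hx
    have h2 := hM1 _ h1
    have h3 : x ∈ M (N + 2) := by
      rw [hNs' (max i k) (le_trans (by omega) (le_max_left i k))]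
      exact h2
    exact G2 (N + 2) (N + 3) (N + 3) (by omega) (by omega) (by omega) (hM2 (N + 2) (by omega) x h3)
  · exact G (N + 3) (N + 3) i k (by omega) (by omega) hi hk

end

end MP35
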