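import Pool.Agent.Lib_MP_3538b5.Core0C

/-! # Piece C0D: fourth powers, contradiction in characteristic zero -/

set_option autoImplicit false

namespace MP35

universe u v w

section

variable {G : Type u} [Group G] [TopologicalSpace G] [IsTopologicalGroup G] [CompactSpace G] [T2Space G]
    {T : Type v} [CommRing T] [IsDomain T]
    [TopologicalSpace T] [IsTopologicalRing T] [CompactSpace T] [T2Space T] {X Y Z : T}
    (C : Core G T X Y Z)

/-- PROOF. Write `c = cc X Y Z`, `P` for the subgroup generated by the `h ^ 4`, `h ∈ C.N (2^i c^k)`. Induction on `m ≥ k`. `m = k`: `p = 1`. Step: `g' = p⁻¹ g ∈ C.N (2^(i+2) c^m)`,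
`j g' = 1 + 2^(i+2) c^m x`, so `x ∈ V (2^(i+2) c^m) c = V (2^i c^m) c` by `hst` (both equal `V (2^n c^n) c`). So there are
`h ∈ G`, `z` with `j h = 1 + s y`, `s = 2^i c^m`, `y = x + c z`; `h ∈ C.N (2^i c^m) ≤ C.N (2^i c^k)`. Then `j (h^4) = 1 + 4 s y + 6 s² y² + 4 s³ y³ + s⁴ y⁴ = 1 + 4 s (y + c w)` for some
`w`, because `6 s² = 4 s · c · (3 · 2^(i-1) c^(m-1))`, `4 s³ = 4 s · s²`, `s⁴ = 4 s · 2^(3i-2) c^(3m)`. So `j g' - j (h^4) = 4 s (x - y - c w)` is divisible by `2^(i+2) c^(m+1)`, and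
`(h^4)⁻¹ g' ∈ C.N (2^(i+2) c^(m+1))`. Take `p' = p h^4`. -/
theorem fourth_approx {n : ℕ} (hn : 2 ≤ n) (hst : ∀ i k : ℕ, n ≤ i → n ≤ k →
      C.V (2 ^ i * cc X Y Z ^ k) (cc X Y Z) = C.V (2 ^ n * cc X Y Z ^ n) (cc X Y Z))
    {i k : ℕ} (hi : n ≤ i) (hk : n ≤ k) {g : G} (hg : g ∈ C.N (2 ^ (i + 2) * cc X Y Z ^ k)) (m : ℕ)
    (hm : k ≤ m) : ∃ p ∈ Subgroup.closure {z | ∃ h ∈ C.N (2 ^ i * cc X Y Z ^ k), z = h ^ 4},
      p⁻¹ * g ∈ C.N (2 ^ (i + 2) * cc X Y Z ^ m) := by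
  induction m, hm using Nat.le_induction with
  | base =>
    exact ⟨1, Subgroup.one_mem _, by rw [inv_one, one_mul]; exact hg⟩
  | succ m hm ih =>
    obtain ⟨p, hp, hpg⟩ := ih
    obtain ⟨i', rfl⟩ : ∃ i', i = i' + 2 := ⟨i - 2, by omega⟩
    obtain ⟨m', rfl⟩ : ∃ m', m = m' + 1 := ⟨m - 1, by omega⟩
    obtain ⟨e, rfl⟩ : ∃ e, k = e := ⟨k, rfl⟩
    rw [Core.mem_N] at hpg
    obtain ⟨x, hx⟩ := hpg
    have hxV : x ∈ C.V (2 ^ (i' + 2 + 2) * cc X Y Z ^ (m' + 1)) (cc X Y Z) := by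
      refine ⟨p⁻¹ * g, 0, ?_⟩
      rw [smul_zero, add_zero, ← hx]
      abel
    rw [hst (i' + 2 + 2) (m' + 1) (by omega) (by omega),
      ← hst (i' + 2) (m' + 1) (by omega) (by omega)] at hxV
    obtain ⟨h, z, hh⟩ := hxV
    set c := cc X Y Z with hcdef
    set S : T := 2 ^ (i' + 2) * c ^ (m' + 1) with hS
    refine ⟨p * h ^ 4, ?_, ?_⟩
    · refine Subgroup.mul_mem _ hp (Subgroup.subset_closure ⟨h, ?_, rfl⟩)
      rw [Core.mem_N]
      refine Dv.mono (c := S) ?_ ⟨x + c • z, ?_⟩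
      · exact mul_dvd_mul_left _ (pow_dvd_pow _ hm)
      · rw [hh]
        abel
    · rw [Core.mem_N]
      have e1 : (p * h ^ 4)⁻¹ * g = (h ^ 4)⁻¹ * (p⁻¹ * g) := by group
      have e2 : C.j ((h ^ 4)⁻¹ * (p⁻¹ * g)) - 1 =
          C.j (h ^ 4)⁻¹ * (C.j (p⁻¹ * g) - C.j (h ^ 4)) := by
        rw [mul_sub, ← map_mul, ← map_mul, inv_mul_cancel, map_one]
      rw [e1, e2]
      refine Dv.mul_left ?_ _
      have e3 : C.j (p⁻¹ * g) = 1 + (4 * S) • x := by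
        have : 2 ^ (i' + 2 + 2) * c ^ (m' + 1) = 4 * S := by rw [hS]; ring
        rw [this] at hx
        rw [← hx]
        abel
      have e4 : ∀ a : QO T X Y Z, (1 + a) ^ 4 =
          1 + (4 : ℕ) • a + (6 : ℕ) • a ^ 2 + (4 : ℕ) • a ^ 3 + a ^ 4 := by
        intro a
        noncomm_ring
      rw [map_pow, hh, e3, e4]
      have e5 : 2 ^ (i' + 2 + 2) * c ^ (m' + 1 + 1) = 4 * S * c := by rw [hS]; ring
      rw [e5]
      generalize hy : x + c • z = y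
      have hx2 : x = y - c • z := by rw [← hy]; abel
      refine ⟨-z - (3 * 2 ^ (i' + 1) * c ^ m') • y ^ 2 - (S * 2 ^ (i' + 2) * c ^ m') • y ^ 3 -
        (2 ^ i' * c ^ m' * S ^ 2) • y ^ 4, ?_⟩
      rw [hx2, smul_pow, smul_pow, smul_pow]
      generalize y ^ 2 = y2
      generalize y ^ 3 = y3
      generalize y ^ 4 = y4
      have h6 : 6 * S ^ 2 = 4 * S * c * (3 * 2 ^ (i' + 1) * c ^ m') := by rw [hS]; ring
      have h4 : 4 * S ^ 3 = 4 * S * c * (S * 2 ^ (i' + 2) * c ^ m') := by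
        have : S ^ 3 = S * S * S := by ring
        rw [this]
        nth_rewrite 3 [hS]
        ring
      have h1 : S ^ 4 = 4 * S * c * (2 ^ i' * c ^ m' * S ^ 2) := by
        have : S ^ 4 = S ^ 2 * S * S := by ring
        rw [this]
        nth_rewrite 3 [hS]
        ring
      simp only [smul_sub, smul_neg, smul_smul]
      rw [← h6, ← h4, ← h1]
      module

/-- PROOF. Write `c = cc X Y Z`, `P` for the closure of the subgroup of `fourth_approx`. The sets `{p ∈ P | p⁻¹ g ∈ C.N (2^(i+2) c^m)}`, `m ≥ k`, are closed (`Core.N_closed`), nonempty and decreasing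
in the compact group `G`, so there is a common `p ∈ P`; `p⁻¹ g ∈ C.N (c^m)` for all `m ≥ k`, so `p⁻¹ g = 1` (`Core.eq_one_of_N`). -/
theorem fourth_mem [IsLinearTopology T T] (hc : IsTopologicallyNilpotent (cc X Y Z)) {n : ℕ} (hn : 2 ≤ n)
    (hst : ∀ i k : ℕ, n ≤ i → n ≤ k →
      C.V (2 ^ i * cc X Y Z ^ k) (cc X Y Z) = C.V (2 ^ n * cc X Y Z ^ n) (cc X Y Z))
    {i k : ℕ} (hi : n ≤ i) (hk : n ≤ k) {g : G} (hg : g ∈ C.N (2 ^ (i + 2) * cc X Y Z ^ k)) :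
    g ∈ (Subgroup.closure {z | ∃ h ∈ C.N (2 ^ i * cc X Y Z ^ k), z = h ^ 4}).topologicalClosure := by
  set c := cc X Y Z with hcdef
  set P : Subgroup G := Subgroup.closure {z | ∃ h ∈ C.N (2 ^ i * c ^ k), z = h ^ 4} with hP
  have hcl : ∀ m : ℕ, IsClosed {p : G | p ∈ P.topologicalClosure ∧
      p⁻¹ * g ∈ C.N (2 ^ (i + 2) * c ^ (k + m))} := by
    intro m
    have h1 : IsClosed (P.topologicalClosure : Set G) := P.isClosed_topologicalClosure
    have h2 : IsClosed ((fun p : G => p⁻¹ * g) ⁻¹' (C.N (2 ^ (i + 2) * c ^ (k + m)) : Set G)) :=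
      (C.N_closed _).preimage (continuous_inv.mul continuous_const)
    exact h1.inter h2
  have hne := IsCompact.nonempty_iInter_of_sequence_nonempty_isCompact_isClosed
    (fun m : ℕ => {p : G | p ∈ P.topologicalClosure ∧ p⁻¹ * g ∈ C.N (2 ^ (i + 2) * c ^ (k + m))})
    (fun m p hp => ⟨hp.1, Dv.mono (mul_dvd_mul_left _ (pow_dvd_pow _ (by omega))) hp.2⟩)
    (fun m => by
      obtain ⟨p, hp, hpg⟩ := fourth_approx C hn hst hi hk hg (k + m) (by omega)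
      exact ⟨p, P.le_topologicalClosure hp, hpg⟩)
    (hcl 0).isCompact hcl
  obtain ⟨p, hp⟩ := hne
  rw [Set.mem_iInter] at hp
  have h1 : p⁻¹ * g = 1 := by
    refine C.eq_one_of_N hc fun m => ?_
    exact Dv.mono (Dvd.dvd.mul_left (pow_dvd_pow _ (by omega)) _) (hp m).2
  have h2 : g = p := by
    have := congrArg (fun x => p * x) h1
    simpa using this
  rw [h2]
  exact (hp 0).1

include C in
/-- PROOF. `c = cc X Y Z ≠ 0` (`Core.X_ne`, `C.nu`, `2 ≠ 0`, domain) is topologically nilpotent (a multiple of `X`; `IsTopologicallyNilpotent.mul_left`). Take `n` from `V_stab` (`hT.noeth`) and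
`H = C.N (2^n c^n)`, a closed subgroup. For `x, y ∈ H`: `x y x⁻¹ y⁻¹ ∈ C.N (2^(2n) c^(2n))` (`j x = 1 + s u`, `j y = 1 + s v`, `j (x y) - j (y x) = s² (u v - v u)`), which is contained in
`C.N (2^(n+2) c^n)` as `n ≥ 2`, so `x y x⁻¹ y⁻¹ ∈ closure of the 4th powers` by `fourth_mem`. By `GP.four` `H` is commutative: contradiction to `Core.N_nc`. -/
theorem core0_false [IsLinearTopology T T] (hG : GP G) (hT : TOK X Y Z) (h2 : (2 : T) ≠ 0) : False := by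
  obtain ⟨hX, hY, hZ⟩ := C.X_ne hG
  have h4 : (4 : T) ≠ 0 := by
    have : (4 : T) = 2 * 2 := by norm_num
    rw [this]
    exact mul_ne_zero h2 h2
  have hc0 : cc X Y Z ≠ 0 :=
    mul_ne_zero (mul_ne_zero (mul_ne_zero (mul_ne_zero h4 hX) hY) hZ) C.nu
  have hc : IsTopologicallyNilpotent (cc X Y Z) := by
    have e : cc X Y Z = (4 * Y * Z * QO.nu X Y Z) * X := by
      unfold cc
      ring
    rw [e]
    exact hT.tX.mul_left _
  obtain ⟨n, hn, hst⟩ := V_stab C h2 hc0 hT.noeth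
  have hs0 : (2 : T) ^ n * cc X Y Z ^ n ≠ 0 := mul_ne_zero (pow_ne_zero _ h2) (pow_ne_zero _ hc0)
  obtain ⟨x, hx, y, hy, hxy⟩ := C.N_nc hG hs0
  refine hxy (hG.four (C.N (2 ^ n * cc X Y Z ^ n)) (C.N_closed _) ?_ x hx y hy)
  clear x hx y hy hxy
  intro x hx y hy
  refine fourth_mem C hc hn hst le_rfl le_rfl ?_
  rw [Core.mem_N] at hx hy ⊢
  obtain ⟨u, hu⟩ := hx
  obtain ⟨v, hv⟩ := hy
  have e1 : x * y * x⁻¹ * y⁻¹ = (x * y) * (y * x)⁻¹ := by group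
  have e2 : C.j (x * y * (y * x)⁻¹) - 1 = (C.j (x * y) - C.j (y * x)) * C.j (y * x)⁻¹ := by
    rw [sub_mul, ← map_mul, ← map_mul, mul_inv_cancel, map_one]
  rw [e1, e2]
  refine Dv.mul_right ?_ _
  have hu' : C.j x = 1 + (2 ^ n * cc X Y Z ^ n) • u := by rw [← hu]; abel
  have hv' : C.j y = 1 + (2 ^ n * cc X Y Z ^ n) • v := by rw [← hv]; abel
  refine Dv.mono (c := (2 ^ n * cc X Y Z ^ n) * (2 ^ n * cc X Y Z ^ n)) ?_ ⟨u * v - v * u, ?_⟩
  · obtain ⟨n', rfl⟩ : ∃ n', n = n' + 2 := ⟨n - 2, by omega⟩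
    exact ⟨2 ^ n' * cc X Y Z ^ (n' + 2), by ring⟩
  · rw [map_mul, map_mul, hu', hv']
    generalize 2 ^ n * cc X Y Z ^ n = s
    simp only [mul_add, add_mul, mul_one, one_mul, smul_mul_assoc, mul_smul_comm]
    module

end

end MP35
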