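import Pool.Agent.Lib_MP_3538b5.Core2Defs

/-! # Piece C2A: calculus of the relation Rel -/

set_option autoImplicit false

namespace MP35

universe u v w

section

variable {G : Type u} [Group G] [TopologicalSpace G] {T : Type v} [CommRing T]
    [TopologicalSpace T] {X Y Z : T} (C : Core G T X Y Z)

/-- PROOF. `(s + π^(k+1) x)(s' + π^(k+1) y) = s s' + π^(k+1) (s' x + s y + π^(k+1) x y)` and `s = 1 + π^k u`, `s' = 1 + π^k u'`. -/
theorem Rel_mul {k : ℕ} {g h : G} {x y : QO T X Y Z} (hg : C.Rel k g x) (hh : C.Rel k h y) :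
    ∃ z, C.Rel k (g * h) (x + y + pz X Y ^ k • z) := by
  obtain ⟨s, h1, u, h2⟩ := hg
  obtain ⟨s', h3, u', h4⟩ := hh
  have hs : s = 1 + pz X Y ^ k * u := by linear_combination h2
  have hs' : s' = 1 + pz X Y ^ k * u' := by linear_combination h4
  refine ⟨u • y + u' • x + pz X Y • (x * y), s * s', ?_, ?_⟩
  · rw [map_mul, h1, h3, hs, hs']
    ext <;> simp <;> ring
  · refine ⟨u + u' + pz X Y ^ k * u * u', ?_⟩
    rw [hs, hs']
    ring

/-- PROOF. `j g⁻¹ = (j g).cj = s + π^(k+1) (tr x - x) = (s + π^(k+1) tr x) - π^(k+1) x` (`QO.cj_eq`). -/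
theorem Rel_inv {k : ℕ} {g : G} {x : QO T X Y Z} (hg : C.Rel k g x) : C.Rel k g⁻¹ (-x) := by
  obtain ⟨s, h1, u, h2⟩ := hg
  refine ⟨s + pz X Y ^ (k + 1) * x.tr, ?_, ?_⟩
  · rw [C.j_inv, h1]
    ext <;> simp [QO.tr] <;> ring
  · refine ⟨u + pz X Y * x.tr, ?_⟩
    linear_combination h2

/-- PROOF. Conjugate. -/
theorem Rel_conj {k : ℕ} {g : G} {x : QO T X Y Z} (hg : C.Rel k g x) (h : G) :
    C.Rel k (h * g * h⁻¹) (C.j h * x * (C.j h).cj) := by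
  obtain ⟨s, h1, h2⟩ := hg
  refine ⟨s, ?_, h2⟩
  rw [map_mul, map_mul, C.j_inv, h1, mul_add, add_mul, mul_smul_comm, mul_smul_comm,
    smul_mul_assoc, smul_mul_assoc, mul_one, C.mul_cj]

/-- PROOF. Replace `s` by `s - π^(k+1) r`. -/
theorem Rel_shift {k : ℕ} {g : G} {x : QO T X Y Z} (hg : C.Rel k g x) (r : T) :
    C.Rel k g (x + r • (1 : QO T X Y Z)) := by
  obtain ⟨s, h1, u, h2⟩ := hg
  refine ⟨s - pz X Y ^ (k + 1) * r, ?_, ?_⟩
  · rw [h1]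
    ext <;> simp <;> ring
  · refine ⟨u - pz X Y * r, ?_⟩
    linear_combination h2

theorem Rel_one (k : ℕ) : C.Rel k 1 0 := by
  refine ⟨1, ?_, ?_⟩
  · rw [map_one, one_smul, smul_zero, add_zero]
  · rw [sub_self]
    exact dvd_zero _

theorem RelN.rel {k : ℕ} {g : G} {x : QO T X Y Z} (hg : C.RelN k g x) : C.Rel k g x := by
  obtain ⟨s, h1, h2⟩ := hg
  exact ⟨s, h1, (pow_dvd_pow _ (Nat.le_succ k)).trans h2⟩

/-- PROOF. `j g = s + π^(k+1) (π x) = s + π^(k+2) x`. -/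
theorem RelN.up {k : ℕ} {g : G} {x : QO T X Y Z} (hg : C.RelN k g (pz X Y • x)) : C.Rel (k + 1) g x := by
  obtain ⟨s, h1, h2⟩ := hg
  refine ⟨s, ?_, h2⟩
  rw [h1, smul_smul, ← pow_succ]

theorem Rel_dv {k : ℕ} {g : G} {x : QO T X Y Z} (hg : C.Rel k g x) :
    Dv (pz X Y ^ k) (C.j g - 1) := by
  obtain ⟨s, h1, u, h2⟩ := hg
  have hs : s = 1 + pz X Y ^ k * u := by linear_combination h2
  refine ⟨u • 1 + pz X Y • x, ?_⟩
  rw [h1, hs]
  ext <;> simp <;> ring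

theorem RelN_of {k : ℕ} {g : G} {x : QO T X Y Z} (hg : C.j g = 1 + pz X Y ^ (k + 1) • x) :
    C.RelN k g x := by
  refine ⟨1, ?_, ?_⟩
  · rw [hg, one_smul]
  · rw [sub_self]
    exact dvd_zero _

end

end MP35
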