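import Pool.Agent.Lib_MP_3538b5.Core2X

/-! # Piece C2B: the modules of leading vectors in characteristic 2 -/

set_option autoImplicit false

namespace MP35

universe u v w

section

variable {G : Type u} [Group G] [TopologicalSpace G] {T : Type v} [CommRing T]
    [TopologicalSpace T] {X Y Z : T} (C : Core G T X Y Z)

/-- PROOF. `Rel_mul`; `π^k` is a multiple of `π^r`. -/
theorem V2_add {k r : ℕ} (hr : r ≤ k) {x y : QO T X Y Z} (hx : x ∈ C.V2 k r) (hy : y ∈ C.V2 k r) :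
    x + y ∈ C.V2 k r := by
  obtain ⟨g, z, hg⟩ := hx
  obtain ⟨h, w, hh⟩ := hy
  obtain ⟨v, hv⟩ := Rel_mul C hg hh
  refine ⟨g * h, z + w + pz X Y ^ (k - r) • v, ?_⟩
  have e : x + y + pz X Y ^ r • (z + w + pz X Y ^ (k - r) • v) =
      x + pz X Y ^ r • z + (y + pz X Y ^ r • w) + pz X Y ^ k • v := by
    rw [smul_add, smul_add, smul_smul, ← pow_add, Nat.add_sub_of_le hr]
    abel
  rw [e]
  exact hv

/-- PROOF. `Rel_inv`. -/
theorem V2_neg {k r : ℕ} {x : QO T X Y Z} (hx : x ∈ C.V2 k r) : -x ∈ C.V2 k r := by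
  obtain ⟨g, z, hg⟩ := hx
  refine ⟨g⁻¹, -z, ?_⟩
  have e : -x + pz X Y ^ r • -z = -(x + pz X Y ^ r • z) := by
    rw [smul_neg, neg_add]
  rw [e]
  exact Rel_inv C hg

/-- PROOF. `g = 1` and `Rel_shift`. -/
theorem V2_smul (k r : ℕ) (z : QO T X Y Z) (t : T) : pz X Y ^ r • z + t • (1 : QO T X Y Z) ∈ C.V2 k r := by
  refine ⟨1, -z, ?_⟩
  have e : pz X Y ^ r • z + t • (1 : QO T X Y Z) + pz X Y ^ r • -z = 0 + t • (1 : QO T X Y Z) := by
    rw [smul_neg]
    abel
  rw [e]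
  exact Rel_shift C (Rel_one C k) t

/-- PROOF. `Rel_conj`. -/
theorem V2_conj {k r : ℕ} {x : QO T X Y Z} (hx : x ∈ C.V2 k r) (h : G) :
    C.j h * x * (C.j h).cj ∈ C.V2 k r := by
  obtain ⟨g, z, hg⟩ := hx
  refine ⟨h * g * h⁻¹, C.j h * z * (C.j h).cj, ?_⟩
  have e : C.j h * x * (C.j h).cj + pz X Y ^ r • (C.j h * z * (C.j h).cj) =
      C.j h * (x + pz X Y ^ r • z) * (C.j h).cj := by
    rw [mul_add, add_mul, mul_smul_comm, smul_mul_assoc]
  rw [e]
  exact Rel_conj C hg h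

/-- PROOF. Projection to `x` of the closed set `{(x, g, z, s, u) | j g = s + π^(k+1) (x + π^r z), s - 1 = π^k u}` of a compact space. -/
theorem V2_closed [IsTopologicalRing T] [CompactSpace T] [T2Space T] [CompactSpace G] (k r : ℕ) :
    IsClosed (C.V2 k r) := by
  let K : Set (QO T X Y Z × G × QO T X Y Z × T × T) :=
    {p | C.j p.2.1 = p.2.2.2.1 • (1 : QO T X Y Z) +
        pz X Y ^ (k + 1) • (p.1 + pz X Y ^ r • p.2.2.1) ∧ p.2.2.2.1 - 1 = pz X Y ^ k * p.2.2.2.2}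
  have hK : IsClosed K := by
    have c1 : Continuous (fun p : QO T X Y Z × G × QO T X Y Z × T × T => C.j p.2.1) :=
      C.cont.comp (continuous_fst.comp continuous_snd)
    have c2 : Continuous (fun p : QO T X Y Z × G × QO T X Y Z × T × T => p.2.2.1) :=
      continuous_fst.comp (continuous_snd.comp continuous_snd)
    have c3 : Continuous (fun p : QO T X Y Z × G × QO T X Y Z × T × T => p.2.2.2.1) :=
      continuous_fst.comp (continuous_snd.comp (continuous_snd.comp continuous_snd))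
    have c4 : Continuous (fun p : QO T X Y Z × G × QO T X Y Z × T × T => p.2.2.2.2) :=
      continuous_snd.comp (continuous_snd.comp (continuous_snd.comp continuous_snd))
    have c5 : Continuous (fun p : QO T X Y Z × G × QO T X Y Z × T × T => p.1) := continuous_fst
    refine IsClosed.inter (isClosed_eq c1 ?_) (isClosed_eq (c3.sub continuous_const)
      (continuous_const.mul c4))
    exact (c3.smul continuous_const).add
      ((c5.add (c2.const_smul (pz X Y ^ r))).const_smul (pz X Y ^ (k + 1)))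
  have hI : C.V2 k r = Prod.fst '' K := by
    ext x
    constructor
    · rintro ⟨g, z, s, h1, u, h2⟩
      exact ⟨(x, g, z, s, u), ⟨h1, h2⟩, rfl⟩
    · rintro ⟨⟨x', g, z, s, u⟩, ⟨h1, h2⟩, rfl⟩
      exact ⟨g, z, s, h1, u, h2⟩
  rw [hI]
  exact (hK.isCompact.image continuous_fst).isClosed

/-- the leading vectors as an additive subgroup -/
def Core.V2g {k r : ℕ} (hr : r ≤ k) : AddSubgroup (QO T X Y Z) where
  carrier := C.V2 k r
  add_mem' := V2_add C hr
  zero_mem' := by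
    have := V2_smul C k r 0 0
    rwa [smul_zero, zero_smul, add_zero] at this
  neg_mem' := V2_neg C

/-- PROOF. `Rel_xi` shows that `V2 (k+1) r` is stable under multiplication by `(tr (j h))^2` for `h ∈ G` (`π^k` is a multiple of `π^r`); `h = a, b, a b` have traces `X, Y, Z`; use `ts_smul_mem` for the closed
subgroup `V2g`. -/
theorem V2_ts [IsTopologicalRing T] [CompactSpace T] [T2Space T] [CompactSpace G] [IsDomain T]
    (h2 : (2 : T) = 0) (hπ : pz X Y ≠ 0) {k r : ℕ} (hr : r ≤ k) {t : T} (ht : t ∈ Ts X Y Z)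
    {x : QO T X Y Z} (hx : x ∈ C.V2 (k + 1) r) : t • x ∈ C.V2 (k + 1) r := by
  have hr1 : r ≤ k + 1 := by omega
  have key : ∀ v ∈ C.V2 (k + 1) r, ∀ h : G, (C.j h).tr ^ 2 • v ∈ C.V2 (k + 1) r := by
    rintro v ⟨g, z, hg⟩ h
    obtain ⟨w, hw⟩ := Rel_xi C h2 hπ hg h
    refine ⟨xi h g, (C.j h).tr ^ 2 • z + pz X Y ^ (k - r) • w, ?_⟩
    have e : (C.j h).tr ^ 2 • v + pz X Y ^ r • ((C.j h).tr ^ 2 • z + pz X Y ^ (k - r) • w) =
        (C.j h).tr ^ 2 • (v + pz X Y ^ r • z) + pz X Y ^ k • w := by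
      rw [smul_add, smul_add, smul_smul (pz X Y ^ r) (pz X Y ^ (k - r)), ← pow_add,
        Nat.add_sub_of_le hr, smul_comm (pz X Y ^ r), ← add_assoc]
    rw [e]
    exact RelN.rel C hw
  have hcl : IsClosed ((C.V2g hr1 : AddSubgroup (QO T X Y Z)) : Set (QO T X Y Z)) :=
    V2_closed C (k + 1) r
  refine ts_smul_mem (C.V2g hr1) hcl (fun v hv => ⟨?_, ?_, ?_⟩) t ht x hx
  · have h := key v hv C.a
    rwa [C.ja, QO.tr_ga] at h
  · have h := key v hv C.b
    rwa [C.jb, QO.tr_gb] at h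
  · have h := key v hv (C.a * C.b)
    rwa [map_mul, C.ja, C.jb, QO.tr_gab] at h

/-- PROOF. `Rel_psi` (`π^k` is a multiple of `π^r`). -/
theorem V2_mono [IsDomain T] (h2 : (2 : T) = 0) (hπ : pz X Y ≠ 0) {k r : ℕ} (hr : r ≤ k) :
    C.V2 (k + 2) r ⊆ C.V2 (k + 3) r := by
  rintro x ⟨g, z, hg⟩
  obtain ⟨g', w, hw⟩ := Rel_psi C h2 hπ hg
  refine ⟨g', z + pz X Y ^ (k - r) • w, ?_⟩
  have e : x + pz X Y ^ r • (z + pz X Y ^ (k - r) • w) = x + pz X Y ^ r • z + pz X Y ^ k • w := by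
    rw [smul_add, smul_smul, ← pow_add, Nat.add_sub_of_le hr, add_assoc]
  rw [e]
  exact hw

/-- PROOF. For `k ≥ 4` the `V2 k 2` are `Ts`-submodules (`V2_ts`) of the noetherian `Ts`-module `QO T X Y Z` (`noeth_QO`), increasing in `k` (`V2_mono`). -/
theorem V2_stab [IsTopologicalRing T] [CompactSpace T] [T2Space T] [CompactSpace G] [IsDomain T]
    (h2 : (2 : T) = 0) (hπ : pz X Y ≠ 0) (hN : IsNoetherian (Ts X Y Z) T) :
    ∃ k0 : ℕ, 4 ≤ k0 ∧ ∀ k : ℕ, k0 ≤ k → C.V2 k 2 = C.V2 k0 2 := by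
  let M : ℕ → Submodule (Ts X Y Z) (QO T X Y Z) := fun n =>
    { carrier := C.V2 (n + 4) 2
      add_mem' := fun hx hy => V2_add C (by omega) hx hy
      zero_mem' := (C.V2g (show 2 ≤ n + 4 by omega)).zero_mem
      smul_mem' := fun t x hx => V2_ts C h2 hπ (k := n + 3) (by omega) t.2 hx }
  have hM : ∀ n, M n ≤ M (n + 1) := fun n x hx =>
    V2_mono C h2 hπ (k := n + 2) (by omega) hx
  let f : ℕ →o Submodule (Ts X Y Z) (QO T X Y Z) := ⟨M, monotone_nat_of_le_succ hM⟩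
  obtain ⟨N, hN'⟩ := monotone_stabilizes_iff_noetherian.2 (noeth_QO (X := X) (Y := Y) (Z := Z) hN) f
  refine ⟨N + 4, by omega, fun k hk => ?_⟩
  have h := hN' (k - 4) (by omega)
  have h' : M N = M (k - 4) := h
  have e : k - 4 + 4 = k := by omega
  have h3 : C.V2 (N + 4) 2 = C.V2 (k - 4 + 4) 2 := congrArg (fun L : Submodule (Ts X Y Z) (QO T X Y Z) =>
    (L : Set (QO T X Y Z))) h'
  rw [e] at h3
  exact h3.symm

end

end MP35
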