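import Pool.Agent.Lib_MP_3538b5.Core2B

/-! # Piece C2C: approximation by elements commuting with a -/

set_option autoImplicit false

namespace MP35

universe u v w

section

variable {G : Type u} [Group G] [TopologicalSpace G] {T : Type v} [CommRing T]
    [TopologicalSpace T] {X Y Z : T} (C : Core G T X Y Z)

omit [TopologicalSpace T] in
theorem ga_comm_anti (x : QO T X Y Z) :
    QO.ga X Y Z * (QO.ga X Y Z * x - x * QO.ga X Y Z)
      = (QO.ga X Y Z * x - x * QO.ga X Y Z) * (QO.ga X Y Z).cj := by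
  ext <;> simp <;> ring

omit [TopologicalSpace T] in
theorem ga_cj_sq (h2 : (2 : T) = 0) :
    (QO.ga X Y Z).cj * (QO.ga X Y Z).cj - QO.ga X Y Z * QO.ga X Y Z = X ^ 2 • (1 : QO T X Y Z) := by
  ext
  · simp; ring
  · simp
    linear_combination (-X) * h2
  · simp
  · simp

/-- PROOF. Write `a = QO.ga`, `g` for `j g`, `a g - g a = π^(n+2) e`. First: `a e = e ā`: `a (a g - g a) + (a g - g a) a = a² g - g a² = X (a g - g a)` (as `a² = X a - 1`), and `π^(n+2)` is cancelled.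
`f = a g a⁻¹ g⁻¹ ∈ G` (`C.a` for `a`): `j f - 1 = (a g - g a) ā ḡ = π^(n+2) e ā ḡ`, and `ḡ = 1 + π² (..)`, so with `φ = e ā`: `φ ∈ V2 (n+1) 2` (`RelN_of`) `= V2 n 2` by `hst`. Let
`z = Y² (φ + ā φ a) = Y² (e ā + ā e)`; `z ∈ V2 n 2` (`V2_conj` with `h = C.a⁻¹`, `V2_add`, `V2_ts`, `Y² ∈ Ts`; `n = (n-1)+1`). `a z - z a = Y² (a e ā - ā e a + ...)`: in characteristic 2
`a z - z a = Y² (a e ā + a ā e + e ā a + ā e a) = Y² (a e ā + ā e a) = Y² (e ā ā + e a a) = Y² e tr(a²) = X² Y² e = π e` (`a e = e ā`, `ā e = e a`, `tr (a²) = X² - 2`). There are `h ∈ G`, `z'` with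
`Rel n h (z + π² z')`: `j h = s + π^(n+1) (z + π² z')`, `π^n ∣ s - 1`. So `Dv (π^n) (j h - 1)`, and `a h - h a = π^(n+1) (π e + π² (a z' - z' a)) = π^(n+2) (e + π w)`. Finally
`a g h - g h a = (a g - g a) h + g (a h - h a) = π^(n+2) (e h + g e + π g w)` and `h = 1 + π (..)`, `g = 1 + π (..)`, `2 = 0` give divisibility by `π^(n+3)`. -/
theorem kill [IsTopologicalRing T] [CompactSpace T] [T2Space T] [CompactSpace G] [IsDomain T]
    (h2 : (2 : T) = 0) (hπ : pz X Y ≠ 0) {k0 : ℕ} (hk0 : 4 ≤ k0)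
    (hst : ∀ k : ℕ, k0 ≤ k → C.V2 k 2 = C.V2 k0 2) {n : ℕ} (hn : k0 ≤ n) {g : G}
    (hg : Dv (pz X Y ^ 2) (C.j g - 1))
    (hg2 : Dv (pz X Y ^ (n + 2)) (QO.ga X Y Z * C.j g - C.j g * QO.ga X Y Z)) :
    ∃ h : G, Dv (pz X Y ^ n) (C.j h - 1) ∧
      Dv (pz X Y ^ (n + 3)) (QO.ga X Y Z * C.j (g * h) - C.j (g * h) * QO.ga X Y Z) := by
  have h2Q : ∀ x : QO T X Y Z, x + x = 0 := fun x => by
    rw [← two_smul T x, h2, zero_smul]
  obtain ⟨e, he⟩ := hg2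
  obtain ⟨r, hr⟩ := hg
  have haa : QO.ga X Y Z * (QO.ga X Y Z).cj = 1 := by rw [QO.mul_cj, QO.nm_ga, one_smul]
  have hcaa : (QO.ga X Y Z).cj * QO.ga X Y Z = 1 := by rw [QO.cj_mul_self, QO.nm_ga, one_smul]
  have hgg := C.mul_cj g
  have h1 : QO.ga X Y Z * e = e * (QO.ga X Y Z).cj := by
    apply QO.smul_inj (pow_ne_zero (n + 2) hπ)
    rw [← mul_smul_comm, ← smul_mul_assoc, ← he]
    exact ga_comm_anti _
  have h1' : (QO.ga X Y Z).cj * e = e * QO.ga X Y Z := by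
    calc (QO.ga X Y Z).cj * e = (QO.ga X Y Z).cj * (e * (QO.ga X Y Z).cj) * QO.ga X Y Z := by
          rw [mul_assoc, mul_assoc, hcaa, mul_one]
      _ = ((QO.ga X Y Z).cj * QO.ga X Y Z) * e * QO.ga X Y Z := by rw [← h1]; simp only [mul_assoc]
      _ = e * QO.ga X Y Z := by rw [hcaa, one_mul]
  -- the commutator
  have hgcj : (C.j g).cj = 1 + pz X Y ^ 2 • r.cj := by
    have : C.j g = 1 + pz X Y ^ 2 • r := by rw [← hr]; abel
    rw [this, QO.cj_add, QO.cj_one, QO.cj_smul]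
  have hf : C.j (C.a * g * C.a⁻¹ * g⁻¹)
      = 1 + pz X Y ^ (n + 1 + 1) • (e * (QO.ga X Y Z).cj * (C.j g).cj) := by
    rw [map_mul, map_mul, map_mul, C.j_inv, C.j_inv, C.ja]
    have e1 : QO.ga X Y Z * C.j g = C.j g * QO.ga X Y Z + pz X Y ^ (n + 2) • e := by
      rw [← he]; abel
    rw [e1, add_mul, add_mul, smul_mul_assoc, smul_mul_assoc]
    congr 1
    rw [mul_assoc (C.j g), haa, mul_one, hgg]
  have hφ : e * (QO.ga X Y Z).cj ∈ C.V2 n 2 := by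
    have hm : e * (QO.ga X Y Z).cj ∈ C.V2 (n + 1) 2 := by
      refine ⟨C.a * g * C.a⁻¹ * g⁻¹, e * (QO.ga X Y Z).cj * r.cj, ?_⟩
      have := RelN.rel C (RelN_of C hf)
      rwa [hgcj, mul_add, mul_one, mul_smul_comm] at this
    rw [hst n hn, ← hst (n + 1) (by omega)]
    exact hm
  have hz : Y ^ 2 • (e * (QO.ga X Y Z).cj + (QO.ga X Y Z).cj * e) ∈ C.V2 n 2 := by
    obtain ⟨m, rfl⟩ : ∃ m, n = m + 1 := ⟨n - 1, by omega⟩
    refine V2_ts C h2 hπ (by omega) ?_ ?_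
    · exact (Subring.closure {X ^ 2, Y ^ 2, Z ^ 2}).le_topologicalClosure
        (Subring.subset_closure (by simp))
    · refine V2_add C (by omega) hφ ?_
      have := V2_conj C hφ C.a⁻¹
      rw [C.j_inv, C.ja, QO.cj_cj, ← mul_assoc, mul_assoc, hcaa, mul_one] at this
      exact this
  obtain ⟨h, z', hrel⟩ := hz
  have hdv : Dv (pz X Y ^ n) (C.j h - 1) := Rel_dv C hrel
  refine ⟨h, hdv, ?_⟩
  have hcomm : QO.ga X Y Z * (Y ^ 2 • (e * (QO.ga X Y Z).cj + (QO.ga X Y Z).cj * e))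
      - (Y ^ 2 • (e * (QO.ga X Y Z).cj + (QO.ga X Y Z).cj * e)) * QO.ga X Y Z = pz X Y • e := by
    rw [mul_smul_comm, smul_mul_assoc, ← smul_sub]
    have : QO.ga X Y Z * (e * (QO.ga X Y Z).cj + (QO.ga X Y Z).cj * e)
        - (e * (QO.ga X Y Z).cj + (QO.ga X Y Z).cj * e) * QO.ga X Y Z = X ^ 2 • e := by
      have q1 : QO.ga X Y Z * (e * (QO.ga X Y Z).cj) = e * ((QO.ga X Y Z).cj * (QO.ga X Y Z).cj) := by
        rw [← mul_assoc, h1, mul_assoc]
      have q2 : QO.ga X Y Z * ((QO.ga X Y Z).cj * e) = e := by rw [← mul_assoc, haa, one_mul]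
      have q3 : (e * (QO.ga X Y Z).cj) * QO.ga X Y Z = e := by rw [mul_assoc, hcaa, mul_one]
      have q4 : ((QO.ga X Y Z).cj * e) * QO.ga X Y Z = e * (QO.ga X Y Z * QO.ga X Y Z) := by
        rw [h1', mul_assoc]
      rw [mul_add, add_mul, q1, q2, q3, q4]
      have q5 := ga_cj_sq (X := X) (Y := Y) (Z := Z) h2
      have q6 : (QO.ga X Y Z).cj * (QO.ga X Y Z).cj
          = X ^ 2 • (1 : QO T X Y Z) + QO.ga X Y Z * QO.ga X Y Z := by rw [← q5]; abel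
      rw [q6, mul_add, mul_smul_comm, mul_one]
      abel
    rw [this, smul_smul, pz, mul_comm]
  obtain ⟨s, hs, hs1⟩ := hrel
  have hah : QO.ga X Y Z * C.j h - C.j h * QO.ga X Y Z
      = pz X Y ^ (n + 2) • (e + pz X Y • (QO.ga X Y Z * z' - z' * QO.ga X Y Z)) := by
    rw [hs]
    have : QO.ga X Y Z * (s • (1 : QO T X Y Z) + pz X Y ^ (n + 1) •
          (Y ^ 2 • (e * (QO.ga X Y Z).cj + (QO.ga X Y Z).cj * e) + pz X Y ^ 2 • z'))
        - (s • (1 : QO T X Y Z) + pz X Y ^ (n + 1) •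
          (Y ^ 2 • (e * (QO.ga X Y Z).cj + (QO.ga X Y Z).cj * e) + pz X Y ^ 2 • z')) * QO.ga X Y Z
        = pz X Y ^ (n + 1) • ((QO.ga X Y Z * (Y ^ 2 • (e * (QO.ga X Y Z).cj + (QO.ga X Y Z).cj * e))
      - (Y ^ 2 • (e * (QO.ga X Y Z).cj + (QO.ga X Y Z).cj * e)) * QO.ga X Y Z)
        + pz X Y ^ 2 • (QO.ga X Y Z * z' - z' * QO.ga X Y Z)) := by
      generalize Y ^ 2 • (e * (QO.ga X Y Z).cj + (QO.ga X Y Z).cj * e) = zz
      simp only [mul_add, add_mul, mul_smul_comm, smul_mul_assoc, mul_one, one_mul, smul_add, smul_sub]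
      abel
    rw [this, hcomm, smul_add, smul_add, smul_smul, smul_smul, smul_smul]
    congr 2 <;> ring
  obtain ⟨u, hu⟩ := hdv
  have hfin : QO.ga X Y Z * C.j (g * h) - C.j (g * h) * QO.ga X Y Z
      = pz X Y ^ (n + 2) • (e * C.j h + C.j g * e
        + pz X Y • (C.j g * (QO.ga X Y Z * z' - z' * QO.ga X Y Z))) := by
    have : QO.ga X Y Z * C.j (g * h) - C.j (g * h) * QO.ga X Y Z
        = (QO.ga X Y Z * C.j g - C.j g * QO.ga X Y Z) * C.j h
          + C.j g * (QO.ga X Y Z * C.j h - C.j h * QO.ga X Y Z) := by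
      rw [map_mul]; noncomm_ring
    rw [this, he, hah, smul_mul_assoc, mul_smul_comm, ← smul_add, mul_add, mul_smul_comm, ← add_assoc]
  obtain ⟨m, rfl⟩ : ∃ m, n = m + 1 := ⟨n - 1, by omega⟩
  have hjh : C.j h = 1 + pz X Y ^ (m + 1) • u := by rw [← hu]; abel
  have hjg : C.j g = 1 + pz X Y ^ 2 • r := by rw [← hr]; abel
  refine ⟨pz X Y ^ m • (e * u) + pz X Y • (r * e)
    + C.j g * (QO.ga X Y Z * z' - z' * QO.ga X Y Z), ?_⟩
  rw [hfin, show m + 1 + 3 = (m + 1 + 2) + 1 from rfl, pow_succ (pz X Y) (m + 1 + 2), mul_smul]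
  congr 1
  have k1 : e * C.j h = e + pz X Y • (pz X Y ^ m • (e * u)) := by
    rw [hjh, mul_add, mul_one, mul_smul_comm, smul_smul, pow_succ']
  have k2 : C.j g * e = e + pz X Y • (pz X Y • (r * e)) := by
    conv_lhs => rw [hjg]
    rw [add_mul, one_mul, smul_mul_assoc, smul_smul, pow_two]
  rw [k1, k2, smul_add, smul_add]
  have := h2Q e
  calc e + pz X Y • (pz X Y ^ m • (e * u)) + (e + pz X Y • (pz X Y • (r * e)))
        + pz X Y • (C.j g * (QO.ga X Y Z * z' - z' * QO.ga X Y Z))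
      = (e + e) + (pz X Y • (pz X Y ^ m • (e * u)) + pz X Y • (pz X Y • (r * e))
        + pz X Y • (C.j g * (QO.ga X Y Z * z' - z' * QO.ga X Y Z))) := by abel
    _ = _ := by rw [this, zero_add]

end

end MP35
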