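import Pool.Agent.Lib_MP_3538b5.Core2X

/-! # Piece C2D: deep elements with a fixed leading vector -/

set_option autoImplicit false

namespace MP35

universe u v w

section

variable {G : Type u} [Group G] [TopologicalSpace G] {T : Type v} [CommRing T]
    [TopologicalSpace T] {X Y Z : T} (C : Core G T X Y Z)

omit [TopologicalSpace T] in
/-- the product formula: if `q = s + c x` has norm one then
`(h q h̄) (h̄ q h).cj = 1 + c (s tr h (h x - x h) + c w)` -/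
theorem deep_xi_aux {h q x : QO T X Y Z} {s c : T} (hh : h.nm = 1) (hq : q.nm = 1)
    (hqs : q = s • (1 : QO T X Y Z) + c • x) :
    ∃ w : QO T X Y Z, (h * q * h.cj) * (h.cj * q * h).cj
      = 1 + c • ((s * h.tr) • (h * x - x * h) + c • w) := by
  have e1 : h * q * h.cj = s • (1 : QO T X Y Z) + c • (h * x * h.cj) := by
    rw [hqs, mul_add, add_mul, mul_smul_comm, smul_mul_assoc, mul_one, QO.mul_cj, hh, one_smul,
      mul_smul_comm, smul_mul_assoc]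
  have e2 : h.cj * q * h = s • (1 : QO T X Y Z) + c • (h.cj * x * h) := by
    rw [hqs, mul_add, add_mul, mul_smul_comm, smul_mul_assoc, mul_one, QO.cj_mul_self, hh, one_smul,
      mul_smul_comm, smul_mul_assoc]
  have e3 : (h.cj * x * h).cj = x.tr • (1 : QO T X Y Z) - h.cj * x * h := by
    rw [QO.cj_mul, QO.cj_mul, QO.cj_cj, QO.cj_eq x, sub_mul, mul_sub, smul_mul_assoc, mul_smul_comm,
      one_mul, QO.cj_mul_self, hh, one_smul, mul_assoc]
  have e4 : (h.cj * q * h).cj = s • (1 : QO T X Y Z) + c • (x.tr • (1 : QO T X Y Z) - h.cj * x * h) := by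
    rw [e2, QO.cj_add, QO.cj_smul, QO.cj_one, QO.cj_smul, e3]
  have e5 : s ^ 2 + s * c * x.tr + c ^ 2 * x.nm = 1 := by
    rw [← QO.nm_add_smul, ← hqs, hq]
  refine ⟨(h * x * h.cj) * (x.tr • (1 : QO T X Y Z) - h.cj * x * h) - x.nm • (1 : QO T X Y Z), ?_⟩
  rw [e1, e4]
  generalize hA : h * x * h.cj = A
  generalize hB : h.cj * x * h = B
  have e6 : A - B = h.tr • (h * x - x * h) := by rw [← hA, ← hB, QO.xh_eq]
  have e7 : (s * h.tr) • (h * x - x * h) = s • (A - B) := by rw [e6, smul_smul]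
  rw [e7]
  have e8 : (s • (1 : QO T X Y Z) + c • A) * (s • (1 : QO T X Y Z) + c • (x.tr • (1 : QO T X Y Z) - B))
      = (s ^ 2 + s * c * x.tr + c ^ 2 * x.nm) • (1 : QO T X Y Z)
        + c • (s • (A - B) + c • (A * (x.tr • (1 : QO T X Y Z) - B) - x.nm • (1 : QO T X Y Z))) := by
    simp only [add_mul, mul_add, mul_sub, smul_sub, smul_add, smul_mul_assoc, mul_smul_comm, mul_one,
      one_mul, add_smul, smul_smul]
    module
  rw [e8, e5, one_smul]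

theorem deep_one [IsTopologicalGroup G] [IsTopologicalRing T] [T2Space T]
    [IsLinearTopology T T] [IsDomain T] (hG : GP G)
    (h2 : (2 : T) = 0) (hπ' : IsTopologicallyNilpotent (pz X Y)) :
    ∃ (k : ℕ) (g : G) (x : QO T X Y Z), 4 ≤ k ∧ C.Rel k g x ∧
      ¬ ∃ (r : T) (z : QO T X Y Z), x = r • (1 : QO T X Y Z) + pz X Y ^ 2 • z := by
  obtain ⟨hX, hY, -⟩ := C.X_ne hG
  have hπ : pz X Y ≠ 0 := mul_ne_zero (pow_ne_zero _ hX) (pow_ne_zero _ hY)
  obtain ⟨g, hg1, hg⟩ := C.deep (pz X Y ^ 5) (pow_ne_zero _ hπ)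
  obtain ⟨r, hr⟩ := hg
  -- the vector part is not zero
  have hne : ¬ ((C.j g).c1 = 0 ∧ (C.j g).c2 = 0 ∧ (C.j g).c3 = 0) := by
    rintro ⟨h1, h2', h3⟩
    have hs : C.j g = (C.j g).c0 • (1 : QO T X Y Z) := by
      ext <;> simp [h1, h2', h3]
    have hcomm : ∀ h : G, h * g = g * h := by
      intro h
      apply C.inj
      rw [map_mul, map_mul, hs, mul_smul_comm, smul_mul_assoc, mul_one, one_mul]
    exact C.ab_ne hG (hG.trans C.a g C.b hg1 (hcomm C.a) (hcomm C.b).symm)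
  have hex : ∃ n : ℕ, ¬ (pz X Y ^ n ∣ (C.j g).c1 ∧ pz X Y ^ n ∣ (C.j g).c2 ∧
      pz X Y ^ n ∣ (C.j g).c3) := by
    by_contra hcon
    push Not at hcon
    apply hne
    refine ⟨?_, ?_, ?_⟩
    · by_contra h0
      obtain ⟨n, hn⟩ := exists_not_pow_dvd hπ' h0
      exact hn (hcon n).1
    · by_contra h0
      obtain ⟨n, hn⟩ := exists_not_pow_dvd hπ' h0
      exact hn (hcon n).2.1
    · by_contra h0
      obtain ⟨n, hn⟩ := exists_not_pow_dvd hπ' h0
      exact hn (hcon n).2.2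
  have hc0 : (C.j g).c0 - 1 = pz X Y ^ 5 * r.c0 := congrArg QO.c0 hr
  have hc1 : (C.j g).c1 = pz X Y ^ 5 * r.c1 := by
    have := congrArg QO.c1 hr
    simpa using this
  have hc2 : (C.j g).c2 = pz X Y ^ 5 * r.c2 := by
    have := congrArg QO.c2 hr
    simpa using this
  have hc3 : (C.j g).c3 = pz X Y ^ 5 * r.c3 := by
    have := congrArg QO.c3 hr
    simpa using this
  classical
  obtain ⟨n, hn, hmin⟩ : ∃ n : ℕ, ¬ (pz X Y ^ n ∣ (C.j g).c1 ∧ pz X Y ^ n ∣ (C.j g).c2 ∧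
      pz X Y ^ n ∣ (C.j g).c3) ∧ ∀ m < n, (pz X Y ^ m ∣ (C.j g).c1 ∧ pz X Y ^ m ∣ (C.j g).c2 ∧
      pz X Y ^ m ∣ (C.j g).c3) := by
    refine ⟨Nat.find hex, Nat.find_spec hex, fun m hm => ?_⟩
    exact not_not.1 (Nat.find_min hex hm)
  have hn6 : 6 ≤ n := by
    by_contra hlt
    apply hn
    have h5 : pz X Y ^ n ∣ pz X Y ^ 5 := pow_dvd_pow _ (by omega)
    refine ⟨?_, ?_, ?_⟩
    · rw [hc1]; exact h5.mul_right _
    · rw [hc2]; exact h5.mul_right _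
    · rw [hc3]; exact h5.mul_right _
  obtain ⟨k, rfl⟩ : ∃ k, n = k + 2 := ⟨n - 2, by omega⟩
  have hk : 4 ≤ k := by omega
  obtain ⟨⟨x1, hx1⟩, ⟨x2, hx2⟩, ⟨x3, hx3⟩⟩ := hmin (k + 1) (by omega)
  set s : T := (C.j g).c0 with hs
  have hq : C.j g = s • (1 : QO T X Y Z) + pz X Y ^ (k + 1) • (⟨0, x1, x2, x3⟩ : QO T X Y Z) := by
    ext
    · simp [hs]
    · simp [hx1]
    · simp [hx2]
    · simp [hx3]
  have hxi : ∀ h : G, C.j (xi h g) = (C.j h * C.j g * (C.j h).cj) * ((C.j h).cj * C.j g * C.j h).cj := by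
    intro h
    rw [xi, map_mul, C.j_inv (h⁻¹ * g * h)]
    simp only [map_mul, C.j_inv]
  -- the divisibility consequences
  have key : ∀ (t y : T), t ≠ 0 → (∃ e, pz X Y = t ^ 2 * e) → pz X Y ^ 2 ∣ s * (t * (t * y)) → pz X Y ∣ y := by
    rintro t y ht ⟨e, he⟩ ⟨d, hd⟩
    have h1 : t ^ 2 * y = pz X Y ^ 2 * (d - pz X Y ^ 3 * r.c0 * t ^ 2 * y) := by
      have : s = 1 + pz X Y ^ 5 * r.c0 := by rw [← hc0]; ring
      rw [this] at hd
      linear_combination hd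
    refine ⟨e * (d - pz X Y ^ 3 * r.c0 * t ^ 2 * y), ?_⟩
    have h3 : t ^ 2 * y = t ^ 2 * (pz X Y * (e * (d - pz X Y ^ 3 * r.c0 * t ^ 2 * y))) := by
      calc t ^ 2 * y = pz X Y * (pz X Y * (d - pz X Y ^ 3 * r.c0 * t ^ 2 * y)) := by
            rw [h1]; ring
        _ = pz X Y * (t ^ 2 * e * (d - pz X Y ^ 3 * r.c0 * t ^ 2 * y)) := by
            rw [← he]
        _ = _ := by ring
    exact mul_left_cancel₀ (pow_ne_zero 2 ht) h3
  obtain ⟨wa, hwa⟩ := deep_xi_aux (h := C.j C.a) (C.norm C.a) (C.norm g) hq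
  obtain ⟨wb, hwb⟩ := deep_xi_aux (h := C.j C.b) (C.norm C.b) (C.norm g) hq
  rw [← hxi] at hwa hwb
  have hra := RelN.rel C (RelN_of C hwa)
  have hrb := RelN.rel C (RelN_of C hwb)
  by_contra hcon
  push Not at hcon
  obtain ⟨ra, za, hza⟩ := hcon k _ _ hk hra
  obtain ⟨rb, zb, hzb⟩ := hcon k _ _ hk hrb
  rw [C.ja, QO.tr_ga] at hza
  rw [C.jb, QO.tr_gb] at hzb
  apply hn
  have hp2 : ∀ t : T, pz X Y ^ (k + 1) * t = pz X Y ^ 2 * (pz X Y ^ (k - 1) * t) := by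
    intro t
    rw [← mul_assoc, ← pow_add]
    congr 2
    omega
  have hx2' : pz X Y ∣ x2 := by
    refine key X x2 hX ⟨Y ^ 2, rfl⟩ ?_
    have h0 := congrArg QO.c2 hza
    simp at h0
    refine ⟨za.c2 - pz X Y ^ (k - 1) * wa.c2, ?_⟩
    have h3 := hp2 wa.c2
    linear_combination h0 - h3 + (s * X * (X * x2 + x3)) * h2
  have hx3' : pz X Y ∣ x3 := by
    refine key X x3 hX ⟨Y ^ 2, rfl⟩ ?_
    have h0 := congrArg QO.c3 hza
    simp at h0
    refine ⟨za.c3 - pz X Y ^ (k - 1) * wa.c3, ?_⟩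
    have h3 := hp2 wa.c3
    linear_combination h0 - h3 - (s * X * x2) * h2
  have hx1' : pz X Y ∣ x1 := by
    refine key Y x1 hY ⟨X ^ 2, by rw [pz, mul_comm]⟩ ?_
    have h0 := congrArg QO.c1 hzb
    simp at h0
    refine ⟨zb.c1 - pz X Y ^ (k - 1) * wb.c1, ?_⟩
    have h3 := hp2 wb.c1
    linear_combination h0 - h3 - (s * Y * x3) * h2
  have hfin : ∀ t : T, pz X Y ∣ t → pz X Y ^ (k + 2) ∣ pz X Y ^ (k + 1) * t := by
    rintro t ⟨e, rfl⟩
    exact ⟨e, by ring⟩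
  rw [hx1, hx2, hx3]
  exact ⟨hfin _ hx1', hfin _ hx2', hfin _ hx3'⟩

end

end MP35
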