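import Pool.Agent.Lib_MP_3538b5.CLem

/-! # Definitions for characteristic 2 -/

set_option autoImplicit false

namespace MP35

universe u v w

/-- `π = X^2 Y^2` -/
def pz {T : Type v} [CommRing T] (X Y : T) : T := X ^ 2 * Y ^ 2

section

variable {G : Type u} [Group G] [TopologicalSpace G] {T : Type v} [CommRing T]
    [TopologicalSpace T] {X Y Z : T} (C : Core G T X Y Z)

/-- `j g = s + π^(k+1) x` with a scalar `s = 1 mod π^k` -/
def Core.Rel (k : ℕ) (g : G) (x : QO T X Y Z) : Prop :=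
  ∃ s : T, C.j g = s • (1 : QO T X Y Z) + pz X Y ^ (k + 1) • x ∧ pz X Y ^ k ∣ s - 1

/-- `j g = s + π^(k+1) x` with a scalar `s = 1 mod π^(k+1)` -/
def Core.RelN (k : ℕ) (g : G) (x : QO T X Y Z) : Prop :=
  ∃ s : T, C.j g = s • (1 : QO T X Y Z) + pz X Y ^ (k + 1) • x ∧ pz X Y ^ (k + 1) ∣ s - 1

/-- the leading vectors of level `k`, modulo `π^r` (and modulo scalars) -/
def Core.V2 (k r : ℕ) : Set (QO T X Y Z) :=
  {x | ∃ (g : G) (z : QO T X Y Z), C.Rel k g (x + pz X Y ^ r • z)}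

/-- `(h g h⁻¹) (h⁻¹ g h)⁻¹` -/
def xi (h g : G) : G := (h * g * h⁻¹) * (h⁻¹ * g * h)⁻¹

end

end MP35
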