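import Pool.Agent.Lib_MP_3538b5.Core2A

/-! # Piece C2E: the quadratic form and scalar commutators -/

set_option autoImplicit false

namespace MP35

universe u v w

section

variable {T : Type v} [CommRing T] {X Y Z : T}

/-- PROOF. `2 = 0`; `v w + w v = tr v w + tr w v - (scalar)`; all coordinates by `linear_combination` with `hv, hw, h2`. -/
theorem comm_scalar (h2 : (2 : T) = 0) {v w : QO T X Y Z} (hv : v.tr = 0) (hw : w.tr = 0) :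
    v * w - w * v = (v * w).tr • (1 : QO T X Y Z) := by
  have h1 : v * w - w * v = v.tr • w + w.tr • v - (v.tr * w.tr - (v * w).tr) • (1 : QO T X Y Z)
      - (2 : T) • (w * v) := by
    ext <;> simp [QO.tr] <;> ring
  rw [h1, hv, hw, h2]
  simp

/-- PROOF. Let `q h = tr (v h v h̄)`, `ν = nu`. If `2 = 0` and `tr v = 0` then `q a = ν (v2² + X v2 v3 + v3²)`, `q b = ν (v1² + Y v1 v3 + v3²)`, `q (ab) = ν (v1² + v2² + Z v1 v2)`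
(`v = (v0, v1, v2, v3)`), and `X² q b + Y² q a = ν² v3²`, `X² q (ab) + Z² q a = ν² v2²`, `Y² q (ab) + Z² q b = ν² v1²` (use `X v1 + Y v2 + Z v3 = 0`). So if all three vanish then
`v1 = v2 = v3 = 0` and `v` is a scalar. (Checked by computer over a field of characteristic 2.) -/
theorem exists_q [IsDomain T] (h2 : (2 : T) = 0) (hν : QO.nu X Y Z ≠ 0) {v : QO T X Y Z}
    (hv : v.tr = 0) (hv1 : ¬ ∃ r : T, v = r • (1 : QO T X Y Z)) :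
    (v * (QO.ga X Y Z * v * (QO.ga X Y Z).cj)).tr ≠ 0 ∨
    (v * (QO.gb X Y Z * v * (QO.gb X Y Z).cj)).tr ≠ 0 ∨
    (v * ((QO.ga X Y Z * QO.gb X Y Z) * v * (QO.ga X Y Z * QO.gb X Y Z).cj)).tr ≠ 0 := by
  have hv' : 2 * v.c0 + X * v.c1 + Y * v.c2 + Z * v.c3 = 0 := hv
  have qa : (v * (QO.ga X Y Z * v * (QO.ga X Y Z).cj)).tr = QO.nu X Y Z * (v.c2 ^ 2 + X * v.c2 * v.c3 + v.c3 ^ 2) := by
    simp only [QO.tr, QO.nu, QO.mul_c0, QO.mul_c1, QO.mul_c2, QO.mul_c3, QO.cj_c0, QO.cj_c1, QO.cj_c2, QO.cj_c3, QO.ga_c0,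
      QO.ga_c1, QO.ga_c2, QO.ga_c3, mul_zero, zero_mul, mul_one, one_mul, add_zero, zero_add, sub_zero, zero_sub, neg_zero]
    linear_combination (X * v.c1 + Y * v.c2 + Z * v.c3) * hv' + (-X ^ 3 * v.c2 * v.c3 + X ^ 2 * Y * Z * v.c2 * v.c3 - X ^ 2 * v.c2 ^ 2 - X ^ 2 * v.c3 ^ 2 - X * Y ^ 2 * v.c2 * v.c3 + X * Y * Z * v.c2 ^ 2 + X * Y * Z * v.c3 ^ 2 - X * Y * v.c1 * v.c2 - X * Z ^ 2 * v.c2 * v.c3 + 3 * X * v.c2 * v.c3 - Y ^ 2 * v.c2 ^ 2 - Y ^ 2 * v.c3 ^ 2 - Y * v.c1 * v.c3 - Z ^ 2 * v.c2 ^ 2 - Z ^ 2 * v.c3 ^ 2 + Z * v.c1 * v.c2 + v.c0 ^ 2 - v.c1 ^ 2 + 3 * v.c2 ^ 2 + 3 * v.c3 ^ 2) * h2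
  have qb : (v * (QO.gb X Y Z * v * (QO.gb X Y Z).cj)).tr = QO.nu X Y Z * (v.c1 ^ 2 + Y * v.c1 * v.c3 + v.c3 ^ 2) := by
    simp only [QO.tr, QO.nu, QO.mul_c0, QO.mul_c1, QO.mul_c2, QO.mul_c3, QO.cj_c0, QO.cj_c1, QO.cj_c2, QO.cj_c3, QO.gb_c0,
      QO.gb_c1, QO.gb_c2, QO.gb_c3, mul_zero, zero_mul, mul_one, one_mul, add_zero, zero_add, sub_zero, zero_sub, neg_zero]
    linear_combination (X * v.c1 + Y * v.c2 + Z * v.c3) * hv' + (-X ^ 2 * Y * v.c1 * v.c3 - X ^ 2 * v.c1 ^ 2 - X ^ 2 * v.c3 ^ 2 + X * Y ^ 2 * Z * v.c1 * v.c3 + X * Y * Z * v.c1 ^ 2 + X * Y * Z * v.c3 ^ 2 - X * Y * v.c1 * v.c2 - X * v.c2 * v.c3 - Y ^ 3 * v.c1 * v.c3 - Y ^ 2 * v.c1 ^ 2 - Y ^ 2 * v.c3 ^ 2 - Y * Z ^ 2 * v.c1 * v.c3 + 3 * Y * v.c1 * v.c3 - Z ^ 2 * v.c1 ^ 2 - Z ^ 2 * v.c3 ^ 2 + Z * v.c1 * v.c2 + v.c0 ^ 2 + 3 * v.c1 ^ 2 - v.c2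 ^ 2 + 3 * v.c3 ^ 2) * h2
  have qc : (v * ((QO.ga X Y Z * QO.gb X Y Z) * v * (QO.ga X Y Z * QO.gb X Y Z).cj)).tr = QO.nu X Y Z * (v.c1 ^ 2 + v.c2 ^ 2 + Z * v.c1 * v.c2) := by
    rw [QO.ga_mul_gb]
    simp only [QO.tr, QO.nu, QO.mul_c0, QO.mul_c1, QO.mul_c2, QO.mul_c3, QO.cj_c0, QO.cj_c1, QO.cj_c2, QO.cj_c3,
      mul_zero, zero_mul, mul_one, one_mul, add_zero, zero_add, sub_zero, zero_sub, neg_zero]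
    linear_combination (X * v.c1 + Y * v.c2 + Z * v.c3) * hv' + (-X ^ 2 * v.c1 ^ 2 - X ^ 2 * v.c2 ^ 2 + X * Y * Z * v.c1 ^ 2 + X * Y * Z * v.c2 ^ 2 - X * Y * v.c1 * v.c2 - X * v.c2 * v.c3 - Y ^ 2 * v.c1 ^ 2 - Y ^ 2 * v.c2 ^ 2 - Y * v.c1 * v.c3 - Z ^ 2 * v.c1 ^ 2 - Z ^ 2 * v.c2 ^ 2 + Z * v.c1 * v.c2 + v.c0 ^ 2 + 3 * v.c1 ^ 2 + 3 * v.c2 ^ 2 - v.c3 ^ 2) * h2
  have e3 : X ^ 2 * (v.c1 ^ 2 + Y * v.c1 * v.c3 + v.c3 ^ 2) + Y ^ 2 * (v.c2 ^ 2 + X * v.c2 * v.c3 + v.c3 ^ 2) = QO.nu X Y Z * v.c3 ^ 2 := by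
    simp only [QO.nu]
    linear_combination (X * Y * v.c3 + X * v.c1 + Y * v.c2 + Z * v.c3) * hv' + (-X * Y * v.c0 * v.c3 - X * Y * v.c1 * v.c2 - X * Z * v.c1 * v.c3 - X * v.c0 * v.c1 - Y * Z * v.c2 * v.c3 - Y * v.c0 * v.c2 - Z ^ 2 * v.c3 ^ 2 - Z * v.c0 * v.c3 + 2 * v.c3 ^ 2) * h2
  have e2 : X ^ 2 * (v.c1 ^ 2 + v.c2 ^ 2 + Z * v.c1 * v.c2) + Z ^ 2 * (v.c2 ^ 2 + X * v.c2 * v.c3 + v.c3 ^ 2) = QO.nu X Y Z * v.c2 ^ 2 := by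
    simp only [QO.nu]
    linear_combination (X * Z * v.c2 + X * v.c1 + Y * v.c2 + Z * v.c3) * hv' + (-X * Y * v.c1 * v.c2 - X * Z * v.c0 * v.c2 - X * Z * v.c1 * v.c3 - X * v.c0 * v.c1 - Y ^ 2 * v.c2 ^ 2 - Y * Z * v.c2 * v.c3 - Y * v.c0 * v.c2 - Z * v.c0 * v.c3 + 2 * v.c2 ^ 2) * h2
  have e1 : Y ^ 2 * (v.c1 ^ 2 + v.c2 ^ 2 + Z * v.c1 * v.c2) + Z ^ 2 * (v.c1 ^ 2 + Y * v.c1 * v.c3 + v.c3 ^ 2) = QO.nu X Y Z * v.c1 ^ 2 := by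
    simp only [QO.nu]
    linear_combination (X * v.c1 + Y * Z * v.c1 + Y * v.c2 + Z * v.c3) * hv' + (-X ^ 2 * v.c1 ^ 2 - X * Y * v.c1 * v.c2 - X * Z * v.c1 * v.c3 - X * v.c0 * v.c1 - Y * Z * v.c0 * v.c1 - Y * Z * v.c2 * v.c3 - Y * v.c0 * v.c2 - Z * v.c0 * v.c3 + 2 * v.c1 ^ 2) * h2
  by_contra hcon
  push Not at hcon
  obtain ⟨h3, h4, h5⟩ := hcon
  rw [qa] at h3
  rw [qb] at h4
  rw [qc] at h5
  have h6 := (mul_eq_zero.1 h3).resolve_left hν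
  have h7 := (mul_eq_zero.1 h4).resolve_left hν
  have h8 := (mul_eq_zero.1 h5).resolve_left hν
  rw [h6, h7, mul_zero, mul_zero, add_zero] at e3
  rw [h6, h8, mul_zero, mul_zero, add_zero] at e2
  rw [h7, h8, mul_zero, mul_zero, add_zero] at e1
  have f1 : v.c1 = 0 := by
    have := (mul_eq_zero.1 e1.symm).resolve_left hν
    exact pow_eq_zero_iff (two_ne_zero) |>.1 this
  have f2 : v.c2 = 0 := by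
    have := (mul_eq_zero.1 e2.symm).resolve_left hν
    exact pow_eq_zero_iff (two_ne_zero) |>.1 this
  have f3 : v.c3 = 0 := by
    have := (mul_eq_zero.1 e3.symm).resolve_left hν
    exact pow_eq_zero_iff (two_ne_zero) |>.1 this
  apply hv1
  refine ⟨v.c0, ?_⟩
  ext
  · simp
  · simp [f1]
  · simp [f2]
  · simp [f3]

end

end MP35
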