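import Pool.Agent.Lib_MP_3538b5.Core2E

/-! # Piece C2K: deep commutators -/

set_option autoImplicit false

namespace MP35

universe u v w

section

variable {T : Type v} [CommRing T] {X Y Z : T}

variable {G : Type u} [Group G] [TopologicalSpace G] [TopologicalSpace T] (C : Core G T X Y Z)

omit [TopologicalSpace T] in
/-- the ring commutator of two deep elements -/
theorem ring_comm_deep (h2 : (2 : T) = 0) {v v' z1 z3 : QO T X Y Z} (hv : v.tr = 0) (hv' : v'.tr = 0)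
    (p : T) (N e : ℕ) :
    Dv (p ^ N) ((v + p ^ N • z1) * (v' + p ^ (N + e) • z3) - (v' + p ^ (N + e) • z3) * (v + p ^ N • z1)
      - (v * v').tr • (1 : QO T X Y Z)) := by
  rw [← comm_scalar h2 hv hv']
  have : (v + p ^ N • z1) * (v' + p ^ (N + e) • z3) - (v' + p ^ (N + e) • z3) * (v + p ^ N • z1)
      - (v * v' - v' * v) =
      p ^ N • ((z1 * v' - v' * z1) + p ^ e • (v * z3 - z3 * v)
        + p ^ (N + e) • (z1 * z3 - z3 * z1)) := by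
    simp only [add_mul, mul_add, smul_mul_assoc, mul_smul_comm, smul_smul, smul_sub, smul_add,
      ← pow_add]
    rw [Nat.add_comm (N + e) N]
    abel
  rw [this]
  exact dv_smul _ _

/-- PROOF. Let `ω = tr (v h v h̄)`. Given `M` let `N = max n1 M` and `n0 = 2 N + 6`. For `n ≥ n0` write `n = n' + n'' + 6` with `n', n'' ≥ N`. Take `g1` with `Rel (n'+2) g1 (v + π^n' z1)`, `g2` with
`Rel (n''+2) g2 (v + π^n'' z2)`, `g3 = h g2 h⁻¹`, `Rel (n''+2) g3 (v' + π^n'' z3)`, `v' = h v h̄` (`Rel_conj`), and `g = g1 g3 g1⁻¹ g3⁻¹`. `j g - 1 = (g1 g3 - g3 g1) g1⁻¹ g3⁻¹`; the scalars cancel in the ring commutator: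
`g1 g3 - g3 g1 = π^(n'+3+n''+3) [v + π^n' z1, v' + π^n'' z3] = π^n ([v, v'] + π^N (..))`, `[v, v'] = ω` by `comm_scalar` (`tr v' = tr v = 0`), and `g1⁻¹ g3⁻¹ = 1 + π^N (..)` (`Rel_dv`). So `j g = 1 + π^n (ω + π^M z)`. -/
theorem comm_deep (h2 : (2 : T) = 0) {v : QO T X Y Z} (hv : v.tr = 0) {n1 : ℕ}
    (hd : ∀ n : ℕ, n1 ≤ n → ∃ (g : G) (z : QO T X Y Z), C.Rel (n + 2) g (v + pz X Y ^ n • z)) (h : G) (M : ℕ) :
    ∃ n0 : ℕ, ∀ n : ℕ, n0 ≤ n → ∃ (g : G) (z : QO T X Y Z),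
      C.j g = 1 + pz X Y ^ n • ((v * (C.j h * v * (C.j h).cj)).tr • (1 : QO T X Y Z) + pz X Y ^ M • z) := by
  obtain ⟨N, hN1, hNM⟩ : ∃ N, n1 ≤ N ∧ M ≤ N := ⟨max n1 M, le_max_left _ _, le_max_right _ _⟩
  refine ⟨2 * N + 6, fun n hn => ?_⟩
  obtain ⟨e, rfl⟩ : ∃ e, n = (N + 3) + (N + e + 3) := ⟨n - (2 * N + 6), by omega⟩
  obtain ⟨g1, z1, h1⟩ := hd N hN1
  obtain ⟨g2, z2, h2'⟩ := hd (N + e) (by omega)
  have h3 := Rel_conj C h2' h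
  obtain ⟨g3, hg3⟩ : ∃ g3, g3 = h * g2 * h⁻¹ := ⟨_, rfl⟩
  obtain ⟨v', hv'⟩ : ∃ v', v' = C.j h * v * (C.j h).cj := ⟨_, rfl⟩
  obtain ⟨z3, hz3⟩ : ∃ z3, z3 = C.j h * z2 * (C.j h).cj := ⟨_, rfl⟩
  have ev : C.j h * (v + pz X Y ^ (N + e) • z2) * (C.j h).cj = v' + pz X Y ^ (N + e) • z3 := by
    rw [hv', hz3, mul_add, add_mul, mul_smul_comm, smul_mul_assoc]
  rw [ev, ← hg3] at h3
  have D1 : g1 ∈ C.N (pz X Y ^ N) := (Rel_dv C h1).mono (pow_dvd_pow _ (by omega))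
  have D3 : g3 ∈ C.N (pz X Y ^ N) := (Rel_dv C h3).mono (pow_dvd_pow _ (by omega))
  have DF : Dv (pz X Y ^ N) (C.j (g1⁻¹ * g3⁻¹) - 1) :=
    (C.N (pz X Y ^ N)).mul_mem ((C.N (pz X Y ^ N)).inv_mem D1) ((C.N (pz X Y ^ N)).inv_mem D3)
  have htr : v'.tr = 0 := by
    rw [hv', QO.tr_mul_comm, ← mul_assoc, C.cj_mul, one_mul, hv]
  have DE := ring_comm_deep (z1 := z1) (z3 := z3) h2 hv htr (pz X Y) N e
  obtain ⟨s1, e1, -⟩ := h1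
  obtain ⟨s3, e3, -⟩ := h3
  obtain ⟨ω, hω⟩ : ∃ ω, ω = (v * v').tr := ⟨_, rfl⟩
  obtain ⟨x, hx⟩ : ∃ x, x = v + pz X Y ^ N • z1 := ⟨_, rfl⟩
  obtain ⟨y, hy⟩ : ∃ y, y = v' + pz X Y ^ (N + e) • z3 := ⟨_, rfl⟩
  rw [← hω, ← hx, ← hy] at DE
  rw [← hx] at e1
  rw [← hy] at e3
  obtain ⟨E, hE⟩ : ∃ E, E = x * y - y * x - ω • (1 : QO T X Y Z) := ⟨_, rfl⟩
  obtain ⟨F, hF⟩ : ∃ F, F = C.j (g1⁻¹ * g3⁻¹) - 1 := ⟨_, rfl⟩
  rw [← hE] at DE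
  rw [← hF] at DF
  have hcomm : C.j g1 * C.j g3 - C.j g3 * C.j g1 =
      pz X Y ^ ((N + 3) + (N + e + 3)) • (ω • (1 : QO T X Y Z) + E) := by
    rw [e1, e3, hE]
    generalize pz X Y = p
    simp only [add_mul, mul_add, smul_mul_assoc, mul_smul_comm, one_mul, mul_one, add_sub_cancel]
    module
  have hg : C.j (g1 * g3 * g1⁻¹ * g3⁻¹) - 1 =
      (C.j g1 * C.j g3 - C.j g3 * C.j g1) * C.j (g1⁻¹ * g3⁻¹) := by
    rw [sub_mul, ← map_mul, ← map_mul, ← map_mul, ← map_mul]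
    have a1 : g3 * g1 * (g1⁻¹ * g3⁻¹) = 1 := by group
    have a2 : g1 * g3 * (g1⁻¹ * g3⁻¹) = g1 * g3 * g1⁻¹ * g3⁻¹ := by group
    rw [a1, a2, map_one]
  have DB : Dv (pz X Y ^ M) (ω • F + (E + E * F)) :=
    ((DF.smul ω).add (DE.add (DF.mul_left E))).mono (pow_dvd_pow _ hNM)
  obtain ⟨z, hz⟩ := DB
  refine ⟨g1 * g3 * g1⁻¹ * g3⁻¹, z, ?_⟩
  have hF' : C.j (g1⁻¹ * g3⁻¹) = 1 + F := by rw [hF]; abel
  rw [hF', hcomm] at hg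
  have : C.j (g1 * g3 * g1⁻¹ * g3⁻¹) =
      1 + (pz X Y ^ ((N + 3) + (N + e + 3)) • (ω • (1 : QO T X Y Z) + E)) * (1 + F) := by
    rw [← hg]; abel
  rw [this, ← hv', ← hω, ← hz]
  congr 1
  rw [smul_mul_assoc, add_mul, mul_add, mul_add, mul_one, mul_one, smul_mul_assoc, one_mul]
  congr 1
  abel

end

end MP35
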