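import Pool.Agent.Lib_MP_3538b5.Core2D

/-! # Piece C2V: a limit leading vector -/

set_option autoImplicit false

namespace MP35

universe u v w

section

variable {G : Type u} [Group G] [TopologicalSpace G] {T : Type v} [CommRing T]
    [TopologicalSpace T] {X Y Z : T} (C : Core G T X Y Z)

/-- PROOF. Start with `k, g, x` of `deep_one`, `k = n1 + 2`, `n1 ≥ 2`. By `Rel_psi` there are `g_i`, `x_i` with `Rel (n1 + 2 + i) g_i x_i`, `x_0 = x`, `x_(i+1) = x_i + π^(n1+i) z_i`. The sets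
`x_i + π^(n1+i) QO` are closed, nonempty and decreasing in the compact space `QO`; let `v` be a common element: `x_i = v + π^(n1+i) z`. So the last claim holds with this `n1`. If `v = r` were a scalar then `x = r + π^(n1) z`,
`n1 ≥ 2`: excluded. By `Rel_tr`, `π^(n+1) ∣ tr (v + π^n z)`, so `π^n ∣ tr v` for all `n ≥ n1` and `tr v = 0` (`exists_not_pow_dvd`). -/
theorem deep_two [IsTopologicalGroup G] [IsTopologicalRing T] [T2Space T] [CompactSpace T]
    [IsLinearTopology T T] [IsDomain T] (hG : GP G)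
    (h2 : (2 : T) = 0) (hπ' : IsTopologicallyNilpotent (pz X Y)) :
    ∃ v : QO T X Y Z, v.tr = 0 ∧ (¬ ∃ r : T, v = r • (1 : QO T X Y Z)) ∧
      ∃ n1 : ℕ, ∀ n : ℕ, n1 ≤ n → ∃ (g : G) (z : QO T X Y Z), C.Rel (n + 2) g (v + pz X Y ^ n • z) := by
  classical
  have hπ : pz X Y ≠ 0 :=
    mul_ne_zero (pow_ne_zero 2 (C.X_ne hG).1) (pow_ne_zero 2 (C.X_ne hG).2.1)
  obtain ⟨k, g, x, hk, hrel, hnot⟩ := deep_one C hG h2 hπ'
  obtain ⟨n1, rfl⟩ : ∃ n1, k = n1 + 2 := ⟨k - 2, by omega⟩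
  have hn1 : 2 ≤ n1 := by omega
  have hstep : ∀ (i : ℕ) (p : {p : G × QO T X Y Z // C.Rel (n1 + i + 2) p.1 p.2}),
      ∃ q : {q : G × QO T X Y Z // C.Rel (n1 + (i + 1) + 2) q.1 q.2}, ∃ z : QO T X Y Z,
        q.1.2 = p.1.2 + pz X Y ^ (n1 + i) • z := by
    intro i p
    obtain ⟨g', z, h⟩ := Rel_psi C h2 hπ p.2
    exact ⟨⟨(g', p.1.2 + pz X Y ^ (n1 + i) • z), h⟩, z, rfl⟩
  choose nx hnx using hstep
  let f : (i : ℕ) → {p : G × QO T X Y Z // C.Rel (n1 + i + 2) p.1 p.2} := fun i =>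
    Nat.rec (motive := fun i => {p : G × QO T X Y Z // C.Rel (n1 + i + 2) p.1 p.2})
      ⟨(g, x), hrel⟩ (fun i p => nx i p) i
  have hf : ∀ i, ∃ z : QO T X Y Z, (f (i + 1)).1.2 = (f i).1.2 + pz X Y ^ (n1 + i) • z :=
    fun i => hnx i (f i)
  have hf0 : (f 0).1.2 = x := rfl
  obtain ⟨v, hv⟩ := IsCompact.nonempty_iInter_of_sequence_nonempty_isCompact_isClosed
    (fun i => {y : QO T X Y Z | Dv (pz X Y ^ (n1 + i)) (y - (f i).1.2)})
    (by
      intro i y hy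
      obtain ⟨r, hr⟩ := hy
      obtain ⟨z, hz⟩ := hf i
      refine ⟨pz X Y • r + z, ?_⟩
      have e : y - (f i).1.2 = (y - (f (i + 1)).1.2) + pz X Y ^ (n1 + i) • z := by
        rw [hz]
        abel
      rw [e, hr, smul_add, smul_smul, ← add_assoc n1 i 1, pow_succ])
    (fun i => ⟨(f i).1.2, by
      show Dv _ _
      rw [sub_self]
      exact Dv.zero _⟩)
    ((isClosed_dv (pz X Y ^ (n1 + 0))).preimage (continuous_id.sub continuous_const)).isCompact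
    (fun i => (isClosed_dv (pz X Y ^ (n1 + i))).preimage (continuous_id.sub continuous_const))
  have hv' : ∀ i, ∃ z : QO T X Y Z, (f i).1.2 = v + pz X Y ^ (n1 + i) • z := by
    intro i
    obtain ⟨r, hr⟩ := Set.mem_iInter.1 hv i
    refine ⟨-r, ?_⟩
    rw [smul_neg, ← hr]
    abel
  have hmain : ∀ n : ℕ, n1 ≤ n → ∃ (g : G) (z : QO T X Y Z),
      C.Rel (n + 2) g (v + pz X Y ^ n • z) := by
    intro n hn
    obtain ⟨i, rfl⟩ := Nat.exists_eq_add_of_le hn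
    obtain ⟨z, hz⟩ := hv' i
    refine ⟨(f i).1.1, z, ?_⟩
    rw [← hz]
    exact (f i).2
  refine ⟨v, ?_, ?_, n1, hmain⟩
  · by_contra hne
    obtain ⟨N, hN⟩ := exists_not_pow_dvd hπ' hne
    obtain ⟨g', z, hg'⟩ := hmain (max n1 N) (le_max_left _ _)
    have h1 : pz X Y ^ (max n1 N + 1) ∣ (v + pz X Y ^ (max n1 N) • z).tr := Rel_tr C h2 hπ hg'
    rw [QO.tr_add, QO.tr_smul] at h1
    have h3 : pz X Y ^ (max n1 N) ∣ v.tr + pz X Y ^ (max n1 N) * z.tr :=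
      (pow_dvd_pow _ (Nat.le_succ _)).trans h1
    have h4 : pz X Y ^ (max n1 N) ∣ v.tr :=
      (dvd_add_left (Dvd.intro _ rfl)).1 h3
    exact hN ((pow_dvd_pow _ (le_max_right _ _)).trans h4)
  · rintro ⟨r, hr⟩
    obtain ⟨z, hz⟩ := hv' 0
    apply hnot
    refine ⟨r, pz X Y ^ (n1 - 2) • z, ?_⟩
    rw [← hf0, hz, hr, smul_smul, ← pow_add]
    have e : 2 + (n1 - 2) = n1 + 0 := by omega
    rw [e]

end

end MP35
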