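import Pool.Agent.Lib_MP_3538b5.Core2T
import Pool.Agent.Lib_MP_3538b5.Core2V
import Pool.Agent.Lib_MP_3538b5.Core2K

/-! # Piece C2F: contradiction in characteristic 2 -/

set_option autoImplicit false

namespace MP35

universe u v w

section

variable {G : Type u} [Group G] [TopologicalSpace G] {T : Type v} [CommRing T]
    [TopologicalSpace T] {X Y Z : T} (C : Core G T X Y Z)

/-- PROOF. The set of `g` with the claimed property is closed (`isClosed_dv`), so it is enough to show it for `g = t ^ m`, `m ∈ ℤ`. `j (t²) = 1 + 2 π^n x + π^(2n) x² = 1 + π^(2n) x²`, so `t² ∈ C.N (π^(2n))`, and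
`t ^ m ∈ C.N (π^(2n))` for even `m`. For odd `m`, `t ^ m = t * t ^ (m-1)` and `j (t^m) - j t = j t (j (t^(m-1)) - 1)`. -/
theorem cl_cases [IsTopologicalGroup G] [IsTopologicalRing T] [CompactSpace T] [T2Space T]
    (h2 : (2 : T) = 0) {n : ℕ} {t : G} {x : QO T X Y Z} (ht : C.j t = 1 + pz X Y ^ n • x) {g : G}
    (hg : g ∈ cl t) : Dv (pz X Y ^ (2 * n)) (C.j g - 1) ∨ Dv (pz X Y ^ (2 * n)) (C.j g - C.j t) := by
  have hclosed : IsClosed {g : G | Dv (pz X Y ^ (2 * n)) (C.j g - 1) ∨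
      Dv (pz X Y ^ (2 * n)) (C.j g - C.j t)} := by
    have h1 : IsClosed ((fun g : G => C.j g - 1) ⁻¹' {x : QO T X Y Z | Dv (pz X Y ^ (2 * n)) x}) :=
      (isClosed_dv _).preimage (C.cont.sub continuous_const)
    have h3 : IsClosed ((fun g : G => C.j g - C.j t) ⁻¹'
        {x : QO T X Y Z | Dv (pz X Y ^ (2 * n)) x}) :=
      (isClosed_dv _).preimage (C.cont.sub continuous_const)
    exact h1.union h3
  have hsq : t * t ∈ C.N (pz X Y ^ (2 * n)) := by
    refine ⟨x * x, ?_⟩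
    rw [map_mul, ht]
    have h22 : (pz X Y ^ n • x) + (pz X Y ^ n • x) = (0 : QO T X Y Z) := by
      rw [← two_smul T (pz X Y ^ n • x), h2, zero_smul]
    have h3 : ∀ y : QO T X Y Z, (1 + y) * (1 + y) - 1 = (y + y) + y * y := by
      intro y
      simp only [mul_add, add_mul, mul_one, one_mul]
      abel
    rw [h3, h22, zero_add, smul_mul_smul_comm, ← pow_add, two_mul]
  have hev : ∀ k : ℤ, (t * t) ^ k ∈ C.N (pz X Y ^ (2 * n)) := fun k => Subgroup.zpow_mem _ hsq k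
  have hz : (Subgroup.zpowers t : Set G) ⊆ {g : G | Dv (pz X Y ^ (2 * n)) (C.j g - 1) ∨
      Dv (pz X Y ^ (2 * n)) (C.j g - C.j t)} := by
    rintro g ⟨m, rfl⟩
    have hpow : ∀ k : ℤ, (t * t) ^ k = t ^ (2 * k) := by
      intro k
      rw [zpow_mul]
      congr 1
      exact (zpow_two t).symm
    rcases Int.even_or_odd' m with ⟨k, hk | hk⟩
    · left
      have h3 := hev k
      rw [hpow, ← hk] at h3
      exact h3
    · right
      have h3 : Dv (pz X Y ^ (2 * n)) (C.j ((t * t) ^ k) - 1) := hev k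
      have h4 : t ^ m = t * (t * t) ^ k := by
        rw [hpow, hk, add_comm, zpow_add, zpow_one]
      show Dv (pz X Y ^ (2 * n)) (C.j (t ^ m) - C.j t)
      have h5 : C.j (t ^ m) - C.j t = C.j t * (C.j ((t * t) ^ k) - 1) := by
        rw [h4, map_mul, mul_sub, mul_one]
      rw [h5]
      exact h3.mul_left _
  exact (closure_minimal hz hclosed) hg

omit [TopologicalSpace T] in
/-- comparison of the first coordinates -/
private theorem c2f_dvd [IsDomain T] {p u : T} (hp : p ≠ 0) {k m M : ℕ} (hk : k + M ≤ m)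
    {y z : QO T X Y Z} (hy : y = p ^ k • (u • (1 : QO T X Y Z) + p ^ M • z))
    (h : Dv (p ^ m) y) : p ^ M ∣ u := by
  obtain ⟨r, hr⟩ := h
  have h0 := congrArg QO.c0 (hy.symm.trans hr)
  simp only [QO.smul_c0, QO.add_c0, QO.one_c0, mul_one] at h0
  obtain ⟨e, rfl⟩ := Nat.exists_eq_add_of_le hk
  have h1 : u + p ^ M * z.c0 = p ^ M * (p ^ e * r.c0) := by
    refine mul_left_cancel₀ (pow_ne_zero k hp) ?_
    rw [h0]
    ring
  refine ⟨p ^ e * r.c0 - z.c0, ?_⟩
  linear_combination h1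

omit [TopologicalSpace T] in
private theorem c2f_unit {p u : T} {M : ℕ} (h : p ^ M ∣ (p - 1) * u) : p ^ M ∣ u := by
  have h1 : IsCoprime p (p - 1) := ⟨1, -1, by ring⟩
  exact (h1.pow_left (m := M)).dvd_of_dvd_mul_left h

include C in
/-- PROOF. Write `π = pz X Y` (`≠ 0` by `Core.X_ne`; topologically nilpotent as a multiple of `X`). Take `v, n1` from `deep_two` and `h ∈ {C.a, C.b, C.a * C.b}` with `ω = tr (v h v h̄) ≠ 0` (`exists_q`, `C.nu`). Take `M0 ≥ 1` with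
`¬ π^M0 ∣ ω` (`exists_not_pow_dvd`) and `k0` from `V2_stab`. For all large `n` there is (`comm_deep` with `M = M0 + 2`) `g` with `j g = 1 + π^n (ω + π^(M0+2) z)`; then `a j g - j g a = π^(n+M0+2) (..)`, and `torus` (with its `n` equal to `n + M0`) gives
`t_n` commuting with `C.a` with `j t_n = 1 + π^n (ω + π^M0 z_n)`. Fix `n ≥ M0 + 1` so large that `t_n` and `t_(n+1)` exist. `C.a ≠ 1`, so `t_n` and `t_(n+1)` commute (`GP.trans`) and by `GP.cyc` one is in the closed subgroup generated by the other.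
(i) `t_(n+1) ∈ cl t_n`: by `cl_cases` `π^(n+1) (ω + π^M0 z_(n+1))` or `π^n (π ω + π^(M0+1) z_(n+1) - ω - π^M0 z_n)` is divisible by `π^(2n)`. Cancel and use `2n ≥ n + 1 + M0`: `π^M0` divides `ω` resp. `(π - 1) ω` in `QO`, so in `T` (coordinate `c0`); and
`1 - π` is a unit (`π` topologically nilpotent) - or: `π^M0 ∣ (1 - π) ω` gives `π^M0 ∣ (1 - π) (1 + π + ... + π^(M0-1)) ω = (1 - π^M0) ω`, so `π^M0 ∣ ω`: contradiction.
(ii) `t_n ∈ cl t_(n+1)`: `π^n (ω + π^M0 z_n)` or `π^n (ω + π^M0 z_n - π ω - π^(M0+1) z_(n+1))` is divisible by `π^(2n+2)`: the same. -/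
theorem core2_false [IsTopologicalGroup G] [CompactSpace G] [T2Space G] [IsTopologicalRing T] [CompactSpace T] [T2Space T]
    [IsLinearTopology T T] [IsDomain T] (hG : GP G) (hT : TOK X Y Z) (h2 : (2 : T) = 0) : False := by
  classical
  obtain ⟨hX, hY, -⟩ := C.X_ne hG
  have hπ : pz X Y ≠ 0 := mul_ne_zero (pow_ne_zero 2 hX) (pow_ne_zero 2 hY)
  have hπ' : IsTopologicallyNilpotent (pz X Y) := by
    have h3 : pz X Y = X * (X * Y ^ 2) := by unfold pz; ring
    rw [h3]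
    exact hT.tX.mul_right _
  obtain ⟨v, hv, hv1, n1, hd⟩ := deep_two C hG h2 hπ'
  obtain ⟨H, hω⟩ : ∃ H : G, (v * (C.j H * v * (C.j H).cj)).tr ≠ 0 := by
    rcases exists_q h2 C.nu hv hv1 with h | h | h
    · exact ⟨C.a, by rw [C.ja]; exact h⟩
    · exact ⟨C.b, by rw [C.jb]; exact h⟩
    · exact ⟨C.a * C.b, by rw [map_mul, C.ja, C.jb]; exact h⟩
  obtain ⟨ω, hωdef⟩ : ∃ ω : T, ω = (v * (C.j H * v * (C.j H).cj)).tr := ⟨_, rfl⟩
  rw [← hωdef] at hω
  obtain ⟨M0, hM0⟩ := exists_not_pow_dvd hπ' hω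
  obtain ⟨k0, hk0, hst⟩ := V2_stab C h2 hπ hT.noeth
  obtain ⟨n0, hn0⟩ := comm_deep C h2 hv hd H (M0 + 2)
  rw [← hωdef] at hn0
  have key : ∀ n : ℕ, max n0 (max k0 2) ≤ n → ∃ (t : G) (z : QO T X Y Z), t * C.a = C.a * t ∧
      C.j t = 1 + pz X Y ^ n • (ω • (1 : QO T X Y Z) + pz X Y ^ M0 • z) := by
    intro n hn
    obtain ⟨g, z, hg⟩ := hn0 n (le_trans (le_max_left _ _) hn)
    have hk : k0 ≤ n := le_trans (le_trans (le_max_left _ _) (le_max_right _ _)) hn
    have hn2 : 2 ≤ n := le_trans (le_trans (le_max_right _ _) (le_max_right _ _)) hn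
    have hg1 : Dv (pz X Y ^ 2) (C.j g - 1) := by
      rw [hg, add_sub_cancel_left]
      exact (dv_smul _ _).mono (pow_dvd_pow _ hn2)
    have hg2 : Dv (pz X Y ^ (n + M0 + 2)) (QO.ga X Y Z * C.j g - C.j g * QO.ga X Y Z) := by
      refine ⟨QO.ga X Y Z * z - z * QO.ga X Y Z, ?_⟩
      rw [hg]
      simp only [mul_add, add_mul, mul_smul_comm, smul_mul_assoc, mul_one, one_mul, smul_add,
        smul_sub, smul_smul]
      rw [show pz X Y ^ n * pz X Y ^ (M0 + 2) = pz X Y ^ (n + M0 + 2) by ring]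
      abel
    obtain ⟨t, ht1, r, hr⟩ := torus C h2 hπ hπ' hk0 hst (le_trans hk (Nat.le_add_right n M0)) hg1 hg2
    refine ⟨t, pz X Y ^ 2 • z + r, ht1, ?_⟩
    rw [sub_eq_iff_eq_add.1 hr, hg]
    simp only [smul_add, smul_smul]
    rw [show pz X Y ^ n * pz X Y ^ (M0 + 2) = pz X Y ^ n * (pz X Y ^ M0 * pz X Y ^ 2) by ring,
      show pz X Y ^ n * (pz X Y ^ M0) = pz X Y ^ (n + M0) by ring]
    abel
  obtain ⟨n, hnn⟩ : ∃ n : ℕ, n = max (max n0 (max k0 2)) (M0 + 1) := ⟨_, rfl⟩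
  have hn1 : max n0 (max k0 2) ≤ n := by rw [hnn]; exact le_max_left _ _
  have hn2 : M0 + 1 ≤ n := by rw [hnn]; exact le_max_right _ _
  obtain ⟨t, z, ht, hjt⟩ := key n hn1
  obtain ⟨t', z', ht', hjt'⟩ := key (n + 1) (le_trans hn1 (Nat.le_succ n))
  have ha : C.a ≠ 1 := by
    intro h
    have h3 := C.ja
    rw [h, map_one] at h3
    have h4 := congrArg QO.c1 h3
    simp at h4
  have hcomm : t * t' = t' * t := hG.trans t C.a t' ha ht ht'.symm
  have e1 : C.j t' - 1 = pz X Y ^ (n + 1) • (ω • (1 : QO T X Y Z) + pz X Y ^ M0 • z') := by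
    rw [hjt', add_sub_cancel_left]
  have e2 : C.j t - 1 = pz X Y ^ n • (ω • (1 : QO T X Y Z) + pz X Y ^ M0 • z) := by
    rw [hjt, add_sub_cancel_left]
  have e3 : C.j t' - C.j t = pz X Y ^ n • (((pz X Y - 1) * ω) • (1 : QO T X Y Z) +
      pz X Y ^ M0 • (pz X Y • z' - z)) := by
    rw [hjt', hjt]
    simp only [smul_add, smul_sub, smul_smul, sub_mul, sub_smul, one_mul]
    rw [show pz X Y ^ (n + 1) * ω = pz X Y ^ n * (pz X Y * ω) by ring,
      show pz X Y ^ (n + 1) * pz X Y ^ M0 = pz X Y ^ n * (pz X Y ^ M0 * pz X Y) by ring]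
    abel
  rcases hG.cyc t t' hcomm with h | h
  · rcases cl_cases C h2 hjt h with h3 | h3
    · exact hM0 (c2f_dvd hπ (by omega) e1 h3)
    · exact hM0 (c2f_unit (c2f_dvd hπ (by omega) e3 h3))
  · rcases cl_cases C h2 hjt' h with h3 | h3
    · exact hM0 (c2f_dvd hπ (by omega) e2 h3)
    · have h4 : Dv (pz X Y ^ (2 * (n + 1))) (C.j t' - C.j t) := by
        rw [← neg_sub]
        exact h3.neg
      exact hM0 (c2f_unit (c2f_dvd hπ (by omega) e3 h4))

end

end MP35
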