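import Pool.Agent.Lib_MP_3538b5.Core2C

/-! # Piece C2T: elements commuting with a -/

set_option autoImplicit false

namespace MP35

universe u v w

section

variable {G : Type u} [Group G] [TopologicalSpace G] {T : Type v} [CommRing T]
    [TopologicalSpace T] {X Y Z : T} (C : Core G T X Y Z)

/-- PROOF. By induction on `m ≥ n` there is `t ∈ G` with `Dv (π^n) (j t - j g)` and `Dv (π^(m+2)) (a j t - j t a)` (`kill` with `n := m`, `g := t`; `n ≥ 4` so `Dv (π^2) (j t - 1)`; `j (t h) - j t = j t (j h - 1)`). The sets of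
such `t` are closed (`isClosed_dv`), nonempty and decreasing in the compact space `G`; a common element `t` satisfies `a j t = j t a` (`eq_zero_of_dv`), so `t` commutes with `C.a` by injectivity of `j`. -/
theorem torus [IsTopologicalGroup G] [T2Space G] [IsTopologicalRing T] [CompactSpace T] [T2Space T] [CompactSpace G]
    [IsLinearTopology T T] [IsDomain T]
    (h2 : (2 : T) = 0) (hπ : pz X Y ≠ 0) (hπ' : IsTopologicallyNilpotent (pz X Y)) {k0 : ℕ} (hk0 : 4 ≤ k0)
    (hst : ∀ k : ℕ, k0 ≤ k → C.V2 k 2 = C.V2 k0 2) {n : ℕ} (hn : k0 ≤ n) {g : G}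
    (hg : Dv (pz X Y ^ 2) (C.j g - 1))
    (hg2 : Dv (pz X Y ^ (n + 2)) (QO.ga X Y Z * C.j g - C.j g * QO.ga X Y Z)) :
    ∃ t : G, t * C.a = C.a * t ∧ Dv (pz X Y ^ n) (C.j t - C.j g) := by
  classical
  set p : T := pz X Y with hp
  let S : ℕ → Set G := fun i => {t | Dv (p ^ n) (C.j t - C.j g) ∧
    Dv (p ^ (n + i + 2)) (QO.ga X Y Z * C.j t - C.j t * QO.ga X Y Z)}
  have hne : ∀ i : ℕ, (S i).Nonempty := by
    intro i
    induction i with
    | zero =>
      refine ⟨g, ?_, ?_⟩
      · rw [sub_self]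
        exact Dv.zero _
      · exact hg2
    | succ i ih =>
      obtain ⟨t, ht1, ht2⟩ := ih
      have ht0 : Dv (p ^ 2) (C.j t - 1) := by
        have e : C.j t - 1 = (C.j t - C.j g) + (C.j g - 1) := by abel
        rw [e]
        exact (ht1.mono (pow_dvd_pow p (by omega))).add hg
      obtain ⟨h, hh1, hh2⟩ := kill C h2 hπ hk0 hst (n := n + i) (by omega) ht0 ht2
      refine ⟨t * h, ?_, ?_⟩
      · have e : C.j (t * h) - C.j g = C.j t * (C.j h - 1) + (C.j t - C.j g) := by
          rw [map_mul, mul_sub, mul_one]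
          abel
        rw [e]
        exact ((hh1.mono (pow_dvd_pow p (by omega))).mul_left _).add ht1
      · have e : n + (i + 1) + 2 = n + i + 3 := by omega
        rw [e]
        exact hh2
  have hcl : ∀ i : ℕ, IsClosed (S i) := by
    intro i
    have h1 : IsClosed {t : G | Dv (p ^ n) (C.j t - C.j g)} :=
      (isClosed_dv (p ^ n)).preimage (C.cont.sub continuous_const)
    have h3 : IsClosed {t : G | Dv (p ^ (n + i + 2)) (QO.ga X Y Z * C.j t - C.j t * QO.ga X Y Z)} :=
      (isClosed_dv (p ^ (n + i + 2))).preimage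
        ((continuous_const.mul C.cont).sub (C.cont.mul continuous_const))
    exact h1.inter h3
  have hmono : ∀ i : ℕ, S (i + 1) ⊆ S i := by
    rintro i t ⟨ht1, ht2⟩
    exact ⟨ht1, ht2.mono (pow_dvd_pow p (by omega))⟩
  obtain ⟨t, ht⟩ := IsCompact.nonempty_iInter_of_sequence_nonempty_isCompact_isClosed S hmono hne
    (hcl 0).isCompact hcl
  rw [Set.mem_iInter] at ht
  refine ⟨t, ?_, (ht 0).1⟩
  have hz : QO.ga X Y Z * C.j t - C.j t * QO.ga X Y Z = 0 := by
    refine eq_zero_of_dv hπ' fun k => ?_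
    exact ((ht k).2).mono (pow_dvd_pow p (by omega))
  apply C.inj
  rw [map_mul, map_mul, C.ja]
  exact (sub_eq_zero.1 hz).symm

end

end MP35
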