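import Pool.Agent.Lib_MP_3538b5.Core2A

/-! # Piece C2X: the operators xi -/

set_option autoImplicit false

namespace MP35

universe u v w

section

variable {G : Type u} [Group G] [TopologicalSpace G] {T : Type v} [CommRing T]
    [TopologicalSpace T] {X Y Z : T} (C : Core G T X Y Z)

/-- PROOF. Norm of `j g = s + π^(k+2) x`, `s = 1 + π^(k+1) u` (`QO.nm_add_smul`): `s² + s π^(k+2) tr x + π^(2k+4) nm x = 1`, and `s² - 1 = (s - 1)² = π^(2k+2) u²` as `2 = 0`. So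
`s tr x = - π^k (u² + π² nm x)` (cancel `π^(k+2) ≠ 0`), and `tr x = s tr x - π^(k+1) u tr x` is divisible by `π^k`. -/
theorem Rel_tr [IsDomain T] (h2 : (2 : T) = 0) (hπ : pz X Y ≠ 0) {k : ℕ} {g : G} {x : QO T X Y Z}
    (hg : C.Rel (k + 1) g x) : pz X Y ^ k ∣ x.tr := by
  obtain ⟨s, h1, u, h3⟩ := hg
  have hs : s = 1 + pz X Y ^ (k + 1) * u := by linear_combination h3
  have hn := C.norm g
  rw [h1, QO.nm_add_smul, hs] at hn
  refine ⟨-(u ^ 2 + pz X Y ^ 2 * x.nm) - pz X Y * u * x.tr, ?_⟩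
  have hP : pz X Y ^ (k + 2) ≠ 0 := pow_ne_zero _ hπ
  apply mul_left_cancel₀ hP
  linear_combination hn - (pz X Y ^ (k + 1) * u) * h2

omit [TopologicalSpace T] in
private theorem x_mul (s P : T) (A B : QO T X Y Z) :
    (s • (1 : QO T X Y Z) + P • A) * (s • 1 + P • B) =
      (s * s) • 1 + (s * P) • (A + B) + (P * P) • (A * B) := by
  ext <;> simp <;> ring

omit [TopologicalSpace T] in
private theorem x_pol (H x : QO T X Y Z) :
    H * x + x * H = H.tr • x + x.tr • H - (H.tr * x.tr - (H * x).tr) • (1 : QO T X Y Z) := by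
  ext <;> simp [QO.tr] <;> ring

/-- PROOF. Write `h` for `j h`, `τ = tr h`. `j (h g h⁻¹) = s + π^(k+2) h x h̄`, `j (h⁻¹ g h)⁻¹ = (s + π^(k+2) h̄ x h).cj = s + π^(k+2) (tr x - h̄ x h)`. The product is
`s² + s π^(k+2) (h x h̄ - h̄ x h + tr x) + π^(2k+4) w`. `s² = 1 + π^(2k+2) u²` (`2 = 0`). `h x h̄ - h̄ x h = τ (h x - x h)` (`QO.xh_eq`) and in characteristic 2
`h x - x h = τ x + tr x h - r0` with a scalar `r0` (polarization of `y² = tr y y - nm y`; `ext; simp; ring` type identity with `2 = 0`). `tr x = π^k e` by `Rel_tr`, `s = 1 + π^(k+1) u`. So the product is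
`(1 + π^(2k+2) u² + π^(k+2) r) + π^(k+2) (τ² x + π^k z)` with `r = s (tr x - τ r0)` and some `z`; and `2k+2 ≥ k+2` so that the scalar is `1` modulo `π^(k+2)`. -/
theorem Rel_xi [IsDomain T] (h2 : (2 : T) = 0) (hπ : pz X Y ≠ 0) {k : ℕ} {g : G} {x : QO T X Y Z}
    (hg : C.Rel (k + 1) g x) (h : G) :
    ∃ z, C.RelN (k + 1) (xi h g) ((C.j h).tr ^ 2 • x + pz X Y ^ k • z) := by
  obtain ⟨e, he⟩ := Rel_tr C h2 hπ hg
  obtain ⟨s, h1, u, h3⟩ := hg
  have hs : s = 1 + pz X Y ^ (k + 1) * u := by linear_combination h3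
  obtain ⟨H, hH⟩ : ∃ H, H = C.j h := ⟨_, rfl⟩
  obtain ⟨P, hP⟩ : ∃ P, P = pz X Y ^ (k + 2) := ⟨_, rfl⟩
  have hP' : pz X Y ^ (k + 1 + 1) = P := by rw [hP]
  have hHc : H * H.cj = 1 := by rw [hH]; exact C.mul_cj h
  have hcH : H.cj * H = 1 := by rw [hH]; exact C.cj_mul h
  have hA : C.j (h * g * h⁻¹) = s • 1 + P • (H * x * H.cj) := by
    rw [map_mul, map_mul, C.j_inv, h1, ← hH, hP', mul_add, add_mul, mul_smul_comm, mul_smul_comm,
      smul_mul_assoc, smul_mul_assoc, mul_one, hHc]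
  have hB0 : C.j (h⁻¹ * g * h) = s • 1 + P • (H.cj * x * H) := by
    rw [map_mul, map_mul, C.j_inv, h1, ← hH, hP', mul_add, add_mul, mul_smul_comm, mul_smul_comm,
      smul_mul_assoc, smul_mul_assoc, mul_one, hcH]
  have hB : C.j (h⁻¹ * g * h)⁻¹ = s • 1 + P • (x.tr • 1 - H.cj * x * H) := by
    rw [C.j_inv, hB0, QO.cj_add, QO.cj_smul, QO.cj_smul, QO.cj_one, QO.cj_mul, QO.cj_mul,
      QO.cj_cj, QO.cj_eq x, sub_mul, smul_mul_assoc, one_mul, mul_sub, mul_smul_comm, hcH,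
      ← mul_assoc]
  have hAB : H * x * H.cj + (x.tr • 1 - H.cj * x * H) =
      (H.tr ^ 2) • x + (H.tr * x.tr) • H +
        (x.tr - H.tr * (H.tr * x.tr - (H * x).tr)) • (1 : QO T X Y Z) := by
    have e1 := QO.xh_eq H x
    have e2 := x_pol H x
    have e3 : H * x - x * H = H * x + x * H := by
      have e4 : (2 : T) • (x * H) = 0 := by rw [h2, zero_smul]
      have e5 : H * x + x * H = H * x - x * H + (2 : T) • (x * H) := by
        rw [two_smul]; abel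
      rw [e5, e4, add_zero]
    have e6 : H * x * H.cj + (x.tr • 1 - H.cj * x * H) =
        (H * x * H.cj - H.cj * x * H) + x.tr • 1 := by abel
    rw [e6, e1, e3, e2]
    ext <;> simp <;> ring
  refine ⟨(pz X Y * u * H.tr ^ 2) • x + (s * H.tr * e) • H +
    (pz X Y ^ 2) • ((H * x * H.cj) * (x.tr • 1 - H.cj * x * H)),
    s * s + s * P * (x.tr - H.tr * (H.tr * x.tr - (H * x).tr)), ?_, ?_⟩
  · unfold xi
    rw [map_mul, hA, hB, x_mul, hAB, ← hH]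
    obtain ⟨W, hW⟩ : ∃ W, W = (H * x * H.cj) * (x.tr • 1 - H.cj * x * H) := ⟨_, rfl⟩
    rw [← hW]
    obtain ⟨r, hr⟩ : ∃ r, r = x.tr - H.tr * (H.tr * x.tr - (H * x).tr) := ⟨_, rfl⟩
    rw [← hr, he, hP, hs]
    ext <;> simp <;> ring
  · refine ⟨pz X Y ^ k * u ^ 2 + s * (x.tr - H.tr * (H.tr * x.tr - (H * x).tr)), ?_⟩
    obtain ⟨r, hr⟩ : ∃ r, r = x.tr - H.tr * (H.tr * x.tr - (H * x).tr) := ⟨_, rfl⟩
    rw [← hr, hP, hs]
    linear_combination (pz X Y ^ (k + 1) * u) * h2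

/-- PROOF. `Rel_xi` with `b` (trace `Y`), then with `a` (trace `X`) (index `k+2 = (k+1)+1`): a `RelN (k+2)` for the vector
`X² (Y² x + π^(k+1) z1) + π^(k+1) z2 = π (x + π^k z3)`, then `RelN.up`. -/
theorem Rel_psi [IsDomain T] (h2 : (2 : T) = 0) (hπ : pz X Y ≠ 0) {k : ℕ} {g : G} {x : QO T X Y Z}
    (hg : C.Rel (k + 2) g x) : ∃ (g' : G) (z : QO T X Y Z), C.Rel (k + 3) g' (x + pz X Y ^ k • z) := by
  obtain ⟨z1, h3⟩ := Rel_xi C h2 hπ (k := k + 1) hg C.b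
  obtain ⟨z2, h4⟩ := Rel_xi C h2 hπ (k := k + 1) (RelN.rel C h3) C.a
  refine ⟨xi C.a (xi C.b g), X ^ 2 • z1 + z2, ?_⟩
  apply RelN.up C
  rw [C.ja, C.jb, QO.tr_ga, QO.tr_gb] at h4
  convert h4 using 1
  unfold pz
  ext <;> simp <;> ring

end

end MP35
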