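import Pool.Agent.Lib_MP_3538b5.QO

/-! # The topology of the quaternion order -/

set_option autoImplicit false

namespace MP35

universe u v w

namespace QO

variable {T : Type u} [CommRing T] [TopologicalSpace T] {X Y Z : T}

/-- the coordinates -/
def toP (x : QO T X Y Z) : T × T × T × T := (x.c0, x.c1, x.c2, x.c3)

instance : TopologicalSpace (QO T X Y Z) := TopologicalSpace.induced toP inferInstance

/-- the coordinates as a homeomorphism -/
def homeo (X Y Z : T) : QO T X Y Z ≃ₜ T × T × T × T where
  toFun := toP
  invFun p := ⟨p.1, p.2.1, p.2.2.1, p.2.2.2⟩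
  left_inv x := rfl
  right_inv p := rfl
  continuous_toFun := continuous_induced_dom
  continuous_invFun := continuous_induced_rng.2 continuous_id

theorem continuous_c0 : Continuous (fun x : QO T X Y Z => x.c0) :=
  continuous_fst.comp (homeo X Y Z).continuous

theorem continuous_c1 : Continuous (fun x : QO T X Y Z => x.c1) :=
  (continuous_fst.comp continuous_snd).comp (homeo X Y Z).continuous

theorem continuous_c2 : Continuous (fun x : QO T X Y Z => x.c2) :=
  (continuous_fst.comp (continuous_snd.comp continuous_snd)).comp (homeo X Y Z).continuous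

theorem continuous_c3 : Continuous (fun x : QO T X Y Z => x.c3) :=
  (continuous_snd.comp (continuous_snd.comp continuous_snd)).comp (homeo X Y Z).continuous

theorem continuous_mk {W : Type v} [TopologicalSpace W] {f0 f1 f2 f3 : W → T} (h0 : Continuous f0)
    (h1 : Continuous f1) (h2 : Continuous f2) (h3 : Continuous f3) :
    Continuous (fun w => (⟨f0 w, f1 w, f2 w, f3 w⟩ : QO T X Y Z)) :=
  (homeo X Y Z).symm.continuous.comp (h0.prodMk (h1.prodMk (h2.prodMk h3)))

instance [T2Space T] : T2Space (QO T X Y Z) := (homeo X Y Z).symm.t2Space

instance [CompactSpace T] : CompactSpace (QO T X Y Z) := (homeo X Y Z).symm.compactSpace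

variable [IsTopologicalRing T]

instance : ContinuousAdd (QO T X Y Z) := ⟨by
  have h1 : Continuous (fun p : QO T X Y Z × QO T X Y Z => p.1) := continuous_fst
  have h2 : Continuous (fun p : QO T X Y Z × QO T X Y Z => p.2) := continuous_snd
  exact continuous_mk ((continuous_c0.comp h1).add (continuous_c0.comp h2))
    ((continuous_c1.comp h1).add (continuous_c1.comp h2))
    ((continuous_c2.comp h1).add (continuous_c2.comp h2))
    ((continuous_c3.comp h1).add (continuous_c3.comp h2))⟩

instance : ContinuousNeg (QO T X Y Z) := ⟨continuous_mk continuous_c0.neg continuous_c1.neg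
  continuous_c2.neg continuous_c3.neg⟩

instance : ContinuousMul (QO T X Y Z) := ⟨by
  have e0 : Continuous (fun p : QO T X Y Z × QO T X Y Z => p.1.c0) := continuous_c0.comp continuous_fst
  have e1 : Continuous (fun p : QO T X Y Z × QO T X Y Z => p.1.c1) := continuous_c1.comp continuous_fst
  have e2 : Continuous (fun p : QO T X Y Z × QO T X Y Z => p.1.c2) := continuous_c2.comp continuous_fst
  have e3 : Continuous (fun p : QO T X Y Z × QO T X Y Z => p.1.c3) := continuous_c3.comp continuous_fst
  have f0 : Continuous (fun p : QO T X Y Z × QO T X Y Z => p.2.c0) := continuous_c0.comp continuous_snd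
  have f1 : Continuous (fun p : QO T X Y Z × QO T X Y Z => p.2.c1) := continuous_c1.comp continuous_snd
  have f2 : Continuous (fun p : QO T X Y Z × QO T X Y Z => p.2.c2) := continuous_c2.comp continuous_snd
  have f3 : Continuous (fun p : QO T X Y Z × QO T X Y Z => p.2.c3) := continuous_c3.comp continuous_snd
  refine continuous_mk ?_ ?_ ?_ ?_ <;> fun_prop⟩

instance : IsTopologicalRing (QO T X Y Z) where

instance : ContinuousSMul T (QO T X Y Z) := ⟨by
  have h1 : Continuous (fun p : T × QO T X Y Z => p.1) := continuous_fst
  have h2 : Continuous (fun p : T × QO T X Y Z => p.2) := continuous_snd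
  exact continuous_mk (h1.mul (continuous_c0.comp h2)) (h1.mul (continuous_c1.comp h2))
    (h1.mul (continuous_c2.comp h2)) (h1.mul (continuous_c3.comp h2))⟩

theorem continuous_cj : Continuous (fun x : QO T X Y Z => x.cj) := by
  have e0 : Continuous (fun p : QO T X Y Z => p.c0) := continuous_c0
  have e1 : Continuous (fun p : QO T X Y Z => p.c1) := continuous_c1
  have e2 : Continuous (fun p : QO T X Y Z => p.c2) := continuous_c2
  have e3 : Continuous (fun p : QO T X Y Z => p.c3) := continuous_c3
  refine continuous_mk ?_ ?_ ?_ ?_ <;> fun_prop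

theorem continuous_tr : Continuous (fun x : QO T X Y Z => x.tr) := by
  have e0 : Continuous (fun p : QO T X Y Z => p.c0) := continuous_c0
  have e1 : Continuous (fun p : QO T X Y Z => p.c1) := continuous_c1
  have e2 : Continuous (fun p : QO T X Y Z => p.c2) := continuous_c2
  have e3 : Continuous (fun p : QO T X Y Z => p.c3) := continuous_c3
  unfold tr
  fun_prop

theorem continuous_nm : Continuous (fun x : QO T X Y Z => x.nm) := by
  have e0 : Continuous (fun p : QO T X Y Z => p.c0) := continuous_c0
  have e1 : Continuous (fun p : QO T X Y Z => p.c1) := continuous_c1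
  have e2 : Continuous (fun p : QO T X Y Z => p.c2) := continuous_c2
  have e3 : Continuous (fun p : QO T X Y Z => p.c3) := continuous_c3
  unfold nm
  fun_prop

end QO

end MP35
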