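import Pool.Agent.Lib_MP_3538b5.Defs
import Pool.Agent.Lib_MP_3538b5.QOTop

/-! # The core situation -/

set_option autoImplicit false

namespace MP35

universe u v w

/-- the closed subgroup generated by `g` -/
def cl {G : Type u} [Group G] [TopologicalSpace G] [IsTopologicalGroup G] (g : G) : Subgroup G :=
  (Subgroup.zpowers g).topologicalClosure

/-- the closed subgroup generated by `g, h` -/
def cl2 {G : Type u} [Group G] [TopologicalSpace G] [IsTopologicalGroup G] (g h : G) : Subgroup G :=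
  (Subgroup.closure {g, h}).topologicalClosure

/-- the lifting property: every continuous homomorphism of a closed subgroup to a finite quotient of
a finite `2`-group lifts -/
def Lift2 (G : Type u) [Group G] [TopologicalSpace G] : Prop :=
  ∀ K : Subgroup G, IsClosed (K : Set G) → ∀ (A B : Type) [Group A] [Group B] [Finite B],
    IsPGroup 2 B → ∀ π : B →* A, Function.Surjective π → ∀ α : K →* A, OpenKer α →
      ∃ β : K →* B, OpenKer β ∧ ∀ g, π (β g) = α g

/-- the properties of free pro-`2` groups which are used -/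
structure GP (G : Type u) [Group G] [TopologicalSpace G] [IsTopologicalGroup G] : Prop where
  tors : ∀ g : G, g * g = 1 → g = 1
  cyc : ∀ g h : G, g * h = h * g → h ∈ cl g ∨ g ∈ cl h
  trans : ∀ x y z : G, y ≠ 1 → x * y = y * x → y * z = z * y → x * z = z * x
  ncn : ∀ M N : Subgroup G, M.Normal → N.Normal → M ≠ ⊥ → N ≠ ⊥ →
    (∀ x ∈ M, ∀ y ∈ N, x * y = y * x) → ∀ x y : G, x * y = y * x
  metab : (∀ a b c d : G, (a * b * a⁻¹ * b⁻¹) * (c * d * c⁻¹ * d⁻¹)
    = (c * d * c⁻¹ * d⁻¹) * (a * b * a⁻¹ * b⁻¹)) → ∀ x y : G, x * y = y * x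
  four : ∀ H : Subgroup G, IsClosed (H : Set G) →
    (∀ x ∈ H, ∀ y ∈ H, x * y * x⁻¹ * y⁻¹ ∈
      (Subgroup.closure {z | ∃ h ∈ H, z = h ^ 4}).topologicalClosure) →
    ∀ x ∈ H, ∀ y ∈ H, x * y = y * x

section ring

variable {T : Type v} [CommRing T]

/-- `x` is divisible by `c` -/
def Dv {X Y Z : T} (c : T) (x : QO T X Y Z) : Prop := ∃ r : QO T X Y Z, x = c • r

variable {X Y Z : T}

theorem Dv.zero (c : T) : Dv c (0 : QO T X Y Z) := ⟨0, by rw [smul_zero]⟩

theorem Dv.add {c : T} {x y : QO T X Y Z} (hx : Dv c x) (hy : Dv c y) : Dv c (x + y) := by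
  obtain ⟨r, rfl⟩ := hx
  obtain ⟨s, rfl⟩ := hy
  exact ⟨r + s, by rw [smul_add]⟩

theorem Dv.neg {c : T} {x : QO T X Y Z} (hx : Dv c x) : Dv c (-x) := by
  obtain ⟨r, rfl⟩ := hx
  exact ⟨-r, by rw [smul_neg]⟩

theorem Dv.sub {c : T} {x y : QO T X Y Z} (hx : Dv c x) (hy : Dv c y) : Dv c (x - y) := by
  rw [sub_eq_add_neg]
  exact hx.add hy.neg

theorem Dv.mul_left {c : T} {x : QO T X Y Z} (hx : Dv c x) (y : QO T X Y Z) : Dv c (y * x) := by
  obtain ⟨r, rfl⟩ := hx
  exact ⟨y * r, by rw [mul_smul_comm]⟩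

theorem Dv.mul_right {c : T} {x : QO T X Y Z} (hx : Dv c x) (y : QO T X Y Z) : Dv c (x * y) := by
  obtain ⟨r, rfl⟩ := hx
  exact ⟨r * y, by rw [smul_mul_assoc]⟩

theorem Dv.smul {c : T} {x : QO T X Y Z} (hx : Dv c x) (t : T) : Dv c (t • x) := by
  obtain ⟨r, rfl⟩ := hx
  exact ⟨t • r, by rw [smul_comm]⟩

theorem Dv.mono {c d : T} (h : d ∣ c) {x : QO T X Y Z} (hx : Dv c x) : Dv d x := by
  obtain ⟨r, rfl⟩ := hx
  obtain ⟨e, rfl⟩ := h
  exact ⟨e • r, by rw [smul_smul]⟩

theorem Dv.cj {c : T} {x : QO T X Y Z} (hx : Dv c x) : Dv c x.cj := by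
  obtain ⟨r, rfl⟩ := hx
  exact ⟨r.cj, QO.cj_smul c r⟩

theorem dv_smul (c : T) (x : QO T X Y Z) : Dv c (c • x) := ⟨x, rfl⟩

end ring

section core

/-- the closed subring generated by the squares of `X, Y, Z` -/
def Ts {T : Type v} [CommRing T] [TopologicalSpace T] [IsTopologicalRing T] (X Y Z : T) : Subring T :=
  (Subring.closure {X ^ 2, Y ^ 2, Z ^ 2}).topologicalClosure

/-- the assumptions on the ring `T` -/
structure TOK {T : Type v} [CommRing T] [TopologicalSpace T] [IsTopologicalRing T] (X Y Z : T) :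
    Prop where
  t2 : IsTopologicallyNilpotent (2 : T)
  tX : IsTopologicallyNilpotent X
  tY : IsTopologicallyNilpotent Y
  tZ : IsTopologicallyNilpotent Z
  noeth : IsNoetherian (Ts X Y Z) T

/-- the core situation -/
structure Core (G : Type u) [Group G] [TopologicalSpace G] (T : Type v) [CommRing T]
    [TopologicalSpace T] (X Y Z : T) where
  j : G →* QO T X Y Z
  cont : Continuous j
  inj : Function.Injective j
  norm : ∀ g, (j g).nm = 1
  a : G
  b : G
  ja : j a = QO.ga X Y Z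
  jb : j b = QO.gb X Y Z
  nu : QO.nu X Y Z ≠ 0
  deep : ∀ c : T, c ≠ 0 → ∃ g : G, g ≠ 1 ∧ Dv c (j g - 1)

namespace Core

variable {G : Type u} [Group G] [TopologicalSpace G] {T : Type v} [CommRing T]
    [TopologicalSpace T] {X Y Z : T} (C : Core G T X Y Z)

theorem j_inv (g : G) : C.j g⁻¹ = (C.j g).cj := by
  have h1 : C.j g * C.j g⁻¹ = 1 := by rw [← map_mul, mul_inv_cancel, map_one]
  have h2 : (C.j g).cj * C.j g = 1 := by rw [QO.cj_mul_self, C.norm, one_smul]
  calc C.j g⁻¹ = ((C.j g).cj * C.j g) * C.j g⁻¹ := by rw [h2, one_mul]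
    _ = (C.j g).cj := by rw [mul_assoc, h1, mul_one]

theorem mul_cj (g : G) : C.j g * (C.j g).cj = 1 := by rw [QO.mul_cj, C.norm, one_smul]

theorem cj_mul (g : G) : (C.j g).cj * C.j g = 1 := by rw [QO.cj_mul_self, C.norm, one_smul]

/-- the congruence subgroup -/
def N (c : T) : Subgroup G where
  carrier := {g | Dv c (C.j g - 1)}
  one_mem' := by
    show Dv c (C.j 1 - 1)
    rw [map_one, sub_self]
    exact Dv.zero c
  mul_mem' := fun {g h} hg hh => by
    show Dv c (C.j (g * h) - 1)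
    have : C.j (g * h) - 1 = (C.j g - 1) * C.j h + (C.j h - 1) := by
      rw [map_mul, sub_mul, one_mul, sub_add_sub_cancel]
    rw [this]
    exact (Dv.mul_right hg _).add hh
  inv_mem' := fun {g} hg => by
    show Dv c (C.j g⁻¹ - 1)
    have : C.j g⁻¹ - 1 = -((C.j g - 1) * C.j g⁻¹) := by
      rw [sub_mul, ← map_mul, mul_inv_cancel, map_one, one_mul, neg_sub]
    rw [this]
    exact (Dv.mul_right hg _).neg

theorem mem_N {c : T} {g : G} : g ∈ C.N c ↔ Dv c (C.j g - 1) := Iff.rfl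

theorem N_normal (c : T) : (C.N c).Normal := by
  refine ⟨fun g hg h => ?_⟩
  rw [mem_N] at hg ⊢
  have : C.j (h * g * h⁻¹) - 1 = C.j h * (C.j g - 1) * C.j h⁻¹ := by
    rw [map_mul, map_mul, mul_sub, sub_mul, mul_one, ← map_mul (f := C.j) h h⁻¹, mul_inv_cancel, map_one]
  rw [this]
  exact (hg.mul_left _).mul_right _

theorem N_ne_bot {c : T} (hc : c ≠ 0) : C.N c ≠ ⊥ := by
  obtain ⟨g, hg, h⟩ := C.deep c hc
  intro hb
  have : g ∈ C.N c := h
  rw [hb, Subgroup.mem_bot] at this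
  exact hg this

end Core

end core

end MP35
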