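import Mathlib

/-! # Definitions: free pro-p groups, the lifting property, quaternion orders -/

set_option autoImplicit false

namespace MP35

universe u v w

section groups

/-- a homomorphism to a discrete group is continuous iff its kernel is open -/
def OpenKer {G : Type u} {A : Type v} [Group G] [TopologicalSpace G] [Group A] (f : G →* A) : Prop :=
  IsOpen (f.ker : Set G)

/-- a (compact, Hausdorff, totally disconnected) group is a pro-`p` group iff all its quotients by
open normal subgroups are `p`-groups -/
def ProP (p : ℕ) (G : Type u) [Group G] [TopologicalSpace G] : Prop :=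
  ∀ N : Subgroup G, N.Normal → IsOpen (N : Set G) → ∀ g : G, ∃ k : ℕ, g ^ p ^ k ∈ N

/-- `F` is a free pro-`p` group with basis `e : S → F` (a family converging to `1`): the free object
of the category of pro-`p` groups on a set converging to `1`. -/
structure IsFreeProP (p : ℕ) {F : Type u} [Group F] [TopologicalSpace F] [IsTopologicalGroup F]
    {S : Type v} (e : S → F) :
    Prop where
  proP : ProP p F
  conv : ∀ U : Subgroup F, IsOpen (U : Set F) → {s | e s ∉ U}.Finite
  gen : (Subgroup.closure (Set.range e)).topologicalClosure = ⊤
  ext : ∀ (P : Type) [Group P] [Finite P], IsPGroup p P → ∀ f : S → P, {s | f s ≠ 1}.Finite →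
    ∃ φ : F →* P, OpenKer φ ∧ ∀ s, φ (e s) = f s

end groups

end MP35
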