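import Pool.Agent.Lib_MP_3538b5.RMain

/-! # From free pro-2 groups to the lifting property; the identity form -/

set_option autoImplicit false

namespace MP35

universe u v w

/-- the symmetries `sr 0`, `sr 1` of the square do not commute -/
theorem dih_nc : (DihedralGroup.sr 0 : DihedralGroup 4) * DihedralGroup.sr 1 ≠
    DihedralGroup.sr 1 * DihedralGroup.sr 0 := by
  rw [DihedralGroup.sr_mul_sr, DihedralGroup.sr_mul_sr]
  intro h
  rw [DihedralGroup.r.injEq] at h
  revert h
  decide

theorem dih_pgroup : IsPGroup 2 (DihedralGroup 4) := by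
  apply IsPGroup.of_card (n := 3)
  rw [DihedralGroup.nat_card]
  norm_num

section

variable {F : Type u} [Group F] [TopologicalSpace F] [IsTopologicalGroup F] [CompactSpace F]
    [T2Space F] [TotallyDisconnectedSpace F] {S : Type v} {e : S → F}

/-- the closed subgroup generated by two basis elements has the lifting property and is not commutative -/
theorem two_gen (hF : IsFreeProP 2 e) {s t : S} (hst : s ≠ t) :
    Lift2 (cl2 (e s) (e t)) ∧ ∃ x y : cl2 (e s) (e t), x * y ≠ y * x := by
  classical
  set K : Subgroup F := cl2 (e s) (e t) with hK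
  have hKc : IsClosed (K : Set F) := Subgroup.isClosed_topologicalClosure _
  have : CompactSpace K := isCompact_iff_compactSpace.1 hKc.isCompact
  have hsub : ∀ w ∈ ({e s, e t} : Set F), w ∈ K := fun w hw =>
    Subgroup.le_topologicalClosure _ (Subgroup.subset_closure hw)
  let x : K := ⟨e s, hsub _ (by simp)⟩
  let y : K := ⟨e t, hsub _ (by simp)⟩
  have hgen : cl2 x y = ⊤ := by
    rw [eq_top_iff]
    rintro ⟨g, hg⟩ -
    have hmap : (Subgroup.closure {x, y}).map K.subtype = Subgroup.closure {e s, e t} := by
      rw [MonoidHom.map_closure]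
      congr 1
      ext w
      simp [x, y, eq_comm]
    have hg' : g ∈ closure ((Subgroup.closure {e s, e t} : Subgroup F) : Set F) := hg
    rw [← hmap] at hg'
    show (⟨g, hg⟩ : K) ∈ closure ((Subgroup.closure {x, y} : Subgroup K) : Set K)
    rw [closure_subtype]
    exact hg'
  have hext : ∀ (P : Type) [Group P] [Finite P], IsPGroup 2 P → ∀ p q : P,
      ∃ φ : K →* P, OpenKer φ ∧ φ x = p ∧ φ y = q := by
    intro P _ _ hP p q
    obtain ⟨φ, hφ, h⟩ := hF.ext P hP (fun r => if r = s then p else if r = t then q else 1) (by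
      refine Set.Finite.subset (Set.toFinite {s, t}) fun r hr => ?_
      by_contra hcon
      rw [Set.mem_insert_iff, Set.mem_singleton_iff, not_or] at hcon
      apply hr
      rw [if_neg hcon.1, if_neg hcon.2])
    refine ⟨φ.comp K.subtype, ?_, ?_, ?_⟩
    · exact hφ.preimage continuous_subtype_val
    · show φ (e s) = p
      rw [h, if_pos rfl]
    · show φ (e t) = q
      rw [h, if_neg hst.symm, if_pos rfl]
  refine ⟨lift_of_ext (hF.proP.sub K) hgen hext, x, y, ?_⟩
  obtain ⟨φ, -, h1, h2⟩ := hext (DihedralGroup 4) dih_pgroup (DihedralGroup.sr 0) (DihedralGroup.sr 1)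
  intro h
  apply dih_nc
  rw [← h1, ← h2, ← map_mul, ← map_mul, h]

/-- no injective representation of degree two -/
theorem free_not_injective (hF : IsFreeProP 2 e) (hS : Nontrivial S) {R : Type w} [CommRing R]
    [TopologicalSpace R] [IsTopologicalRing R] [CompactSpace R] [T2Space R]
    [TotallyDisconnectedSpace R] (ρ : F →* GL (Fin 2) R)
    (hρ : Continuous fun g => (ρ g : Matrix (Fin 2) (Fin 2) R)) : ¬ Function.Injective ρ := by
  intro hinj
  obtain ⟨s, t, hst⟩ := exists_pair_ne S
  obtain ⟨hL, hnc⟩ := two_gen hF hst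
  set K : Subgroup F := cl2 (e s) (e t) with hK
  have hKc : IsClosed (K : Set F) := Subgroup.isClosed_topologicalClosure _
  have : CompactSpace K := isCompact_iff_compactSpace.1 hKc.isCompact
  have : IsLinearTopology R R := linTop_of_profinite R
  exact no_rep (hF.proP.sub K) hL hnc (ρ.comp K.subtype) (hρ.comp continuous_subtype_val)
    (hinj.comp Subtype.val_injective)

end

/-- the identity form -/
theorem exists_identity {F : Type u} [Group F] [TopologicalSpace F] [IsTopologicalGroup F] [CompactSpace F]
    [T2Space F] [TotallyDisconnectedSpace F] {S : Type v} {e : S → F} (hF : IsFreeProP 2 e)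
    (hS : Nontrivial S) : ∃ w : F, w ≠ 1 ∧ ∀ (R : Type w) [CommRing R] [TopologicalSpace R]
      [IsTopologicalRing R] [CompactSpace R] [T2Space R] [TotallyDisconnectedSpace R]
      (ρ : F →* GL (Fin 2) R), Continuous (fun g => (ρ g : Matrix (Fin 2) (Fin 2) R)) → ρ w = 1 := by
  by_contra hcon
  push Not at hcon
  choose R i1 i2 i3 i4 i5 i6 ρ hρ hne using (fun w : {w : F // w ≠ 1} => hcon w.1 w.2)
  let m : F →* Matrix (Fin 2) (Fin 2) (∀ w, R w) :=
    { toFun := fun g => Matrix.of fun i j w => (ρ w g : Matrix (Fin 2) (Fin 2) (R w)) i j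
      map_one' := by
        ext i j w
        rw [Matrix.of_apply, map_one, Units.val_one, Matrix.one_apply, Matrix.one_apply]
        split_ifs <;> rfl
      map_mul' := fun g h => by
        ext i j w
        rw [Matrix.of_apply, map_mul, Units.val_mul, Matrix.mul_apply, Matrix.mul_apply,
          Finset.sum_apply]
        rfl }
  have hm : Continuous m := by
    refine continuous_matrix fun i j => continuous_pi fun w => ?_
    exact (hρ w).matrix_elem i j
  refine free_not_injective hF hS m.toHomUnits hm ?_
  rw [injective_iff_map_eq_one]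
  intro g hg
  by_contra hg1
  apply hne ⟨g, hg1⟩
  ext i j
  have h1 : m g = 1 := congrArg Units.val hg
  have h2 := congrFun (congrFun (congrFun h1 i) j) ⟨g, hg1⟩
  have h3 : (ρ ⟨g, hg1⟩ g : Matrix (Fin 2) (Fin 2) (R ⟨g, hg1⟩)) i j =
      (1 : Matrix (Fin 2) (Fin 2) (∀ w, R w)) i j ⟨g, hg1⟩ := h2
  show (ρ ⟨g, hg1⟩ g : Matrix (Fin 2) (Fin 2) (R ⟨g, hg1⟩)) i j = (1 : Matrix (Fin 2) (Fin 2) _) i j
  rw [h3, Matrix.one_apply, Matrix.one_apply]
  split_ifs <;> rfl

end MP35
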