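import Pool.Agent.Lib_MP_3538b5.CoreDefs

/-! # Piece GEXT: extension of homomorphisms from a closed to an open subgroup -/

set_option autoImplicit false

namespace MP35

universe u v w

/-- PROOF. The kernel of `α` is `K ∩ V` with `V` open in `F`; let `N ⊆ V` be an open normal subgroup of `F`
(`ProfiniteGrp.exist_openNormalSubgroup_sub_open_nhds_of_one`), so that `K ∩ N ≤ ker α`. Every element of `K ⊔ N` is `k n` with
`k ∈ K`, `n ∈ N` (`N` normal, `Subgroup.mul_normal`); define `α' (k n) = α k`. Well defined: `k n = k' n'` gives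
`k'⁻¹ k ∈ K ∩ N ≤ ker α`. Homomorphism: `k n k' n' = k k' ((k'⁻¹ n k') n')`. (Alternatively: `α'` is the composite
`K ⊔ N → (K ⊔ N) / N ≅ K / (K ∩ N) → A`, `QuotientGroup.quotientInfEquivProdNormalQuotient`.) -/
theorem extend_open {F : Type u} [Group F] [TopologicalSpace F] [IsTopologicalGroup F] [CompactSpace F]
    [TotallyDisconnectedSpace F] (K : Subgroup F) {A : Type v} [Group A] (α : K →* A) (hα : OpenKer α) :
    ∃ N : Subgroup F, N.Normal ∧ IsOpen (N : Set F) ∧ ∃ α' : (K ⊔ N : Subgroup F) →* A,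
      (∀ k : K, α' ⟨k, le_sup_left (a := K) (b := N) k.2⟩ = α k) ∧
      ∀ n : N, α' ⟨n, le_sup_right (a := K) (b := N) n.2⟩ = 1 := by
  classical
  obtain ⟨V, hV, hVK⟩ := isOpen_induced_iff.1 hα
  have h1 : (1 : F) ∈ V := by
    have : (1 : K) ∈ (Subtype.val ⁻¹' V : Set K) := by
      rw [hVK]; exact α.ker.one_mem
    exact this
  obtain ⟨N, hN⟩ := ProfiniteGrp.exist_openNormalSubgroup_sub_open_nhds_of_one hV h1
  have hNn : (N : Subgroup F).Normal := N.isNormal'
  have hker : ∀ k : K, (k : F) ∈ (N : Subgroup F) → α k = 1 := by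
    intro k hk
    have : k ∈ (Subtype.val ⁻¹' V : Set K) := hN hk
    rw [hVK] at this
    exact this
  have hdec : ∀ g : (K ⊔ (N : Subgroup F) : Subgroup F), ∃ k : K, (k : F)⁻¹ * (g : F) ∈ (N : Subgroup F) := by
    intro g
    obtain ⟨k, hk, n, hn, hkn⟩ := Subgroup.mem_sup_of_normal_right.1 g.2
    refine ⟨⟨k, hk⟩, ?_⟩
    rw [← hkn]
    simpa using hn
  choose f hf using hdec
  have key : ∀ (g : (K ⊔ (N : Subgroup F) : Subgroup F)) (k : K), (k : F)⁻¹ * (g : F) ∈ (N : Subgroup F) →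
      α (f g) = α k := by
    intro g k hk
    have h2 : ((k⁻¹ * f g : K) : F) ∈ (N : Subgroup F) := by
      have h3 := (N : Subgroup F).mul_mem hk ((N : Subgroup F).inv_mem (hf g))
      have h4 : (k : F)⁻¹ * (g : F) * ((f g : F)⁻¹ * (g : F))⁻¹ = ((k⁻¹ * f g : K) : F) := by
        push_cast
        group
      rw [h4] at h3
      exact h3
    have h5 := hker _ h2
    rw [map_mul, map_inv, inv_mul_eq_one] at h5
    exact h5.symm
  refine ⟨(N : Subgroup F), hNn, N.isOpen', ⟨⟨fun g => α (f g), ?_⟩, ?_⟩, ?_, ?_⟩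
  · have := key 1 1 (by simp)
    rw [this, map_one]
  · intro g g'
    show α (f (g * g')) = α (f g) * α (f g')
    rw [← map_mul]
    apply key
    have h6 : ((f g * f g' : K) : F)⁻¹ * ((g * g' : (K ⊔ (N : Subgroup F) : Subgroup F)) : F)
        = ((f g' : F)⁻¹ * ((f g : F)⁻¹ * (g : F)) * ((f g' : F)⁻¹)⁻¹) * ((f g' : F)⁻¹ * (g' : F)) := by
      push_cast
      group
    rw [h6]
    exact (N : Subgroup F).mul_mem (hNn.conj_mem _ (hf g) _) (hf g')
  · intro k
    exact key _ k (by simp)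
  · intro n
    show α (f ⟨n, _⟩) = 1
    rw [key _ 1 (by simpa using n.2), map_one]

end MP35
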