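import Pool.Agent.Lib_MP_3538b5.CoreDefs

/-! # Piece GSUB: closed subgroups inherit the pro-p and the lifting property -/

set_option autoImplicit false

namespace MP35

universe u v w

/-- PROOF. Let `N` be open and normal in `K`, `g ∈ K`. `N = K ∩ V` with `V` open in `G`, `1 ∈ V`, so there is
an open normal subgroup `M ⊆ V` of `G` (`ProfiniteGrp.exist_openNormalSubgroup_sub_open_nhds_of_one`), and
`g ^ p ^ k ∈ M ∩ K ⊆ N` for some `k`. -/
theorem ProP.sub {G : Type u} [Group G] [TopologicalSpace G] [IsTopologicalGroup G] [CompactSpace G]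
    [TotallyDisconnectedSpace G] {p : ℕ} (h : ProP p G) (K : Subgroup G) : ProP p K := by
  intro N _ hNo g
  obtain ⟨V, hV, hVN⟩ := isOpen_induced_iff.1 hNo
  have mem_iff : ∀ x : K, (x : G) ∈ V ↔ x ∈ N := fun x => by
    rw [← SetLike.mem_coe, ← hVN]
    exact Iff.rfl
  have h1 : (1 : G) ∈ V := (mem_iff 1).2 N.one_mem
  obtain ⟨H, hH⟩ := ProfiniteGrp.exist_openNormalSubgroup_sub_open_nhds_of_one hV h1
  obtain ⟨k, hk⟩ := h H.toSubgroup H.isNormal' H.isOpen (g : G)
  refine ⟨k, (mem_iff _).1 ?_⟩
  rw [SubmonoidClass.coe_pow]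
  exact hH hk

/-- PROOF. A closed subgroup `L` of `K` is isomorphic (as a topological group, by the inclusion) to the closed
subgroup `L.map K.subtype` of `G` (closed, as `K` is closed: closed embedding). Transfer `α`, lift, and transfer back
(a homomorphism has open kernel after composition with the homeomorphism). -/
theorem Lift2.sub {G : Type u} [Group G] [TopologicalSpace G] [IsTopologicalGroup G]
    (h : Lift2 G) (K : Subgroup G) (hK : IsClosed (K : Set G)) : Lift2 K := by
  intro L hL A B _ _ _ hB π hπ α hα
  have hL' : IsClosed ((L.map K.subtype : Subgroup G) : Set G) := by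
    rw [Subgroup.coe_map]
    exact hK.isClosedEmbedding_subtypeVal.isClosedMap _ hL
  let e : L ≃* L.map K.subtype := L.equivMapOfInjective K.subtype K.subtype_injective
  have he : ∀ x : L, ((e x : L.map K.subtype) : G) = ((x : K) : G) := fun x =>
    Subgroup.coe_equivMapOfInjective_apply L K.subtype K.subtype_injective x
  have he' : ∀ x : L.map K.subtype, (((e.symm x : L) : K) : G) = (x : G) := fun x => by
    rw [← he, e.apply_symm_apply]
  have ce : Continuous e := by
    refine continuous_induced_rng.2 ?_
    have : (Subtype.val ∘ e : L → G) = fun x : L => ((x : K) : G) := funext he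
    rw [this]
    exact continuous_subtype_val.comp continuous_subtype_val
  have ce' : Continuous e.symm := by
    refine continuous_induced_rng.2 (continuous_induced_rng.2 ?_)
    have : (Subtype.val ∘ (Subtype.val ∘ e.symm) : L.map K.subtype → G)
        = fun x : L.map K.subtype => (x : G) := funext he'
    rw [this]
    exact continuous_subtype_val
  have hα' : OpenKer (α.comp e.symm.toMonoidHom) := by
    have : ((α.comp e.symm.toMonoidHom).ker : Set (L.map K.subtype)) = e.symm ⁻¹' (α.ker : Set L) := rfl
    unfold OpenKer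
    rw [this]
    exact hα.preimage ce'
  obtain ⟨β, hβ, hβ'⟩ := h (L.map K.subtype) hL' A B hB π hπ (α.comp e.symm.toMonoidHom) hα'
  refine ⟨β.comp e.toMonoidHom, ?_, fun g => ?_⟩
  · have : ((β.comp e.toMonoidHom).ker : Set L) = e ⁻¹' (β.ker : Set (L.map K.subtype)) := rfl
    unfold OpenKer
    rw [this]
    exact hβ.preimage ce
  · have h1 := hβ' (e g)
    rw [MonoidHom.comp_apply] at h1
    have h2 : e.symm.toMonoidHom (e g) = g := e.symm_apply_apply g
    rw [h2] at h1
    exact h1

end MP35
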