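import Pool.Agent.Lib_MP_3538b5.GDih
import Pool.Agent.Lib_MP_3538b5.GSub

/-! # Piece GFOUR: fourth powers and commutators -/

set_option autoImplicit false

namespace MP35

universe u v w

/-- PROOF. Suppose `x, y ∈ H` do not commute. `H` is a compact group, pro-`2` (`ProP.sub`), so `klein` gives a surjective `α : H →* Kl` and
`dihedral_lift` a surjective `β : H →* DihedralGroup 4` with open kernel. The kernel of `β` is closed in `H`, and `H` is closed in `G`, so the image `L` of
`ker β` in `G` is a closed subgroup of `G`. It contains `h ^ 4` for `h ∈ H` (`DihedralGroup 4` has exponent `4`), so all commutators of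
elements of `H`. But `β` is surjective and `DihedralGroup 4` is not commutative: contradiction. -/
theorem four_comm {G : Type u} [Group G] [TopologicalSpace G] [IsTopologicalGroup G] [CompactSpace G]
    [T2Space G] [TotallyDisconnectedSpace G] (hP : ProP 2 G) (hL : Lift2 G) (H : Subgroup G)
    (hH : IsClosed (H : Set G)) (h : ∀ x ∈ H, ∀ y ∈ H, x * y * x⁻¹ * y⁻¹ ∈
      (Subgroup.closure {z | ∃ h ∈ H, z = h ^ 4}).topologicalClosure) :
    ∀ x ∈ H, ∀ y ∈ H, x * y = y * x := by
  intro x hx y hy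
  by_contra hxy
  have : CompactSpace H := isCompact_iff_compactSpace.mp hH.isCompact
  have hnc : ∃ x y : H, x * y ≠ y * x := by
    refine ⟨⟨x, hx⟩, ⟨y, hy⟩, fun hc => hxy ?_⟩
    exact congrArg (fun t : H => (t : G)) hc
  obtain ⟨α, hα, hs⟩ := klein (ProP.sub hP H) hnc
  obtain ⟨β, hβ, hsβ⟩ := dihedral_lift hL H hH α hα hs
  have hcl : IsClosed (β.ker : Set H) := Subgroup.isClosed_of_isOpen β.ker hβ
  have hLcl : IsClosed ((β.ker.map H.subtype : Subgroup G) : Set G) := by
    rw [Subgroup.coe_map]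
    exact hH.isClosedEmbedding_subtypeVal.isClosedMap _ hcl
  have hd4 : ∀ t : DihedralGroup 4, t ^ 4 = 1 := by decide
  have hle : Subgroup.closure {z | ∃ h ∈ H, z = h ^ 4} ≤ β.ker.map H.subtype := by
    rw [Subgroup.closure_le]
    rintro z ⟨t, ht, rfl⟩
    refine ⟨(⟨t, ht⟩ : H) ^ 4, ?_, rfl⟩
    show (⟨t, ht⟩ : H) ^ 4 ∈ β.ker
    rw [MonoidHom.mem_ker, map_pow]
    exact hd4 _
  have hle2 := Subgroup.topologicalClosure_minimal _ hle hLcl
  have hcomm : ∀ s t : DihedralGroup 4, s * t = t * s := by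
    intro s t
    obtain ⟨u, rfl⟩ := hsβ s
    obtain ⟨v, rfl⟩ := hsβ t
    obtain ⟨w, hw, hwe⟩ := hle2 (h u u.2 v v.2)
    have hwe2 : w = u * v * u⁻¹ * v⁻¹ := Subtype.ext hwe
    have hk : β (u * v * u⁻¹ * v⁻¹) = 1 := by
      rw [← hwe2]
      exact hw
    rw [map_mul, map_mul, map_mul, map_inv, map_inv] at hk
    have h3 : β u * β v * (β u)⁻¹ = β v := mul_inv_eq_one.mp hk
    calc β u * β v = (β u * β v * (β u)⁻¹) * β u := by group
      _ = β v * β u := by rw [h3]
  have hno : ¬ ∀ s t : DihedralGroup 4, s * t = t * s := by decide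
  exact hno hcomm

end MP35
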