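import Pool.Agent.Lib_MP_3538b5.CoreDefs

/-! # Piece GTORS: no involutions -/

set_option autoImplicit false

namespace MP35

universe u v w

/-- PROOF. Suppose `g ≠ 1`. `K = zpowers g = {1, g}` is finite, so closed and discrete. Let `α : K →* Multiplicative (ZMod 2)` be the isomorphism with
`α g = ofAdd 1`; its kernel is open (`K` is discrete: a finite T2 space). `π : Multiplicative (ZMod 4) →* Multiplicative (ZMod 2)`
is the reduction (`ZMod.castHom`). A lift `β` has `β g * β g = 1`, so `β g` is `ofAdd 0` or `ofAdd 2` and `π (β g) = 1 ≠ α g`. -/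
theorem no_involution {G : Type u} [Group G] [TopologicalSpace G] [T2Space G] (hL : Lift2 G) (g : G)
    (hg : g * g = 1) : g = 1 := by
  classical
  by_contra hne
  have hK : ∀ k ∈ Subgroup.zpowers g, k = 1 ∨ k = g := by
    rintro k ⟨n, rfl⟩
    have hg2 : g ^ (2 : ℤ) = 1 := by rw [zpow_two, hg]
    obtain ⟨m, rfl | rfl⟩ := Int.even_or_odd' n
    · left
      show g ^ (2 * m) = 1
      rw [zpow_mul, hg2, one_zpow]
    · right
      show g ^ (2 * m + 1) = g
      rw [zpow_add, zpow_mul, hg2, one_zpow, zpow_one, one_mul]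
  have hfin : ((Subgroup.zpowers g : Subgroup G) : Set G).Finite := by
    refine (Set.toFinite ({1, g} : Set G)).subset ?_
    intro k hk
    rcases hK k hk with h | h
    · left; exact h
    · right; exact h
  have hcl : IsClosed ((Subgroup.zpowers g : Subgroup G) : Set G) := hfin.isClosed
  have : Finite (Subgroup.zpowers g) := hfin.to_subtype
  have hdis : DiscreteTopology (Subgroup.zpowers g) := inferInstance
  let α : Subgroup.zpowers g →* Multiplicative (ZMod 2) :=
    { toFun := fun k => if (k : G) = 1 then 1 else Multiplicative.ofAdd 1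
      map_one' := by simp
      map_mul' := by
        rintro ⟨x, hx⟩ ⟨y, hy⟩
        have h2 : (1 : Multiplicative (ZMod 2))
            = Multiplicative.ofAdd (1 : ZMod 2) * Multiplicative.ofAdd (1 : ZMod 2) := by decide
        show (if x * y = 1 then (1 : Multiplicative (ZMod 2)) else Multiplicative.ofAdd 1)
          = (if x = 1 then 1 else Multiplicative.ofAdd 1) * (if y = 1 then 1 else Multiplicative.ofAdd 1)
        rcases hK x hx with rfl | rfl
        · rw [one_mul, if_pos rfl, one_mul]
        · rcases hK y hy with rfl | hy'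
          · rw [mul_one, if_pos (rfl : (1 : G) = 1), mul_one]
          · rw [hy', hg, if_pos rfl, if_neg hne]
            exact h2 }
  have hπ : (2 : ℕ) ∣ 4 := by norm_num
  let π : Multiplicative (ZMod 4) →* Multiplicative (ZMod 2) :=
    (ZMod.castHom hπ (ZMod 2)).toAddMonoidHom.toMultiplicative
  have hsurj : Function.Surjective π := by
    intro a
    obtain ⟨b, hb⟩ := ZMod.castHom_surjective hπ (Multiplicative.toAdd a)
    exact ⟨Multiplicative.ofAdd b, by
      show Multiplicative.ofAdd (ZMod.castHom hπ (ZMod 2) b) = a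
      rw [hb]; rfl⟩
  have hp : IsPGroup 2 (Multiplicative (ZMod 4)) := by
    intro b
    exact ⟨2, by revert b; decide⟩
  obtain ⟨β, -, hβ⟩ := hL (Subgroup.zpowers g) hcl (Multiplicative (ZMod 2)) (Multiplicative (ZMod 4))
    hp π hsurj α (isOpen_discrete _)
  let g' : Subgroup.zpowers g := ⟨g, Subgroup.mem_zpowers g⟩
  have h1 : β g' * β g' = 1 := by
    rw [← map_mul]
    have : g' * g' = 1 := Subtype.ext hg
    rw [this, map_one]
  have h2 : ∀ b : Multiplicative (ZMod 4), b * b = 1 → π b = 1 := by
    intro b hb
    have key : ∀ c : ZMod 4, c + c = 0 → ZMod.castHom (show (2 : ℕ) ∣ 4 by norm_num) (ZMod 2) c = 0 := by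
      decide
    have hb' : Multiplicative.toAdd b + Multiplicative.toAdd b = 0 := congrArg Multiplicative.toAdd hb
    exact congrArg Multiplicative.ofAdd (key (Multiplicative.toAdd b) hb')
  have h3 := hβ g'
  rw [h2 _ h1] at h3
  have h4 : α g' = Multiplicative.ofAdd 1 := if_neg hne
  rw [h4] at h3
  exact absurd h3 (by decide)

end MP35
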