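import Pool.Agent.Lib_MP_3538b5.CoreDefs

/-! # Piece GWREATH: lifting from open subgroups by the wreath product -/

set_option autoImplicit false

namespace MP35

universe u v w

/-- PROOF. This is the statement `hext` for a finite `2`-group `P` in another universe: `P` is isomorphic to a group in
`Type` (transport the group structure along `Finite.equivFin`). -/
theorem ext_univ {F : Type u} [Group F] [TopologicalSpace F] {x y : F}
    (hext : ∀ (P : Type) [Group P] [Finite P], IsPGroup 2 P → ∀ p q : P,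
      ∃ φ : F →* P, OpenKer φ ∧ φ x = p ∧ φ y = q)
    (P : Type v) [Group P] [Finite P] (hP : IsPGroup 2 P) (p q : P) :
    ∃ φ : F →* P, OpenKer φ ∧ φ x = p ∧ φ y = q := by
  have hfin : Finite (Shrink.{0} P) := Finite.of_equiv P (equivShrink.{0, v} P)
  let E : Shrink.{0} P ≃* P := Shrink.mulEquiv
  obtain ⟨φ, h1, h2, h3⟩ := hext (Shrink.{0} P) (hP.of_equiv E.symm) (E.symm p) (E.symm q)
  refine ⟨E.toMonoidHom.comp φ, ?_, by simp [h2], by simp [h3]⟩
  unfold OpenKer at h1 ⊢
  have : (E.toMonoidHom.comp φ).ker = φ.ker := by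
    ext g
    simp [MonoidHom.mem_ker]
  rw [this]
  exact h1

section wreath

variable {F : Type u} [Group F]

/-- representatives -/
private noncomputable def gw_r (U : Subgroup F) (ω : F ⧸ U) : F :=
  open Classical in if ω = ((1 : F) : F ⧸ U) then 1 else ω.out

private theorem gw_mk_r (U : Subgroup F) (ω : F ⧸ U) : ((gw_r U ω : F) : F ⧸ U) = ω := by
  unfold gw_r
  split_ifs with h
  · exact h.symm
  · exact Quotient.out_eq' ω

private theorem gw_r_one (U : Subgroup F) : gw_r U ((1 : F) : F ⧸ U) = 1 := by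
  unfold gw_r
  rw [if_pos rfl]

private theorem gw_mem (U : Subgroup F) (g : F) (ω : F ⧸ U) :
    (gw_r U ω)⁻¹ * (g * gw_r U (g⁻¹ • ω)) ∈ U := by
  rw [← QuotientGroup.eq, gw_mk_r]
  have h : ((g * gw_r U (g⁻¹ • ω) : F) : F ⧸ U) = g • ((gw_r U (g⁻¹ • ω) : F) : F ⧸ U) := rfl
  rw [h, gw_mk_r, smul_inv_smul]

/-- the group of permutations of the cosets -/
private abbrev GW (U : Subgroup F) : Type u := (MulAction.toPermHom F (F ⧸ U)).range

private abbrev WW (U : Subgroup F) (A : Type v) [Group A] : Type _ :=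
  (F ⧸ U → A) ⋊[(mulAutArrow : GW U →* MulAut (F ⧸ U → A))] (GW U)

private theorem gw_arrow {U : Subgroup F} {A : Type v} [Group A] (s : GW U) (f : F ⧸ U → A)
    (ω : F ⧸ U) : (mulAutArrow : GW U →* MulAut (F ⧸ U → A)) s f ω = f (s⁻¹ • ω) := rfl

private def gw_perm (U : Subgroup F) : F →* GW U := (MulAction.toPermHom F (F ⧸ U)).rangeRestrict

private theorem gw_perm_smul (U : Subgroup F) (g : F) (ω : F ⧸ U) :
    (gw_perm U g)⁻¹ • ω = g⁻¹ • ω := by
  rw [← map_inv]
  rfl

/-- the embedding of Kaloujnine and Krasner -/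
private noncomputable def gw_kappa {U : Subgroup F} {A : Type v} [Group A] (α : U →* A) :
    F →* WW U A where
  toFun g := ⟨fun ω => α ⟨(gw_r U ω)⁻¹ * (g * gw_r U (g⁻¹ • ω)), gw_mem U g ω⟩, gw_perm U g⟩
  map_one' := by
    refine SemidirectProduct.ext ?_ ?_
    · funext ω
      rw [SemidirectProduct.one_left, Pi.one_apply]
      have : (⟨(gw_r U ω)⁻¹ * (1 * gw_r U ((1:F)⁻¹ • ω)), gw_mem U 1 ω⟩ : U) = 1 := by
        apply Subtype.ext
        simp
      change α (⟨(gw_r U ω)⁻¹ * (1 * gw_r U ((1:F)⁻¹ • ω)), gw_mem U 1 ω⟩ : U) = 1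
      rw [this, map_one]
    · rw [SemidirectProduct.one_right, map_one]
  map_mul' g h := by
    refine SemidirectProduct.ext ?_ ?_
    · funext ω
      rw [SemidirectProduct.mul_left, Pi.mul_apply, gw_arrow]
      simp only [gw_perm_smul]
      rw [← map_mul]
      congr 1
      apply Subtype.ext
      simp only [Subgroup.coe_mul]
      rw [mul_inv_rev, mul_smul]
      group
    · rw [SemidirectProduct.mul_right, map_mul]

private theorem gw_kappa_left {U : Subgroup F} {A : Type v} [Group A] (α : U →* A) (g : F)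
    (ω : F ⧸ U) : (gw_kappa α g).left ω =
      α ⟨(gw_r U ω)⁻¹ * (g * gw_r U (g⁻¹ • ω)), gw_mem U g ω⟩ := rfl

private theorem gw_kappa_right {U : Subgroup F} {A : Type v} [Group A] (α : U →* A) (g : F) :
    (gw_kappa α g).right = gw_perm U g := rfl

private def gw_map (U : Subgroup F) {A : Type v} {B : Type w} [Group A] [Group B] (π : B →* A) :
    WW U B →* WW U A :=
  SemidirectProduct.map (π.compLeft (F ⧸ U)) (MonoidHom.id (GW U)) (fun s => by
    ext f ω
    rfl)

private theorem gw_map_left (U : Subgroup F) {A : Type v} {B : Type w} [Group A] [Group B]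
    (π : B →* A) (z : WW U B) (ω : F ⧸ U) : (gw_map U π z).left ω = π (z.left ω) := rfl

private theorem gw_map_right (U : Subgroup F) {A : Type v} {B : Type w} [Group A] [Group B]
    (π : B →* A) (z : WW U B) : (gw_map U π z).right = z.right := rfl

private theorem gw_map_surj (U : Subgroup F) {A : Type v} {B : Type w} [Group A] [Group B]
    (π : B →* A) (hπ : Function.Surjective π) : Function.Surjective (gw_map U π) := by
  intro z
  choose c hc using fun ω => hπ (z.left ω)
  refine ⟨⟨c, z.right⟩, SemidirectProduct.ext ?_ rfl⟩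
  funext ω
  rw [gw_map_left]
  exact hc ω

end wreath

/-- PROOF. Let `P = F / N` (a finite `2`-group), `V = U / N ≤ P`; `α` induces `α' : V →* A` as `α = 1` on `N`.
Let `Ω = P / V` (left cosets, a finite set with an action of `P`, base point `ω0 = V`) and choose representatives
`s : Ω → P` with `s ω0 = 1`. For a group `A` let `W A = (Ω → A) ⋊ P` (Mathlib: `SemidirectProduct (Ω → A) P mulAutArrow`,
`(p • f) ω = f (p⁻¹ • ω)`). The map
`κ : P →* W A`, `κ p = (f_p, p)`, `f_p ω = α' ((s ω)⁻¹ * p * s (p⁻¹ • ω))` is a homomorphism (direct computation;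
`(s ω)⁻¹ * p * s (p⁻¹ • ω) ∈ V`). `π` induces a surjection `W B →* W A` (componentwise on the functions), and `W B` is a
finite `2`-group. Choose preimages in `W B` of the images of `x` and `y` under `F → P → W A`, and by
`ext_univ` a continuous `θ : F →* W B` which maps `x, y` to them. The composite `F → W B → W A` agrees with
`F → P → W A` at `x` and `y`, both have open kernels, and `cl2 x y = ⊤`, so that they are equal (the set where two
homomorphisms with open kernels agree is a closed subgroup). For `u ∈ U` let `β u = (θ u).left ω0`. As the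
second component of `θ u` is the class of `u`, which fixes `ω0`, `β` is a homomorphism; its kernel is open as it contains
`U ∩ ker θ`; and `π (β u) = f_u ω0 = α' (class of u) = α u`. (One can avoid the choice `s ω0 = 1`: then `π (β u)` is the conjugate
`α' (s⁻¹ u s)`, so please choose `s ω0 = 1`.) -/
theorem lift_open {F : Type u} [Group F] [TopologicalSpace F] [IsTopologicalGroup F] [CompactSpace F]
    (hP : ProP 2 F) {x y : F} (hgen : cl2 x y = ⊤)
    (hext : ∀ (P : Type) [Group P] [Finite P], IsPGroup 2 P → ∀ p q : P,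
      ∃ φ : F →* P, OpenKer φ ∧ φ x = p ∧ φ y = q)
    (U N : Subgroup F) (hN : N.Normal) (hNo : IsOpen (N : Set F)) (hNU : N ≤ U)
    (A B : Type) [Group A] [Group B] [Finite B] (hB : IsPGroup 2 B) (π : B →* A)
    (hπ : Function.Surjective π) (α : U →* A) (hα : ∀ n (hn : n ∈ N), α ⟨n, hNU hn⟩ = 1) :
    ∃ β : U →* B, OpenKer β ∧ ∀ g, π (β g) = α g := by
  classical
  have hUo : IsOpen (U : Set F) := Subgroup.isOpen_mono hNU hNo
  have : Finite (F ⧸ U) := Subgroup.quotient_finite_of_isOpen U hUo
  have hfix : ∀ n ∈ N, ∀ ω : F ⧸ U, n • ω = ω := by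
    intro n hn ω
    induction ω using QuotientGroup.induction_on with
    | H z =>
      have h1 : n • (z : F ⧸ U) = ((n * z : F) : F ⧸ U) := rfl
      rw [h1, eq_comm, QuotientGroup.eq]
      have h2 : z⁻¹ * (n * z) = z⁻¹ * n * z⁻¹⁻¹ := by group
      rw [h2]
      exact hNU (hN.conj_mem n hn z⁻¹)
  have hperm : ∀ n ∈ N, gw_perm U n = 1 := by
    intro n hn
    apply Subtype.ext
    ext ω
    exact hfix n hn ω
  -- the finite 2-group
  have hG : IsPGroup 2 (GW U) := by
    rintro ⟨s, g, rfl⟩
    obtain ⟨k, hk⟩ := hP N hN hNo g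
    refine ⟨k, ?_⟩
    have h1 : (⟨MulAction.toPermHom F (F ⧸ U) g, ⟨g, rfl⟩⟩ : GW U) = gw_perm U g := rfl
    rw [h1, ← map_pow]
    exact hperm _ hk
  have : Finite (WW U B) := Finite.of_equiv _ SemidirectProduct.equivProd.symm
  have hW : IsPGroup 2 (WW U B) := by
    rw [IsPGroup.iff_card] at hG hB ⊢
    obtain ⟨a, ha⟩ := hG
    obtain ⟨b, hb⟩ := hB
    refine ⟨b * Nat.card (F ⧸ U) + a, ?_⟩
    rw [Nat.card_congr (SemidirectProduct.equivProd (N := F ⧸ U → B) (G := GW U)), Nat.card_prod,
      ha, pow_add]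
    congr 1
    have : Fintype (F ⧸ U) := Fintype.ofFinite _
    rw [Nat.card_fun, hb, pow_mul]
  -- the homomorphism to the wreath product
  have hkerκ : ∀ n ∈ N, gw_kappa α n = 1 := by
    intro n hn
    refine SemidirectProduct.ext ?_ ?_
    · funext ω
      rw [gw_kappa_left, SemidirectProduct.one_left, Pi.one_apply]
      have h1 : n⁻¹ • ω = ω := hfix n⁻¹ (N.inv_mem hn) ω
      have h2 : (gw_r U ω)⁻¹ * (n * gw_r U (n⁻¹ • ω)) ∈ N := by
        rw [h1]
        have h2 : (gw_r U ω)⁻¹ * (n * gw_r U ω) = (gw_r U ω)⁻¹ * n * (gw_r U ω)⁻¹⁻¹ := by group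
        rw [h2]
        exact hN.conj_mem n hn _
      exact hα _ h2
    · rw [gw_kappa_right, SemidirectProduct.one_right]
      exact hperm n hn
  obtain ⟨p, hp⟩ := gw_map_surj U π hπ (gw_kappa α x)
  obtain ⟨q, hq⟩ := gw_map_surj U π hπ (gw_kappa α y)
  obtain ⟨θ, hθ, hθx, hθy⟩ := ext_univ hext (WW U B) hW p q
  have hall : ∀ g, gw_map U π (θ g) = gw_kappa α g := by
    let E : Subgroup F := ((gw_map U π).comp θ).eqLocus (gw_kappa α)
    have hle : θ.ker ⊓ N ≤ E := by
      rintro g ⟨h1, h2⟩
      change gw_map U π (θ g) = gw_kappa α g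
      rw [MonoidHom.mem_ker.1 h1, map_one, hkerκ g h2]
    have ho : IsOpen ((θ.ker ⊓ N : Subgroup F) : Set F) := hθ.inter hNo
    have hEo : IsOpen (E : Set F) := Subgroup.isOpen_mono hle ho
    have hEc : IsClosed (E : Set F) := Subgroup.isClosed_of_isOpen E hEo
    have h1 : cl2 x y ≤ E := by
      refine Subgroup.topologicalClosure_minimal _ ?_ hEc
      rw [Subgroup.closure_le]
      rintro z (rfl | rfl)
      · change gw_map U π (θ z) = gw_kappa α z
        rw [hθx, hp]
      · change gw_map U π (θ z) = gw_kappa α z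
        rw [hθy, hq]
    intro g
    have h2 : g ∈ E := h1 (hgen ▸ Subgroup.mem_top g)
    exact h2
  have hright : ∀ g, (θ g).right = gw_perm U g := by
    intro g
    have := congrArg SemidirectProduct.right (hall g)
    rwa [gw_map_right, gw_kappa_right] at this
  have hω : ∀ u : U, (u : F)⁻¹ • ((1 : F) : F ⧸ U) = ((1 : F) : F ⧸ U) := by
    intro u
    have h1 : (u : F)⁻¹ • ((1 : F) : F ⧸ U) = (((u : F)⁻¹ * 1 : F) : F ⧸ U) := rfl
    rw [h1, QuotientGroup.eq]
    simp
  let β : U →* B :=
    { toFun := fun u => (θ (u : F)).left ((1 : F) : F ⧸ U)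
      map_one' := by
        rw [Subgroup.coe_one, map_one, SemidirectProduct.one_left, Pi.one_apply]
      map_mul' := fun u v => by
        rw [Subgroup.coe_mul, map_mul, SemidirectProduct.mul_left, Pi.mul_apply, gw_arrow,
          hright, gw_perm_smul, hω] }
  refine ⟨β, ?_, fun g => ?_⟩
  · unfold OpenKer
    have h1 : IsOpen ((θ.ker.comap U.subtype : Subgroup U) : Set U) :=
      hθ.preimage continuous_subtype_val
    refine Subgroup.isOpen_mono ?_ h1
    intro u hu
    rw [MonoidHom.mem_ker]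
    have h2 : θ (u : F) = 1 := hu
    change (θ (u : F)).left ((1 : F) : F ⧸ U) = 1
    rw [h2, SemidirectProduct.one_left, Pi.one_apply]
  · change π ((θ (g : F)).left ((1 : F) : F ⧸ U)) = α g
    rw [← gw_map_left, hall, gw_kappa_left]
    congr 1
    apply Subtype.ext
    change (gw_r U ((1 : F) : F ⧸ U))⁻¹ * ((g : F) * gw_r U ((g : F)⁻¹ • ((1 : F) : F ⧸ U))) = g
    rw [hω, gw_r_one]
    simp

end MP35
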