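import Pool.Agent.Lib_MP_3538b5.GTrans
import Pool.Agent.Lib_MP_3538b5.GFour
import Pool.Agent.Lib_MP_3538b5.GTors
import Pool.Agent.Lib_MP_3538b5.GWreath
import Pool.Agent.Lib_MP_3538b5.GExt

/-! # Assembly of the group theory -/

set_option autoImplicit false

namespace MP35

universe u v w

section

variable {G : Type u} [Group G] [TopologicalSpace G] [IsTopologicalGroup G] [CompactSpace G]
    [T2Space G] [TotallyDisconnectedSpace G]

theorem gp_of_lift (hP : ProP 2 G) (hL : Lift2 G) : GP G where
  tors := no_involution hL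
  cyc := commute_cyc hP hL
  trans := comm_trans hP hL
  ncn := normal_comm hP hL
  metab := metab_comm hP hL
  four := four_comm hP hL

theorem lift_of_ext (hP : ProP 2 G) {x y : G} (hgen : cl2 x y = ⊤)
    (hext : ∀ (P : Type) [Group P] [Finite P], IsPGroup 2 P → ∀ p q : P,
      ∃ φ : G →* P, OpenKer φ ∧ φ x = p ∧ φ y = q) : Lift2 G := by
  intro K _ A B _ _ _ hB π hπ α hα
  obtain ⟨N, hN, hNo, α', h1, h2⟩ := extend_open K α hα
  obtain ⟨β, hβ, h3⟩ := lift_open hP hgen hext (K ⊔ N) N hN hNo le_sup_right A B hB π hπ α'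
    (fun n hn => h2 ⟨n, hn⟩)
  refine ⟨β.comp (Subgroup.inclusion le_sup_left), ?_, fun g => ?_⟩
  · have hc : Continuous (Subgroup.inclusion (le_sup_left (a := K) (b := N))) := by
      exact Continuous.subtype_mk continuous_subtype_val _
    exact hβ.preimage hc
  · rw [MonoidHom.comp_apply, h3]
    exact h1 g

end

end MP35
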