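import Pool.Agent.Lib_MP_3538b5.GKlein
import Pool.Agent.Lib_MP_3538b5.GSub

/-! # Piece GCOORD: coordinates on the closed subgroup generated by two elements -/

set_option autoImplicit false

namespace MP35

universe u v w

/-- an open subgroup of `cl2 k l` containing the generators is everything -/
private theorem GCOORD_top {G : Type u} [Group G] [TopologicalSpace G] [IsTopologicalGroup G]
    (k l : G) (S : Subgroup (cl2 k l)) (hS : IsOpen (S : Set (cl2 k l)))
    (hk : (⟨k, Subgroup.le_topologicalClosure _ (Subgroup.subset_closure (by simp))⟩ :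
      cl2 k l) ∈ S)
    (hl : (⟨l, Subgroup.le_topologicalClosure _ (Subgroup.subset_closure (by simp))⟩ :
      cl2 k l) ∈ S) : S = ⊤ := by
  have hK : IsClosed ((cl2 k l : Subgroup G) : Set G) := Subgroup.isClosed_topologicalClosure _
  have hSc : IsClosed (S : Set (cl2 k l)) := Subgroup.isClosed_of_isOpen S hS
  have hmap : IsClosed ((S.map (cl2 k l).subtype : Subgroup G) : Set G) := by
    rw [Subgroup.coe_map]
    exact hK.isClosedEmbedding_subtypeVal.isClosedMap _ hSc
  have h1 : Subgroup.closure {k, l} ≤ S.map (cl2 k l).subtype := by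
    rw [Subgroup.closure_le]
    intro x hx
    rcases hx with rfl | hx
    · exact ⟨_, hk, rfl⟩
    · rw [Set.mem_singleton_iff] at hx
      subst hx
      exact ⟨_, hl, rfl⟩
  have h2 : cl2 k l ≤ S.map (cl2 k l).subtype := Subgroup.topologicalClosure_minimal _ h1 hmap
  rw [Subgroup.eq_top_iff']
  intro x
  obtain ⟨y, hy, hyx⟩ := h2 x.2
  have : y = x := Subtype.ext hyx
  rwa [← this]

private theorem GCOORD_det : ∀ a b : ZMod 2 × ZMod 2, a.1 * b.2 - a.2 * b.1 ≠ 1 →
    ∃ c t : ZMod 2 × ZMod 2, c.1 * a.1 + c.2 * a.2 = 0 ∧ c.1 * b.1 + c.2 * b.2 = 0 ∧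
      c.1 * t.1 + c.2 * t.2 ≠ 0 := by decide

private theorem GCOORD_unit {m : ℕ} (hm : m ≠ 0) (x : ZMod (2 ^ m))
    (hx : ZMod.castHom (dvd_pow_self 2 hm) (ZMod 2) x = 1) : IsUnit x := by
  have h0 : NeZero (2 ^ m) := ⟨pow_ne_zero _ two_ne_zero⟩
  have h1 : ((x.val : ℕ) : ZMod (2 ^ m)) = x := ZMod.natCast_zmod_val x
  rw [← h1, map_natCast] at hx
  rw [← h1, ZMod.isUnit_iff_coprime]
  exact (Nat.coprime_pow_right_iff (Nat.pos_of_ne_zero hm) _ _).2
    (Nat.coprime_two_right.2 ((ZMod.natCast_eq_one_iff_odd).1 hx))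

/-- PROOF. `K = cl2 k l` is closed in `G`, a pro-`2` group (`ProP.sub`) and not commutative; by `klein` there is a surjective
`α : K →* Kl` with open kernel. `K` is topologically generated by `k, l`, so that the finite group `Kl` is generated by `α k, α l`: these two
vectors of `ZMod 2 × ZMod 2` are linearly independent (`decide`: determinant `1`). If `m = 0` the claim is trivial. Otherwise the reduction
`Multiplicative (ZMod (2^m) × ZMod (2^m)) →* Kl` is surjective from a finite `2`-group; let `γ` be a lift of `α`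
(`hL`, `K` closed), `γ k = (u1, u2)`, `γ l = (v1, v2)`. The determinant `D = u1 v2 - u2 v1` in `ZMod (2^m)` is odd, so a unit.
Let `β g = ofAdd (D⁻¹ (g1 v2 - g2 v1))` for `γ g = (g1, g2)`. -/
theorem exists_coord {G : Type u} [Group G] [TopologicalSpace G] [IsTopologicalGroup G] [CompactSpace G]
    [T2Space G] [TotallyDisconnectedSpace G] (hP : ProP 2 G) (hL : Lift2 G) (k l : G)
    (hkl : k * l ≠ l * k) (m : ℕ) : ∃ β : cl2 k l →* Multiplicative (ZMod (2 ^ m)), OpenKer β ∧
      β ⟨k, Subgroup.le_topologicalClosure _ (Subgroup.subset_closure (by simp))⟩ =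
        Multiplicative.ofAdd 1 ∧
      β ⟨l, Subgroup.le_topologicalClosure _ (Subgroup.subset_closure (by simp))⟩ = 1 := by
  set K : Subgroup G := cl2 k l with hKdef
  have hKc : IsClosed ((cl2 k l : Subgroup G) : Set G) := Subgroup.isClosed_topologicalClosure _
  have hcomp : CompactSpace (cl2 k l) := isCompact_iff_compactSpace.1 hKc.isCompact
  let kk : cl2 k l := ⟨k, Subgroup.le_topologicalClosure _ (Subgroup.subset_closure (by simp))⟩
  let ll : cl2 k l := ⟨l, Subgroup.le_topologicalClosure _ (Subgroup.subset_closure (by simp))⟩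
  by_cases hm : m = 0
  · subst hm
    refine ⟨1, ?_, ?_, rfl⟩
    · unfold OpenKer
      rw [MonoidHom.ker_one]
      exact isOpen_univ
    · exact Subsingleton.elim (α := ZMod 1) _ _
  obtain ⟨α, hα, hs⟩ := klein (G := cl2 k l) (hP.sub _) ⟨kk, ll, fun h =>
    hkl (congrArg Subtype.val h)⟩
  have hdet : (α kk).toAdd.1 * (α ll).toAdd.2 - (α kk).toAdd.2 * (α ll).toAdd.1 = 1 := by
    by_contra hne
    obtain ⟨c, t, h1, h2, h3⟩ := GCOORD_det _ _ hne
    let S : Subgroup (cl2 k l) :=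
      { carrier := {x | c.1 * (α x).toAdd.1 + c.2 * (α x).toAdd.2 = 0}
        one_mem' := by
          show c.1 * (α 1).toAdd.1 + c.2 * (α 1).toAdd.2 = 0
          rw [map_one]
          simp
        mul_mem' := by
          intro x y hx hy
          have hx' : c.1 * (α x).toAdd.1 + c.2 * (α x).toAdd.2 = 0 := hx
          have hy' : c.1 * (α y).toAdd.1 + c.2 * (α y).toAdd.2 = 0 := hy
          show c.1 * (α (x * y)).toAdd.1 + c.2 * (α (x * y)).toAdd.2 = 0
          rw [α.map_mul, toAdd_mul, Prod.fst_add, Prod.snd_add]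
          linear_combination hx' + hy'
        inv_mem' := by
          intro x hx
          have hx' : c.1 * (α x).toAdd.1 + c.2 * (α x).toAdd.2 = 0 := hx
          show c.1 * (α x⁻¹).toAdd.1 + c.2 * (α x⁻¹).toAdd.2 = 0
          rw [α.map_inv, toAdd_inv, Prod.fst_neg, Prod.snd_neg]
          linear_combination -hx' }
    have hSo : IsOpen (S : Set (cl2 k l)) := by
      refine Subgroup.isOpen_mono (H₁ := α.ker) ?_ hα
      intro x hx
      rw [MonoidHom.mem_ker] at hx
      show c.1 * (α x).toAdd.1 + c.2 * (α x).toAdd.2 = 0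
      rw [hx]
      simp
    have hS := GCOORD_top k l S hSo h1 h2
    obtain ⟨z, hz⟩ := hs (Multiplicative.ofAdd t)
    have hzS : z ∈ S := by rw [hS]; exact Subgroup.mem_top z
    have hzS' : c.1 * (α z).toAdd.1 + c.2 * (α z).toAdd.2 = 0 := hzS
    rw [hz] at hzS'
    exact h3 hzS'
  let cst : ZMod (2 ^ m) →+* ZMod 2 := ZMod.castHom (dvd_pow_self 2 hm) (ZMod 2)
  have h0 : NeZero (2 ^ m) := ⟨pow_ne_zero _ two_ne_zero⟩
  let π0 : (ZMod (2 ^ m) × ZMod (2 ^ m)) →+ (ZMod 2 × ZMod 2) :=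
    AddMonoidHom.prodMap cst.toAddMonoidHom cst.toAddMonoidHom
  let π : Multiplicative (ZMod (2 ^ m) × ZMod (2 ^ m)) →* Kl := AddMonoidHom.toMultiplicative π0
  have hπ : Function.Surjective π := by
    intro t
    obtain ⟨a, ha⟩ := ZMod.castHom_surjective (dvd_pow_self 2 hm) t.toAdd.1
    obtain ⟨b, hb⟩ := ZMod.castHom_surjective (dvd_pow_self 2 hm) t.toAdd.2
    refine ⟨Multiplicative.ofAdd (a, b), ?_⟩
    show Multiplicative.ofAdd (cst a, cst b) = t
    rw [show cst a = t.toAdd.1 from ha, show cst b = t.toAdd.2 from hb]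
    rfl
  have hB : IsPGroup 2 (Multiplicative (ZMod (2 ^ m) × ZMod (2 ^ m))) := by
    apply IsPGroup.of_card (n := m + m)
    rw [Nat.card_congr (Multiplicative.toAdd (α := ZMod (2 ^ m) × ZMod (2 ^ m))), Nat.card_prod,
      Nat.card_zmod, pow_add]
  obtain ⟨γ, hγ, hγα⟩ := hL (cl2 k l) hKc Kl (Multiplicative (ZMod (2 ^ m) × ZMod (2 ^ m))) hB π hπ
    α hα
  have hc1 : ∀ x, cst (γ x).toAdd.1 = (α x).toAdd.1 := fun x => by
    rw [← hγα x]
    rfl
  have hc2 : ∀ x, cst (γ x).toAdd.2 = (α x).toAdd.2 := fun x => by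
    rw [← hγα x]
    rfl
  set u := (γ kk).toAdd with hu
  set v := (γ ll).toAdd with hv
  have hD : IsUnit (u.1 * v.2 - u.2 * v.1) := by
    apply GCOORD_unit hm
    show cst (u.1 * v.2 - u.2 * v.1) = 1
    rw [map_sub, map_mul, map_mul, hu, hv, hc1, hc1, hc2, hc2]
    exact hdet
  obtain ⟨D, hD'⟩ := hD
  let δ : (ZMod (2 ^ m) × ZMod (2 ^ m)) →+ ZMod (2 ^ m) :=
    { toFun := fun g => (D⁻¹ : (ZMod (2 ^ m))ˣ) * (g.1 * v.2 - g.2 * v.1)
      map_zero' := by simp
      map_add' := fun g g' => by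
        rw [Prod.fst_add, Prod.snd_add]
        ring }
  refine ⟨(AddMonoidHom.toMultiplicative δ).comp γ, ?_, ?_, ?_⟩
  · refine Subgroup.isOpen_mono (H₁ := γ.ker) ?_ hγ
    intro x hx
    rw [MonoidHom.mem_ker] at hx ⊢
    rw [MonoidHom.comp_apply, hx, map_one]
  · show Multiplicative.ofAdd (((D⁻¹ : (ZMod (2 ^ m))ˣ) : ZMod (2 ^ m)) *
      (u.1 * v.2 - u.2 * v.1)) = Multiplicative.ofAdd 1
    rw [← hD', Units.inv_mul]
  · show Multiplicative.ofAdd (((D⁻¹ : (ZMod (2 ^ m))ˣ) : ZMod (2 ^ m)) *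
      (v.1 * v.2 - v.2 * v.1)) = Multiplicative.ofAdd 0
    rw [mul_comm v.1 v.2, sub_self, mul_zero]

end MP35
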