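import Pool.Agent.Lib_MP_3538b5.GDih

/-! # Piece GCYC: commuting elements -/

set_option autoImplicit false

namespace MP35

universe u v w

/-- integral powers of commuting elements -/
private theorem GCYC_mul {G : Type u} [Group G] {g h : G} (hgh : g * h = h * g) (i j i' j' : ℤ) :
    (g ^ i * h ^ j) * (g ^ i' * h ^ j') = g ^ (i + i') * h ^ (j + j') := by
  have hc : Commute g h := hgh
  have h1 : h ^ j * g ^ i' = g ^ i' * h ^ j := ((hc.zpow_zpow i' j).eq).symm
  calc (g ^ i * h ^ j) * (g ^ i' * h ^ j') = g ^ i * (h ^ j * g ^ i') * h ^ j' := by group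
    _ = g ^ i * (g ^ i' * h ^ j) * h ^ j' := by rw [h1]
    _ = (g ^ i * g ^ i') * (h ^ j * h ^ j') := by group
    _ = g ^ (i + i') * h ^ (j + j') := by rw [← zpow_add, ← zpow_add]

private theorem GCYC_form {G : Type u} [Group G] {g h : G} (hgh : g * h = h * g) {y : G}
    (hy : y ∈ Subgroup.closure {g, h}) : ∃ i j : ℤ, y = g ^ i * h ^ j := by
  induction hy using Subgroup.closure_induction with
  | mem x hx =>
    rcases hx with rfl | hx
    · exact ⟨1, 0, by simp⟩
    · rw [Set.mem_singleton_iff] at hx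
      exact ⟨0, 1, by simp [hx]⟩
  | one => exact ⟨0, 0, by simp⟩
  | mul x y _ _ hx hy =>
    obtain ⟨i, j, rfl⟩ := hx
    obtain ⟨i', j', rfl⟩ := hy
    exact ⟨i + i', j + j', GCYC_mul hgh i j i' j'⟩
  | inv x _ hx =>
    obtain ⟨i, j, rfl⟩ := hx
    refine ⟨-i, -j, ?_⟩
    rw [inv_eq_iff_mul_eq_one, GCYC_mul hgh]
    simp

/-- an odd power determines the parity -/
private theorem GCYC_odd {G : Type u} [Group G] {h : G} {M : Subgroup G} {k : ℕ} {e : ℤ}
    (h1 : h ^ 2 ^ k ∈ M) (he : Odd e) (h2 : h ^ e ∈ M) : h ∈ M := by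
  have hco : IsCoprime e ((2 : ℤ) ^ k) := by
    refine IsCoprime.pow_right ?_
    obtain ⟨r, hr⟩ := he
    exact ⟨1, -r, by rw [hr]; ring⟩
  obtain ⟨u, v, huv⟩ := hco
  have h3 : h = (h ^ e) ^ u * (h ^ 2 ^ k) ^ v := by
    rw [← zpow_natCast h (2 ^ k), ← zpow_mul, ← zpow_mul, ← zpow_add]
    have : e * u + ((2 ^ k : ℕ) : ℤ) * v = 1 := by
      push_cast
      rw [← huv]
      ring
    rw [this, zpow_one]
  rw [h3]
  exact M.mul_mem (M.zpow_mem h2 u) (M.zpow_mem h1 v)

/-- PROOF. `cl g` is closed, so there is an open normal subgroup `N` of `G` such that `h ∉ n m` for `n ∈ cl g`, `m ∈ N`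
(compactness: `cl g` is the intersection of the open subgroups containing it,
`ProfiniteGrp.closedSubgroup_eq_sInf_open`, and an open subgroup contains an open normal one). Let `M = K ∩ (cl g ⊔ N)`: an open
subgroup of `K`, normal as `K` is commutative, with `h ∉ M`, `g ∈ M`. `h ^ 2 ^ s ∈ M` for some `s`; let `s` be minimal, `s ≥ 1`. `K` is topologically
generated by `g, h`, so that `K / M` is cyclic, generated by the class of `h`, of order `2 ^ s`, and there is a homomorphism `K / M → ZMod 2`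
with `h ↦ 1`. -/
theorem hom_two {G : Type u} [Group G] [TopologicalSpace G] [IsTopologicalGroup G] [CompactSpace G]
    [T2Space G] [TotallyDisconnectedSpace G] (hP : ProP 2 G) (g h : G) (hgh : g * h = h * g)
    (hn : h ∉ cl g) : ∃ φ : cl2 g h →* Multiplicative (ZMod 2), OpenKer φ ∧
      φ ⟨g, Subgroup.le_topologicalClosure _ (Subgroup.subset_closure (by simp))⟩ = 1 ∧
      φ ⟨h, Subgroup.le_topologicalClosure _ (Subgroup.subset_closure (by simp))⟩ =
        Multiplicative.ofAdd 1 := by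
  classical
  have hcl : IsClosed ((cl g : Subgroup G) : Set G) := Subgroup.isClosed_topologicalClosure _
  obtain ⟨N, hN⟩ := ProfiniteGrp.exist_openNormalSubgroup_sub_open_nhds_of_one
    (U := {x : G | h * x ∉ (cl g : Subgroup G)})
    ((hcl.isOpen_compl).preimage (continuous_const_mul h)) (by
      show h * 1 ∉ cl g
      rwa [mul_one])
  let N' : Subgroup G := N.toSubgroup
  have hNn : N'.Normal := inferInstance
  have hNo : IsOpen (N' : Set G) := N.isOpen'
  have hN' : ∀ x ∈ N', h * x ∉ cl g := fun x hx => hN hx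
  -- h is not in M
  have hM : h ∉ cl g ⊔ N' := by
    intro hm
    obtain ⟨c, hc, n, hn', hcn⟩ := Subgroup.mem_sup_of_normal_right.1 hm
    apply hN' n⁻¹ (N'.inv_mem hn')
    rw [← hcn, mul_inv_cancel_right]
    exact hc
  obtain ⟨k, hk⟩ := hP N' hNn hNo h
  have hkM : h ^ 2 ^ k ∈ cl g ⊔ N' := Subgroup.mem_sup_right hk
  have hgM : ∀ i : ℤ, g ^ i ∈ cl g := fun i =>
    (cl g).zpow_mem (Subgroup.le_topologicalClosure _ (Subgroup.mem_zpowers g)) i
  -- existence
  have hex : ∀ x : cl2 g h, ∃ b : ZMod 2, ∃ i j : ℤ, (j : ZMod 2) = b ∧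
      (g ^ i * h ^ j)⁻¹ * (x : G) ∈ N' := by
    intro x
    have hx : (x : G) ∈ closure ((Subgroup.closure {g, h} : Subgroup G) : Set G) := x.2
    have hop : IsOpen {y : G | y⁻¹ * (x : G) ∈ N'} :=
      hNo.preimage (by fun_prop)
    obtain ⟨y, hy1, hy2⟩ := mem_closure_iff.1 hx _ hop (by
      show (x : G)⁻¹ * (x : G) ∈ N'
      rw [inv_mul_cancel]
      exact N'.one_mem)
    obtain ⟨i, j, rfl⟩ := GCYC_form hgh hy2
    exact ⟨(j : ZMod 2), i, j, rfl, hy1⟩
  -- uniqueness
  have hun : ∀ (x : G) (b c : ZMod 2) (i j i' j' : ℤ), (j : ZMod 2) = b → (j' : ZMod 2) = c →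
      (g ^ i * h ^ j)⁻¹ * x ∈ N' → (g ^ i' * h ^ j')⁻¹ * x ∈ N' → b = c := by
    intro x b c i j i' j' hb hc h1 h2
    by_contra hne
    have h3 : (g ^ i * h ^ j)⁻¹ * (g ^ i' * h ^ j') ∈ N' := by
      have := N'.mul_mem h1 (N'.inv_mem h2)
      have e : (g ^ i * h ^ j)⁻¹ * x * ((g ^ i' * h ^ j')⁻¹ * x)⁻¹ =
          (g ^ i * h ^ j)⁻¹ * (g ^ i' * h ^ j') := by group
      rwa [e] at this
    have h4 : (g ^ i * h ^ j)⁻¹ = g ^ (-i) * h ^ (-j) := by
      rw [inv_eq_iff_mul_eq_one, GCYC_mul hgh]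
      simp
    rw [h4, GCYC_mul hgh] at h3
    have h5 : h ^ (-j + j') ∈ cl g ⊔ N' := by
      have h6 : h ^ (-j + j') = g ^ (-(-i + i')) * (g ^ (-i + i') * h ^ (-j + j')) := by
        rw [← mul_assoc, ← zpow_add]
        simp
      rw [h6]
      exact Subgroup.mul_mem _ (Subgroup.mem_sup_left (hgM _)) (Subgroup.mem_sup_right h3)
    have hodd : Odd (-j + j') := by
      rw [← Int.not_even_iff_odd]
      intro hev
      apply hne
      have h7 : ((-j + j' : ℤ) : ZMod 2) = 0 := (ZMod.intCast_zmod_eq_zero_iff_dvd _ 2).2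
        (by exact_mod_cast hev.two_dvd)
      push_cast at h7
      rw [hb, hc] at h7
      exact (eq_of_neg_add_eq_zero h7)
    exact hM (GCYC_odd hkM hodd h5)
  let F : cl2 g h → ZMod 2 := fun x => Classical.choose (hex x)
  have hF : ∀ x : cl2 g h, ∃ i j : ℤ, (j : ZMod 2) = F x ∧ (g ^ i * h ^ j)⁻¹ * (x : G) ∈ N' :=
    fun x => Classical.choose_spec (hex x)
  have hFe : ∀ (x : cl2 g h) (i j : ℤ), (g ^ i * h ^ j)⁻¹ * (x : G) ∈ N' → F x = (j : ZMod 2) := by
    intro x i j hx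
    obtain ⟨i', j', h1, h2⟩ := hF x
    exact hun x _ _ i' j' i j h1 rfl h2 hx
  have hmul : ∀ x y : cl2 g h, F (x * y) = F x + F y := by
    intro x y
    obtain ⟨i, j, h1, h2⟩ := hF x
    obtain ⟨i', j', h3, h4⟩ := hF y
    rw [hFe (x * y) (i + i') (j + j') ?_, ← h1, ← h3]
    · push_cast
      rfl
    · have h5 := hNn.conj_mem _ h2 (g ^ i' * h ^ j')⁻¹
      have h6 := N'.mul_mem h5 h4
      rw [← GCYC_mul hgh]
      have e : (g ^ i' * h ^ j')⁻¹ * ((g ^ i * h ^ j)⁻¹ * (x : G)) * (g ^ i' * h ^ j')⁻¹⁻¹ *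
          ((g ^ i' * h ^ j')⁻¹ * (y : G)) =
          (g ^ i * h ^ j * (g ^ i' * h ^ j'))⁻¹ * ((x * y : cl2 g h) : G) := by
        rw [Subgroup.coe_mul]
        group
      rwa [e] at h6
  refine ⟨MonoidHom.mk' (fun x => Multiplicative.ofAdd (F x)) (fun x y => by
    rw [hmul, ofAdd_add]), ?_, ?_, ?_⟩
  · refine Subgroup.isOpen_mono (H₁ := N'.subgroupOf (cl2 g h)) ?_
      (hNo.preimage continuous_subtype_val)
    intro x hx
    rw [MonoidHom.mem_ker]
    show Multiplicative.ofAdd (F x) = 1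
    have hx' : (x : G) ∈ N' := hx
    rw [hFe x 0 0 (by simpa using hx')]
    simp
  · show Multiplicative.ofAdd (F _) = 1
    rw [hFe _ 1 0 (by simp [N'.one_mem])]
    simp
  · show Multiplicative.ofAdd (F _) = Multiplicative.ofAdd 1
    rw [hFe _ 0 1 (by simp [N'.one_mem])]
    simp

/-- PROOF. Otherwise `h ∉ cl g` and `g ∉ cl h`. By `hom_two` for `(g, h)` and for `(h, g)` (`cl2 h g = cl2 g h`) there is a surjective
continuous homomorphism from the commutative group `K = cl2 g h` (closure of a commutative subgroup) onto `Kl`, so by `dihedral_lift` one onto the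
non-commutative group `DihedralGroup 4`: contradiction. -/
theorem commute_cyc {G : Type u} [Group G] [TopologicalSpace G] [IsTopologicalGroup G] [CompactSpace G]
    [T2Space G] [TotallyDisconnectedSpace G] (hP : ProP 2 G) (hL : Lift2 G) (g h : G)
    (hgh : g * h = h * g) : h ∈ cl g ∨ g ∈ cl h := by
  by_contra hcon
  push Not at hcon
  obtain ⟨hn1, hn2⟩ := hcon
  obtain ⟨φ1, ho1, h11, h12⟩ := hom_two hP g h hgh hn1
  obtain ⟨φ2', ho2', h21', h22'⟩ := hom_two hP h g hgh.symm hn2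
  have hle : cl2 g h ≤ cl2 h g := by
    rw [cl2, cl2, Set.pair_comm]
  let φ2 : cl2 g h →* Multiplicative (ZMod 2) := φ2'.comp (Subgroup.inclusion hle)
  let gg : cl2 g h := ⟨g, Subgroup.le_topologicalClosure _ (Subgroup.subset_closure (by simp))⟩
  let hh : cl2 g h := ⟨h, Subgroup.le_topologicalClosure _ (Subgroup.subset_closure (by simp))⟩
  have h21 : φ2 gg = Multiplicative.ofAdd 1 := h22'
  have h22 : φ2 hh = 1 := h21'
  have ho2 : OpenKer φ2 := by
    have : ((φ2.ker : Subgroup (cl2 g h)) : Set (cl2 g h)) =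
        (Subgroup.inclusion hle) ⁻¹' (φ2'.ker : Set (cl2 h g)) := by
      ext x
      simp [φ2, MonoidHom.mem_ker]
    unfold OpenKer
    rw [this]
    exact ho2'.preimage (by
      apply Continuous.subtype_mk
      exact continuous_subtype_val)
  let α : cl2 g h →* Kl := MonoidHom.mk'
    (fun x => Multiplicative.ofAdd ((φ2 x).toAdd, (φ1 x).toAdd)) (by
      intro x y
      rw [φ2.map_mul, φ1.map_mul, toAdd_mul, toAdd_mul]
      rfl)
  have hα : OpenKer α := by
    have : ((α.ker : Subgroup (cl2 g h)) : Set (cl2 g h)) = (φ2.ker : Set (cl2 g h)) ∩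
        (φ1.ker : Set (cl2 g h)) := by
      ext x
      simp only [SetLike.mem_coe, MonoidHom.mem_ker, Set.mem_inter_iff]
      show Multiplicative.ofAdd ((φ2 x).toAdd, (φ1 x).toAdd) = 1 ↔ _
      rw [ofAdd_eq_one, Prod.mk_eq_zero, toAdd_eq_zero, toAdd_eq_zero]
    unfold OpenKer
    rw [this]
    exact ho2.inter ho1
  have hαg : α gg = Multiplicative.ofAdd (1, 0) := by
    show Multiplicative.ofAdd ((φ2 gg).toAdd, (φ1 gg).toAdd) = _
    rw [h21, show φ1 gg = 1 from h11]
    rfl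
  have hαh : α hh = Multiplicative.ofAdd (0, 1) := by
    show Multiplicative.ofAdd ((φ2 hh).toAdd, (φ1 hh).toAdd) = _
    rw [h22, show φ1 hh = Multiplicative.ofAdd 1 from h12]
    rfl
  have hs : Function.Surjective α := by
    have key : ∀ a b : ZMod 2, ∃ z, α z = Multiplicative.ofAdd (a, b) := by
      intro a b
      fin_cases a <;> fin_cases b
      · exact ⟨1, by rw [map_one]; rfl⟩
      · exact ⟨hh, hαh⟩
      · exact ⟨gg, hαg⟩
      · exact ⟨gg * hh, by rw [map_mul, hαg, hαh]; rfl⟩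
    intro t
    exact key t.toAdd.1 t.toAdd.2
  obtain ⟨β, -, hβ⟩ := dihedral_lift hL (cl2 g h) (Subgroup.isClosed_topologicalClosure _) α hα hs
  have hcomm : ∀ x y : cl2 g h, x * y = y * x := by
    have h0 : ∀ x y : (Subgroup.closure {g, h} : Subgroup G), x * y = y * x := by
      rintro ⟨x, hx⟩ ⟨y, hy⟩
      obtain ⟨i, j, rfl⟩ := GCYC_form hgh hx
      obtain ⟨i', j', rfl⟩ := GCYC_form hgh hy
      apply Subtype.ext
      show (g ^ i * h ^ j) * (g ^ i' * h ^ j') = (g ^ i' * h ^ j') * (g ^ i * h ^ j)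
      rw [GCYC_mul hgh, GCYC_mul hgh, add_comm i i', add_comm j j']
    exact (Subgroup.commGroupTopologicalClosure _ h0).mul_comm
  obtain ⟨x, hx⟩ := hβ (DihedralGroup.r 1)
  obtain ⟨y, hy⟩ := hβ (DihedralGroup.sr 0)
  have h1 : β (x * y) = β (y * x) := by rw [hcomm]
  rw [map_mul, map_mul, hx, hy] at h1
  revert h1
  decide

end MP35
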