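import Pool.Agent.Lib_MP_3538b5.CoreDefs

/-! # Piece GDETECT: elements of procyclic subgroups are detected by homomorphisms to Z/2^m -/

set_option autoImplicit false

namespace MP35

universe u v w

/-- PROOF. Suppose `z ≠ 1`. There is an open normal subgroup `U` of `G` with `z ∉ U`, and `s` with `k ^ 2 ^ s ∈ U`. Take `β` for
`m = s`; `ker β = K ∩ V` with `V` open in `G`. `z` is in the closure of the powers of `k`, so there is an integer
`r` with `z⁻¹ * k ^ r ∈ U ∩ V` (the set `z • (U ∩ V)` is a neighbourhood of `z`). Then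
`z⁻¹ * k ^ r ∈ K ∩ V = ker β`, so `β z = (β k) ^ r`, i.e. `r = 0` in `ZMod (2 ^ s)`, `2 ^ s ∣ r`, so that `k ^ r ∈ U`
and `z = k ^ r * (z⁻¹ * k ^ r)⁻¹ ∈ U`, a contradiction. -/
theorem detect {G : Type u} [Group G] [TopologicalSpace G] [IsTopologicalGroup G] [CompactSpace G]
    [T2Space G] [TotallyDisconnectedSpace G] (hP : ProP 2 G) (K : Subgroup G) {k z : G} (hk : k ∈ K)
    (hz : z ∈ K) (hzk : z ∈ cl k)
    (h : ∀ m : ℕ, ∃ β : K →* Multiplicative (ZMod (2 ^ m)), OpenKer β ∧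
      β ⟨k, hk⟩ = Multiplicative.ofAdd 1 ∧ β ⟨z, hz⟩ = 1) : z = 1 := by
  by_contra hz1
  obtain ⟨U, hU⟩ := ProfiniteGrp.exist_openNormalSubgroup_sub_open_nhds_of_one
    (isOpen_compl_singleton : IsOpen ({z}ᶜ : Set G)) (by
      intro h1
      exact hz1 (Set.mem_singleton_iff.mp h1).symm)
  have hzU : z ∉ U.toSubgroup := fun hm => hU hm rfl
  obtain ⟨s, hs⟩ := hP U.toSubgroup U.isNormal' U.isOpen' k
  obtain ⟨β, hβ, hβk, hβz⟩ := h s
  obtain ⟨V, hV, hVK⟩ := isOpen_induced_iff.mp hβ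
  have hker : ∀ x : K, (x : G) ∈ V ↔ β x = 1 := by
    intro x
    have h1 : x ∈ (Subtype.val ⁻¹' V : Set K) ↔ x ∈ (β.ker : Set K) := by rw [hVK]
    rw [Set.mem_preimage, SetLike.mem_coe, MonoidHom.mem_ker] at h1
    exact h1
  have h1V : (1 : G) ∈ V := by
    have h1 := (hker 1).mpr (map_one β)
    rwa [Subgroup.coe_one] at h1
  have hzc : z ∈ closure ((Subgroup.zpowers k : Subgroup G) : Set G) := hzk
  rw [mem_closure_iff] at hzc
  have hop : IsOpen ((fun g : G => z⁻¹ * g) ⁻¹' ((U.toSubgroup : Set G) ∩ V)) :=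
    (U.isOpen'.inter hV).preimage (continuous_const_mul z⁻¹)
  have hzin : z ∈ ((fun g : G => z⁻¹ * g) ⁻¹' ((U.toSubgroup : Set G) ∩ V)) := by
    show z⁻¹ * z ∈ (U.toSubgroup : Set G) ∩ V
    rw [inv_mul_cancel]
    exact ⟨U.toSubgroup.one_mem, h1V⟩
  obtain ⟨y, hy1, hy2⟩ := hzc _ hop hzin
  obtain ⟨r, rfl⟩ := Subgroup.mem_zpowers_iff.mp hy2
  have hyU : z⁻¹ * k ^ r ∈ U.toSubgroup := hy1.1
  have hyV : z⁻¹ * k ^ r ∈ V := hy1.2
  have hβ1 : β ((⟨z, hz⟩ : K)⁻¹ * (⟨k, hk⟩ : K) ^ r) = 1 := by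
    refine (hker _).mp ?_
    rw [Subgroup.coe_mul, Subgroup.coe_inv, Subgroup.coe_zpow]
    exact hyV
  rw [map_mul, map_inv, map_zpow, hβz, hβk, inv_one, one_mul] at hβ1
  have hr : ((r : ℤ) : ZMod (2 ^ s)) = 0 := by
    have h2 := congrArg Multiplicative.toAdd hβ1
    rw [toAdd_zpow, toAdd_ofAdd, toAdd_one, zsmul_one] at h2
    exact h2
  rw [ZMod.intCast_zmod_eq_zero_iff_dvd] at hr
  obtain ⟨q, hq⟩ := hr
  have hkr : k ^ r ∈ U.toSubgroup := by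
    rw [hq, zpow_mul]
    refine U.toSubgroup.zpow_mem ?_ q
    rw [zpow_natCast]
    exact hs
  apply hzU
  have h3 : z = k ^ r * (z⁻¹ * k ^ r)⁻¹ := by group
  rw [h3]
  exact U.toSubgroup.mul_mem hkr (U.toSubgroup.inv_mem hyU)

end MP35
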