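import Pool.Agent.Lib_MP_3538b5.GKlein

/-! # Piece GDIH: quotients (Z/2)^2 lift to the dihedral group of order 8 -/

set_option autoImplicit false

namespace MP35

universe u v w

namespace GDihAux

/-- reduction modulo two -/
def red (i : ZMod 4) : ZMod 2 := if i = 0 ∨ i = 2 then 0 else 1

/-- the underlying map of the quotient map onto the Klein group -/
def qf : DihedralGroup 4 → Kl
  | DihedralGroup.r i => Multiplicative.ofAdd (red i, 0)
  | DihedralGroup.sr i => Multiplicative.ofAdd (red i, 1)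

/-- the quotient map onto the Klein group -/
def q : DihedralGroup 4 →* Kl := MonoidHom.mk' qf (by decide)

theorem q_surj : Function.Surjective q := by
  show ∀ b : Kl, ∃ a : DihedralGroup 4, qf a = b
  decide

theorem q_e1 : ∀ a : DihedralGroup 4, qf a = Multiplicative.ofAdd (1, 0) →
    a = DihedralGroup.r 1 ∨ a = DihedralGroup.r 3 := by decide

theorem q_e2 : ∀ a : DihedralGroup 4, qf a = Multiplicative.ofAdd (0, 1) →
    a = DihedralGroup.sr 0 ∨ a = DihedralGroup.sr 2 := by decide

theorem gen1 : ∀ x : DihedralGroup 4, ∃ k : Fin 4, ∃ l : Fin 2,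
    x = DihedralGroup.r 1 ^ (k : ℕ) * DihedralGroup.sr 0 ^ (l : ℕ) := by decide

theorem gen2 : ∀ x : DihedralGroup 4, ∃ k : Fin 4, ∃ l : Fin 2,
    x = DihedralGroup.r 1 ^ (k : ℕ) * DihedralGroup.sr 2 ^ (l : ℕ) := by decide

theorem gen3 : ∀ x : DihedralGroup 4, ∃ k : Fin 4, ∃ l : Fin 2,
    x = DihedralGroup.r 3 ^ (k : ℕ) * DihedralGroup.sr 0 ^ (l : ℕ) := by decide

theorem gen4 : ∀ x : DihedralGroup 4, ∃ k : Fin 4, ∃ l : Fin 2,
    x = DihedralGroup.r 3 ^ (k : ℕ) * DihedralGroup.sr 2 ^ (l : ℕ) := by decide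

theorem gen (a b : DihedralGroup 4) (ha : qf a = Multiplicative.ofAdd (1, 0))
    (hb : qf b = Multiplicative.ofAdd (0, 1)) (x : DihedralGroup 4) :
    ∃ k : Fin 4, ∃ l : Fin 2, x = a ^ (k : ℕ) * b ^ (l : ℕ) := by
  rcases q_e1 a ha with rfl | rfl <;> rcases q_e2 b hb with rfl | rfl
  · exact gen1 x
  · exact gen2 x
  · exact gen3 x
  · exact gen4 x

theorem isP : IsPGroup 2 (DihedralGroup 4) := by
  apply IsPGroup.of_card (n := 3)
  rw [DihedralGroup.nat_card]
  norm_num

end GDihAux

/-- PROOF. Let `π : DihedralGroup 4 →* Kl`, `r i ↦ (i mod 2, 0)`, `sr i ↦ (i mod 2, 1)`: a surjective homomorphism. Its kernel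
is `{r 0, r 2}`, the Frattini subgroup: a subgroup `L` of `DihedralGroup 4` with `π(L) = Kl` is everything (`L` contains some
`sr i` with `i` even and some `sr j` with `j` odd; the product `sr i * sr j = r (j - i)` is a generator of the rotations,
and `r k` for all `k`, together with one `sr i`, give everything). By the lifting property of `G` for `K` there is `β : K →* DihedralGroup 4`
with `π ∘ β = α`, its range maps onto `Kl`, so `β` is surjective. -/
theorem dihedral_lift {G : Type u} [Group G] [TopologicalSpace G] (hL : Lift2 G) (K : Subgroup G)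
    (hK : IsClosed (K : Set G)) (α : K →* Kl) (hα : OpenKer α) (hs : Function.Surjective α) :
    ∃ β : K →* DihedralGroup 4, OpenKer β ∧ Function.Surjective β := by
  obtain ⟨β, hβ, hc⟩ := hL K hK Kl (DihedralGroup 4) GDihAux.isP GDihAux.q GDihAux.q_surj α hα
  refine ⟨β, hβ, fun x => ?_⟩
  obtain ⟨g, hg⟩ := hs (Multiplicative.ofAdd (1, 0))
  obtain ⟨h, hh⟩ := hs (Multiplicative.ofAdd (0, 1))
  have h1 : GDihAux.qf (β g) = Multiplicative.ofAdd (1, 0) := by
    have := hc g
    rw [hg] at this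
    exact this
  have h2 : GDihAux.qf (β h) = Multiplicative.ofAdd (0, 1) := by
    have := hc h
    rw [hh] at this
    exact this
  obtain ⟨k, l, hx⟩ := GDihAux.gen (β g) (β h) h1 h2 x
  exact ⟨g ^ (k : ℕ) * h ^ (l : ℕ), by rw [map_mul, map_pow, map_pow, hx]⟩

end MP35
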