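import Pool.Agent.Lib_MP_3538b5.CoreDefs

/-! # Piece GKLEIN: a non-commutative pro-2 group has a quotient (Z/2)^2 -/

set_option autoImplicit false

namespace MP35

universe u v w

/-- the Klein four group -/
abbrev Kl : Type := Multiplicative (ZMod 2 × ZMod 2)

/-- maximal subgroups of a finite `2`-group have index `2` -/
private theorem GKLEIN_index {P : Type u} [Group P] [Finite P] (hP : IsPGroup 2 P)
    (M : Subgroup P) (hM : IsCoatom M) : M.index = 2 := by
  have h2 : Fact (Nat.Prime 2) := ⟨Nat.prime_two⟩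
  obtain ⟨k, hk⟩ := IsPGroup.iff_card.1 hP
  obtain ⟨n, hn⟩ := IsPGroup.iff_card.1 (hP.to_subgroup M)
  have hlt : n < k := by
    by_contra hle
    have h3 : Nat.card P ≤ Nat.card M := by
      rw [hk, hn]
      exact Nat.pow_le_pow_right two_pos (by omega)
    exact hM.1 (Subgroup.eq_top_of_le_card M h3)
  obtain ⟨K, hK1, hK2⟩ := Sylow.exists_subgroup_card_pow_succ (p := 2) (n := n)
    (by rw [hk]; exact pow_dvd_pow 2 hlt) hn
  have hne : M ≠ K := by
    intro h
    rw [← h, hn] at hK1
    have := Nat.pow_right_injective (le_refl 2) hK1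
    omega
  have htop : K = ⊤ := hM.2 K (lt_of_le_of_ne hK2 hne)
  rw [htop, Subgroup.card_top] at hK1
  have h4 := M.card_mul_index
  rw [hn, hK1, pow_succ] at h4
  exact Nat.eq_of_mul_eq_mul_left (pow_pos two_pos n) h4

/-- the homomorphism attached to two subgroups of index `2` -/
private theorem GKLEIN_hom {P : Type u} [Group P] (M1 M2 : Subgroup P) (h1 : M1.index = 2)
    (h2 : M2.index = 2) (x y : P) (hx1 : x ∈ M1) (hx2 : x ∉ M2) (hy1 : y ∉ M1) (hy2 : y ∈ M2) :
    ∃ f : P →* Kl, Function.Surjective f := by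
  classical
  let F : P → Kl := fun z => Multiplicative.ofAdd
    ((if z ∈ M1 then (0 : ZMod 2) else 1), (if z ∈ M2 then (0 : ZMod 2) else 1))
  have hF : ∀ z w, F (z * w) = F z * F w := by
    intro z w
    have e : (1 : ZMod 2) + 1 = 0 := by decide
    by_cases a1 : z ∈ M1 <;> by_cases b1 : w ∈ M1 <;> by_cases a2 : z ∈ M2 <;>
      by_cases b2 : w ∈ M2 <;>
      simp [F, Subgroup.mul_mem_iff_of_index_two h1, Subgroup.mul_mem_iff_of_index_two h2, a1, b1,
        a2, b2, ← ofAdd_add, e]
  refine ⟨MonoidHom.mk' F hF, ?_⟩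
  have hxy1 : x * y ∉ M1 := by
    rw [Subgroup.mul_mem_iff_of_index_two h1]
    tauto
  have hxy2 : x * y ∉ M2 := by
    rw [Subgroup.mul_mem_iff_of_index_two h2]
    tauto
  have key : ∀ a b : ZMod 2, ∃ z, F z = Multiplicative.ofAdd (a, b) := by
    intro a b
    fin_cases a <;> fin_cases b
    · exact ⟨1, by
        show Multiplicative.ofAdd _ = _
        rw [if_pos M1.one_mem, if_pos M2.one_mem]; rfl⟩
    · exact ⟨x, by
        show Multiplicative.ofAdd _ = _
        rw [if_pos hx1, if_neg hx2]; rfl⟩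
    · exact ⟨y, by
        show Multiplicative.ofAdd _ = _
        rw [if_neg hy1, if_pos hy2]; rfl⟩
    · exact ⟨x * y, by
        show Multiplicative.ofAdd _ = _
        rw [if_neg hxy1, if_neg hxy2]; rfl⟩
  intro t
  exact key t.toAdd.1 t.toAdd.2

/-- PROOF. Finite case. If `P` has at most one maximal subgroup, then `P` is cyclic: for `g` outside the maximal subgroup
`⟨g⟩` is contained in no maximal subgroup, so `⟨g⟩ = P`. As `P` is not commutative it has two different maximal subgroups (coatoms)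
`M1, M2`. Maximal subgroups of a finite `2`-group are normal of index `2` (nilpotent: `NormalizerCondition.normal_of_coatom`;
the quotient has no proper subgroup so it is cyclic of prime order, `2`). So there are `φ1, φ2 : P →* Multiplicative (ZMod 2)` with
kernels `M1, M2`; as `M1 ≠ M2` and both have index `2` there are `x ∈ M1 \ M2` and `y ∈ M2 \ M1`, and `(φ1, φ2)` is
surjective. -/
theorem klein_finite {P : Type u} [Group P] [Finite P] (hP : IsPGroup 2 P)
    (hnc : ∃ x y : P, x * y ≠ y * x) : ∃ f : P →* Kl, Function.Surjective f := by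
  obtain ⟨a, b, hab⟩ := hnc
  have hcyc : ∀ g : P, Subgroup.zpowers g ≠ ⊤ := by
    intro g hg
    apply hab
    have ha : a ∈ Subgroup.zpowers g := by rw [hg]; exact Subgroup.mem_top a
    have hb : b ∈ Subgroup.zpowers g := by rw [hg]; exact Subgroup.mem_top b
    obtain ⟨m, rfl⟩ := Subgroup.mem_zpowers_iff.1 ha
    obtain ⟨n, rfl⟩ := Subgroup.mem_zpowers_iff.1 hb
    rw [← zpow_add, ← zpow_add, add_comm]
  obtain ⟨M1, hM1, -⟩ := (eq_top_or_exists_le_coatom (Subgroup.zpowers (1 : P))).resolve_left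
    (hcyc 1)
  obtain ⟨g, hg⟩ : ∃ g, g ∉ M1 := by
    by_contra hall
    push Not at hall
    exact hM1.1 ((Subgroup.eq_top_iff' M1).2 hall)
  obtain ⟨M2, hM2, hgM⟩ := (eq_top_or_exists_le_coatom (Subgroup.zpowers g)).resolve_left
    (hcyc g)
  have hg2 : g ∈ M2 := hgM (Subgroup.mem_zpowers g)
  obtain ⟨x, hx1, hx2⟩ : ∃ x, x ∈ M1 ∧ x ∉ M2 := by
    by_contra hall
    push Not at hall
    rcases lt_or_eq_of_le (show M1 ≤ M2 from fun z hz => hall z hz) with h | h
    · exact hM2.1 (hM1.2 M2 h)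
    · rw [h] at hg
      exact hg hg2
  exact GKLEIN_hom M1 M2 (GKLEIN_index hP M1 hM1) (GKLEIN_index hP M2 hM2) x g hx1 hx2 hg hg2

/-- PROOF. `x y x⁻¹ y⁻¹ ≠ 1`, so there is an open normal subgroup `N` which does not contain it
(`ProfiniteGrp.exist_openNormalSubgroup_sub_open_nhds_of_one`, `T2`). `G / N` is finite, a `2`-group and not commutative; use
`klein_finite` and compose with `G → G / N`. -/
theorem klein {G : Type u} [Group G] [TopologicalSpace G] [IsTopologicalGroup G] [CompactSpace G]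
    [T2Space G] [TotallyDisconnectedSpace G] (hP : ProP 2 G) (hnc : ∃ x y : G, x * y ≠ y * x) :
    ∃ α : G →* Kl, OpenKer α ∧ Function.Surjective α := by
  obtain ⟨x, y, hxy⟩ := hnc
  have hc : x * y * (y * x)⁻¹ ≠ 1 := by
    intro h
    exact hxy (mul_inv_eq_one.1 h)
  obtain ⟨N, hN⟩ := ProfiniteGrp.exist_openNormalSubgroup_sub_open_nhds_of_one
    (isOpen_compl_singleton (x := x * y * (y * x)⁻¹)) (by
      rw [Set.mem_compl_iff, Set.mem_singleton_iff]
      exact hc.symm)
  let N' : Subgroup G := N.toSubgroup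
  have hNn : N'.Normal := inferInstance
  have hNo : IsOpen (N' : Set G) := N.isOpen'
  have hfin : Finite (G ⧸ N') := Subgroup.quotient_finite_of_isOpen N' hNo
  have hp : IsPGroup 2 (G ⧸ N') := by
    intro q
    induction q using QuotientGroup.induction_on with
    | H g =>
      obtain ⟨k, hk⟩ := hP N' hNn hNo g
      exact ⟨k, by rw [← QuotientGroup.mk_pow, QuotientGroup.eq_one_iff]; exact hk⟩
  obtain ⟨f, hf⟩ := klein_finite hp ⟨(x : G ⧸ N'), (y : G ⧸ N'), by
    intro h
    rw [← QuotientGroup.mk_mul, ← QuotientGroup.mk_mul, eq_comm, QuotientGroup.eq] at h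
    have h2 : x * y * (y * x)⁻¹ ∈ N' := by
      have := hNn.conj_mem _ h (y * x)
      have e : y * x * ((y * x)⁻¹ * (x * y)) * (y * x)⁻¹ = x * y * (y * x)⁻¹ := by group
      rwa [e] at this
    exact hN h2 rfl⟩
  refine ⟨f.comp (QuotientGroup.mk' N'), ?_, hf.comp (QuotientGroup.mk'_surjective N')⟩
  refine Subgroup.isOpen_mono (H₁ := N') ?_ hNo
  intro z hz
  rw [MonoidHom.mem_ker, MonoidHom.comp_apply, QuotientGroup.mk'_apply,
    (QuotientGroup.eq_one_iff z).2 hz, map_one]

end MP35
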