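import Pool.Agent.Lib_MP_3538b5.GCyc
import Pool.Agent.Lib_MP_3538b5.GCoord
import Pool.Agent.Lib_MP_3538b5.GDetect

/-! # Piece GTRANS: commutation is transitive, commuting normal subgroups -/

set_option autoImplicit false

namespace MP35

universe u v w

open scoped commutatorElement

section

variable {G : Type u} [Group G] [TopologicalSpace G] [IsTopologicalGroup G] [CompactSpace G]
    [T2Space G] [TotallyDisconnectedSpace G]

omit [CompactSpace G] [T2Space G] [TotallyDisconnectedSpace G] in
theorem mem_cl_self (g : G) : g ∈ cl g :=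
  Subgroup.le_topologicalClosure _ (Subgroup.mem_zpowers g)

omit [CompactSpace G] [T2Space G] [TotallyDisconnectedSpace G] in
theorem cl_le_of_closed {K : Subgroup G} (hK : IsClosed (K : Set G)) {g : G} (hg : g ∈ K) : cl g ≤ K := by
  refine Subgroup.topologicalClosure_minimal _ ?_ hK
  rw [Subgroup.zpowers_le]
  exact hg

omit [CompactSpace G] [T2Space G] [TotallyDisconnectedSpace G] in
/-- a homomorphism with open kernel of a closed subgroup which kills `l` kills `cl l` -/
theorem eq_one_of_mem_cl {K : Subgroup G} (hK : IsClosed (K : Set G)) {A : Type w} [Group A]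
    (β : K →* A) (hβ : OpenKer β) {l z : G} (hl : l ∈ K) (hz : z ∈ K) (h1 : β ⟨l, hl⟩ = 1)
    (hzl : z ∈ cl l) : β ⟨z, hz⟩ = 1 := by
  have hcl : IsClosed (β.ker : Set K) := Subgroup.isClosed_of_isOpen _ hβ
  have hcl2 : IsClosed ((β.ker.map K.subtype : Subgroup G) : Set G) := by
    rw [Subgroup.coe_map]
    exact hK.isClosedEmbedding_subtypeVal.isClosedMap _ hcl
  have hmem : l ∈ β.ker.map K.subtype := ⟨⟨l, hl⟩, h1, rfl⟩
  obtain ⟨x, hx, hxz⟩ := cl_le_of_closed hcl2 hmem hzl
  have : x = ⟨z, hz⟩ := Subtype.ext hxz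
  rw [← this]
  exact hx

omit [CompactSpace G] [TotallyDisconnectedSpace G] in
/-- an element commuting with `y` commutes with all elements of `cl y` -/
theorem cl_comm {x y z : G} (hx : x ∈ cl y) (h : y * z = z * y) : x * z = z * x := by
  have hcl : IsClosed ((Subgroup.centralizer ({z} : Set G) : Subgroup G) : Set G) := by
    have : ((Subgroup.centralizer ({z} : Set G) : Subgroup G) : Set G) = {g | z * g = g * z} := by
      ext g
      simp [Subgroup.mem_centralizer_iff]
    rw [this]
    exact isClosed_eq (continuous_const.mul continuous_id) (continuous_id.mul continuous_const)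
  have hy : y ∈ Subgroup.centralizer ({z} : Set G) := by
    rw [Subgroup.mem_centralizer_iff]
    intro w hw
    rw [Set.mem_singleton_iff] at hw
    rw [hw, h]
  have := cl_le_of_closed hcl hy hx
  rw [Subgroup.mem_centralizer_iff] at this
  exact (this z rfl).symm

/-- PROOF. Suppose `k l ≠ l k`. `K = cl2 k l` contains `k`, `l`, `cl k`, `cl l`. For every `m` take `β` of `exists_coord`; its kernel is closed in `K`, contains
`l`, so `β z = 1` because `z ∈ cl l`. By `detect`, `z = 1`: contradiction. -/
theorem cl_inter (hP : ProP 2 G) (hL : Lift2 G) {k l z : G} (hz : z ≠ 1) (hk : z ∈ cl k) (hl : z ∈ cl l) :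
    k * l = l * k := by
  by_contra hkl
  apply hz
  have hK : IsClosed ((cl2 k l : Subgroup G) : Set G) := Subgroup.isClosed_topologicalClosure _
  have hkK : k ∈ cl2 k l := Subgroup.le_topologicalClosure _ (Subgroup.subset_closure (by simp))
  have hlK : l ∈ cl2 k l := Subgroup.le_topologicalClosure _ (Subgroup.subset_closure (by simp))
  have hzK : z ∈ cl2 k l := cl_le_of_closed hK hkK hk
  refine detect hP (cl2 k l) hkK hzK hk fun m => ?_
  obtain ⟨β, hβ, h1, h2⟩ := exists_coord hP hL k l hkl m
  exact ⟨β, hβ, h1, eq_one_of_mem_cl hK β hβ hlK hzK h2 hl⟩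

/-- PROOF. By `commute_cyc`: `x ∈ cl y` or `y ∈ cl x`; `z ∈ cl y` or `y ∈ cl z`. If `x ∈ cl y`: `z` commutes with `y`, so with all
elements of `cl y` (the centralizer of `z` is closed), so with `x`. The same if `z ∈ cl y`. Otherwise
`y ∈ cl x` and `y ∈ cl z`, and `cl_inter` gives `x z = z x`. -/
theorem comm_trans (hP : ProP 2 G) (hL : Lift2 G) (x y z : G) (hy : y ≠ 1) (h1 : x * y = y * x)
    (h2 : y * z = z * y) : x * z = z * x := by
  rcases commute_cyc hP hL x y h1 with h | h
  · rcases commute_cyc hP hL y z h2 with h' | h'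
    · exact (cl_comm h' h1.symm).symm
    · exact cl_inter hP hL hy h h'
  · exact cl_comm h h2

/-- PROOF. Let `m ∈ M`, `n ∈ N`, both `≠ 1`. By `comm_trans` (through `n`) any two elements of `M` commute. Let `g ∈ G`. `m` and `g m g⁻¹` are in `M`, so they
commute, and by `commute_cyc` `g m g⁻¹ ∈ cl m` or `m ∈ cl (g m g⁻¹)`, i.e. `g⁻¹ m g ∈ cl m`.
Claim: if `g m g⁻¹ ∈ cl m` then `g m = m g` (applied to `g` or `g⁻¹` it gives `g m = m g` in both cases). Suppose not. `c = g m g⁻¹ m⁻¹ ∈ cl m`; for all `k` let `β` be the homomorphism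
of `exists_coord` for `(m, g)`; `β c = 1` as `c` is a commutator of elements of `cl2 m g` and the target is commutative. By `detect` `c = 1`, contradiction. So `m` is central in `G`, and
by `comm_trans` (through `m`) all elements commute. -/
theorem normal_comm (hP : ProP 2 G) (hL : Lift2 G) (M N : Subgroup G) (hM : M.Normal) (hN : N.Normal)
    (hM1 : M ≠ ⊥) (hN1 : N ≠ ⊥) (h : ∀ x ∈ M, ∀ y ∈ N, x * y = y * x) : ∀ x y : G, x * y = y * x := by
  obtain ⟨m, hm, hm1⟩ : ∃ m ∈ M, m ≠ 1 := by
    obtain ⟨a, ha⟩ := Subgroup.ne_bot_iff_exists_ne_one.1 hM1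
    exact ⟨a.1, a.2, fun h => ha (Subtype.ext h)⟩
  obtain ⟨n, hn, hn1⟩ : ∃ n ∈ N, n ≠ 1 := by
    obtain ⟨a, ha⟩ := Subgroup.ne_bot_iff_exists_ne_one.1 hN1
    exact ⟨a.1, a.2, fun h => ha (Subtype.ext h)⟩
  have hMc : ∀ x ∈ M, ∀ y ∈ M, x * y = y * x := fun x hx y hy =>
    comm_trans hP hL x n y hn1 (h x hx n hn) (h y hy n hn).symm
  have claim : ∀ g : G, g * m * g⁻¹ ∈ cl m → g * m = m * g := by
    intro g hg
    by_contra hne
    have hne' : m * g ≠ g * m := fun e => hne e.symm
    have hc : g * m * g⁻¹ * m⁻¹ ∈ cl m := (cl m).mul_mem hg ((cl m).inv_mem (mem_cl_self m))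
    have hK : IsClosed ((cl2 m g : Subgroup G) : Set G) := Subgroup.isClosed_topologicalClosure _
    have hmK : m ∈ cl2 m g := Subgroup.le_topologicalClosure _ (Subgroup.subset_closure (by simp))
    have hgK : g ∈ cl2 m g := Subgroup.le_topologicalClosure _ (Subgroup.subset_closure (by simp))
    have hcK : g * m * g⁻¹ * m⁻¹ ∈ cl2 m g := cl_le_of_closed hK hmK hc
    have h1 : g * m * g⁻¹ * m⁻¹ = 1 := by
      refine detect hP (cl2 m g) hmK hcK hc fun k => ?_
      obtain ⟨β, hβ, h1, -⟩ := exists_coord hP hL m g hne' k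
      refine ⟨β, hβ, h1, ?_⟩
      have e : (⟨g * m * g⁻¹ * m⁻¹, hcK⟩ : cl2 m g) =
          ⟨g, hgK⟩ * ⟨m, hmK⟩ * (⟨g, hgK⟩ : cl2 m g)⁻¹ * (⟨m, hmK⟩ : cl2 m g)⁻¹ := rfl
      rw [e, map_mul, map_mul, map_mul, map_inv, map_inv]
      rw [mul_comm (β ⟨g, hgK⟩) (β ⟨m, hmK⟩)]
      group
    apply hne
    have h2 : g * m * g⁻¹ = m := mul_inv_eq_one.1 h1
    calc g * m = g * m * g⁻¹ * g := by group
      _ = m * g := by rw [h2]
  have hcent : ∀ g : G, g * m = m * g := by
    intro g
    have hm' : g * m * g⁻¹ ∈ M := hM.conj_mem m hm g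
    rcases commute_cyc hP hL m (g * m * g⁻¹) (hMc m hm _ hm') with h1 | h1
    · exact claim g h1
    · have hcl : IsClosed (((cl m).comap (MulAut.conj g⁻¹).toMonoidHom : Subgroup G) : Set G) := by
        have : (((cl m).comap (MulAut.conj g⁻¹).toMonoidHom : Subgroup G) : Set G) =
            (fun x => g⁻¹ * x * g) ⁻¹' ((cl m : Subgroup G) : Set G) := by
          ext x
          simp [MulAut.conj_apply]
        rw [this]
        exact (Subgroup.isClosed_topologicalClosure _).preimage
          ((continuous_const.mul continuous_id).mul continuous_const)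
      have hmem : g * m * g⁻¹ ∈ (cl m).comap (MulAut.conj g⁻¹).toMonoidHom := by
        rw [Subgroup.mem_comap]
        have : (MulAut.conj g⁻¹).toMonoidHom (g * m * g⁻¹) = m := by
          simp [MulAut.conj_apply, mul_assoc]
        rw [this]
        exact mem_cl_self m
      have h2 := cl_le_of_closed hcl hmem h1
      rw [Subgroup.mem_comap] at h2
      have h3 : g⁻¹ * m * (g⁻¹)⁻¹ ∈ cl m := by
        simpa [MulAut.conj_apply] using h2
      have h4 := claim g⁻¹ h3
      calc g * m = g * (m * g⁻¹) * g := by group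
        _ = g * (g⁻¹ * m) * g := by rw [h4]
        _ = m * g := by group
  intro x y
  exact comm_trans hP hL x m y hm1 (hcent x) (hcent y).symm

/-- PROOF. Let `M` be the commutator subgroup of `G` (generated by the commutators), a normal subgroup, commutative by the hypothesis. If `M ≠ ⊥` use `normal_comm` with
`N = M`; if `M = ⊥` all commutators are `1`. -/
theorem metab_comm (hP : ProP 2 G) (hL : Lift2 G)
    (h : ∀ a b c d : G, (a * b * a⁻¹ * b⁻¹) * (c * d * c⁻¹ * d⁻¹)
    = (c * d * c⁻¹ * d⁻¹) * (a * b * a⁻¹ * b⁻¹)) : ∀ x y : G, x * y = y * x := by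
  have hcomm : ∀ x ∈ commutator G, ∀ y ∈ commutator G, x * y = y * x := by
    intro x hx y hy
    rw [commutator_eq_closure] at hx hy
    have h1 : Subgroup.closure (commutatorSet G) ≤
        Subgroup.centralizer (commutatorSet G : Set G) := by
      rw [Subgroup.closure_le]
      rintro _ ⟨a, b, rfl⟩
      rw [SetLike.mem_coe, Subgroup.mem_centralizer_iff]
      rintro _ ⟨c, d, rfl⟩
      rw [commutatorElement_def, commutatorElement_def]
      exact (h a b c d).symm
    have h2 : Subgroup.closure (commutatorSet G) ≤ Subgroup.centralizer ({x} : Set G) := by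
      rw [Subgroup.closure_le]
      intro w hw
      rw [SetLike.mem_coe, Subgroup.mem_centralizer_iff]
      intro v hv
      rw [Set.mem_singleton_iff] at hv
      subst hv
      have := h1 hx
      rw [Subgroup.mem_centralizer_iff] at this
      exact (this w hw).symm
    have h3 := h2 hy
    rw [Subgroup.mem_centralizer_iff] at h3
    exact h3 x rfl
  by_cases hb : commutator G = ⊥
  · intro x y
    have : ⁅x, y⁆ ∈ commutator G := Subgroup.commutator_mem_commutator (Subgroup.mem_top x) (Subgroup.mem_top y)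
    rw [hb, Subgroup.mem_bot] at this
    exact commutatorElement_eq_one_iff_mul_comm.1 this
  · exact normal_comm hP hL (commutator G) (commutator G) inferInstance inferInstance hb hb hcomm

end

end MP35
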