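import Mathlib

/-! # The quaternion order with given traces -/

set_option autoImplicit false

namespace MP35

universe u v w

/-- The quaternion order over `T` with basis `1, a, b, ab` where `a, b` have norm `1` and
`tr a = X`, `tr b = Y`, `tr ab = Z`: `a^2 = X a - 1`, `b^2 = Y b - 1`, `ba = - ab + X b + Y a + Z - X Y`.
`⟨x0, x1, x2, x3⟩` is `x0 + x1 a + x2 b + x3 ab`. -/
@[ext] structure QO (T : Type u) (X Y Z : T) where
  c0 : T
  c1 : T
  c2 : T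
  c3 : T

namespace QO

section ring

variable {T : Type u} [CommRing T] {X Y Z : T}

instance : Zero (QO T X Y Z) := ⟨⟨0, 0, 0, 0⟩⟩
instance : One (QO T X Y Z) := ⟨⟨1, 0, 0, 0⟩⟩
instance : Add (QO T X Y Z) := ⟨fun x y => ⟨x.c0 + y.c0, x.c1 + y.c1, x.c2 + y.c2, x.c3 + y.c3⟩⟩
instance : Neg (QO T X Y Z) := ⟨fun x => ⟨-x.c0, -x.c1, -x.c2, -x.c3⟩⟩
instance : Sub (QO T X Y Z) := ⟨fun x y => ⟨x.c0 - y.c0, x.c1 - y.c1, x.c2 - y.c2, x.c3 - y.c3⟩⟩
instance : SMul T (QO T X Y Z) := ⟨fun t x => ⟨t * x.c0, t * x.c1, t * x.c2, t * x.c3⟩⟩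
instance : Mul (QO T X Y Z) := ⟨fun x y =>
  ⟨x.c0 * y.c0 - x.c1 * y.c1 - x.c2 * y.c2 - x.c3 * y.c3 + (Z - X * Y) * x.c2 * y.c1
      - X * x.c2 * y.c3 - Y * x.c3 * y.c1,
   x.c0 * y.c1 + x.c1 * y.c0 + X * x.c1 * y.c1 + Y * x.c2 * y.c1 + x.c2 * y.c3 + Z * x.c3 * y.c1
      - x.c3 * y.c2,
   x.c0 * y.c2 + x.c2 * y.c0 + Y * x.c2 * y.c2 + X * x.c2 * y.c1 + Z * x.c2 * y.c3 + x.c3 * y.c1
      - x.c1 * y.c3,
   x.c0 * y.c3 + x.c3 * y.c0 + x.c1 * y.c2 + X * x.c1 * y.c3 - x.c2 * y.c1 + Y * x.c3 * y.c2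
      + Z * x.c3 * y.c3⟩⟩

@[simp] theorem zero_c0 : (0 : QO T X Y Z).c0 = 0 := rfl
@[simp] theorem zero_c1 : (0 : QO T X Y Z).c1 = 0 := rfl
@[simp] theorem zero_c2 : (0 : QO T X Y Z).c2 = 0 := rfl
@[simp] theorem zero_c3 : (0 : QO T X Y Z).c3 = 0 := rfl
@[simp] theorem one_c0 : (1 : QO T X Y Z).c0 = 1 := rfl
@[simp] theorem one_c1 : (1 : QO T X Y Z).c1 = 0 := rfl
@[simp] theorem one_c2 : (1 : QO T X Y Z).c2 = 0 := rfl
@[simp] theorem one_c3 : (1 : QO T X Y Z).c3 = 0 := rfl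
@[simp] theorem add_c0 (x y : QO T X Y Z) : (x + y).c0 = x.c0 + y.c0 := rfl
@[simp] theorem add_c1 (x y : QO T X Y Z) : (x + y).c1 = x.c1 + y.c1 := rfl
@[simp] theorem add_c2 (x y : QO T X Y Z) : (x + y).c2 = x.c2 + y.c2 := rfl
@[simp] theorem add_c3 (x y : QO T X Y Z) : (x + y).c3 = x.c3 + y.c3 := rfl
@[simp] theorem neg_c0 (x : QO T X Y Z) : (-x).c0 = -x.c0 := rfl
@[simp] theorem neg_c1 (x : QO T X Y Z) : (-x).c1 = -x.c1 := rfl
@[simp] theorem neg_c2 (x : QO T X Y Z) : (-x).c2 = -x.c2 := rfl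
@[simp] theorem neg_c3 (x : QO T X Y Z) : (-x).c3 = -x.c3 := rfl
@[simp] theorem sub_c0 (x y : QO T X Y Z) : (x - y).c0 = x.c0 - y.c0 := rfl
@[simp] theorem sub_c1 (x y : QO T X Y Z) : (x - y).c1 = x.c1 - y.c1 := rfl
@[simp] theorem sub_c2 (x y : QO T X Y Z) : (x - y).c2 = x.c2 - y.c2 := rfl
@[simp] theorem sub_c3 (x y : QO T X Y Z) : (x - y).c3 = x.c3 - y.c3 := rfl
@[simp] theorem smul_c0 (t : T) (x : QO T X Y Z) : (t • x).c0 = t * x.c0 := rfl
@[simp] theorem smul_c1 (t : T) (x : QO T X Y Z) : (t • x).c1 = t * x.c1 := rfl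
@[simp] theorem smul_c2 (t : T) (x : QO T X Y Z) : (t • x).c2 = t * x.c2 := rfl
@[simp] theorem smul_c3 (t : T) (x : QO T X Y Z) : (t • x).c3 = t * x.c3 := rfl
@[simp] theorem mul_c0 (x y : QO T X Y Z) : (x * y).c0 = x.c0 * y.c0 - x.c1 * y.c1 - x.c2 * y.c2
    - x.c3 * y.c3 + (Z - X * Y) * x.c2 * y.c1 - X * x.c2 * y.c3 - Y * x.c3 * y.c1 := rfl
@[simp] theorem mul_c1 (x y : QO T X Y Z) : (x * y).c1 = x.c0 * y.c1 + x.c1 * y.c0 + X * x.c1 * y.c1
    + Y * x.c2 * y.c1 + x.c2 * y.c3 + Z * x.c3 * y.c1 - x.c3 * y.c2 := rfl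
@[simp] theorem mul_c2 (x y : QO T X Y Z) : (x * y).c2 = x.c0 * y.c2 + x.c2 * y.c0 + Y * x.c2 * y.c2
    + X * x.c2 * y.c1 + Z * x.c2 * y.c3 + x.c3 * y.c1 - x.c1 * y.c3 := rfl
@[simp] theorem mul_c3 (x y : QO T X Y Z) : (x * y).c3 = x.c0 * y.c3 + x.c3 * y.c0 + x.c1 * y.c2
    + X * x.c1 * y.c3 - x.c2 * y.c1 + Y * x.c3 * y.c2 + Z * x.c3 * y.c3 := rfl

instance : AddCommGroup (QO T X Y Z) where
  add_assoc x y z := by ext <;> simp [add_assoc]
  zero_add x := by ext <;> simp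
  add_zero x := by ext <;> simp
  add_comm x y := by ext <;> simp [add_comm]
  neg_add_cancel x := by ext <;> simp
  sub_eq_add_neg x y := by ext <;> simp [sub_eq_add_neg]
  nsmul := nsmulRec
  zsmul := zsmulRec

instance : Ring (QO T X Y Z) where
  __ := (inferInstance : AddCommGroup (QO T X Y Z))
  mul_assoc x y z := by ext <;> simp <;> ring
  one_mul x := by ext <;> simp
  mul_one x := by ext <;> simp
  left_distrib x y z := by ext <;> simp <;> ring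
  right_distrib x y z := by ext <;> simp <;> ring
  zero_mul x := by ext <;> simp
  mul_zero x := by ext <;> simp

/-- the scalars -/
def of (X Y Z : T) : T →+* QO T X Y Z where
  toFun t := ⟨t, 0, 0, 0⟩
  map_one' := rfl
  map_zero' := rfl
  map_mul' x y := by ext <;> simp
  map_add' x y := by ext <;> simp

instance : Algebra T (QO T X Y Z) where
  algebraMap := of X Y Z
  commutes' t x := by ext <;> simp [of] <;> ring
  smul_def' t x := by ext <;> simp [of]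

theorem algebraMap_eq (t : T) : algebraMap T (QO T X Y Z) t = t • 1 := Algebra.algebraMap_eq_smul_one t

/-- the generator `a` -/
def ga (X Y Z : T) : QO T X Y Z := ⟨0, 1, 0, 0⟩
/-- the generator `b` -/
def gb (X Y Z : T) : QO T X Y Z := ⟨0, 0, 1, 0⟩

@[simp] theorem ga_c0 : (ga X Y Z).c0 = 0 := rfl
@[simp] theorem ga_c1 : (ga X Y Z).c1 = 1 := rfl
@[simp] theorem ga_c2 : (ga X Y Z).c2 = 0 := rfl
@[simp] theorem ga_c3 : (ga X Y Z).c3 = 0 := rfl
@[simp] theorem gb_c0 : (gb X Y Z).c0 = 0 := rfl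
@[simp] theorem gb_c1 : (gb X Y Z).c1 = 0 := rfl
@[simp] theorem gb_c2 : (gb X Y Z).c2 = 1 := rfl
@[simp] theorem gb_c3 : (gb X Y Z).c3 = 0 := rfl

theorem ga_mul_gb : ga X Y Z * gb X Y Z = ⟨0, 0, 0, 1⟩ := by ext <;> simp

/-- the reduced trace -/
def tr (x : QO T X Y Z) : T := 2 * x.c0 + X * x.c1 + Y * x.c2 + Z * x.c3

/-- the conjugate -/
def cj (x : QO T X Y Z) : QO T X Y Z := ⟨x.c0 + X * x.c1 + Y * x.c2 + Z * x.c3, -x.c1, -x.c2, -x.c3⟩

/-- the reduced norm -/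
def nm (x : QO T X Y Z) : T := x.c0 ^ 2 + x.c1 ^ 2 + x.c2 ^ 2 + x.c3 ^ 2 + X * x.c0 * x.c1
  + Y * x.c0 * x.c2 + Z * x.c0 * x.c3 + (X * Y - Z) * x.c1 * x.c2 + Y * x.c1 * x.c3 + X * x.c2 * x.c3

@[simp] theorem cj_c0 (x : QO T X Y Z) : x.cj.c0 = x.c0 + X * x.c1 + Y * x.c2 + Z * x.c3 := rfl
@[simp] theorem cj_c1 (x : QO T X Y Z) : x.cj.c1 = -x.c1 := rfl
@[simp] theorem cj_c2 (x : QO T X Y Z) : x.cj.c2 = -x.c2 := rfl
@[simp] theorem cj_c3 (x : QO T X Y Z) : x.cj.c3 = -x.c3 := rfl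

theorem mul_cj (x : QO T X Y Z) : x * x.cj = x.nm • 1 := by ext <;> simp [nm] <;> ring

theorem cj_mul_self (x : QO T X Y Z) : x.cj * x = x.nm • 1 := by ext <;> simp [nm] <;> ring

theorem cj_eq (x : QO T X Y Z) : x.cj = x.tr • 1 - x := by ext <;> simp [tr] <;> ring

theorem cj_mul (x y : QO T X Y Z) : (x * y).cj = y.cj * x.cj := by ext <;> simp <;> ring

theorem cj_cj (x : QO T X Y Z) : x.cj.cj = x := by ext <;> simp <;> ring

theorem cj_add (x y : QO T X Y Z) : (x + y).cj = x.cj + y.cj := by ext <;> simp <;> ring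

theorem cj_smul (t : T) (x : QO T X Y Z) : (t • x).cj = t • x.cj := by ext <;> simp <;> ring

theorem cj_one : (1 : QO T X Y Z).cj = 1 := by ext <;> simp

theorem nm_mul (x y : QO T X Y Z) : (x * y).nm = x.nm * y.nm := by
  simp only [nm, mul_c0, mul_c1, mul_c2, mul_c3]; ring

theorem nm_one : (1 : QO T X Y Z).nm = 1 := by simp [nm]

/-- `N(s + t x) = s^2 + s t tr x + t^2 N(x)` -/
theorem nm_add_smul (s t : T) (x : QO T X Y Z) :
    (s • (1 : QO T X Y Z) + t • x).nm = s ^ 2 + s * t * x.tr + t ^ 2 * x.nm := by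
  simp [nm, tr]; ring

theorem tr_add (x y : QO T X Y Z) : (x + y).tr = x.tr + y.tr := by simp [tr]; ring

theorem tr_sub (x y : QO T X Y Z) : (x - y).tr = x.tr - y.tr := by simp [tr]; ring

theorem tr_smul (t : T) (x : QO T X Y Z) : (t • x).tr = t * x.tr := by simp [tr]; ring

theorem tr_mul_comm (x y : QO T X Y Z) : (x * y).tr = (y * x).tr := by simp [tr]; ring

theorem tr_one : (1 : QO T X Y Z).tr = 2 := by simp [tr]

theorem tr_ga : (ga X Y Z).tr = X := by simp [tr]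
theorem tr_gb : (gb X Y Z).tr = Y := by simp [tr]
theorem tr_gab : (ga X Y Z * gb X Y Z).tr = Z := by simp [tr]
theorem nm_ga : (ga X Y Z).nm = 1 := by simp [nm]
theorem nm_gb : (gb X Y Z).nm = 1 := by simp [nm]

/-- `x = x0 + x1 a + x2 b + x3 ab` -/
theorem eq_comb (x : QO T X Y Z) : x = x.c0 • 1 + x.c1 • ga X Y Z + x.c2 • gb X Y Z
    + x.c3 • (ga X Y Z * gb X Y Z) := by
  ext <;> simp

/-- the discriminant -/
def nu (X Y Z : T) : T := X ^ 2 + Y ^ 2 + Z ^ 2 - X * Y * Z - 4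

/-- `w = ab - ba` -/
def gw (X Y Z : T) : QO T X Y Z := ga X Y Z * gb X Y Z - gb X Y Z * ga X Y Z

theorem gw_sq : gw X Y Z * gw X Y Z = nu X Y Z • 1 := by
  ext <;> simp [gw, nu] <;> ring

/-- multiplication by `c` is injective over a domain -/
theorem smul_inj [IsDomain T] {c : T} (hc : c ≠ 0) {x y : QO T X Y Z} (h : c • x = c • y) : x = y := by
  have h0 := congrArg QO.c0 h
  have h1 := congrArg QO.c1 h
  have h2 := congrArg QO.c2 h
  have h3 := congrArg QO.c3 h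
  simp only [smul_c0, smul_c1, smul_c2, smul_c3] at h0 h1 h2 h3
  ext
  · exact mul_left_cancel₀ hc h0
  · exact mul_left_cancel₀ hc h1
  · exact mul_left_cancel₀ hc h2
  · exact mul_left_cancel₀ hc h3

/-! ### identities -/

/-- `h w h̄ - h̄ w h = tr h (h w - w h)` -/
theorem xh_eq (h w : QO T X Y Z) : h * w * h.cj - h.cj * w * h = h.tr • (h * w - w * h) := by
  rw [cj_eq]
  simp only [mul_sub, sub_mul, mul_smul_comm, smul_mul_assoc, mul_one, one_mul, smul_sub]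
  abel

/-- `a w = w ā`-type relations: `gw * a = ā * gw` -/
theorem gw_ga : gw X Y Z * ga X Y Z = (ga X Y Z).cj * gw X Y Z := by
  ext <;> simp [gw] <;> ring

theorem gw_gb : gw X Y Z * gb X Y Z = (gb X Y Z).cj * gw X Y Z := by
  ext <;> simp [gw] <;> ring

/-- commutator formula -/
theorem comm_eq (x y : QO T X Y Z) : x * y - y * x = (x.c1 * y.c2 - x.c2 * y.c1) • gw X Y Z
    + (x.c1 * y.c3 - x.c3 * y.c1) • (ga X Y Z * gw X Y Z)
    - (x.c2 * y.c3 - x.c3 * y.c2) • ((gb X Y Z).cj * gw X Y Z) := by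
  ext <;> simp [gw] <;> ring

/-- the identity `(**)` -/
theorem star_eq (g h w : QO T X Y Z) : (g * g).tr • (h * w - w * h) =
    g.cj * (h * w - w * h) * g + (h * (g * w * g.cj) - (g * w * g.cj) * h)
    + ((g * h * g.cj) * w - w * (g * h * g.cj)) - g.nm • (h * w - w * h) := by
  ext <;> simp [nm, tr] <;> ring

/-- `h w h̄ - h̄ w h` -/
def xop (h w : QO T X Y Z) : QO T X Y Z := h * w * h.cj - h.cj * w * h

/-- the alternating sum of the operators `xop` over `a, b, ab` is `4 X Y Z nu` up to the trace -/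
theorem alt_eq (w : QO T X Y Z) :
    xop (ga X Y Z) (xop (gb X Y Z) (xop (ga X Y Z * gb X Y Z) w))
    - xop (ga X Y Z) (xop (ga X Y Z * gb X Y Z) (xop (gb X Y Z) w))
    - xop (gb X Y Z) (xop (ga X Y Z) (xop (ga X Y Z * gb X Y Z) w))
    + xop (gb X Y Z) (xop (ga X Y Z * gb X Y Z) (xop (ga X Y Z) w))
    + xop (ga X Y Z * gb X Y Z) (xop (ga X Y Z) (xop (gb X Y Z) w))
    - xop (ga X Y Z * gb X Y Z) (xop (gb X Y Z) (xop (ga X Y Z) w))
    = (4 * X * Y * Z * nu X Y Z) • w - (2 * X * Y * Z * nu X Y Z * w.tr) • 1 := by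
  simp only [xop, xh_eq, tr_ga, tr_gb, ga_mul_gb]
  ext <;> simp [nu, tr] <;> ring

/-- the coordinates of `y`, multiplied by `nu^2`, are in the two-sided ideal generated by `y` -/
theorem nu_c3 (y : QO T X Y Z) : (nu X Y Z ^ 2 * y.c3) • (1 : QO T X Y Z) =
    -((gb X Y Z * ((ga X Y Z * y - y * ga X Y Z) * gw X Y Z)
      - ((ga X Y Z * y - y * ga X Y Z) * gw X Y Z) * gb X Y Z) * gw X Y Z) := by
  ext <;> simp [nu, gw] <;> ring

theorem nu_c2 (y : QO T X Y Z) : (nu X Y Z ^ 2 * y.c2) • (1 : QO T X Y Z) =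
    nu X Y Z • ((ga X Y Z * y - y * ga X Y Z) * gw X Y Z) - (nu X Y Z ^ 2 * y.c3) • ga X Y Z := by
  ext <;> simp [nu, gw] <;> ring

theorem nu_c1 (y : QO T X Y Z) : (nu X Y Z ^ 2 * y.c1) • (1 : QO T X Y Z) =
    -(nu X Y Z • ((gb X Y Z * y - y * gb X Y Z) * gw X Y Z))
      - (nu X Y Z ^ 2 * y.c3) • (gb X Y Z).cj := by
  ext <;> simp [nu, gw] <;> ring

end ring

end QO

end MP35
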