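import Pool.Agent.Lib_MP_3538b5.RNu

/-! # Piece RCORE: the core situation over the quotient by the prime ideal -/

set_option autoImplicit false

namespace MP35

universe u v w

section

/-- a map with closed graph to a compact space is continuous -/
theorem continuous_of_graph {A : Type u} {B : Type v} [TopologicalSpace A] [TopologicalSpace B]
    [CompactSpace B] (f : A → B) (h : IsClosed {q : A × B | q.2 = f q.1}) : Continuous f := by
  rw [continuous_iff_isClosed]
  intro s hs
  have h1 : f ⁻¹' s = Prod.fst '' ({q : A × B | q.2 = f q.1} ∩ Prod.snd ⁻¹' s) := by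
    ext x
    simp only [Set.mem_preimage, Set.mem_image, Set.mem_inter_iff, Set.mem_ofPred_eq, Prod.exists,
      exists_and_right, exists_eq_right]
    constructor
    · intro hx
      exact ⟨f x, rfl, hx⟩
    · rintro ⟨y, rfl, hy⟩
      exact hy
  rw [h1]
  exact isClosedMap_fst_of_compactSpace _ (h.inter (hs.preimage continuous_snd))

variable {G : Type u} [Group G] [TopologicalSpace G] {T : Type v} [CommRing T] [TopologicalSpace T]
  {X Y Z : T} {M : Type w} [Ring M] [TopologicalSpace M] (D : RD G T X Y Z M)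

omit [TopologicalSpace T] in
theorem map_eq_iff {p : Ideal T} {x y : QO T X Y Z} :
    QO.map (Ideal.Quotient.mk p) X Y Z x = QO.map (Ideal.Quotient.mk p) X Y Z y ↔ InI p (x - y) := by
  constructor
  · intro h
    exact ⟨Ideal.Quotient.eq.1 (congrArg QO.c0 h), Ideal.Quotient.eq.1 (congrArg QO.c1 h),
      Ideal.Quotient.eq.1 (congrArg QO.c2 h), Ideal.Quotient.eq.1 (congrArg QO.c3 h)⟩
  · rintro ⟨h0, h1, h2, h3⟩
    exact QO.ext (Ideal.Quotient.eq.2 h0) (Ideal.Quotient.eq.2 h1) (Ideal.Quotient.eq.2 h2)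
      (Ideal.Quotient.eq.2 h3)

/-- PROOF. Let `f = Ideal.Quotient.mk p` and `m = QO.map f X Y Z`. For `g ∈ G` choose `y_g` with `Φ y_g = σ g` and let `j g = m y_g`. If `Φ y = Φ y'` then `InI p (y - y')` by `hker`, so `m y = m y'`: `j g` does not depend on the choice, so `j` is a homomorphism.
Continuity: the graph of `j` is the image of the compact set `{(g, y) | Φ y = σ g} ⊆ G × QO T X Y Z` (closed, `M` Hausdorff) under the continuous map `(g, y) ↦ (g, m y)`, so it is closed, and a map to a compact space with closed graph is continuous (`QO (T ⧸ p)` is compact;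
`m` is continuous). Injectivity: if `m y_g = 1` then `InI p (y_g - 1)` and `g ∈ D.NQ p = ⊥`. Norm: `QO.map_nm`, `D.nrm`. `j a = ga`, `j b = gb`: `QO.map_ga`, `QO.map_gb`, `D.ha`, `D.hb`. `nu`: `f` is a ring homomorphism and `ν ∉ p`.
`deep`: let `c ∈ T ⧸ p`, `c ≠ 0`, `c = f s`, `s ∉ p`; `q = p ⊔ span {s} > p`, so there is `1 ≠ g ∈ D.NQ q`: `σ g - 1 = Φ u`, `u = u' + s • u''` with `InI p u'`; `j g = m (1 + u) = 1 + c • m u''`. -/
theorem exists_core [IsTopologicalRing T] [CompactSpace T] [CompactSpace G] [T2Space M]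
    (hΦ : Continuous D.Φ) (hσ : Continuous D.σ)
    {p : Ideal T} (hp2 : T2Space (T ⧸ p)) (hb : D.NQ p = ⊥)
    (hmax : ∀ q : Ideal T, p < q → D.NQ q ≠ ⊥) (hν : QO.nu X Y Z ∉ p)
    (hker : ∀ y, D.Φ y = 0 → InI p y) :
    Nonempty (Core G (T ⧸ p) (Ideal.Quotient.mk p X) (Ideal.Quotient.mk p Y)
      (Ideal.Quotient.mk p Z)) := by
  classical
  have hG2 : T2Space G := T2Space.of_injective_continuous D.inj hσ
  have key : ∀ u v : QO T X Y Z, D.Φ u = D.Φ v →
      QO.map (Ideal.Quotient.mk p) X Y Z u = QO.map (Ideal.Quotient.mk p) X Y Z v := by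
    intro u v huv
    rw [map_eq_iff]
    exact hker _ (by rw [map_sub, huv, sub_self])
  choose y hy using D.rng
  let j : G →* QO (T ⧸ p) (Ideal.Quotient.mk p X) (Ideal.Quotient.mk p Y) (Ideal.Quotient.mk p Z) :=
    { toFun := fun g => QO.map (Ideal.Quotient.mk p) X Y Z (y g)
      map_one' := by
        rw [key (y 1) 1 (by rw [hy, map_one, map_one]), map_one]
      map_mul' := fun g h => by
        rw [key (y (g * h)) (y g * y h) (by rw [hy, map_mul, map_mul, hy, hy]), map_mul] }
  have hj : ∀ g, j g = QO.map (Ideal.Quotient.mk p) X Y Z (y g) := fun g => rfl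
  have hmk : Continuous (Ideal.Quotient.mk p) := continuous_quot_mk
  have hm : Continuous (QO.map (Ideal.Quotient.mk p) X Y Z) :=
    QO.continuous_mk (hmk.comp QO.continuous_c0) (hmk.comp QO.continuous_c1)
      (hmk.comp QO.continuous_c2) (hmk.comp QO.continuous_c3)
  have hcomp : CompactSpace (T ⧸ p) := Quotient.compactSpace
  have hcont : Continuous j := by
    refine continuous_of_graph _ ?_
    have hS : IsClosed {q : G × QO T X Y Z | D.Φ q.2 = D.σ q.1} :=
      isClosed_eq (hΦ.comp continuous_snd) (hσ.comp continuous_fst)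
    have himg : {q : G × QO (T ⧸ p) (Ideal.Quotient.mk p X) (Ideal.Quotient.mk p Y)
        (Ideal.Quotient.mk p Z) | q.2 = j q.1} =
        (fun q : G × QO T X Y Z => (q.1, QO.map (Ideal.Quotient.mk p) X Y Z q.2)) ''
          {q : G × QO T X Y Z | D.Φ q.2 = D.σ q.1} := by
      ext ⟨g, z⟩
      simp only [Set.mem_ofPred_eq, Set.mem_image, Prod.exists, Prod.mk.injEq]
      constructor
      · intro h
        exact ⟨g, y g, hy g, rfl, h.symm⟩
      · rintro ⟨g', u, hu, rfl, rfl⟩
        rw [hj]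
        exact key _ _ (by rw [hu, hy])
    rw [himg]
    exact (hS.isCompact.image (continuous_fst.prodMk (hm.comp continuous_snd))).isClosed
  refine ⟨{ j := j, cont := hcont, inj := ?_, norm := ?_, a := D.a, b := D.b, ja := ?_, jb := ?_,
            nu := ?_, deep := ?_ }⟩
  · rw [injective_iff_map_eq_one]
    intro g hg
    rw [hj, ← map_one (QO.map (Ideal.Quotient.mk p) X Y Z), map_eq_iff] at hg
    have : g ∈ D.NQ p := ⟨y g - 1, hg, by rw [map_sub, hy, map_one]⟩
    rwa [hb, Subgroup.mem_bot] at this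
  · intro g
    rw [hj, QO.map_nm, D.nrm g (y g) (hy g), map_one]
  · rw [hj, key (y D.a) (QO.ga X Y Z) (by rw [hy, D.ha]), QO.map_ga]
  · rw [hj, key (y D.b) (QO.gb X Y Z) (by rw [hy, D.hb]), QO.map_gb]
  · intro h
    apply hν
    rw [← Ideal.Quotient.eq_zero_iff_mem, ← h]
    have h4 : Ideal.Quotient.mk p 4 = 4 := map_ofNat _ 4
    simp only [QO.nu, map_sub, map_add, map_mul, map_pow, h4]
  · intro c hc
    obtain ⟨s, rfl⟩ := Ideal.Quotient.mk_surjective c
    have hs : s ∉ p := fun h => hc (Ideal.Quotient.eq_zero_iff_mem.2 h)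
    have hlt : p < p ⊔ Ideal.span {s} := by
      refine lt_of_le_of_ne le_sup_left ?_
      intro h
      apply hs
      rw [h]
      exact Ideal.mem_sup_right (Ideal.mem_span_singleton_self s)
    obtain ⟨g, hg, hg1⟩ : ∃ g ∈ D.NQ (p ⊔ Ideal.span {s}), g ≠ 1 := by
      obtain ⟨a, ha⟩ := Subgroup.ne_bot_iff_exists_ne_one.1 (hmax _ hlt)
      exact ⟨a.1, a.2, fun h => ha (Subtype.ext h)⟩
    obtain ⟨u, hu, hug⟩ := hg
    refine ⟨g, hg1, ?_⟩
    have e : j g = 1 + QO.map (Ideal.Quotient.mk p) X Y Z u := by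
      rw [hj, ← map_one (QO.map (Ideal.Quotient.mk p) X Y Z), ← map_add]
      exact key _ _ (by rw [hy, map_add, hug, map_one]; abel)
    have dec : ∀ {t : T}, t ∈ p ⊔ Ideal.span {s} →
        ∃ b, Ideal.Quotient.mk p t = Ideal.Quotient.mk p s * Ideal.Quotient.mk p b := by
      intro t ht
      obtain ⟨a, ha, c, hc, rfl⟩ := Submodule.mem_sup.1 ht
      obtain ⟨b, rfl⟩ := Ideal.mem_span_singleton'.1 hc
      refine ⟨b, ?_⟩
      rw [map_add, Ideal.Quotient.eq_zero_iff_mem.2 ha, zero_add, map_mul, mul_comm]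
    obtain ⟨b0, e0⟩ := dec hu.1
    obtain ⟨b1, e1⟩ := dec hu.2.1
    obtain ⟨b2, e2⟩ := dec hu.2.2.1
    obtain ⟨b3, e3⟩ := dec hu.2.2.2
    rw [e, add_sub_cancel_left]
    exact ⟨⟨Ideal.Quotient.mk p b0, Ideal.Quotient.mk p b1, Ideal.Quotient.mk p b2,
      Ideal.Quotient.mk p b3⟩, QO.ext e0 e1 e2 e3⟩

end

end MP35
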