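import Pool.Agent.Lib_MP_3538b5.QOTop

/-! # Piece RPHI: the map of the quaternion order to matrices -/

set_option autoImplicit false

namespace MP35

universe u v w

namespace QO

section

variable {T : Type u} [CommRing T] {X Y Z : T} {M : Type v} [Ring M] [Algebra T M]

/-- PROOF. Expand `(x0 + x1 α + x2 β + x3 α β)(y0 + y1 α + y2 β + y3 α β)` with the relations: `α αβ = X αβ - β`, `αβ β = Y αβ - α`, `β αβ = Z β + α - X`, `αβ α = Z α + β - Y`, `(αβ)² = Z αβ - 1` (all follow from the three relations). -/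
theorem lift_mul {α β : M} (h1 : α * α = X • α - 1) (h2 : β * β = Y • β - 1)
    (h3 : β * α = -(α * β) + X • β + Y • α + (Z - X * Y) • (1 : M)) (x y : QO T X Y Z) :
    ((x * y).c0 • (1 : M) + (x * y).c1 • α + (x * y).c2 • β + (x * y).c3 • (α * β)) =
      (x.c0 • (1 : M) + x.c1 • α + x.c2 • β + x.c3 • (α * β)) *
      (y.c0 • (1 : M) + y.c1 • α + y.c2 • β + y.c3 • (α * β)) := by
  have r1 : α * (α * β) = X • (α * β) - β := by
    rw [← mul_assoc, h1, sub_mul, smul_mul_assoc, one_mul]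
  have r2 : (α * β) * β = Y • (α * β) - α := by
    rw [mul_assoc, h2, mul_sub, mul_smul_comm, mul_one]
  have r3 : β * (α * β) = Z • β + α - X • (1 : M) := by
    rw [← mul_assoc, h3, add_mul, add_mul, add_mul, neg_mul, r2, smul_mul_assoc, h2, smul_mul_assoc,
      smul_mul_assoc, one_mul]
    module
  have r4 : (α * β) * α = Z • α + β - Y • (1 : M) := by
    rw [mul_assoc, h3, mul_add, mul_add, mul_add, mul_neg, r1, mul_smul_comm, mul_smul_comm, h1,
      mul_smul_comm, mul_one]
    module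
  have r5 : (α * β) * (α * β) = Z • (α * β) - (1 : M) := by
    rw [mul_assoc, r3, mul_sub, mul_add, mul_smul_comm, h1, mul_smul_comm, mul_one]
    module
  simp only [add_mul, mul_add, smul_mul_assoc, mul_smul_comm, one_mul, mul_one]
  rw [h1, h2, r1, r2, r3, r4, r5, h3]
  simp only [mul_c0, mul_c1, mul_c2, mul_c3]
  module

/-- the ring homomorphism with `ga ↦ α`, `gb ↦ β` -/
def lift {α β : M} (h1 : α * α = X • α - 1) (h2 : β * β = Y • β - 1)
    (h3 : β * α = -(α * β) + X • β + Y • α + (Z - X * Y) • (1 : M)) : QO T X Y Z →+* M where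
  toFun x := x.c0 • (1 : M) + x.c1 • α + x.c2 • β + x.c3 • (α * β)
  map_one' := by simp
  map_mul' x y := lift_mul h1 h2 h3 x y
  map_zero' := by simp
  map_add' x y := by simp only [add_c0, add_c1, add_c2, add_c3, add_smul]; abel

end

section

variable {R : Type u} [CommRing R] {α β : Matrix (Fin 2) (Fin 2) R} {T0 : Subring R} {X Y Z : T0}

/-- PROOF. Cayley-Hamilton for `2 × 2` matrices. -/
theorem rel_sq (hα : α.det = 1) (hX : (X : R) = α.trace) : α * α = X • α - 1 := by
  have hd : α 0 0 * α 1 1 - α 0 1 * α 1 0 = 1 := by rw [← Matrix.det_fin_two]; exact hα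
  have hX' : (X : R) = α 0 0 + α 1 1 := by rw [hX, Matrix.trace_fin_two]
  apply Matrix.ext
  intro i j
  rw [Matrix.mul_apply, Fin.sum_univ_two, Matrix.sub_apply, Matrix.smul_apply, Subring.smul_def,
    smul_eq_mul, hX']
  fin_cases i <;> fin_cases j
  · simp only [Fin.zero_eta, Matrix.one_apply_eq]
    linear_combination (-1) * hd
  · simp only [Fin.zero_eta, Fin.mk_one, Matrix.one_apply, zero_ne_one, if_false]
    ring
  · simp only [Fin.zero_eta, Fin.mk_one, Matrix.one_apply, one_ne_zero, if_false]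
    ring
  · simp only [Fin.mk_one, Matrix.one_apply_eq]
    linear_combination (-1) * hd

/-- PROOF. Entries; `det α = det β = 1`. (Polarization of Cayley-Hamilton.) -/
theorem rel_ba (hα : α.det = 1) (hβ : β.det = 1) (hX : (X : R) = α.trace) (hY : (Y : R) = β.trace)
    (hZ : (Z : R) = (α * β).trace) :
    β * α = -(α * β) + X • β + Y • α + (Z - X * Y) • (1 : Matrix (Fin 2) (Fin 2) R) := by
  have hd : α 0 0 * α 1 1 - α 0 1 * α 1 0 = 1 := by rw [← Matrix.det_fin_two]; exact hα
  have he : β 0 0 * β 1 1 - β 0 1 * β 1 0 = 1 := by rw [← Matrix.det_fin_two]; exact hβ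
  have hX' : (X : R) = α 0 0 + α 1 1 := by rw [hX, Matrix.trace_fin_two]
  have hY' : (Y : R) = β 0 0 + β 1 1 := by rw [hY, Matrix.trace_fin_two]
  have hZ' : (Z : R) = (α 0 0 * β 0 0 + α 0 1 * β 1 0) + (α 1 0 * β 0 1 + α 1 1 * β 1 1) := by
    rw [hZ, Matrix.trace_fin_two, Matrix.mul_apply, Matrix.mul_apply, Fin.sum_univ_two,
      Fin.sum_univ_two]
  apply Matrix.ext
  intro i j
  simp only [Matrix.mul_apply, Fin.sum_univ_two, Matrix.add_apply, Matrix.neg_apply,
    Matrix.smul_apply, Subring.smul_def, smul_eq_mul, AddSubgroupClass.coe_sub, Subring.coe_mul, hX', hY', hZ']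
  fin_cases i <;> fin_cases j
  · simp only [Fin.zero_eta, Matrix.one_apply_eq]
    ring
  · simp only [Fin.zero_eta, Fin.mk_one, Matrix.one_apply, zero_ne_one, if_false]
    ring
  · simp only [Fin.zero_eta, Fin.mk_one, Matrix.one_apply, one_ne_zero, if_false]
    ring
  · simp only [Fin.mk_one, Matrix.one_apply_eq]
    ring

/-- PROOF. Entries. -/
theorem det_lift (hα : α.det = 1) (hβ : β.det = 1) (hX : (X : R) = α.trace) (hY : (Y : R) = β.trace)
    (hZ : (Z : R) = (α * β).trace) (x : QO T0 X Y Z) :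
    (x.c0 • (1 : Matrix (Fin 2) (Fin 2) R) + x.c1 • α + x.c2 • β + x.c3 • (α * β)).det = (x.nm : R) := by
  have hd : α 0 0 * α 1 1 - α 0 1 * α 1 0 = 1 := by rw [← Matrix.det_fin_two]; exact hα
  have he : β 0 0 * β 1 1 - β 0 1 * β 1 0 = 1 := by rw [← Matrix.det_fin_two]; exact hβ
  have hX' : (X : R) = α 0 0 + α 1 1 := by rw [hX, Matrix.trace_fin_two]
  have hY' : (Y : R) = β 0 0 + β 1 1 := by rw [hY, Matrix.trace_fin_two]
  have hZ' : (Z : R) = (α 0 0 * β 0 0 + α 0 1 * β 1 0) + (α 1 0 * β 0 1 + α 1 1 * β 1 1) := by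
    rw [hZ, Matrix.trace_fin_two, Matrix.mul_apply, Matrix.mul_apply, Fin.sum_univ_two,
      Fin.sum_univ_two]
  rw [Matrix.det_fin_two]
  simp only [Matrix.mul_apply, Fin.sum_univ_two, Matrix.add_apply,
    Matrix.smul_apply, Subring.smul_def, smul_eq_mul, Matrix.one_apply, zero_ne_one, one_ne_zero,
    if_false, if_true, nm, Subring.coe_add, Subring.coe_mul, AddSubgroupClass.coe_sub, Subring.coe_pow,
    hX', hY', hZ']
  linear_combination ((x.c1 : R) ^ 2 + (x.c3 : R) ^ 2 * (β 0 0 * β 1 1 - β 0 1 * β 1 0) +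
      (x.c1 : R) * (x.c3 : R) * (β 0 0 + β 1 1)) * hd +
    ((x.c2 : R) ^ 2 + (x.c3 : R) ^ 2 + (x.c2 : R) * (x.c3 : R) * (α 0 0 + α 1 1)) * he

end

section

variable {T : Type u} {T' : Type v} [CommRing T] [CommRing T']

/-- functoriality of the quaternion order -/
def map (f : T →+* T') (X Y Z : T) : QO T X Y Z →+* QO T' (f X) (f Y) (f Z) where
  toFun x := ⟨f x.c0, f x.c1, f x.c2, f x.c3⟩
  map_one' := by ext <;> simp
  map_zero' := by ext <;> simp
  map_mul' x y := by ext <;> simp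
  map_add' x y := by ext <;> simp

theorem map_nm (f : T →+* T') {X Y Z : T} (x : QO T X Y Z) : (map f X Y Z x).nm = f x.nm := by
  simp [map, nm]

theorem map_ga (f : T →+* T') {X Y Z : T} : map f X Y Z (ga X Y Z) = ga (f X) (f Y) (f Z) := by
  ext <;> simp [map]

theorem map_gb (f : T →+* T') {X Y Z : T} : map f X Y Z (gb X Y Z) = gb (f X) (f Y) (f Z) := by
  ext <;> simp [map]

end

end QO

end MP35
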