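import Pool.Agent.Lib_MP_3538b5.CoreDefs
import Pool.Agent.Lib_MP_3538b5.RPhi

/-! # Definitions: a representation through a quaternion order -/

set_option autoImplicit false

namespace MP35

universe u v w

/-- all coordinates are in the ideal -/
def InI {T : Type v} [CommRing T] {X Y Z : T} (q : Ideal T) (y : QO T X Y Z) : Prop :=
  y.c0 ∈ q ∧ y.c1 ∈ q ∧ y.c2 ∈ q ∧ y.c3 ∈ q

section

variable {T : Type v} [CommRing T] {X Y Z : T}

theorem InI.zero (q : Ideal T) : InI q (0 : QO T X Y Z) :=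
  ⟨q.zero_mem, q.zero_mem, q.zero_mem, q.zero_mem⟩

theorem InI.add {q : Ideal T} {x y : QO T X Y Z} (hx : InI q x) (hy : InI q y) : InI q (x + y) :=
  ⟨q.add_mem hx.1 hy.1, q.add_mem hx.2.1 hy.2.1, q.add_mem hx.2.2.1 hy.2.2.1,
    q.add_mem hx.2.2.2 hy.2.2.2⟩

theorem InI.neg {q : Ideal T} {x : QO T X Y Z} (hx : InI q x) : InI q (-x) :=
  ⟨q.neg_mem hx.1, q.neg_mem hx.2.1, q.neg_mem hx.2.2.1, q.neg_mem hx.2.2.2⟩

theorem InI.sub {q : Ideal T} {x y : QO T X Y Z} (hx : InI q x) (hy : InI q y) : InI q (x - y) := by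
  rw [sub_eq_add_neg]
  exact hx.add hy.neg

/-- PROOF. The coordinates of the product are bilinear in the coordinates of the factors. -/
theorem InI.mul_left {q : Ideal T} {x : QO T X Y Z} (hx : InI q x) (y : QO T X Y Z) : InI q (y * x) := by
  obtain ⟨h0, h1, h2, h3⟩ := hx
  refine ⟨?_, ?_, ?_, ?_⟩
  · rw [QO.mul_c0]
    exact q.sub_mem (q.sub_mem (q.add_mem (q.sub_mem (q.sub_mem (q.sub_mem (q.mul_mem_left _ h0)
      (q.mul_mem_left _ h1)) (q.mul_mem_left _ h2)) (q.mul_mem_left _ h3)) (q.mul_mem_left _ h1))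
      (q.mul_mem_left _ h3)) (q.mul_mem_left _ h1)
  · rw [QO.mul_c1]
    exact q.sub_mem (q.add_mem (q.add_mem (q.add_mem (q.add_mem (q.add_mem (q.mul_mem_left _ h1)
      (q.mul_mem_left _ h0)) (q.mul_mem_left _ h1)) (q.mul_mem_left _ h1)) (q.mul_mem_left _ h3))
      (q.mul_mem_left _ h1)) (q.mul_mem_left _ h2)
  · rw [QO.mul_c2]
    exact q.sub_mem (q.add_mem (q.add_mem (q.add_mem (q.add_mem (q.add_mem (q.mul_mem_left _ h2)
      (q.mul_mem_left _ h0)) (q.mul_mem_left _ h2)) (q.mul_mem_left _ h1)) (q.mul_mem_left _ h3))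
      (q.mul_mem_left _ h1)) (q.mul_mem_left _ h3)
  · rw [QO.mul_c3]
    exact q.add_mem (q.add_mem (q.sub_mem (q.add_mem (q.add_mem (q.add_mem (q.mul_mem_left _ h3)
      (q.mul_mem_left _ h0)) (q.mul_mem_left _ h2)) (q.mul_mem_left _ h3)) (q.mul_mem_left _ h1))
      (q.mul_mem_left _ h2)) (q.mul_mem_left _ h3)

theorem InI.cj {q : Ideal T} {x : QO T X Y Z} (hx : InI q x) : InI q x.cj :=
  ⟨q.add_mem (q.add_mem (q.add_mem hx.1 (q.mul_mem_left _ hx.2.1)) (q.mul_mem_left _ hx.2.2.1))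
    (q.mul_mem_left _ hx.2.2.2), q.neg_mem hx.2.1, q.neg_mem hx.2.2.1, q.neg_mem hx.2.2.2⟩

theorem InI.mul_right {q : Ideal T} {x : QO T X Y Z} (hx : InI q x) (y : QO T X Y Z) : InI q (x * y) := by
  have h := (hx.cj.mul_left y.cj).cj
  rwa [QO.cj_mul, QO.cj_cj, QO.cj_cj] at h

theorem InI.mono {p q : Ideal T} (h : p ≤ q) {x : QO T X Y Z} (hx : InI p x) : InI q x :=
  ⟨h hx.1, h hx.2.1, h hx.2.2.1, h hx.2.2.2⟩

/-- product of two ideals -/
theorem InI.mul {p q r : Ideal T} (h : p * q ≤ r) {x y : QO T X Y Z} (hx : InI p x) (hy : InI q y) :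
    InI r (x * y) := by
  obtain ⟨h0, h1, h2, h3⟩ := hx
  obtain ⟨k0, k1, k2, k3⟩ := hy
  have H : ∀ {a b : T}, a ∈ p → b ∈ q → a * b ∈ r := fun ha hb => h (Ideal.mul_mem_mul ha hb)
  have H' : ∀ (t : T) {a b : T}, a ∈ p → b ∈ q → t * a * b ∈ r := fun t a b ha hb => by
    rw [mul_assoc]
    exact r.mul_mem_left _ (H ha hb)
  refine ⟨?_, ?_, ?_, ?_⟩
  · rw [QO.mul_c0]
    exact r.sub_mem (r.sub_mem (r.add_mem (r.sub_mem (r.sub_mem (r.sub_mem (H h0 k0) (H h1 k1))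
      (H h2 k2)) (H h3 k3)) (H' _ h2 k1)) (H' _ h2 k3)) (H' _ h3 k1)
  · rw [QO.mul_c1]
    exact r.sub_mem (r.add_mem (r.add_mem (r.add_mem (r.add_mem (r.add_mem (H h0 k1) (H h1 k0))
      (H' _ h1 k1)) (H' _ h2 k1)) (H h2 k3)) (H' _ h3 k1)) (H h3 k2)
  · rw [QO.mul_c2]
    exact r.sub_mem (r.add_mem (r.add_mem (r.add_mem (r.add_mem (r.add_mem (H h0 k2) (H h2 k0))
      (H' _ h2 k2)) (H' _ h2 k1)) (H' _ h2 k3)) (H h3 k1)) (H h1 k3)
  · rw [QO.mul_c3]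
    exact r.add_mem (r.add_mem (r.sub_mem (r.add_mem (r.add_mem (r.add_mem (H h0 k3) (H h3 k0))
      (H h1 k2)) (H' _ h1 k3)) (H h2 k1)) (H' _ h3 k2)) (H' _ h3 k3)

end

/-- a representation `σ` of `G` in a ring `M`, with values in the image of a quaternion order -/
structure RD (G : Type u) [Group G] (T : Type v) [CommRing T] (X Y Z : T) (M : Type w) [Ring M] where
  Φ : QO T X Y Z →+* M
  σ : G →* M
  inj : Function.Injective σ
  rng : ∀ g, ∃ y, Φ y = σ g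
  nrm : ∀ g y, Φ y = σ g → y.nm = 1
  a : G
  b : G
  ha : σ a = Φ (QO.ga X Y Z)
  hb : σ b = Φ (QO.gb X Y Z)

namespace RD

variable {G : Type u} [Group G] {T : Type v} [CommRing T] {X Y Z : T} {M : Type w} [Ring M]
  (D : RD G T X Y Z M)

/-- the elements of `G` which are `1` modulo the ideal `q` -/
def NQ (q : Ideal T) : Subgroup G where
  carrier := {g | ∃ y, InI q y ∧ D.Φ y = D.σ g - 1}
  one_mem' := ⟨0, InI.zero q, by rw [map_zero, map_one, sub_self]⟩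
  mul_mem' := fun {g h} ⟨y, hy, hy'⟩ ⟨z, hz, hz'⟩ => by
    obtain ⟨u, hu⟩ := D.rng h
    refine ⟨y * u + z, (hy.mul_right u).add hz, ?_⟩
    rw [map_add, map_mul, hy', hu, hz', map_mul, sub_mul, one_mul, sub_add_sub_cancel]
  inv_mem' := fun {g} ⟨y, hy, hy'⟩ => by
    obtain ⟨u, hu⟩ := D.rng g⁻¹
    refine ⟨-(y * u), (hy.mul_right u).neg, ?_⟩
    rw [map_neg, map_mul, hy', hu, sub_mul, ← map_mul, mul_inv_cancel, map_one, one_mul, neg_sub]

theorem mem_NQ {q : Ideal T} {g : G} : g ∈ D.NQ q ↔ ∃ y, InI q y ∧ D.Φ y = D.σ g - 1 := Iff.rfl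

end RD

end MP35
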