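import Pool.Agent.Lib_MP_3538b5.RNil

/-! # Piece RF2: the subgroup of elements with determinant one and topologically nilpotent entries -/

set_option autoImplicit false

namespace MP35

universe u v w

section tn

variable {R : Type v} [CommRing R] [TopologicalSpace R] [IsTopologicalRing R] [IsLinearTopology R R]

omit [IsTopologicalRing R] in
theorem rf2_tn_iff (r : R) : IsTopologicallyNilpotent r ↔
    ∀ I : Ideal R, (I : Set R) ∈ nhds (0 : R) → ∃ n : ℕ, r ^ n ∈ I := by
  constructor
  · intro h I hI
    exact h.exists_pow_mem_of_mem_nhds hI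
  · intro h
    have hb := (IsLinearTopology.hasBasis_ideal (R := R))
    refine (Filter.atTop_basis.tendsto_iff hb).2 ?_
    intro I hI
    obtain ⟨n, hn⟩ := h I hI
    refine ⟨n, trivial, fun m hm => ?_⟩
    have h1 : r ^ m = r ^ (m - n) * r ^ n := by
      rw [← pow_add, Nat.sub_add_cancel hm]
    change r ^ m ∈ I
    rw [h1]
    exact I.mul_mem_left _ hn

theorem rf2_closed : IsClosed ((topologicalNilradical R : Ideal R) : Set R) := by
  rw [← isOpen_compl_iff, isOpen_iff_mem_nhds]
  intro r hr
  have hr' : ¬ IsTopologicallyNilpotent r := fun h =>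
    hr (IsTopologicallyNilpotent.mem_topologicalNilradical_iff.2 h)
  rw [rf2_tn_iff] at hr'
  push Not at hr'
  obtain ⟨I, hI, hn⟩ := hr'
  have hc : Continuous fun s : R => s - r := continuous_id.sub continuous_const
  have h0 : (I : Set R) ∈ nhds (r - r) := by rwa [sub_self]
  have h1 : (fun s : R => s - r) ⁻¹' (I : Set R) ∈ nhds r := hc.continuousAt.preimage_mem_nhds h0
  refine Filter.mem_of_superset h1 ?_
  intro s hs hs2
  have hs3 : IsTopologicallyNilpotent s := IsTopologicallyNilpotent.mem_topologicalNilradical_iff.1 hs2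
  obtain ⟨n, h3⟩ := (rf2_tn_iff s).1 hs3 I hI
  apply hn n
  have h4 : s ^ n - r ^ n ∈ I := I.mem_of_dvd (sub_dvd_pow_sub_pow s r n) hs
  have h5 : r ^ n = s ^ n - (s ^ n - r ^ n) := by ring
  rw [h5]
  exact I.sub_mem h3 h4

omit [TopologicalSpace R] [IsTopologicalRing R] [IsLinearTopology R R] in
theorem rf2_mul_right {I : Ideal R} {A : Matrix (Fin 2) (Fin 2) R} (hA : ∀ i j, A i j ∈ I)
    (B : Matrix (Fin 2) (Fin 2) R) (i j : Fin 2) : (A * B) i j ∈ I := by
  rw [Matrix.mul_apply]
  exact I.sum_mem fun k _ => I.mul_mem_right _ (hA i k)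

omit [TopologicalSpace R] [IsTopologicalRing R] [IsLinearTopology R R] in
theorem rf2_mul_left {I : Ideal R} {A : Matrix (Fin 2) (Fin 2) R} (hA : ∀ i j, A i j ∈ I)
    (B : Matrix (Fin 2) (Fin 2) R) (i j : Fin 2) : (B * A) i j ∈ I := by
  rw [Matrix.mul_apply]
  exact I.sum_mem fun k _ => I.mul_mem_left _ (hA k j)

end tn

/-- PROOF. Let `F2` be the set of all `g ∈ F` with `det (ρ g) = 1` such that all entries of `ρ g - 1` are topologically nilpotent. It is a normal subgroup: topologically nilpotent elements form an ideal (linear topology;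
`topologicalNilradical`), `(1 + m)(1 + n) - 1 = m + n + m n`, the inverse of a `2 × 2` matrix of determinant `1` is the adjugate `[[d, -b], [-c, a]]`, and `h g h⁻¹ - 1 = h (g - 1) h⁻¹`.
It is closed: the set of topologically nilpotent elements is closed (for an open ideal `I` the set of `r` with a power in `I` is a union of cosets of `I`, so it is closed; the topologically nilpotent elements are the intersection over all open `I`),
`det` is continuous. By `tn_entries` (and `det` of a commutator is `1`) it contains all `cm (cm a b) (cm c d)`. If `F2` were commutative: if `F2 ≠ ⊥` then `GP.ncn` with `M = N = F2` shows that `F` is commutative; if `F2 = ⊥` then all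
`cm (cm a b) (cm c d) = 1` and `GP.metab` shows that `F` is commutative. -/
theorem exists_F2 {F : Type u} [Group F] [TopologicalSpace F] [IsTopologicalGroup F] [CompactSpace F]
    (hP : ProP 2 F) (hG : GP F) (hnc : ∃ x y : F, x * y ≠ y * x)
    {R : Type v} [CommRing R] [TopologicalSpace R] [IsTopologicalRing R] [T2Space R]
    [IsLinearTopology R R] (ρ : F →* GL (Fin 2) R)
    (hρ : Continuous fun g => (ρ g : Matrix (Fin 2) (Fin 2) R)) :
    ∃ F2 : Subgroup F, IsClosed (F2 : Set F) ∧
      (∀ g ∈ F2, (ρ g : Matrix (Fin 2) (Fin 2) R).det = 1 ∧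
        ∀ i j, IsTopologicallyNilpotent ((ρ g : Matrix (Fin 2) (Fin 2) R) i j
          - (1 : Matrix (Fin 2) (Fin 2) R) i j)) ∧
      ∃ x ∈ F2, ∃ y ∈ F2, x * y ≠ y * x := by
  let I : Ideal R := topologicalNilradical R
  -- the matrix function
  let M : F → Matrix (Fin 2) (Fin 2) R := fun g => (ρ g : Matrix (Fin 2) (Fin 2) R)
  have hMmul : ∀ g h, M (g * h) = M g * M h := by
    intro g h
    change ((ρ (g * h) : GL (Fin 2) R) : Matrix (Fin 2) (Fin 2) R) = _
    rw [map_mul]
    rfl
  have hM1 : M 1 = 1 := by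
    change ((ρ 1 : GL (Fin 2) R) : Matrix (Fin 2) (Fin 2) R) = _
    rw [map_one]
    rfl
  have hMinv : ∀ g, M g * M g⁻¹ = 1 := by
    intro g
    rw [← hMmul, mul_inv_cancel, hM1]
  have hMc : Continuous M := hρ
  let D : F →* Rˣ := (Matrix.GeneralLinearGroup.det).comp ρ
  have hD : ∀ g, ((D g : Rˣ) : R) = (M g).det := fun g => rfl
  let E : Subgroup F :=
    { carrier := {g | ∀ i j, (M g - 1) i j ∈ I}
      mul_mem' := fun {g h} hg hh i j => by
        have e : M (g * h) - 1 = (M g - 1) * M h + (M h - 1) := by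
          rw [hMmul, sub_mul, one_mul, sub_add_sub_cancel]
        change (M (g * h) - 1) i j ∈ I
        rw [e, Matrix.add_apply]
        exact I.add_mem (rf2_mul_right hg _ i j) (hh i j)
      one_mem' := fun i j => by
        rw [hM1, sub_self]
        exact I.zero_mem
      inv_mem' := fun {g} hg i j => by
        have e : M g⁻¹ - 1 = -((M g - 1) * M g⁻¹) := by
          rw [sub_mul, hMinv, one_mul, neg_sub]
        change (M g⁻¹ - 1) i j ∈ I
        rw [e, Matrix.neg_apply]
        exact I.neg_mem (rf2_mul_right hg _ i j) }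
  have hEmem : ∀ g, g ∈ E ↔ ∀ i j, (M g - 1) i j ∈ I := fun g => Iff.rfl
  have hEn : E.Normal := by
    refine ⟨fun g hg h => ?_⟩
    rw [hEmem] at hg ⊢
    intro i j
    have e : M (h * g * h⁻¹) - 1 = M h * (M g - 1) * M h⁻¹ := by
      rw [hMmul, hMmul, mul_sub, sub_mul, mul_one, hMinv]
    rw [e]
    exact rf2_mul_right (fun i j => rf2_mul_left hg _ i j) _ i j
  let F2 : Subgroup F := D.ker ⊓ E
  have hmem : ∀ g, g ∈ F2 ↔ D g = 1 ∧ ∀ i j, (M g - 1) i j ∈ I := fun g => Iff.rfl
  have hF2n : F2.Normal := by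
    have := hEn
    exact Subgroup.normal_inf_normal D.ker E
  have hF2c : IsClosed (F2 : Set F) := by
    have hset : (F2 : Set F) = {g | (M g).det = 1} ∩ ⋂ i : Fin 2, ⋂ j : Fin 2,
        (fun g => (M g - 1) i j) ⁻¹' (I : Set R) := by
      ext g
      simp only [Set.mem_inter_iff, Set.mem_iInter, Set.mem_preimage, SetLike.mem_coe, Set.mem_ofPred_eq]
      rw [hmem, ← hD]
      constructor
      · rintro ⟨h1, h2⟩
        exact ⟨by rw [h1, Units.val_one], h2⟩
      · rintro ⟨h1, h2⟩
        exact ⟨Units.ext h1, h2⟩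
    rw [hset]
    refine IsClosed.inter ?_ ?_
    · exact isClosed_eq hMc.matrix_det continuous_const
    · refine isClosed_iInter fun i => isClosed_iInter fun j => ?_
      refine rf2_closed.preimage ?_
      exact (hMc.sub continuous_const).matrix_elem i j
  have hcm : ∀ a b c d : F, cm (cm a b) (cm c d) ∈ F2 := by
    intro a b c d
    rw [hmem]
    constructor
    · unfold cm
      simp only [map_mul, map_inv]
      simp only [mul_comm (D a) (D b), mul_inv_cancel_right, mul_inv_cancel, mul_comm (D c) (D d)]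
    · intro i j
      have h := tn_entries hP ρ hρ a b c d i j
      exact IsTopologicallyNilpotent.mem_topologicalNilradical_iff.2 h
  refine ⟨F2, hF2c, ?_, ?_⟩
  · intro g hg
    rw [hmem] at hg
    refine ⟨?_, fun i j => ?_⟩
    · have h := hD g
      rw [hg.1, Units.val_one] at h
      exact h.symm
    · exact IsTopologicallyNilpotent.mem_topologicalNilradical_iff.1 (hg.2 i j)
  · by_contra hcon
    push Not at hcon
    obtain ⟨x, y, hxy⟩ := hnc
    apply hxy
    by_cases hb : F2 = ⊥
    · refine hG.metab ?_ x y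
      intro a b c d
      have h1 : cm (cm a b) (cm c d) = 1 := by
        have h2 := hcm a b c d
        rw [hb, Subgroup.mem_bot] at h2
        exact h2
      have h3 : (a * b * a⁻¹ * b⁻¹) * (c * d * c⁻¹ * d⁻¹) * (a * b * a⁻¹ * b⁻¹)⁻¹ *
          (c * d * c⁻¹ * d⁻¹)⁻¹ = 1 := h1
      rw [mul_inv_eq_one] at h3
      exact mul_inv_eq_iff_eq_mul.1 h3
    · exact hG.ncn F2 F2 hF2n hF2n hb hb hcon x y

end MP35
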