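import Mathlib

/-! # Piece RFIELD: nilpotent linear groups of degree two are metabelian -/

set_option autoImplicit false

namespace MP35

universe u v w

/-- the commutator `a b a⁻¹ b⁻¹` -/
def cm {P : Type v} [Group P] (a b : P) : P := a * b * a⁻¹ * b⁻¹

/-- matrices that commute with a non-scalar `2 x 2` matrix commute -/
theorem comm_of_comm {k : Type u} [Field k] (z x y : Matrix (Fin 2) (Fin 2) k)
    (hz : ∀ c : k, z ≠ c • (1 : Matrix (Fin 2) (Fin 2) k)) (hx : x * z = z * x) (hy : y * z = z * y) :
    x * y = y * x := by
  have hx00 := congrFun (congrFun hx 0) 0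
  have hx01 := congrFun (congrFun hx 0) 1
  have hx10 := congrFun (congrFun hx 1) 0
  have hy00 := congrFun (congrFun hy 0) 0
  have hy01 := congrFun (congrFun hy 0) 1
  have hy10 := congrFun (congrFun hy 1) 0
  simp only [Matrix.mul_apply, Fin.sum_univ_two] at hx00 hx01 hx10 hy00 hy01 hy10
  generalize ha : x 0 0 = a at *
  generalize hb : x 0 1 = b at *
  generalize hc : x 1 0 = c at *
  generalize hd : x 1 1 = d at *
  generalize ha' : y 0 0 = a' at *
  generalize hb' : y 0 1 = b' at *
  generalize hc' : y 1 0 = c' at *
  generalize hd' : y 1 1 = d' at *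
  have hns : z 0 1 ≠ 0 ∨ z 1 0 ≠ 0 ∨ z 0 0 - z 1 1 ≠ 0 := by
    by_contra hcon
    push Not at hcon
    obtain ⟨e1, e2, e3⟩ := hcon
    apply hz (z 0 0)
    ext i j
    fin_cases i <;> fin_cases j
    · simp
    · simpa using e1
    · simpa using e2
    · simpa using (sub_eq_zero.1 e3).symm
  generalize z 0 0 = p at *
  generalize z 0 1 = q at *
  generalize z 1 0 = r at *
  generalize z 1 1 = s at *
  have h1 : b * r = q * c := by linear_combination hx00
  have h2 : b * (p - s) = q * (a - d) := by linear_combination (-1 : k) * hx01
  have h3 : c * (p - s) = r * (a - d) := by linear_combination hx10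
  have h1' : b' * r = q * c' := by linear_combination hy00
  have h2' : b' * (p - s) = q * (a' - d') := by linear_combination (-1 : k) * hy01
  have h3' : c' * (p - s) = r * (a' - d') := by linear_combination hy10
  have key : b * c' - b' * c = 0 ∧ b * (a' - d') - b' * (a - d) = 0 ∧
      c * (a' - d') - c' * (a - d) = 0 := by
    rcases hns with hq | hr | hps
    · have g1 : b * c' - b' * c = 0 := by
        have : q * (b * c' - b' * c) = 0 := by linear_combination (-b) * h1' + b' * h1
        exact (mul_eq_zero.1 this).resolve_left hq
      have g2 : b * (a' - d') - b' * (a - d) = 0 := by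
        have : q * (b * (a' - d') - b' * (a - d)) = 0 := by
          linear_combination (-b) * h2' + b' * h2
        exact (mul_eq_zero.1 this).resolve_left hq
      have g3 : c * (a' - d') - c' * (a - d) = 0 := by
        have : q * (c * (a' - d') - c' * (a - d)) = 0 := by
          linear_combination (-c) * h2' + c' * h2 - (p - s) * g1
        exact (mul_eq_zero.1 this).resolve_left hq
      exact ⟨g1, g2, g3⟩
    · have g1 : b * c' - b' * c = 0 := by
        have : r * (b * c' - b' * c) = 0 := by linear_combination c' * h1 - c * h1'
        exact (mul_eq_zero.1 this).resolve_left hr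
      have g3 : c * (a' - d') - c' * (a - d) = 0 := by
        have : r * (c * (a' - d') - c' * (a - d)) = 0 := by
          linear_combination (-c) * h3' + c' * h3
        exact (mul_eq_zero.1 this).resolve_left hr
      have g2 : b * (a' - d') - b' * (a - d) = 0 := by
        have : r * (b * (a' - d') - b' * (a - d)) = 0 := by
          linear_combination (-b) * h3' + b' * h3 + (p - s) * g1
        exact (mul_eq_zero.1 this).resolve_left hr
      exact ⟨g1, g2, g3⟩
    · have g2 : b * (a' - d') - b' * (a - d) = 0 := by
        have : (p - s) * (b * (a' - d') - b' * (a - d)) = 0 := by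
          linear_combination (a' - d') * h2 - (a - d) * h2'
        exact (mul_eq_zero.1 this).resolve_left hps
      have g3 : c * (a' - d') - c' * (a - d) = 0 := by
        have : (p - s) * (c * (a' - d') - c' * (a - d)) = 0 := by
          linear_combination (a' - d') * h3 - (a - d) * h3'
        exact (mul_eq_zero.1 this).resolve_left hps
      have g1 : b * c' - b' * c = 0 := by
        have : (p - s) * ((p - s) * (b * c' - b' * c)) = 0 := by
          linear_combination (c' * (p - s)) * h2 + q * (a - d) * h3' - (c * (p - s)) * h2' -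
            q * (a' - d') * h3
        exact (mul_eq_zero.1 ((mul_eq_zero.1 this).resolve_left hps)).resolve_left hps
      exact ⟨g1, g2, g3⟩
  obtain ⟨g1, g2, g3⟩ := key
  ext i j
  fin_cases i <;> fin_cases j <;>
    simp only [Matrix.mul_apply, Fin.sum_univ_two, Fin.zero_eta, Fin.mk_one, Fin.isValue, ha, hb, hc,
      hd, ha', hb', hc', hd']
  · linear_combination g1
  · linear_combination (-1 : k) * g2
  · linear_combination g3
  · linear_combination (-1 : k) * g1

/-- PROOF. Let `Q` be the range of `f`, a nilpotent subgroup of `GL_2(k)`. We show that any two commutators of elements of `Q` commute.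
(1) The centralizer in `M_2(k)` of a non-scalar matrix `z` is commutative: it is `k[z] = k + k z` (`z` has a cyclic vector `e`: `e, z e` a basis, and a matrix `x` commuting with `z` is determined by
`x e = (λ + μ z) e`, so `x = λ + μ z`).
(2) If the center of `Q` contains a non-scalar matrix, `Q` is commutative by (1). Otherwise the center `Z` of `Q` consists of scalar matrices. If `Q` is commutative we are done. Otherwise, as `Q` is nilpotent,
`Q / Z` is nontrivial and nilpotent, so it has a nontrivial center: there is `t ∈ Q`, `t ∉ Z`, with `g t g⁻¹ t⁻¹ ∈ Z` for all `g ∈ Q`. `t` is not scalar (scalars in `Q` are central). `λ(g) = g t g⁻¹ t⁻¹` is a scalar matrix,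
and `g ↦ λ(g)` is a homomorphism from `Q` to the commutative group of scalar matrices: so `λ = 1` on commutators, i.e. commutators commute with `t`, and by (1) two commutators commute. -/
theorem metab_field {k : Type u} [Field k] {P : Type v} [Group P] [Group.IsNilpotent P]
    (f : P →* GL (Fin 2) k) (a b c d : P) : f (cm a b * cm c d) = f (cm c d * cm a b) := by
  set Q := f.range with hQ
  haveI : Group.IsNilpotent Q := Group.nilpotent_of_surjective f.rangeRestrict f.rangeRestrict_surjective
  have hz1 : Subgroup.center Q = Subgroup.upperCentralSeries Q 1 := (Subgroup.upperCentralSeries_one Q).symm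
  -- units commute when the matrices do
  have hun : ∀ x y : Q, ((x : GL (Fin 2) k) : Matrix (Fin 2) (Fin 2) k) * ((y : GL (Fin 2) k) : Matrix (Fin 2) (Fin 2) k) =
      ((y : GL (Fin 2) k) : Matrix (Fin 2) (Fin 2) k) * ((x : GL (Fin 2) k) : Matrix (Fin 2) (Fin 2) k) → x * y = y * x := by
    intro x y h
    apply Subtype.ext
    apply Units.ext
    exact h
  have hma : ∀ x y : Q, x * y = y * x → ((x : GL (Fin 2) k) : Matrix (Fin 2) (Fin 2) k) * ((y : GL (Fin 2) k) : Matrix (Fin 2) (Fin 2) k) =
      ((y : GL (Fin 2) k) : Matrix (Fin 2) (Fin 2) k) * ((x : GL (Fin 2) k) : Matrix (Fin 2) (Fin 2) k) := by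
    intro x y h
    exact congrArg (fun w : Q => (((w : GL (Fin 2) k)) : Matrix (Fin 2) (Fin 2) k)) h
  have main : ∀ x y z w : Q, cm x y * cm z w = cm z w * cm x y := by
    by_cases hcen : ∀ x y : Q, x * y = y * x
    · intro x y z w; exact hcen _ _
    by_cases hucs : Subgroup.upperCentralSeries Q 2 ≤ Subgroup.upperCentralSeries Q 1
    · exfalso
      have hall : ∀ n, Subgroup.upperCentralSeries Q n ≤ Subgroup.upperCentralSeries Q 1 := by
        intro n
        induction n with
        | zero => rw [Subgroup.upperCentralSeries_zero]; exact bot_le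
        | succ n ih =>
          intro x hx
          apply hucs
          rw [Subgroup.mem_upperCentralSeries_succ_iff] at hx ⊢
          exact fun y => ih (hx y)
      obtain ⟨n, hn⟩ := Group.IsNilpotent.nilpotent Q
      apply hcen
      intro x y
      have h1 : x ∈ Subgroup.upperCentralSeries Q 1 := hall n (by rw [hn]; exact Subgroup.mem_top x)
      rw [← hz1] at h1
      exact ((Subgroup.mem_center_iff.1 h1) y).symm
    · obtain ⟨t, ht2, ht1⟩ := Set.not_subset.1 hucs
      have ht1' : t ∉ Subgroup.center Q := by rw [hz1]; exact ht1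
      have hts : ∀ c : k, ((t : GL (Fin 2) k) : Matrix (Fin 2) (Fin 2) k) ≠ c • 1 := by
        intro c hc
        apply ht1'
        rw [Subgroup.mem_center_iff]
        intro g
        apply hun
        rw [hc, smul_one_mul, mul_smul_one]
      have hcc : ∀ g : Q, ∀ h : Q, h * (t * g * t⁻¹ * g⁻¹) = (t * g * t⁻¹ * g⁻¹) * h := by
        intro g h
        have h2 := (Subgroup.mem_upperCentralSeries_succ_iff.1 ht2) g
        change _ ∈ Subgroup.upperCentralSeries Q 1 at h2
        rw [← hz1] at h2
        exact Subgroup.mem_center_iff.1 h2 h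
      have hcomm : ∀ g h : Q, cm g h * t = t * cm g h := by
        intro g h
        have e1 : t * g * t⁻¹ = (t * g * t⁻¹ * g⁻¹) * g := by group
        have e2 : t * h * t⁻¹ = (t * h * t⁻¹ * h⁻¹) * h := by group
        have c1 := hcc g
        have c2 := hcc h
        generalize t * g * t⁻¹ * g⁻¹ = l at *
        generalize t * h * t⁻¹ * h⁻¹ = m at *
        have e3 : t * cm g h * t⁻¹ = (t * g * t⁻¹) * (t * h * t⁻¹) * (t * g * t⁻¹)⁻¹ * (t * h * t⁻¹)⁻¹ := by
          unfold cm; group
        have e4 : t * cm g h * t⁻¹ = cm g h := by
          rw [e3, e1, e2]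
          unfold cm
          have k1 : l * g * (m * h) = m * (g * h) * l := by
            rw [mul_assoc l g, ← mul_assoc g m h, c2 g, mul_assoc m g h, ← c1 (m * (g * h))]
          rw [k1, mul_inv_rev, mul_inv_rev]
          have k2 : m * (g * h) * l * (g⁻¹ * l⁻¹) = m * (g * h) * g⁻¹ := by
            have : l * (g⁻¹ * l⁻¹) = g⁻¹ := by
              rw [← mul_assoc, ← c1 g⁻¹, mul_inv_cancel_right]
            rw [mul_assoc _ l, this]
          rw [k2]
          have k3 : m * (g * h) * g⁻¹ * (h⁻¹ * m⁻¹) = m * (g * h * g⁻¹ * h⁻¹) * m⁻¹ := by group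
          rw [k3, ← c2 (g * h * g⁻¹ * h⁻¹), mul_inv_cancel_right]
        calc cm g h * t = (t * cm g h * t⁻¹) * t := by rw [e4]
          _ = t * cm g h := by rw [inv_mul_cancel_right]
      intro x y z w
      apply hun
      apply comm_of_comm _ _ _ hts
      · exact hma _ _ (hcomm x y)
      · exact hma _ _ (hcomm z w)
  have h := main (f.rangeRestrict a) (f.rangeRestrict b) (f.rangeRestrict c) (f.rangeRestrict d)
  have h' := congrArg (fun w : Q => (w : GL (Fin 2) k)) h
  simpa [cm] using h'

end MP35
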