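import Pool.Agent.Lib_MP_3538b5.CoreDefs

/-! # Piece RFIN: the ring is finite over the closed subring generated by squares -/

set_option autoImplicit false

namespace MP35

universe u v w

section

variable {T : Type v} [CommRing T] [TopologicalSpace T] [IsTopologicalRing T] [CompactSpace T]
    [T2Space T] {X Y Z : T}

/-- PROOF. Let `M` be the set of sums `∑ s_m m` over the eight monomials `m = X^i Y^j Z^k`, `i, j, k ∈ {0, 1}`, `s_m ∈ Ts X Y Z`. It is a `Ts`-submodule, stable under multiplication with `X, Y, Z` (`X^2 ∈ Ts` etc.) and contains `1`, so it contains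
`Subring.closure {X, Y, Z}` (`{t | t M ⊆ M}` is a subring). It is compact (a continuous image of `Ts^8`; `Ts` is closed in the compact space `T`), so closed, and `M = ⊤` by `hd`. So `T` is a finitely generated module over the noetherian
ring `Ts X Y Z`. -/
theorem noeth_over_ts (hd : (Subring.closure {X, Y, Z}).topologicalClosure = ⊤)
    (hN : IsNoetherianRing (Ts X Y Z)) : IsNoetherian (Ts X Y Z) T := by
  haveI := hN
  have hcl : IsClosed ((Ts X Y Z : Subring T) : Set T) :=
    Subring.isClosed_topologicalClosure _
  haveI : CompactSpace (Ts X Y Z) := isCompact_iff_compactSpace.1 hcl.isCompact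
  have hX2 : X ^ 2 ∈ Ts X Y Z := Subring.le_topologicalClosure _ (Subring.subset_closure (by simp))
  have hY2 : Y ^ 2 ∈ Ts X Y Z := Subring.le_topologicalClosure _ (Subring.subset_closure (by simp))
  have hZ2 : Z ^ 2 ∈ Ts X Y Z := Subring.le_topologicalClosure _ (Subring.subset_closure (by simp))
  let v : Fin 8 → T := ![1, X, Y, Z, X * Y, X * Z, Y * Z, X * Y * Z]
  let M : Submodule (Ts X Y Z) T := Submodule.span (Ts X Y Z) (Set.range v)
  have hv : ∀ i, v i ∈ M := fun i => Submodule.subset_span ⟨i, rfl⟩
  have hsm : ∀ (c : T) (_ : c ∈ Ts X Y Z) (m : T), m ∈ M → c * m ∈ M := fun c hc m hm =>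
    M.smul_mem (⟨c, hc⟩ : Ts X Y Z) hm
  have h0 : (1 : T) ∈ M := hv 0
  have h1 : X ∈ M := hv 1
  have h2 : Y ∈ M := hv 2
  have h3 : Z ∈ M := hv 3
  have h4 : X * Y ∈ M := hv 4
  have h5 : X * Z ∈ M := hv 5
  have h6 : Y * Z ∈ M := hv 6
  have h7 : X * Y * Z ∈ M := hv 7
  -- stability
  have hstab : ∀ c : T, (∀ i, c * v i ∈ M) → ∀ m ∈ M, c * m ∈ M := by
    intro c hc m hm
    induction hm using Submodule.span_induction with
    | mem x hx =>
      obtain ⟨i, rfl⟩ := hx
      exact hc i
    | zero => rw [mul_zero]; exact M.zero_mem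
    | add x y _ _ hx hy => rw [mul_add]; exact M.add_mem hx hy
    | smul a x _ hx =>
      rw [mul_smul_comm]
      exact M.smul_mem a hx
  have hXM : ∀ m ∈ M, X * m ∈ M := by
    apply hstab
    intro i
    fin_cases i
    · show X * 1 ∈ M
      rw [mul_one]; exact h1
    · show X * X ∈ M
      have := hsm _ hX2 _ h0
      rwa [mul_one, sq] at this
    · exact h4
    · exact h5
    · show X * (X * Y) ∈ M
      have := hsm _ hX2 _ h2
      rwa [sq, mul_assoc] at this
    · show X * (X * Z) ∈ M
      have := hsm _ hX2 _ h3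
      rwa [sq, mul_assoc] at this
    · show X * (Y * Z) ∈ M
      rw [← mul_assoc]; exact h7
    · show X * (X * Y * Z) ∈ M
      have := hsm _ hX2 _ h6
      have e : X ^ 2 * (Y * Z) = X * (X * Y * Z) := by ring
      rwa [e] at this
  have hYM : ∀ m ∈ M, Y * m ∈ M := by
    apply hstab
    intro i
    fin_cases i
    · show Y * 1 ∈ M
      rw [mul_one]; exact h2
    · show Y * X ∈ M
      rw [mul_comm]; exact h4
    · show Y * Y ∈ M
      have := hsm _ hY2 _ h0
      rwa [mul_one, sq] at this
    · exact h6
    · show Y * (X * Y) ∈ M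
      have := hsm _ hY2 _ h1
      have e : Y ^ 2 * X = Y * (X * Y) := by ring
      rwa [e] at this
    · show Y * (X * Z) ∈ M
      have e : X * Y * Z = Y * (X * Z) := by ring
      rw [← e]; exact h7
    · show Y * (Y * Z) ∈ M
      have := hsm _ hY2 _ h3
      rwa [sq, mul_assoc] at this
    · show Y * (X * Y * Z) ∈ M
      have := hsm _ hY2 _ h5
      have e : Y ^ 2 * (X * Z) = Y * (X * Y * Z) := by ring
      rwa [e] at this
  have hZM : ∀ m ∈ M, Z * m ∈ M := by
    apply hstab
    intro i
    fin_cases i
    · show Z * 1 ∈ M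
      rw [mul_one]; exact h3
    · show Z * X ∈ M
      rw [mul_comm]; exact h5
    · show Z * Y ∈ M
      rw [mul_comm]; exact h6
    · show Z * Z ∈ M
      have := hsm _ hZ2 _ h0
      rwa [mul_one, sq] at this
    · show Z * (X * Y) ∈ M
      rw [mul_comm]; exact h7
    · show Z * (X * Z) ∈ M
      have := hsm _ hZ2 _ h1
      have e : Z ^ 2 * X = Z * (X * Z) := by ring
      rwa [e] at this
    · show Z * (Y * Z) ∈ M
      have := hsm _ hZ2 _ h2
      have e : Z ^ 2 * Y = Z * (Y * Z) := by ring
      rwa [e] at this
    · show Z * (X * Y * Z) ∈ M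
      have := hsm _ hZ2 _ h4
      have e : Z ^ 2 * (X * Y) = Z * (X * Y * Z) := by ring
      rwa [e] at this
  have hcls : ∀ c ∈ Subring.closure {X, Y, Z}, ∀ m ∈ M, c * m ∈ M := by
    intro c hc
    induction hc using Subring.closure_induction with
    | mem x hx =>
      rcases hx with rfl | rfl | rfl
      · exact hXM
      · exact hYM
      · exact hZM
    | zero => intro m _; rw [zero_mul]; exact M.zero_mem
    | one => intro m hm; rw [one_mul]; exact hm
    | add x y _ _ hx hy => intro m hm; rw [add_mul]; exact M.add_mem (hx m hm) (hy m hm)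
    | neg x _ hx => intro m hm; rw [neg_mul]; exact M.neg_mem (hx m hm)
    | mul x y _ _ hx hy => intro m hm; rw [mul_assoc]; exact hx _ (hy m hm)
  have hsub : ((Subring.closure {X, Y, Z} : Subring T) : Set T) ⊆ (M : Set T) := by
    intro c hc
    have := hcls c hc 1 h0
    rwa [mul_one] at this
  -- compactness
  have hL : Continuous fun c : Fin 8 → Ts X Y Z => ∑ i, (c i : T) * v i := by
    refine continuous_finset_sum _ fun i _ => ?_
    exact (continuous_subtype_val.comp (continuous_apply i)).mul continuous_const
  have hMr : (M : Set T) = Set.range fun c : Fin 8 → Ts X Y Z => ∑ i, (c i : T) * v i := by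
    ext t
    constructor
    · intro ht
      obtain ⟨c, hc⟩ := (Submodule.mem_span_range_iff_exists_fun (Ts X Y Z)).1 ht
      exact ⟨c, hc⟩
    · rintro ⟨c, rfl⟩
      exact M.sum_mem fun i _ => hsm _ (c i).2 _ (hv i)
  have hMc : IsClosed (M : Set T) := by
    rw [hMr]
    exact (isCompact_range hL).isClosed
  have hMtop : M = ⊤ := by
    rw [eq_top_iff]
    intro t _
    have ht : t ∈ (Subring.closure {X, Y, Z}).topologicalClosure := by
      rw [hd]; exact Subring.mem_top t
    exact closure_minimal hsub hMc ht
  haveI : Module.Finite (Ts X Y Z) T := by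
    refine ⟨⟨(Set.finite_range v).toFinset, ?_⟩⟩
    rw [Set.Finite.coe_toFinset]
    exact hMtop
  exact isNoetherian_of_isNoetherianRing_of_finite (Ts X Y Z) T

/-- PROOF. `f` maps `Ts X Y Z` onto `Ts (f X) (f Y) (f Z)`: the image of the compact set `Ts X Y Z` is closed and contains the squares, and it is contained in the closure of the subring generated by them. -/
theorem noeth_ts_map {T' : Type w} [CommRing T'] [TopologicalSpace T'] [IsTopologicalRing T'] [T2Space T']
    (f : T →+* T') (hf : Continuous f) (hN : IsNoetherianRing (Ts X Y Z)) :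
    IsNoetherianRing (Ts (f X) (f Y) (f Z)) := by
  haveI := hN
  have hcl : IsClosed ((Ts X Y Z : Subring T) : Set T) :=
    Subring.isClosed_topologicalClosure _
  have hle : Ts X Y Z ≤ (Ts (f X) (f Y) (f Z)).comap f := by
    refine Subring.topologicalClosure_minimal _ ?_
      ((Subring.isClosed_topologicalClosure _).preimage hf)
    rw [Subring.closure_le]
    rintro t ht
    rcases ht with rfl | rfl | rfl
    · show f (X ^ 2) ∈ Ts (f X) (f Y) (f Z)
      rw [map_pow]
      exact Subring.le_topologicalClosure _ (Subring.subset_closure (by simp))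
    · show f (Y ^ 2) ∈ Ts (f X) (f Y) (f Z)
      rw [map_pow]
      exact Subring.le_topologicalClosure _ (Subring.subset_closure (by simp))
    · show f (Z ^ 2) ∈ Ts (f X) (f Y) (f Z)
      rw [map_pow]
      exact Subring.le_topologicalClosure _ (Subring.subset_closure (by simp))
  have hge : Ts (f X) (f Y) (f Z) ≤ (Ts X Y Z).map f := by
    refine Subring.topologicalClosure_minimal _ ?_ ?_
    · rw [Subring.closure_le]
      rintro t ht
      rcases ht with rfl | rfl | rfl
      · exact ⟨X ^ 2, Subring.le_topologicalClosure _ (Subring.subset_closure (by simp)),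
          map_pow f X 2⟩
      · exact ⟨Y ^ 2, Subring.le_topologicalClosure _ (Subring.subset_closure (by simp)),
          map_pow f Y 2⟩
      · exact ⟨Z ^ 2, Subring.le_topologicalClosure _ (Subring.subset_closure (by simp)),
          map_pow f Z 2⟩
    · rw [Subring.coe_map]
      exact (hcl.isCompact.image hf).isClosed
  let g : Ts X Y Z →+* Ts (f X) (f Y) (f Z) :=
    (f.comp (Ts X Y Z).subtype).codRestrict (Ts (f X) (f Y) (f Z)) fun t => hle t.2
  refine isNoetherianRing_of_surjective _ _ g ?_
  rintro ⟨y, hy⟩
  obtain ⟨t, ht, hty⟩ := hge hy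
  exact ⟨⟨t, ht⟩, Subtype.ext hty⟩

/-- PROOF. The closure of the image is the image of the closure (compact, Hausdorff). -/
theorem dense_map {T' : Type w} [CommRing T'] [TopologicalSpace T'] [IsTopologicalRing T'] [T2Space T']
    (f : T →+* T') (hf : Continuous f) (hs : Function.Surjective f)
    (hd : (Subring.closure {X, Y, Z}).topologicalClosure = ⊤) :
    (Subring.closure {f X, f Y, f Z}).topologicalClosure = ⊤ := by
  have h : (Subring.closure {X, Y, Z}).topologicalClosure ≤
      ((Subring.closure {f X, f Y, f Z}).topologicalClosure).comap f := by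
    refine Subring.topologicalClosure_minimal _ ?_
      ((Subring.isClosed_topologicalClosure _).preimage hf)
    rw [Subring.closure_le]
    rintro t ht
    rcases ht with rfl | rfl | rfl
    · exact Subring.le_topologicalClosure _ (Subring.subset_closure (by simp))
    · exact Subring.le_topologicalClosure _ (Subring.subset_closure (by simp))
    · exact Subring.le_topologicalClosure _ (Subring.subset_closure (by simp))
  rw [eq_top_iff]
  intro y _
  obtain ⟨t, rfl⟩ := hs y
  have ht : t ∈ (Subring.closure {X, Y, Z}).topologicalClosure := by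
    rw [hd]; exact Subring.mem_top t
  exact h ht

/-- PROOF. `T0` is the closure of the subring generated by `X, Y, Z` in `R`; the same elements generate a dense subring of `T0`. -/
theorem dense_self {R : Type v} [CommRing R] [TopologicalSpace R] [IsTopologicalRing R]
    (x y z : R) {T0 : Subring R} (hT : T0 = (Subring.closure {x, y, z}).topologicalClosure) {X Y Z : T0}
    (hX : (X : R) = x) (hY : (Y : R) = y) (hZ : (Z : R) = z) :
    (Subring.closure {X, Y, Z}).topologicalClosure = ⊤ := by
  rw [eq_top_iff]
  rintro t _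
  have ht : (t : R) ∈ (Subring.closure {x, y, z}).topologicalClosure := hT.le t.2
  have himg : ((↑) : T0 → R) '' ((Subring.closure {X, Y, Z} : Subring T0) : Set T0) =
      ((Subring.closure {x, y, z} : Subring R) : Set R) := by
    have e1 : (Subring.closure {X, Y, Z} : Subring T0).map T0.subtype = Subring.closure {x, y, z} := by
      rw [RingHom.map_closure, Set.image_insert_eq, Set.image_insert_eq, Set.image_singleton]
      show Subring.closure {(X : R), (Y : R), (Z : R)} = _
      rw [hX, hY, hZ]
    rw [← e1, Subring.coe_map]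
    rfl
  show t ∈ closure ((Subring.closure {X, Y, Z} : Subring T0) : Set T0)
  rw [closure_subtype, himg]
  exact ht

/-- PROOF. `Ts X Y Z` (in the closed subring `T0`) is isomorphic, by the inclusion, to the closure of the subring generated by the squares in `R`. -/
theorem noeth_ts_self {R : Type v} [CommRing R] [TopologicalSpace R] [IsTopologicalRing R]
    {T0 : Subring R} (hT : IsClosed (T0 : Set R)) {X Y Z : T0}
    (hN : IsNoetherianRing (Subring.closure {(X : R) ^ 2, (Y : R) ^ 2, (Z : R) ^ 2}).topologicalClosure) :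
    IsNoetherianRing (Ts X Y Z) := by
  haveI := hN
  have himg : ((↑) : T0 → R) '' ((Subring.closure {X ^ 2, Y ^ 2, Z ^ 2} : Subring T0) : Set T0) =
      ((Subring.closure {(X : R) ^ 2, (Y : R) ^ 2, (Z : R) ^ 2} : Subring R) : Set R) := by
    have e1 : (Subring.closure {X ^ 2, Y ^ 2, Z ^ 2} : Subring T0).map T0.subtype =
        Subring.closure {(X : R) ^ 2, (Y : R) ^ 2, (Z : R) ^ 2} := by
      rw [RingHom.map_closure, Set.image_insert_eq, Set.image_insert_eq, Set.image_singleton,
        map_pow, map_pow, map_pow]
      rfl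
    rw [← e1, Subring.coe_map]
    rfl
  have hmem : ∀ t : T0, t ∈ Ts X Y Z ↔
      (t : R) ∈ (Subring.closure {(X : R) ^ 2, (Y : R) ^ 2, (Z : R) ^ 2}).topologicalClosure := by
    intro t
    show t ∈ closure ((Subring.closure {X ^ 2, Y ^ 2, Z ^ 2} : Subring T0) : Set T0) ↔
      (t : R) ∈ closure ((Subring.closure {(X : R) ^ 2, (Y : R) ^ 2, (Z : R) ^ 2} : Subring R) : Set R)
    rw [closure_subtype, himg]
  have hle : (Subring.closure {(X : R) ^ 2, (Y : R) ^ 2, (Z : R) ^ 2}).topologicalClosure ≤ T0 := by
    refine Subring.topologicalClosure_minimal _ ?_ hT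
    rw [Subring.closure_le]
    rintro t ht
    rcases ht with rfl | rfl | rfl
    · exact T0.pow_mem X.2 2
    · exact T0.pow_mem Y.2 2
    · exact T0.pow_mem Z.2 2
  let g : (Subring.closure {(X : R) ^ 2, (Y : R) ^ 2, (Z : R) ^ 2}).topologicalClosure →+*
      Ts X Y Z :=
    (Subring.inclusion hle).codRestrict (Ts X Y Z) fun t => (hmem _).2 t.2
  refine isNoetherianRing_of_surjective _ _ g ?_
  rintro ⟨t, ht⟩
  exact ⟨⟨(t : R), (hmem t).1 ht⟩, rfl⟩

end

end MP35
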