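import Mathlib

/-! # Piece RNOETH: closures of finitely generated subrings are noetherian -/

set_option autoImplicit false

namespace MP35

universe u v w

section prelim

variable {R : Type u} [CommRing R] [TopologicalSpace R] [IsTopologicalRing R]
    [CompactSpace R] [T2Space R] [IsLinearTopology R R]

/-- an element divisible by all powers of `2` vanishes -/
private theorem RNOETH_sep (h2 : IsTopologicallyNilpotent (2 : R)) {x : R}
    (h : ∀ k : ℕ, ∃ y : R, x = 2 ^ k * y) : x = 0 := by
  by_contra hx
  have hU : ({x}ᶜ : Set R) ∈ nhds (0 : R) :=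
    isOpen_compl_singleton.mem_nhds fun h0 => hx (Eq.symm h0)
  obtain ⟨I, hI, hIU⟩ := IsLinearTopology.hasBasis_open_ideal.mem_iff.1 hU
  obtain ⟨k, hk⟩ := h2.exists_pow_mem_of_mem_nhds (hI.mem_nhds I.zero_mem)
  obtain ⟨y, hy⟩ := h k
  have hxI : x ∈ (I : Set R) := by
    rw [hy]
    exact I.mul_mem_right _ hk
  exact hIU hxI rfl

/-- parity -/
private theorem RNOETH_par {x : R} (hx : x ∈ (⊥ : Subring R).topologicalClosure) :
    ∃ y ∈ (⊥ : Subring R).topologicalClosure, x = 2 * y ∨ x = 1 + 2 * y := by
  have hcl : IsClosed (((⊥ : Subring R).topologicalClosure : Set R)) :=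
    (⊥ : Subring R).isClosed_topologicalClosure
  have h1 : IsClosed ((fun y : R => 2 * y) '' ((⊥ : Subring R).topologicalClosure : Set R)) :=
    (hcl.isCompact.image (by fun_prop)).isClosed
  have h2 : IsClosed ((fun y : R => 1 + 2 * y) '' ((⊥ : Subring R).topologicalClosure : Set R)) :=
    (hcl.isCompact.image (by fun_prop)).isClosed
  have h3 : ((⊥ : Subring R).topologicalClosure : Set R) ⊆
      (fun y : R => 2 * y) '' ((⊥ : Subring R).topologicalClosure : Set R) ∪
      (fun y : R => 1 + 2 * y) '' ((⊥ : Subring R).topologicalClosure : Set R) := by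
    refine closure_minimal ?_ (h1.union h2)
    intro z hz
    obtain ⟨n, rfl⟩ := Subring.mem_bot.1 hz
    have hn : ((n / 2 : ℤ) : R) ∈ closure ((⊥ : Subring R) : Set R) :=
      subset_closure (Subring.mem_bot.2 ⟨_, rfl⟩)
    rcases Int.emod_two_eq_zero_or_one n with h | h
    · left
      refine ⟨((n / 2 : ℤ) : R), hn, ?_⟩
      have e : n = 2 * (n / 2) := by omega
      have e2 := congrArg (Int.cast : ℤ → R) e
      push_cast at e2
      exact e2.symm
    · right
      refine ⟨((n / 2 : ℤ) : R), hn, ?_⟩
      have e : n = 1 + 2 * (n / 2) := by omega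
      have e2 := congrArg (Int.cast : ℤ → R) e
      push_cast at e2
      exact e2.symm
  rcases h3 hx with ⟨y, hy, rfl⟩ | ⟨y, hy, rfl⟩
  · exact ⟨y, hy, Or.inl rfl⟩
  · exact ⟨y, hy, Or.inr rfl⟩

/-- odd elements are units -/
private theorem RNOETH_unit (h2 : IsTopologicallyNilpotent (2 : R)) {y : R}
    (hy : y ∈ (⊥ : Subring R).topologicalClosure) :
    ∃ c ∈ (⊥ : Subring R).topologicalClosure, (1 + 2 * y) * c = 1 := by
  have hcl : IsClosed (((⊥ : Subring R).topologicalClosure : Set R)) :=
    (⊥ : Subring R).isClosed_topologicalClosure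
  have h1 : IsClosed ((fun c : R => (1 + 2 * y) * c) ''
      ((⊥ : Subring R).topologicalClosure : Set R)) :=
    (hcl.isCompact.image (by fun_prop)).isClosed
  have hw : IsTopologicallyNilpotent (2 * -y) := h2.mul_right _
  have h3 : Filter.Tendsto (fun k : ℕ => 1 - (2 * -y) ^ k) Filter.atTop (nhds (1 - 0)) :=
    tendsto_const_nhds.sub hw
  have h4 : (1 : R) - 0 ∈ (fun c : R => (1 + 2 * y) * c) ''
      ((⊥ : Subring R).topologicalClosure : Set R) := by
    refine h1.mem_of_tendsto h3 (Filter.Eventually.of_forall fun k => ?_)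
    refine ⟨∑ i ∈ Finset.range k, (2 * -y) ^ i, ?_, ?_⟩
    · exact sum_mem fun i _ => pow_mem (mul_mem (by
        have := natCast_mem (⊥ : Subring R).topologicalClosure 2
        exact_mod_cast this) (neg_mem hy)) i
    · have e := mul_neg_geom_sum (2 * -y) k
      have e2 : (1 : R) - 2 * -y = 1 + 2 * y := by ring
      rw [e2] at e
      exact e
  obtain ⟨c, hc, hc2⟩ := h4
  refine ⟨c, hc, ?_⟩
  rw [sub_zero] at hc2
  exact hc2

/-- normal form -/
private theorem RNOETH_nf (h2 : IsTopologicallyNilpotent (2 : R)) {x : R}
    (hx : x ∈ (⊥ : Subring R).topologicalClosure) (hx0 : x ≠ 0) :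
    ∃ (k : ℕ) (c d : R), c ∈ (⊥ : Subring R).topologicalClosure ∧
      d ∈ (⊥ : Subring R).topologicalClosure ∧ x * c = 2 ^ k ∧ x = 2 ^ k * d := by
  classical
  have hex : ∃ k : ℕ, ¬ ∃ y ∈ (⊥ : Subring R).topologicalClosure, x = 2 ^ k * y := by
    by_contra hall
    push Not at hall
    exact hx0 (RNOETH_sep h2 fun k => by
      obtain ⟨y, -, hy⟩ := hall k
      exact ⟨y, hy⟩)
  have hk := Nat.find_spec hex
  have hmin := fun m => Nat.find_min (m := m) hex
  generalize Nat.find hex = K at hk hmin
  have hK : K ≠ 0 := by
    rintro rfl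
    exact hk ⟨x, hx, by rw [pow_zero, one_mul]⟩
  obtain ⟨j, rfl⟩ := Nat.exists_eq_succ_of_ne_zero hK
  have hj := hmin j (Nat.lt_succ_self j)
  push Not at hj
  obtain ⟨y, hy, hxy⟩ := hj
  obtain ⟨z, hz, h⟩ := RNOETH_par hy
  rcases h with h | h
  · exfalso
    exact hk ⟨z, hz, by rw [hxy, h, pow_succ, mul_assoc]⟩
  · obtain ⟨c, hc, hc1⟩ := RNOETH_unit h2 hz
    refine ⟨j, c, y, hc, hy, ?_, hxy⟩
    rw [hxy, mul_assoc, h, hc1, mul_one]

/-- the closure of the integers is noetherian -/
private theorem RNOETH_int (h2 : IsTopologicallyNilpotent (2 : R)) :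
    IsNoetherianRing (⊥ : Subring R).topologicalClosure := by
  classical
  rw [isNoetherianRing_iff_ideal_fg]
  intro I
  by_cases hI : I = ⊥
  · rw [hI]
    exact Submodule.fg_bot
  · obtain ⟨x, hxI, hx0⟩ := Submodule.exists_mem_ne_zero_of_ne_bot hI
    have hnf : ∀ z : (⊥ : Subring R).topologicalClosure, z ∈ I → z ≠ 0 →
        ∃ k : ℕ, (2 : (⊥ : Subring R).topologicalClosure) ^ k ∈ I ∧
          ∃ d : (⊥ : Subring R).topologicalClosure, z = 2 ^ k * d := by
      intro z hz hz0
      obtain ⟨k, c, d, hc, hd, h3, h4⟩ := RNOETH_nf h2 z.2 (fun h => hz0 (Subtype.ext h))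
      refine ⟨k, ?_, ⟨d, hd⟩, Subtype.ext ?_⟩
      · have e : (2 : (⊥ : Subring R).topologicalClosure) ^ k = z * ⟨c, hc⟩ := by
          apply Subtype.ext
          change ((2 : (⊥ : Subring R).topologicalClosure) ^ k : (⊥ : Subring R).topologicalClosure).1
            = z.1 * c
          rw [h3]
          rfl
        rw [e]
        exact I.mul_mem_right _ hz
      · rw [h4]
        rfl
    have hex : ∃ k : ℕ, (2 : (⊥ : Subring R).topologicalClosure) ^ k ∈ I := by
      obtain ⟨k, hk, -⟩ := hnf x hxI hx0
      exact ⟨k, hk⟩
    have hk := Nat.find_spec hex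
    have hmin := fun m => Nat.find_min' (m := m) hex
    generalize Nat.find hex = K at hk hmin
    refine ⟨{(2 : (⊥ : Subring R).topologicalClosure) ^ K}, le_antisymm ?_ ?_⟩
    · rw [Submodule.span_le]
      intro z hz
      rw [Finset.coe_singleton, Set.mem_singleton_iff] at hz
      rw [hz]
      exact hk
    · intro z hz
      by_cases hz0 : z = 0
      · rw [hz0]
        exact Submodule.zero_mem _
      · obtain ⟨k, hk2, d, hd⟩ := hnf z hz hz0
        have hle := hmin k hk2
        have hmem : (2 : (⊥ : Subring R).topologicalClosure) ^ K ∈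
            Submodule.span (⊥ : Subring R).topologicalClosure
              ((({(2 : (⊥ : Subring R).topologicalClosure) ^ K} : Finset
                (⊥ : Subring R).topologicalClosure)) : Set (⊥ : Subring R).topologicalClosure) :=
          Submodule.subset_span (by simp)
        have e : z = ((2 : (⊥ : Subring R).topologicalClosure) ^ (k - K) * d) •
            (2 : (⊥ : Subring R).topologicalClosure) ^ K := by
          rw [hd, smul_eq_mul]
          have : k = (k - K) + K := by omega
          conv_lhs => rw [this, pow_add]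
          ring
        rw [e]
        exact Submodule.smul_mem _ _ hmem

end prelim

open MvPowerSeries.WithPiTopology in
/-- the closure is the range of the evaluation -/
private theorem RNOETH_main {A : Type v} [CommRing A] [UniformSpace A] [IsUniformAddGroup A]
    [IsTopologicalRing A] [CompactSpace A] [IsNoetherianRing A] {R : Type u} [CommRing R]
    [UniformSpace R] [IsUniformAddGroup R] [IsTopologicalRing R] [CompactSpace R] [T2Space R]
    [IsLinearTopology R R] (φ : A →+* R) (hφ : Continuous φ) {n : ℕ} (t : Fin n → R)
    (hr : ∀ a, φ a ∈ (Subring.closure (Set.range t)).topologicalClosure)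
    (ht : ∀ i, IsTopologicallyNilpotent (t i)) :
    IsNoetherianRing (Subring.closure (Set.range t)).topologicalClosure := by
  have ha : MvPowerSeries.HasEval t := ⟨ht, by
    rw [Filter.cofinite_eq_bot]
    exact Filter.tendsto_bot⟩
  have hc : Continuous (MvPowerSeries.eval₂Hom hφ ha) := by
    rw [MvPowerSeries.coe_eval₂Hom]
    exact MvPowerSeries.continuous_eval₂ hφ ha
  have hcomp : CompactSpace (MvPowerSeries (Fin n) A) := by
    unfold MvPowerSeries
    exact Pi.compactSpace
  have hcl : IsClosed ((MvPowerSeries.eval₂Hom hφ ha).range : Set R) := by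
    rw [RingHom.coe_range]
    exact (isCompact_range hc).isClosed
  have hrange : (MvPowerSeries.eval₂Hom hφ ha).range =
      (Subring.closure (Set.range t)).topologicalClosure := by
    refine le_antisymm ?_ ?_
    · rintro _ ⟨f, rfl⟩
      have hs := MvPowerSeries.hasSum_eval₂ hφ ha f
      rw [← MvPowerSeries.coe_eval₂Hom hφ ha] at hs
      refine (Subring.closure (Set.range t)).isClosed_topologicalClosure.mem_of_tendsto hs
        (Filter.Eventually.of_forall fun s => ?_)
      refine sum_mem fun d _ => mul_mem (hr _) (prod_mem fun i _ => pow_mem ?_ _)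
      exact Subring.le_topologicalClosure _ (Subring.subset_closure ⟨i, rfl⟩)
    · refine Subring.topologicalClosure_minimal _ (Subring.closure_le.2 ?_) hcl
      rintro _ ⟨i, rfl⟩
      refine ⟨MvPowerSeries.X i, ?_⟩
      rw [MvPowerSeries.coe_eval₂Hom, MvPowerSeries.eval₂_X]
  rw [← hrange]
  exact isNoetherianRing_range _

/-- PROOF. Let `σ = Option (Fin n)` and `a : σ → R`, `a none = 2`, `a (some i) = t i`; `MvPowerSeries.HasEval a` (`σ` finite). With the uniform structure of the topological additive group `R` (complete, because `R` is compact) and the discrete topology on `ℤ`, let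
`ev = MvPowerSeries.eval₂Hom (Int.castRingHom R) : MvPowerSeries σ ℤ →+* R`, continuous for the product topology (`MvPowerSeries.WithPiTopology`). Let `T0` be the closure of the subring generated by `t`.
(i) The range of `ev` is contained in `T0`: a power series is a limit of polynomials, and `ev` of a polynomial is in the subring generated by `t` (`MvPowerSeries.hasSum_eval₂`).
(ii) `T0` is contained in the range: let `D` be the set of power series with coefficients in `{0, 1}`, compact (`isCompact_univ_pi`); `ev D` is compact, so closed. It contains every element of the subring generated by `t`: such an element is `∑ c_m t^m` (a finite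
sum over monomials) with integers `c_m`; every integer `c` is `∑_k d_k 2^k` in `R` with digits `d_k ∈ {0, 1}` (`c ≥ 0`: binary expansion; `c < 0`: `c = (c + 2^K) + ∑_{k ≥ K} 2^k`, since `∑_{k ≥ K} 2^k = - 2^K` in `R` as `2^n → 0`).
So `T0` is a quotient of `MvPowerSeries σ ℤ`, which is noetherian (`MvPowerSeries.isNoetherianRing` or the instance).
Alternative: extend `ℤ → R` to a continuous ring homomorphism `ℤ_[2] → R` (dense embedding, `2` topologically nilpotent) and evaluate `MvPowerSeries (Fin n) ℤ_[2]`, which is compact for the product topology, so that the range of the evaluation is closed. -/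
theorem noeth_closure {R : Type u} [CommRing R] [TopologicalSpace R] [IsTopologicalRing R]
    [CompactSpace R] [T2Space R] [IsLinearTopology R R] (h2 : IsTopologicallyNilpotent (2 : R)) {n : ℕ}
    (t : Fin n → R) (ht : ∀ i, IsTopologicallyNilpotent (t i)) :
    IsNoetherianRing (Subring.closure (Set.range t)).topologicalClosure := by
  have hcl : IsClosed (((⊥ : Subring R).topologicalClosure : Set R)) :=
    (⊥ : Subring R).isClosed_topologicalClosure
  have hcomp : CompactSpace (⊥ : Subring R).topologicalClosure :=
    isCompact_iff_compactSpace.1 hcl.isCompact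
  have hN := RNOETH_int h2
  let u1 : UniformSpace R := IsTopologicalAddGroup.rightUniformSpace R
  have u2 : IsUniformAddGroup R := isUniformAddGroup_of_addCommGroup
  let u3 : UniformSpace (⊥ : Subring R).topologicalClosure :=
    IsTopologicalAddGroup.rightUniformSpace (⊥ : Subring R).topologicalClosure
  have u4 : IsUniformAddGroup (⊥ : Subring R).topologicalClosure :=
    isUniformAddGroup_of_addCommGroup
  refine RNOETH_main (⊥ : Subring R).topologicalClosure.subtype continuous_subtype_val t
    (fun a => ?_) ht
  exact Subring.topologicalClosure_minimal _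
    (bot_le.trans (Subring.le_topologicalClosure _))
    (Subring.closure (Set.range t)).isClosed_topologicalClosure a.2

end MP35
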