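import Pool.Agent.Lib_MP_3538b5.CoreDefs

/-! # Piece RODD: the 2-divisible part -/

set_option autoImplicit false

namespace MP35

universe u v w

/-- the ideal of nilpotent elements divisible by all powers of two -/
private def roddJ (A : Type u) [CommRing A] : Ideal A :=
  nilradical A ⊓ ⨅ n : ℕ, Ideal.span {(2 : A) ^ n}

private theorem mem_roddJ {A : Type u} [CommRing A] {x : A} :
    x ∈ roddJ A ↔ IsNilpotent x ∧ ∀ n : ℕ, (2 : A) ^ n ∣ x := by
  unfold roddJ
  rw [Ideal.mem_inf, mem_nilradical, Ideal.mem_iInf]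
  exact and_congr Iff.rfl (forall_congr' fun n => Ideal.mem_span_singleton)

private theorem rodd_half (A : Type u) [CommRing A] [Finite A] :
    ∃ u : A, ∀ x ∈ roddJ A, 2 * (u * x) = x := by
  obtain ⟨i, j, hij, h⟩ := Finite.exists_ne_map_eq_of_infinite (fun n : ℕ => (2 : A) ^ n)
  have key : ∀ i j : ℕ, i < j → (2 : A) ^ i = (2 : A) ^ j →
      ∃ u : A, ∀ x ∈ roddJ A, 2 * (u * x) = x := by
    intro i j hlt h
    obtain ⟨L, rfl⟩ := Nat.exists_eq_add_of_lt hlt
    refine ⟨(2 : A) ^ L, fun x hx => ?_⟩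
    obtain ⟨y, rfl⟩ := (mem_roddJ.1 hx).2 i
    calc 2 * ((2 : A) ^ L * ((2 : A) ^ i * y)) = (2 : A) ^ (i + L + 1) * y := by ring
      _ = (2 : A) ^ i * y := by rw [← h]
  rcases lt_or_gt_of_ne hij with hlt | hlt
  · exact key i j hlt h
  · exact key j i hlt h.symm

private theorem rodd_sq {A : Type u} [CommRing A] [Finite A] {m : Matrix (Fin 2) (Fin 2) A}
    (hJ : ∀ i j, m i j ∈ roddJ A) (h : 2 * m + m * m = 0) : m = 0 := by
  obtain ⟨u, hu⟩ := rodd_half A
  have hm : ∀ i j, m i j = -u * (m * m) i j := by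
    intro i j
    have h1 : (2 * m + m * m : Matrix (Fin 2) (Fin 2) A) i j = 0 := by rw [h]; rfl
    have h2 : (2 * m : Matrix (Fin 2) (Fin 2) A) i j = 2 * m i j := by
      rw [two_mul, Matrix.add_apply, two_mul]
    rw [Matrix.add_apply, h2] at h1
    have h3 : (m * m) i j = -(2 * m i j) := by
      rw [eq_neg_iff_add_eq_zero, add_comm]
      exact h1
    rw [h3]
    calc m i j = 2 * (u * m i j) := (hu _ (hJ i j)).symm
      _ = -u * -(2 * m i j) := by ring
  have claim : ∀ k : ℕ, ∀ i j, m i j ∈ (nilradical A) ^ (k + 1) := by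
    intro k
    induction k with
    | zero =>
      intro i j
      rw [zero_add, pow_one]
      exact (mem_nilradical).2 (mem_roddJ.1 (hJ i j)).1
    | succ k ih =>
      intro i j
      rw [hm i j]
      refine Ideal.mul_mem_left _ _ ?_
      rw [Matrix.mul_apply]
      refine Ideal.sum_mem _ fun l _ => ?_
      rw [pow_succ]
      exact Ideal.mul_mem_mul (ih i l) ((mem_nilradical).2 (mem_roddJ.1 (hJ l j)).1)
  obtain ⟨K, hK⟩ := IsNoetherianRing.isNilpotent_nilradical A
  ext i j
  have h1 := claim K i j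
  rw [pow_succ, hK, zero_mul] at h1
  exact h1

/-- PROOF. There is `u : A` with `2 u x = x` for all `x` divisible by all powers of `2`: the powers of `2` in the finite ring `A` repeat, `2^(k+L) = 2^k`, `L ≥ 1`, so `2^L x = x` for `x` divisible by `2^k`; `u = 2^(L-1)`.
(1) `s = 1`: `2 m + m² = 0`, so `m = 2 u m = - u m²`, so `m = (-u)^k m^(k+1)` for all `k`. `m` is a nilpotent matrix, because its entries are nilpotent (they generate a nilpotent ideal; or: `m² = tr m m - det m` with nilpotent commuting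
coefficients), so `m = 0`.
(2) General `s`: induction on `s`; the matrix `m' = (1 + m)^(2^(s-1)) - 1` satisfies the same hypotheses with `(1 + m')² = 1` (its entries are in the ideal of nilpotent elements divisible by all powers of `2`), so `m' = 0`. -/
theorem mat_odd {A : Type u} [CommRing A] [Finite A] {m : Matrix (Fin 2) (Fin 2) A}
    (h1 : ∀ i j, IsNilpotent (m i j)) (h2 : ∀ (n : ℕ) (i j), (2 : A) ^ n ∣ m i j) {s : ℕ}
    (h : (1 + m) ^ (2 ^ s) = 1) : m = 0 := by
  have hJ : ∀ i j, m i j ∈ roddJ A := fun i j => mem_roddJ.2 ⟨h1 i j, fun n => h2 n i j⟩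
  clear h1 h2
  induction s generalizing m with
  | zero =>
    rw [pow_zero, pow_one] at h
    exact left_eq_add.1 h.symm
  | succ s ih =>
    have hsq : 1 + (2 * m + m * m) = (1 + m) ^ 2 := by noncomm_ring
    have hJ' : ∀ i j, (2 * m + m * m : Matrix (Fin 2) (Fin 2) A) i j ∈ roddJ A := by
      intro i j
      rw [two_mul, Matrix.add_apply, Matrix.add_apply, Matrix.mul_apply]
      refine Ideal.add_mem _ (Ideal.add_mem _ (hJ i j) (hJ i j)) ?_
      exact Ideal.sum_mem _ fun l _ => Ideal.mul_mem_left _ _ (hJ l j)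
    have h0 : 2 * m + m * m = 0 := by
      refine ih ?_ hJ'
      rw [hsq, ← pow_mul, ← pow_succ']
      exact h
    exact rodd_sq hJ h0

/-- PROOF. Let `I` be an open ideal, `A = R / I` (finite, as `R` is compact). The kernel of `G → GL_2(A)` is an open normal subgroup, so by `hP` a power `g^(2^s)` is in it. Apply `mat_odd` to the image of `ρ g - 1` in `M_2(A)`: the entries of `ρ g - 1` are in `I`.
As this holds for all open `I` and `R` is Hausdorff with a linear topology, `ρ g - 1 = 0`. -/
theorem inj_mod {G : Type u} [Group G] [TopologicalSpace G] [IsTopologicalGroup G] [CompactSpace G]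
    (hP : ProP 2 G) {R : Type v} [CommRing R] [TopologicalSpace R] [IsTopologicalRing R] [CompactSpace R]
    [T2Space R] [IsLinearTopology R R] (ρ : G →* GL (Fin 2) R)
    (hρ : Continuous fun g => (ρ g : Matrix (Fin 2) (Fin 2) R)) {g : G}
    (h1 : ∀ i j, IsTopologicallyNilpotent ((ρ g : Matrix (Fin 2) (Fin 2) R) i j
          - (1 : Matrix (Fin 2) (Fin 2) R) i j))
    (h2 : ∀ (n : ℕ) (i j), (2 : R) ^ n ∣ (ρ g : Matrix (Fin 2) (Fin 2) R) i j
          - (1 : Matrix (Fin 2) (Fin 2) R) i j) : ρ g = 1 := by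
  have main : ∀ I : Ideal R, IsOpen (I : Set R) → ∀ i j,
      (ρ g : Matrix (Fin 2) (Fin 2) R) i j - (1 : Matrix (Fin 2) (Fin 2) R) i j ∈ I := by
    intro I hI
    have : Finite (R ⧸ I) := AddSubgroup.quotient_finite_of_isOpen I.toAddSubgroup hI
    let q : R →+* R ⧸ I := Ideal.Quotient.mk I
    let Q : Matrix (Fin 2) (Fin 2) R →+* Matrix (Fin 2) (Fin 2) (R ⧸ I) := q.mapMatrix
    let f : G →* Matrix (Fin 2) (Fin 2) (R ⧸ I) :=
      (Q : Matrix (Fin 2) (Fin 2) R →* Matrix (Fin 2) (Fin 2) (R ⧸ I)).comp ((Units.coeHom _).comp ρ)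
    have hf : ∀ x, f x = Q (ρ x : Matrix (Fin 2) (Fin 2) R) := fun x => rfl
    have hker : ∀ x, x ∈ f.ker ↔ ∀ i j, (ρ x : Matrix (Fin 2) (Fin 2) R) i j
        - (1 : Matrix (Fin 2) (Fin 2) R) i j ∈ I := by
      intro x
      rw [MonoidHom.mem_ker, hf, ← map_one Q]
      constructor
      · intro h i j
        rw [← Ideal.Quotient.eq]
        exact congrFun (congrFun h i) j
      · intro h
        ext i j
        exact Ideal.Quotient.eq.2 (h i j)
    have hopen : IsOpen (f.ker : Set G) := by
      have : (f.ker : Set G) = ⋂ i, ⋂ j, (fun x => (ρ x : Matrix (Fin 2) (Fin 2) R) i j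
        - (1 : Matrix (Fin 2) (Fin 2) R) i j) ⁻¹' (I : Set R) := by
        ext x
        rw [SetLike.mem_coe, hker, Set.mem_iInter]
        exact forall_congr' fun i => by rw [Set.mem_iInter]; exact Iff.rfl
      rw [this]
      refine isOpen_iInter_of_finite fun i => isOpen_iInter_of_finite fun j => ?_
      exact hI.preimage (((continuous_apply j).comp ((continuous_apply i).comp hρ)).sub
        continuous_const)
    obtain ⟨k, hk⟩ := hP f.ker inferInstance hopen g
    rw [MonoidHom.mem_ker, map_pow] at hk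
    have hm : 1 + (f g - 1) = f g := by abel
    have h0 : f g - 1 = 0 := by
      refine mat_odd (s := k) ?_ ?_ (by rw [hm]; exact hk)
      · intro i j
        have hev : ∀ᶠ n in Filter.atTop, ((ρ g : Matrix (Fin 2) (Fin 2) R) i j
          - (1 : Matrix (Fin 2) (Fin 2) R) i j) ^ n ∈ (I : Set R) :=
          (h1 i j).eventually (hI.mem_nhds I.zero_mem)
        obtain ⟨n, hn⟩ := hev.exists
        refine ⟨n, ?_⟩
        have h3 : (f g - 1) i j = q ((ρ g : Matrix (Fin 2) (Fin 2) R) i j
          - (1 : Matrix (Fin 2) (Fin 2) R) i j) := by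
          rw [hf, ← map_one Q, ← map_sub]
          rfl
        rw [h3, ← map_pow]
        exact Ideal.Quotient.eq_zero_iff_mem.2 hn
      · intro n i j
        have h3 : (f g - 1) i j = q ((ρ g : Matrix (Fin 2) (Fin 2) R) i j
          - (1 : Matrix (Fin 2) (Fin 2) R) i j) := by
          rw [hf, ← map_one Q, ← map_sub]
          rfl
        rw [h3]
        have := map_dvd q (h2 n i j)
        rw [map_pow, map_ofNat] at this
        exact this
    refine (hker g).1 ?_
    rw [MonoidHom.mem_ker]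
    exact sub_eq_zero.1 h0
  have hz : ∀ i j, (ρ g : Matrix (Fin 2) (Fin 2) R) i j - (1 : Matrix (Fin 2) (Fin 2) R) i j = 0 := by
    intro i j
    by_contra hne
    obtain ⟨I, hI, hsub⟩ := (IsLinearTopology.hasBasis_open_ideal (R := R)).mem_iff.1
      (isOpen_compl_singleton.mem_nhds (x := (0 : R)) (Ne.symm hne))
    exact hsub (main I hI i j) rfl
  apply Units.ext
  ext i j
  exact sub_eq_zero.1 (hz i j)

end MP35
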