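import Mathlib

/-! # Piece RTOP: profinite rings and their quotients -/

set_option autoImplicit false

namespace MP35

universe u v w

/-- PROOF. Let `U` be an open neighbourhood of `0`. There is an open additive subgroup `V ⊆ U` (`R` is a compact totally disconnected additive group,
`ProfiniteAddGrp.exist_openNormalAddSubgroup_sub_open_nhds_of_zero`). By compactness of `R` and continuity of the multiplication `R × R → R` at the points `(r, 0)` there is an open additive subgroup `W ⊆ V` with `R · W ⊆ V`
(tube lemma). The ideal generated by `W` is the additive subgroup generated by `R · W`, so it is contained in `V`; it is open as it contains `W`. So the open ideals are a basis at `0`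
(`isLinearTopology_iff_hasBasis_open_ideal`). -/
theorem linTop_of_profinite (R : Type u) [CommRing R] [TopologicalSpace R] [IsTopologicalRing R]
    [CompactSpace R] [TotallyDisconnectedSpace R] : IsLinearTopology R R := by
  rw [isLinearTopology_iff_hasBasis_ideal]
  refine ⟨fun U => ⟨fun hU => ?_, fun ⟨I, hI, hIU⟩ => Filter.mem_of_superset hI hIU⟩⟩
  obtain ⟨U', hU'U, hU'o, h0⟩ := mem_nhds_iff.1 hU
  obtain ⟨V, hV⟩ := ProfiniteGrp.exist_openNormalAddSubgroup_sub_open_nhds_of_zero hU'o h0
  let I : Ideal R :=
    { carrier := {x | ∀ r : R, r * x ∈ V.toAddSubgroup}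
      add_mem' := fun {x y} hx hy r => by
        rw [mul_add]
        exact V.toAddSubgroup.add_mem (hx r) (hy r)
      zero_mem' := fun r => by
        rw [mul_zero]
        exact V.toAddSubgroup.zero_mem
      smul_mem' := fun c x hx r => by
        rw [smul_eq_mul, ← mul_assoc]
        exact hx (r * c) }
  refine ⟨I, ?_, fun x hx => hU'U (hV ?_)⟩
  · have hVo : IsOpen (V.toAddSubgroup : Set R) := V.isOpen'
    have h1 : ∀ᶠ x in nhds (0 : R), ∀ r ∈ (Set.univ : Set R), r * x ∈ V.toAddSubgroup := by
      apply IsCompact.eventually_forall_of_forall_eventually isCompact_univ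
      intro r _
      have h2 : Continuous (fun z : R × R => z.2 * z.1) := continuous_snd.mul continuous_fst
      have h3 : (V.toAddSubgroup : Set R) ∈ nhds ((fun z : R × R => z.2 * z.1) (0, r)) := by
        apply hVo.mem_nhds
        simp only [mul_zero]
        exact V.toAddSubgroup.zero_mem
      exact h2.continuousAt.preimage_mem_nhds h3
    filter_upwards [h1] with x hx r
    exact hx r (Set.mem_univ r)
  · have := hx 1
    rw [one_mul] at this
    exact this

section

variable {R : Type u} [CommRing R] [TopologicalSpace R] [IsTopologicalRing R]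

/-- PROOF. The quotient of a topological group by a closed subgroup is Hausdorff. -/
theorem t2_quot (J : Ideal R) (hJ : IsClosed (J : Set R)) : T2Space (R ⧸ J) := by
  haveI : IsClosed (J : Set R) := hJ
  haveI : T3Space (R ⧸ J) := Submodule.t3_quotient_of_isClosed J
  infer_instance

/-- PROOF. The quotient map is open and continuous; the images of the open ideals of `R` are open ideals and a basis at `0`. -/
theorem lin_quot [IsLinearTopology R R] (J : Ideal R) : IsLinearTopology (R ⧸ J) (R ⧸ J) := by
  rw [isLinearTopology_iff_hasBasis_ideal]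
  refine ⟨fun U => ⟨fun hU => ?_, fun ⟨I, hI, hIU⟩ => Filter.mem_of_superset hI hIU⟩⟩
  have hc : Continuous (Ideal.Quotient.mk J) := continuous_quotient_mk'
  have h0 : U ∈ nhds (Ideal.Quotient.mk J 0) := by rwa [map_zero]
  obtain ⟨I, hI, hIU⟩ := (IsLinearTopology.hasBasis_ideal (R := R)).mem_iff.1
    (hc.continuousAt.preimage_mem_nhds h0)
  have hset : ((I.map (Ideal.Quotient.mk J) : Ideal (R ⧸ J)) : Set (R ⧸ J)) =
      (Ideal.Quotient.mk J) '' (I : Set R) := by
    ext y
    rw [SetLike.mem_coe, Ideal.mem_map_iff_of_surjective _ Ideal.Quotient.mk_surjective]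
    rfl
  refine ⟨I.map (Ideal.Quotient.mk J), ?_, ?_⟩
  · rw [hset]
    have h1 := (QuotientRing.isOpenMap_coe J).image_mem_nhds hI
    have h2 : Ideal.Quotient.mk J 0 = 0 := map_zero _
    rw [← h2]
    exact h1
  · rw [hset]
    rintro _ ⟨x, hx, rfl⟩
    exact hIU hx

/-- PROOF. An ideal of a noetherian ring is finitely generated, so it is the image of the compact space `R^n` under a continuous map. -/
theorem closed_ideal [CompactSpace R] [T2Space R] [IsNoetherianRing R] (J : Ideal R) :
    IsClosed (J : Set R) := by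
  obtain ⟨n, v, hv⟩ := Submodule.fg_iff_exists_fin_generating_family.1
    ((isNoetherianRing_iff_ideal_fg R).1 inferInstance J)
  have h1 : (J : Set R) = Set.range (fun c : Fin n → R => ∑ i, c i • v i) := by
    ext x
    rw [SetLike.mem_coe, ← hv, Submodule.mem_span_range_iff_exists_fun]
    rfl
  rw [h1]
  refine (isCompact_range ?_).isClosed
  fun_prop

/-- the elements divisible by all powers of `2` -/
def Jinf (R : Type u) [CommRing R] : Ideal R := ⨅ n : ℕ, Ideal.span {(2 : R) ^ n}

/-- PROOF. Every `2^n R` is the image of the compact space `R`, so closed. -/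
theorem closed_Jinf [CompactSpace R] [T2Space R] : IsClosed (Jinf R : Set R) := by
  have h1 : (Jinf R : Set R) = ⋂ n : ℕ, Set.range (fun x : R => x * 2 ^ n) := by
    ext x
    unfold Jinf
    simp only [SetLike.mem_coe, Ideal.mem_iInf, Ideal.mem_span_singleton', Set.mem_iInter,
      Set.mem_range]
  rw [h1]
  refine isClosed_iInter fun n => (isCompact_range ?_).isClosed
  fun_prop

/-- PROOF. A neighbourhood of `0` in `R ⧸ Jinf R` contains the image of an open ideal `I` of `R`; replace it by the open ideal `I ⊔ Jinf R`. The closed sets `2^n R` decrease to `Jinf R`, which is contained in the open set `I ⊔ Jinf R`; by compactness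
`2^n R ⊆ I ⊔ Jinf R` for some `n`, so `2^m` is in it for `m ≥ n`. -/
theorem two_tn [CompactSpace R] [T2Space R] [IsLinearTopology R R] :
    IsTopologicallyNilpotent (2 : R ⧸ Jinf R) := by
  rw [IsTopologicallyNilpotent, Filter.tendsto_def]
  intro U hU
  have hc : Continuous (Ideal.Quotient.mk (Jinf R)) := continuous_quotient_mk'
  have h0 : U ∈ nhds (Ideal.Quotient.mk (Jinf R) 0) := by rwa [map_zero]
  obtain ⟨I, hI, hIU⟩ := (IsLinearTopology.hasBasis_open_ideal (R := R)).mem_iff.1
    (hc.continuousAt.preimage_mem_nhds h0)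
  have hopen : IsOpen ((I ⊔ Jinf R : Ideal R) : Set R) :=
    AddSubgroup.isOpen_mono (H₁ := I.toAddSubgroup) (H₂ := (I ⊔ Jinf R).toAddSubgroup)
      (fun x hx => Submodule.mem_sup_left hx) hI
  have hdir : Directed (fun A B : Set R => A ⊇ B) (fun n : ℕ => Set.range (fun x : R => x * 2 ^ n)) := by
    refine directed_of_isDirected_le (r := fun A B : Set R => A ⊇ B) ?_
    rintro m n hmn _ ⟨x, rfl⟩
    refine ⟨x * 2 ^ (n - m), ?_⟩
    simp only
    rw [mul_assoc, ← pow_add, Nat.sub_add_cancel hmn]
  have hcpt : ∀ n : ℕ, IsCompact (Set.range (fun x : R => x * 2 ^ n)) := fun n =>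
    isCompact_range (by fun_prop)
  obtain ⟨n, hn⟩ := exists_subset_nhds_of_isCompact' hdir hcpt (fun n => (hcpt n).isClosed)
    (U := ((I ⊔ Jinf R : Ideal R) : Set R)) (by
      intro x hx
      refine hopen.mem_nhds (Submodule.mem_sup_right ?_)
      unfold Jinf
      rw [Ideal.mem_iInf]
      intro k
      rw [Ideal.mem_span_singleton']
      exact Set.mem_iInter.1 hx k)
  rw [Filter.mem_atTop_sets]
  refine ⟨n, fun m hm => ?_⟩
  have h1 : (2 : R) ^ m ∈ I ⊔ Jinf R := by
    apply hn
    refine ⟨2 ^ (m - n), ?_⟩
    simp only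
    rw [← pow_add, Nat.sub_add_cancel hm]
  obtain ⟨i, hi, j, hj, hij⟩ := Submodule.mem_sup.1 h1
  have h2 : (2 : R ⧸ Jinf R) ^ m = Ideal.Quotient.mk (Jinf R) i := by
    have h3 : (2 : R ⧸ Jinf R) ^ m = Ideal.Quotient.mk (Jinf R) (2 ^ m) := by
      rw [map_pow]
      rfl
    rw [h3, ← hij, map_add, Ideal.Quotient.eq_zero_iff_mem.2 hj, add_zero]
  change (2 : R ⧸ Jinf R) ^ m ∈ U
  rw [h2]
  exact hIU hi

/-- PROOF. A closed subset; the intersections of the open ideals of `R` with `S` are open ideals of `S` and a basis at `0`. -/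
theorem lin_subring [IsLinearTopology R R] (S : Subring R) : IsLinearTopology S S := by
  rw [isLinearTopology_iff_hasBasis_ideal]
  refine ⟨fun U => ⟨fun hU => ?_, fun ⟨I, hI, hIU⟩ => Filter.mem_of_superset hI hIU⟩⟩
  obtain ⟨V, hV, hVU⟩ := mem_nhds_subtype (S : Set R) (0 : S) U |>.1 hU
  obtain ⟨I, hI, hIV⟩ := (IsLinearTopology.hasBasis_ideal (R := R)).mem_iff.1 hV
  refine ⟨I.comap S.subtype, ?_, fun x hx => hVU (hIV hx)⟩
  have hc : Continuous (Subtype.val : S → R) := continuous_subtype_val
  have h0 : (I : Set R) ∈ nhds ((Subtype.val : S → R) 0) := hI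
  exact hc.continuousAt.preimage_mem_nhds h0

/-- PROOF. The topology of the subring is the induced one. -/
theorem tn_subring {S : Subring R} {x : S} (hx : IsTopologicallyNilpotent (x : R)) :
    IsTopologicallyNilpotent x := by
  rw [IsTopologicallyNilpotent] at hx ⊢
  rw [Topology.IsInducing.subtypeVal.tendsto_nhds_iff]
  exact hx

end

end MP35
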