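import Pool.Agent.Lib_MP_3538b5.GAll
import Pool.Agent.Lib_MP_3538b5.Core0D
import Pool.Agent.Lib_MP_3538b5.Core2F
import Pool.Agent.Lib_MP_3538b5.RF2
import Pool.Agent.Lib_MP_3538b5.ROdd
import Pool.Agent.Lib_MP_3538b5.RTop
import Pool.Agent.Lib_MP_3538b5.RNoeth
import Pool.Agent.Lib_MP_3538b5.RFin
import Pool.Agent.Lib_MP_3538b5.RCore

/-! # Assembly of the reduction -/

set_option autoImplicit false

namespace MP35

universe u v w

theorem core_false {G : Type u} [Group G] [TopologicalSpace G] [IsTopologicalGroup G] [CompactSpace G]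
    [T2Space G] {T : Type v} [CommRing T] [TopologicalSpace T] [IsTopologicalRing T] [CompactSpace T]
    [T2Space T] [IsLinearTopology T T] [IsDomain T] {X Y Z : T} (C : Core G T X Y Z) (hG : GP G)
    (hT : TOK X Y Z) : False := by
  by_cases h2 : (2 : T) = 0
  · exact core2_false C hG hT h2
  · exact core0_false C hG hT h2

section partA

variable {G : Type u} [Group G] [TopologicalSpace G] [IsTopologicalGroup G] [CompactSpace G]
    [T2Space G] {R : Type v} [CommRing R] [TopologicalSpace R] [IsTopologicalRing R] [CompactSpace R]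
    [T2Space R] [IsLinearTopology R R]

/-- the situation over the base ring -/
theorem exists_RD (σ : G →* Matrix (Fin 2) (Fin 2) R) (hσ : Continuous σ) (hinj : Function.Injective σ)
    (hdet : ∀ g, (σ g).det = 1) {a b : G} (hab : cl2 a b = ⊤) {T0 : Subring R}
    (hT0 : IsClosed (T0 : Set R)) {X Y Z : T0}
    (hX : (X : R) = (σ a).trace) (hY : (Y : R) = (σ b).trace) (hZ : (Z : R) = (σ a * σ b).trace) :
    ∃ D : RD G T0 X Y Z (Matrix (Fin 2) (Fin 2) R), Continuous D.Φ ∧ D.σ = σ := by
  have h1 := QO.rel_sq (hdet a) hX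
  have h2 := QO.rel_sq (hdet b) hY
  have h3 := QO.rel_ba (hdet a) (hdet b) hX hY hZ
  set Φ : QO T0 X Y Z →+* Matrix (Fin 2) (Fin 2) R := QO.lift h1 h2 h3 with hΦ
  have hΦc : Continuous Φ := by
    have e0 : Continuous (fun x : QO T0 X Y Z => ((x.c0 : T0) : R)) :=
      continuous_subtype_val.comp QO.continuous_c0
    have e1 : Continuous (fun x : QO T0 X Y Z => ((x.c1 : T0) : R)) :=
      continuous_subtype_val.comp QO.continuous_c1
    have e2 : Continuous (fun x : QO T0 X Y Z => ((x.c2 : T0) : R)) :=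
      continuous_subtype_val.comp QO.continuous_c2
    have e3 : Continuous (fun x : QO T0 X Y Z => ((x.c3 : T0) : R)) :=
      continuous_subtype_val.comp QO.continuous_c3
    have : (Φ : QO T0 X Y Z → Matrix (Fin 2) (Fin 2) R) = fun x =>
        ((x.c0 : T0) : R) • (1 : Matrix (Fin 2) (Fin 2) R) + ((x.c1 : T0) : R) • σ a
        + ((x.c2 : T0) : R) • σ b + ((x.c3 : T0) : R) • (σ a * σ b) := rfl
    rw [this]
    exact (((e0.smul continuous_const).add (e1.smul continuous_const)).add
      (e2.smul continuous_const)).add (e3.smul continuous_const)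
  have hdetΦ : ∀ y, (Φ y).det = (y.nm : R) := fun y => QO.det_lift (hdet a) (hdet b) hX hY hZ y
  have hnm : ∀ g y, Φ y = σ g → y.nm = 1 := by
    intro g y h
    have := hdetΦ y
    rw [h, hdet g] at this
    exact Subtype.ext this.symm
  have hΦa : Φ (QO.ga X Y Z) = σ a := by
    show (0 : T0) • (1 : Matrix (Fin 2) (Fin 2) R) + (1 : T0) • σ a + (0 : T0) • σ b
      + (0 : T0) • (σ a * σ b) = σ a
    simp
  have hΦb : Φ (QO.gb X Y Z) = σ b := by
    show (0 : T0) • (1 : Matrix (Fin 2) (Fin 2) R) + (0 : T0) • σ a + (1 : T0) • σ b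
      + (0 : T0) • (σ a * σ b) = σ b
    simp
  let S : Subgroup G :=
    { carrier := {g | ∃ y, Φ y = σ g}
      one_mem' := ⟨1, by rw [map_one, map_one]⟩
      mul_mem' := fun {g h} ⟨y, hy⟩ ⟨z, hz⟩ => ⟨y * z, by rw [map_mul, map_mul, hy, hz]⟩
      inv_mem' := fun {g} ⟨y, hy⟩ => ⟨y.cj, by
        have h1 : Φ y.cj * σ g = 1 := by
          rw [← hy, ← map_mul, QO.cj_mul_self, hnm g y hy, one_smul, map_one]
        have h2 : σ g * σ g⁻¹ = 1 := by rw [← map_mul, mul_inv_cancel, map_one]
        calc Φ y.cj = Φ y.cj * (σ g * σ g⁻¹) := by rw [h2, mul_one]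
          _ = σ g⁻¹ := by rw [← mul_assoc, h1, one_mul]⟩ }
  have hS : ∀ g, g ∈ S := by
    intro g
    have hcl : IsClosed (S : Set G) := by
      have : CompactSpace T0 := isCompact_iff_compactSpace.1 hT0.isCompact
      have hr : IsClosed (Set.range Φ) := (isCompact_range hΦc).isClosed
      have : (S : Set G) = σ ⁻¹' (Set.range Φ) := rfl
      rw [this]
      exact hr.preimage hσ
    have hle : cl2 a b ≤ S := by
      refine Subgroup.topologicalClosure_minimal _ ?_ hcl
      rw [Subgroup.closure_le]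
      rintro x (rfl | rfl)
      · exact ⟨_, hΦa⟩
      · exact ⟨_, hΦb⟩
    rw [hab] at hle
    exact hle trivial
  exact ⟨⟨Φ, σ, hinj, hS, hnm, a, b, hΦa.symm, hΦb.symm⟩, hΦc, rfl⟩

theorem partA (hG : GP G) (h2 : IsTopologicallyNilpotent (2 : R))
    (σ : G →* Matrix (Fin 2) (Fin 2) R) (hσ : Continuous σ) (hinj : Function.Injective σ)
    (hdet : ∀ g, (σ g).det = 1)
    (htn : ∀ g i j, IsTopologicallyNilpotent (σ g i j - (1 : Matrix (Fin 2) (Fin 2) R) i j))
    {a b : G} (hab : cl2 a b = ⊤) (hnc : a * b ≠ b * a) : False := by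
  -- the traces are topologically nilpotent
  have htr : ∀ g, IsTopologicallyNilpotent (σ g).trace := by
    intro g
    have h := ((htn g 0 0).add (htn g 1 1)).add h2
    have e : (σ g 0 0 - (1 : Matrix (Fin 2) (Fin 2) R) 0 0 + (σ g 1 1 - (1 : Matrix (Fin 2) (Fin 2) R) 1 1))
        + 2 = (σ g).trace := by
      rw [Matrix.trace_fin_two, Matrix.one_apply_eq, Matrix.one_apply_eq]
      ring
    rwa [e] at h
  set x := (σ a).trace with hx
  set y := (σ b).trace with hy
  set z := (σ a * σ b).trace with hz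
  have tx : IsTopologicallyNilpotent x := htr a
  have ty : IsTopologicallyNilpotent y := htr b
  have tz : IsTopologicallyNilpotent z := by
    have := htr (a * b)
    rwa [map_mul] at this
  set T0 : Subring R := (Subring.closure {x, y, z}).topologicalClosure with hT0
  have hT0c : IsClosed (T0 : Set R) := Subring.isClosed_topologicalClosure _
  have hsub : ∀ w ∈ ({x, y, z} : Set R), w ∈ T0 := fun w hw =>
    Subring.le_topologicalClosure _ (Subring.subset_closure hw)
  let X : T0 := ⟨x, hsub x (by simp)⟩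
  let Y : T0 := ⟨y, hsub y (by simp)⟩
  let Z : T0 := ⟨z, hsub z (by simp)⟩
  obtain ⟨D, hΦ, hDσ⟩ := exists_RD σ hσ hinj hdet hab hT0c (X := X) (Y := Y) (Z := Z) rfl rfl rfl
  have : CompactSpace T0 := isCompact_iff_compactSpace.1 hT0c.isCompact
  have : IsLinearTopology T0 T0 := lin_subring T0
  -- noetherianness
  have hN1 : IsNoetherianRing (Ts X Y Z) := by
    apply noeth_ts_self hT0c
    have h := noeth_closure h2 ![x ^ 2, y ^ 2, z ^ 2] (by
      intro i
      have hp : ∀ {t : R}, IsTopologicallyNilpotent t → IsTopologicallyNilpotent (t ^ 2) := by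
        intro t ht
        rw [pow_two]
        exact ht.mul_right t
      fin_cases i
      · exact hp tx
      · exact hp ty
      · exact hp tz)
    have e : Set.range ![x ^ 2, y ^ 2, z ^ 2] = {(X : R) ^ 2, (Y : R) ^ 2, (Z : R) ^ 2} := by
      ext w
      constructor
      · rintro ⟨i, rfl⟩
        fin_cases i <;> simp [X, Y, Z]
      · rintro (rfl | rfl | rfl)
        · exact ⟨0, rfl⟩
        · exact ⟨1, rfl⟩
        · exact ⟨2, rfl⟩
    rw [e] at h
    exact h
  have hd : (Subring.closure {X, Y, Z}).topologicalClosure = ⊤ := dense_self x y z hT0 rfl rfl rfl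
  have hN2 : IsNoetherian (Ts X Y Z) T0 := noeth_over_ts hd hN1
  have hN3 : IsNoetherianRing T0 := isNoetherian_of_tower (Ts X Y Z) hN2
  have hnc' : ∃ x y : G, x * y ≠ y * x := ⟨a, b, hnc⟩
  obtain ⟨p, hp, hb, hmax⟩ := exists_prime D hG hnc'
  have hν := nu_not_mem D hG hnc' hb
  have hker : ∀ y, D.Φ y = 0 → InI p y := fun y hy => ker_le D hp hb hmax hν hy
  have hpc : IsClosed (p : Set T0) := closed_ideal p
  have hT2 : T2Space (T0 ⧸ p) := t2_quot p hpc
  have hlin : IsLinearTopology (T0 ⧸ p) (T0 ⧸ p) := lin_quot p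
  obtain ⟨C⟩ := exists_core D hΦ (by rw [hDσ]; exact hσ) hT2 hb hmax hν hker
  have hmk : Continuous (Ideal.Quotient.mk p) := (QuotientRing.isOpenQuotientMap_mk p).continuous
  have htn' : ∀ {t : T0}, IsTopologicallyNilpotent (t : R) →
      IsTopologicallyNilpotent (Ideal.Quotient.mk p t) := fun ht =>
    (tn_subring ht).map hmk
  refine core_false C hG ⟨?_, htn' tx, htn' ty, htn' tz, ?_⟩
  · have := htn' (t := 2) h2
    rwa [map_ofNat] at this
  · exact noeth_over_ts (dense_map (Ideal.Quotient.mk p) hmk Ideal.Quotient.mk_surjective hd)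
      (noeth_ts_map (Ideal.Quotient.mk p) hmk hN1)

end partA

section partB

variable {F : Type u} [Group F] [TopologicalSpace F] [IsTopologicalGroup F] [CompactSpace F]
    [T2Space F] [TotallyDisconnectedSpace F] {R : Type v} [CommRing R] [TopologicalSpace R]
    [IsTopologicalRing R] [CompactSpace R] [T2Space R] [IsLinearTopology R R]

theorem no_rep (hP : ProP 2 F) (hL : Lift2 F) (hnc : ∃ x y : F, x * y ≠ y * x)
    (ρ : F →* GL (Fin 2) R) (hρ : Continuous fun g => (ρ g : Matrix (Fin 2) (Fin 2) R)) :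
    ¬ Function.Injective ρ := by
  intro hinj
  have hGF := gp_of_lift hP hL
  obtain ⟨F2, hF2, hprop, x, hx, y, hy, hxy⟩ := exists_F2 hP hGF hnc ρ hρ
  set G : Subgroup F := cl2 x y with hGdef
  have hGc : IsClosed (G : Set F) := Subgroup.isClosed_topologicalClosure _
  have hGle : G ≤ F2 := by
    refine Subgroup.topologicalClosure_minimal _ ?_ hF2
    rw [Subgroup.closure_le]
    rintro w (rfl | rfl)
    · exact hx
    · exact hy
  have hsub : ∀ w ∈ ({x, y} : Set F), w ∈ G := fun w hw =>
    Subgroup.le_topologicalClosure _ (Subgroup.subset_closure hw)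
  let a : G := ⟨x, hsub x (by simp)⟩
  let b : G := ⟨y, hsub y (by simp)⟩
  have : CompactSpace G := isCompact_iff_compactSpace.1 hGc.isCompact
  have hPG : ProP 2 G := hP.sub G
  have hLG : Lift2 G := hL.sub G hGc
  have hab : cl2 a b = ⊤ := by
    rw [eq_top_iff]
    rintro ⟨g, hg⟩ -
    have hmap : (Subgroup.closure {a, b}).map G.subtype = Subgroup.closure {x, y} := by
      rw [MonoidHom.map_closure]
      congr 1
      ext w
      simp [a, b, eq_comm]
    have hg' : g ∈ closure ((Subgroup.closure {x, y} : Subgroup F) : Set F) := hg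
    rw [← hmap] at hg'
    show (⟨g, hg⟩ : G) ∈ closure ((Subgroup.closure {a, b} : Subgroup G) : Set G)
    rw [closure_subtype]
    exact hg'
  let J := Jinf R
  have hJ : IsClosed (J : Set R) := closed_Jinf
  have hT2 : T2Space (R ⧸ J) := t2_quot J hJ
  have hlin : IsLinearTopology (R ⧸ J) (R ⧸ J) := lin_quot J
  have hmk : Continuous (Ideal.Quotient.mk J) := (QuotientRing.isOpenQuotientMap_mk J).continuous
  let σ : G →* Matrix (Fin 2) (Fin 2) (R ⧸ J) :=
    ((Ideal.Quotient.mk J).mapMatrix.toMonoidHom.comp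
      (Units.coeHom (Matrix (Fin 2) (Fin 2) R))).comp (ρ.comp G.subtype)
  have hσe : ∀ g : G, σ g = (ρ g : Matrix (Fin 2) (Fin 2) R).map (Ideal.Quotient.mk J) := fun _ => rfl
  refine partA (G := G) (R := R ⧸ J) (gp_of_lift hPG hLG) two_tn σ ?_ ?_ ?_ ?_ hab ?_
  · have h1 : Continuous fun g : G => (ρ g : Matrix (Fin 2) (Fin 2) R) :=
      hρ.comp continuous_subtype_val
    have : (σ : G → Matrix (Fin 2) (Fin 2) (R ⧸ J)) =
        fun g : G => (ρ g : Matrix (Fin 2) (Fin 2) R).map (Ideal.Quotient.mk J) := rfl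
    rw [this]
    exact h1.matrix_map hmk
  · rw [injective_iff_map_eq_one]
    intro g hg
    have hent : ∀ i j, (ρ g : Matrix (Fin 2) (Fin 2) R) i j - (1 : Matrix (Fin 2) (Fin 2) R) i j ∈ J := by
      intro i j
      rw [← Ideal.Quotient.eq]
      have := congrFun (congrFun hg i) j
      rw [hσe, Matrix.map_apply] at this
      rw [this, Matrix.one_apply, Matrix.one_apply]
      split_ifs <;> simp
    have h1 : (ρ.comp G.subtype) g = 1 := by
      refine inj_mod hPG (ρ.comp G.subtype) (hρ.comp continuous_subtype_val)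
        (hprop g (hGle g.2)).2 fun n i j => ?_
      have := hent i j
      rw [show J = ⨅ n : ℕ, Ideal.span {(2 : R) ^ n} from rfl, Ideal.mem_iInf] at this
      exact Ideal.mem_span_singleton.1 (this n)
    have h2 : (g : F) = 1 := hinj (by rw [map_one]; exact h1)
    exact Subtype.ext h2
  · intro g
    rw [hσe, ← RingHom.mapMatrix_apply, ← RingHom.map_det, (hprop g (hGle g.2)).1, map_one]
  · intro g i j
    have h := ((hprop g (hGle g.2)).2 i j).map (φ := Ideal.Quotient.mk J) hmk
    have e : Ideal.Quotient.mk J ((ρ g : Matrix (Fin 2) (Fin 2) R) i j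
        - (1 : Matrix (Fin 2) (Fin 2) R) i j) = σ g i j - (1 : Matrix (Fin 2) (Fin 2) (R ⧸ J)) i j := by
      rw [map_sub, hσe, Matrix.map_apply, Matrix.one_apply, Matrix.one_apply]
      split_ifs <;> simp
    rwa [e] at h
  · intro h
    exact hxy (congrArg Subtype.val h)

end partB

end MP35
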