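import Pool.Agent.Lib_MP_3538b5.RField
import Pool.Agent.Lib_MP_3538b5.CoreDefs

/-! # Piece RNIL: nilpotent and topologically nilpotent entries -/

set_option autoImplicit false

namespace MP35

universe u v w

/-- PROOF. An element is nilpotent iff it is in every prime ideal `p` (`nilpotent_iff_mem_prime`). Map `GL_2(A)` to `GL_2(k)`, `k` the fraction field of `A / p`
(`Matrix.GeneralLinearGroup.map`), and use `metab_field`: the image of `(cm (cm a b) (cm c d))` is `1`, so the entries minus those of `1` are mapped to `0` in `k`, so they are in `p`. -/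
theorem nil_entries {A : Type u} [CommRing A] {P : Type v} [Group P] [Group.IsNilpotent P]
    (f : P →* GL (Fin 2) A) (a b c d : P) (i j : Fin 2) :
    IsNilpotent ((f (cm (cm a b) (cm c d)) : Matrix (Fin 2) (Fin 2) A) i j
      - (1 : Matrix (Fin 2) (Fin 2) A) i j) := by
  rw [nilpotent_iff_mem_prime]
  intro p hp
  have := hp
  let k := FractionRing (A ⧸ p)
  let φ : A →+* k := (algebraMap (A ⧸ p) k).comp (Ideal.Quotient.mk p)
  have hm := metab_field ((Matrix.GeneralLinearGroup.map (n := Fin 2) φ).comp f) a b c d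
  have h1 : ((Matrix.GeneralLinearGroup.map (n := Fin 2) φ).comp f) (cm (cm a b) (cm c d)) = 1 := by
    have e : cm (cm a b) (cm c d) = (cm a b * cm c d) * (cm c d * cm a b)⁻¹ := by
      conv_lhs => unfold cm
      conv_rhs => unfold cm
      group
    rw [e, map_mul, map_inv, hm, mul_inv_cancel]
  have h2 := congrFun (congrFun (congrArg
    (fun w : GL (Fin 2) k => (w : Matrix (Fin 2) (Fin 2) k)) h1) i) j
  have h3 : φ ((f (cm (cm a b) (cm c d)) : Matrix (Fin 2) (Fin 2) A) i j) =
      (1 : Matrix (Fin 2) (Fin 2) k) i j := h2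
  have h4 : φ ((1 : Matrix (Fin 2) (Fin 2) A) i j) = (1 : Matrix (Fin 2) (Fin 2) k) i j := by
    by_cases hij : i = j
    · subst hij; simp
    · simp [Matrix.one_apply_ne hij]
  have h5 : φ ((f (cm (cm a b) (cm c d)) : Matrix (Fin 2) (Fin 2) A) i j -
      (1 : Matrix (Fin 2) (Fin 2) A) i j) = 0 := by
    rw [map_sub, h3, h4, sub_self]
  have h6 : Ideal.Quotient.mk p ((f (cm (cm a b) (cm c d)) : Matrix (Fin 2) (Fin 2) A) i j -
      (1 : Matrix (Fin 2) (Fin 2) A) i j) = 0 := by
    apply IsFractionRing.injective (A ⧸ p) k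
    rw [map_zero]
    exact h5
  exact Ideal.Quotient.eq_zero_iff_mem.1 h6

/-- PROOF. Let `I` be an open ideal of `R`. The homomorphism `F → GL_2(R / I)` has open kernel `N` (`ρ` is continuous, and `{g | ρ g = 1 mod I}` is open, because it contains a neighbourhood of `1` and is a subgroup),
so `F / N` is finite and a `2`-group (`hP`), so nilpotent (`IsPGroup.isNilpotent`), and by `nil_entries` for the induced injective homomorphism `F / N → GL_2(R / I)` some power of the entry is in `I`. All larger powers are in `I`, too,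
so the entry is topologically nilpotent (`IsLinearTopology.hasBasis_open_ideal`). -/
theorem tn_entries {F : Type u} [Group F] [TopologicalSpace F] [IsTopologicalGroup F] [CompactSpace F]
    (hP : ProP 2 F) {R : Type v} [CommRing R] [TopologicalSpace R] [IsTopologicalRing R]
    [IsLinearTopology R R] (ρ : F →* GL (Fin 2) R)
    (hρ : Continuous fun g => (ρ g : Matrix (Fin 2) (Fin 2) R)) (a b c d : F) (i j : Fin 2) :
    IsTopologicallyNilpotent ((ρ (cm (cm a b) (cm c d)) : Matrix (Fin 2) (Fin 2) R) i j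
      - (1 : Matrix (Fin 2) (Fin 2) R) i j) := by
  unfold IsTopologicallyNilpotent
  rw [(IsLinearTopology.hasBasis_open_ideal (R := R)).tendsto_right_iff]
  intro I hI
  let f1 : F →* GL (Fin 2) (R ⧸ I) :=
    (Matrix.GeneralLinearGroup.map (n := Fin 2) (Ideal.Quotient.mk I)).comp ρ
  have hker : (f1.ker : Set F) = ⋂ (i : Fin 2), ⋂ (j : Fin 2),
      {g | (ρ g : Matrix (Fin 2) (Fin 2) R) i j - (1 : Matrix (Fin 2) (Fin 2) R) i j ∈ (I : Set R)} := by
    ext g
    simp only [SetLike.mem_coe, MonoidHom.mem_ker, Set.mem_iInter, Set.mem_ofPred_eq]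
    have h1e : ∀ i j : Fin 2, Ideal.Quotient.mk I ((1 : Matrix (Fin 2) (Fin 2) R) i j) =
        (1 : Matrix (Fin 2) (Fin 2) (R ⧸ I)) i j := by
      intro i j
      by_cases hij : i = j
      · subst hij; simp
      · simp [Matrix.one_apply_ne hij]
    constructor
    · intro h i j
      have h2 := congrFun (congrFun (congrArg
        (fun w : GL (Fin 2) (R ⧸ I) => (w : Matrix (Fin 2) (Fin 2) (R ⧸ I))) h) i) j
      have h3 : Ideal.Quotient.mk I ((ρ g : Matrix (Fin 2) (Fin 2) R) i j) =
        (1 : Matrix (Fin 2) (Fin 2) (R ⧸ I)) i j := h2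
      rw [← Ideal.Quotient.eq_zero_iff_mem, map_sub, h3, h1e, sub_self]
    · intro h
      apply Units.ext
      ext i j
      have h2 := h i j
      rw [← Ideal.Quotient.eq_zero_iff_mem, map_sub, h1e, sub_eq_zero] at h2
      exact h2
  have hopen : IsOpen (f1.ker : Set F) := by
    rw [hker]
    apply isOpen_iInter_of_finite
    intro i
    apply isOpen_iInter_of_finite
    intro j
    have hc : Continuous fun g => (ρ g : Matrix (Fin 2) (Fin 2) R) i j -
        (1 : Matrix (Fin 2) (Fin 2) R) i j := by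
      apply Continuous.sub _ continuous_const
      exact hρ.matrix_elem i j
    exact hI.preimage hc
  have : Finite (F ⧸ f1.ker) := Subgroup.quotient_finite_of_isOpen f1.ker hopen
  have : Fact (Nat.Prime 2) := ⟨Nat.prime_two⟩
  have hpg : IsPGroup 2 (F ⧸ f1.ker) := by
    intro g
    obtain ⟨g, rfl⟩ := QuotientGroup.mk_surjective g
    obtain ⟨k, hk⟩ := hP f1.ker inferInstance hopen g
    refine ⟨k, ?_⟩
    rw [← QuotientGroup.mk_pow]
    exact (QuotientGroup.eq_one_iff _).2 hk
  have : Group.IsNilpotent (F ⧸ f1.ker) := hpg.isNilpotent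
  have hn := nil_entries (QuotientGroup.kerLift f1) (a : F ⧸ f1.ker) (b : F ⧸ f1.ker)
    (c : F ⧸ f1.ker) (d : F ⧸ f1.ker) i j
  have he : QuotientGroup.kerLift f1 (cm (cm (a : F ⧸ f1.ker) (b : F ⧸ f1.ker))
      (cm (c : F ⧸ f1.ker) (d : F ⧸ f1.ker))) = f1 (cm (cm a b) (cm c d)) := rfl
  rw [he] at hn
  obtain ⟨n, hn⟩ := hn
  have h1e : Ideal.Quotient.mk I ((1 : Matrix (Fin 2) (Fin 2) R) i j) =
      (1 : Matrix (Fin 2) (Fin 2) (R ⧸ I)) i j := by
    by_cases hij : i = j
    · subst hij; simp
    · simp [Matrix.one_apply_ne hij]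
  have hn2 : Ideal.Quotient.mk I (((ρ (cm (cm a b) (cm c d)) : Matrix (Fin 2) (Fin 2) R) i j
      - (1 : Matrix (Fin 2) (Fin 2) R) i j) ^ n) = 0 := by
    rw [map_pow, map_sub, h1e]
    exact hn
  rw [Ideal.Quotient.eq_zero_iff_mem] at hn2
  filter_upwards [Filter.eventually_ge_atTop n] with m hm
  obtain ⟨e, rfl⟩ := Nat.exists_eq_add_of_le hm
  rw [pow_add]
  exact I.mul_mem_right _ hn2

end MP35
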