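import Pool.Agent.Lib_MP_3538b5.RPrime

/-! # Piece RNU: the discriminant and the kernel -/

set_option autoImplicit false

namespace MP35

universe u v w

section

variable {G : Type u} [Group G] {T : Type v} [CommRing T] {X Y Z : T} {M : Type w} [Ring M]
  (D : RD G T X Y Z M)

/-- PROOF. `w = QO.gw`: `w * ga = ga.cj * w`, `w * gb = gb.cj * w` (`QO.gw_ga`, `QO.gw_gb`), so for `y = y0 + y1 a + y2 b + y3 ab` we have `w y = (y0 + y1 ā + y2 b̄ + y3 ā b̄) w`; from this also `y w = w y''` . -/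
theorem gw_mul (y : QO T X Y Z) : (∃ y', QO.gw X Y Z * y = y' * QO.gw X Y Z) ∧
    ∃ y'', y * QO.gw X Y Z = QO.gw X Y Z * y'' := by
  refine ⟨⟨y.c0 • 1 + y.c1 • (QO.ga X Y Z).cj + y.c2 • (QO.gb X Y Z).cj
      + y.c3 • ((QO.ga X Y Z).cj * (QO.gb X Y Z).cj), ?_⟩,
    ⟨y.c0 • 1 + y.c1 • (QO.ga X Y Z).cj + y.c2 • (QO.gb X Y Z).cj
      + y.c3 • ((QO.ga X Y Z).cj * (QO.gb X Y Z).cj), ?_⟩⟩
  · ext <;> simp [QO.gw] <;> ring
  · ext <;> simp [QO.gw] <;> ring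

/-- PROOF. `QO.comm_eq`. -/
theorem comm_gw (x y : QO T X Y Z) : ∃ u, x * y - y * x = u * QO.gw X Y Z := by
  refine ⟨(x.c1 * y.c2 - x.c2 * y.c1) • 1 + (x.c1 * y.c3 - x.c3 * y.c1) • QO.ga X Y Z
    - (x.c2 * y.c3 - x.c3 * y.c2) • (QO.gb X Y Z).cj, ?_⟩
  rw [QO.comm_eq, sub_mul, add_mul, smul_mul_assoc, smul_mul_assoc, smul_mul_assoc, one_mul]

theorem InI.smul_mem {p : Ideal T} {s : T} (hs : s ∈ p) (x : QO T X Y Z) : InI p (s • x) :=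
  ⟨p.mul_mem_right _ hs, p.mul_mem_right _ hs, p.mul_mem_right _ hs, p.mul_mem_right _ hs⟩

/-- a commutator is `1` modulo `gw` -/
theorem sigma_comm (g h : G) : ∃ u, D.σ (g * h * g⁻¹ * h⁻¹) = D.Φ (1 + u * QO.gw X Y Z) := by
  obtain ⟨x, hx⟩ := D.rng g
  obtain ⟨y, hy⟩ := D.rng h
  obtain ⟨z, hz⟩ := D.rng (g⁻¹ * h⁻¹)
  obtain ⟨u, hu⟩ := comm_gw x y
  obtain ⟨z', hz'⟩ := (gw_mul z).1
  refine ⟨u * z', ?_⟩
  have e1 : g * h * g⁻¹ * h⁻¹ = (g * h) * (g⁻¹ * h⁻¹) := by group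
  have e2 : D.σ ((h * g) * (g⁻¹ * h⁻¹)) = 1 := by
    have : (h * g) * (g⁻¹ * h⁻¹) = 1 := by group
    rw [this, map_one]
  have e3 : u * z' * QO.gw X Y Z = (x * y - y * x) * z := by
    rw [hu, mul_assoc, ← hz', ← mul_assoc]
  rw [e3, map_add, map_one, map_mul D.Φ, map_sub D.Φ, map_mul D.Φ, map_mul D.Φ, hx, hy, hz, e1,
    map_mul D.σ, map_mul D.σ, sub_mul]
  rw [map_mul D.σ, map_mul D.σ] at e2
  rw [e2]
  abel

variable [TopologicalSpace G] [IsTopologicalGroup G]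

/-- PROOF. Suppose `ν = nu ∈ p`. For `g, h ∈ G` choose `x, y` with `Φ x = σ g`, `Φ y = σ h`, and `z` with `Φ z = σ (g⁻¹ h⁻¹)`. `σ (g h g⁻¹ h⁻¹) - 1 = Φ ((x y - y x) z) = Φ (u w z) = Φ (u' w)` with `w = gw` (`comm_gw`, `gw_mul`). For two such elements
`k = 1 + Φ(u w)`, `l = 1 + Φ(v w)` (identify with `σ`) `k l - l k = Φ (u w v w - v w u w) = Φ ((u v' - v u') w²)`, `w² = ν` (`QO.gw_sq`), and `InI p` holds for multiples of `ν ∈ p`. So `k l k⁻¹ l⁻¹ ∈ D.NQ p = ⊥` and any two commutators of `G` commute; by `GP.metab` `G`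
is commutative: contradiction to `hnc`. -/
theorem nu_not_mem (hG : GP G) (hnc : ∃ x y : G, x * y ≠ y * x) {p : Ideal T} (hp : D.NQ p = ⊥) :
    QO.nu X Y Z ∉ p := by
  intro hν
  obtain ⟨x, y, hxy⟩ := hnc
  refine hxy (hG.metab ?_ x y)
  intro a b c d
  obtain ⟨u, hu⟩ := sigma_comm D a b
  obtain ⟨v, hv⟩ := sigma_comm D c d
  obtain ⟨u', hu'⟩ := (gw_mul u).1
  obtain ⟨v', hv'⟩ := (gw_mul v).1
  generalize a * b * a⁻¹ * b⁻¹ = k at hu ⊢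
  generalize c * d * c⁻¹ * d⁻¹ = l at hv ⊢
  obtain ⟨z, hz⟩ := D.rng (k⁻¹ * l⁻¹)
  have h1 : (1 + u * QO.gw X Y Z) * (1 + v * QO.gw X Y Z)
      - (1 + v * QO.gw X Y Z) * (1 + u * QO.gw X Y Z)
      = QO.nu X Y Z • (u * v' - v * u') := by
    have a1 : u * QO.gw X Y Z * (v * QO.gw X Y Z) = QO.nu X Y Z • (u * v') := by
      calc u * QO.gw X Y Z * (v * QO.gw X Y Z) = u * (QO.gw X Y Z * v) * QO.gw X Y Z := by
            simp only [mul_assoc]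
        _ = u * v' * (QO.gw X Y Z * QO.gw X Y Z) := by rw [hv']; simp only [mul_assoc]
        _ = QO.nu X Y Z • (u * v') := by rw [QO.gw_sq, mul_smul_comm, mul_one]
    have a2 : v * QO.gw X Y Z * (u * QO.gw X Y Z) = QO.nu X Y Z • (v * u') := by
      calc v * QO.gw X Y Z * (u * QO.gw X Y Z) = v * (QO.gw X Y Z * u) * QO.gw X Y Z := by
            simp only [mul_assoc]
        _ = v * u' * (QO.gw X Y Z * QO.gw X Y Z) := by rw [hu']; simp only [mul_assoc]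
        _ = QO.nu X Y Z • (v * u') := by rw [QO.gw_sq, mul_smul_comm, mul_one]
    rw [smul_sub, ← a1, ← a2]
    simp only [mul_add, add_mul, one_mul, mul_one]
    abel
  have h2 : k * l * (k⁻¹ * l⁻¹) ∈ D.NQ p := by
    rw [D.mem_NQ]
    refine ⟨(QO.nu X Y Z • (u * v' - v * u')) * z, (InI.smul_mem hν _).mul_right z, ?_⟩
    have e2 : D.σ ((l * k) * (k⁻¹ * l⁻¹)) = 1 := by
      have : (l * k) * (k⁻¹ * l⁻¹) = 1 := by group
      rw [this, map_one]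
    rw [← h1, map_mul D.Φ, map_sub D.Φ, map_mul D.Φ, map_mul D.Φ, ← hu, ← hv, hz, sub_mul,
      ← map_mul, ← map_mul, ← map_mul, ← map_mul, e2]
  rw [hp, Subgroup.mem_bot] at h2
  have h3 : k * l = k * l * (k⁻¹ * l⁻¹) * (l * k) := by group
  rw [h2, one_mul] at h3
  exact h3

omit [TopologicalSpace G] [IsTopologicalGroup G] in
/-- the scalars which are `0` modulo the kernel and the ideal are in the ideal -/
theorem scalar_mem {p : Ideal T} (hb : D.NQ p = ⊥) (hmax : ∀ q : Ideal T, p < q → D.NQ q ≠ ⊥)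
    {s : T} (hs : ∃ z, InI p z ∧ D.Φ (s • 1) = D.Φ z) : s ∈ p := by
  by_contra hsp
  obtain ⟨z, hz, hsz⟩ := hs
  have hlt : p < p ⊔ Ideal.span {s} := by
    refine lt_of_le_of_ne le_sup_left ?_
    intro h
    apply hsp
    rw [h]
    exact Ideal.mem_sup_right (Ideal.mem_span_singleton_self s)
  apply hmax _ hlt
  rw [Subgroup.eq_bot_iff_forall]
  intro g hg
  rw [D.mem_NQ] at hg
  obtain ⟨y, hy, hyg⟩ := hg
  have dec : ∀ {t : T}, t ∈ p ⊔ Ideal.span {s} → ∃ a b, a ∈ p ∧ t = a + s * b := by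
    intro t ht
    obtain ⟨a, ha, c, hc, rfl⟩ := Submodule.mem_sup.1 ht
    obtain ⟨b, rfl⟩ := Ideal.mem_span_singleton'.1 hc
    exact ⟨a, b, ha, by rw [mul_comm]⟩
  obtain ⟨a0, b0, ha0, e0⟩ := dec hy.1
  obtain ⟨a1, b1, ha1, e1⟩ := dec hy.2.1
  obtain ⟨a2, b2, ha2, e2⟩ := dec hy.2.2.1
  obtain ⟨a3, b3, ha3, e3⟩ := dec hy.2.2.2
  have hdec : y = (⟨a0, a1, a2, a3⟩ : QO T X Y Z) + (s • 1) * (⟨b0, b1, b2, b3⟩ : QO T X Y Z) := by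
    rw [smul_mul_assoc, one_mul]
    ext
    · exact e0
    · exact e1
    · exact e2
    · exact e3
  have hmem : g ∈ D.NQ p := by
    rw [D.mem_NQ]
    refine ⟨(⟨a0, a1, a2, a3⟩ : QO T X Y Z) + z * (⟨b0, b1, b2, b3⟩ : QO T X Y Z),
      InI.add ⟨ha0, ha1, ha2, ha3⟩ (hz.mul_right _), ?_⟩
    rw [← hyg, hdec, map_add, map_add, map_mul, map_mul, hsz]
  rw [hb, Subgroup.mem_bot] at hmem
  exact hmem

omit [TopologicalSpace G] [IsTopologicalGroup G] in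
/-- PROOF. Let `K` be the set of the `y` for which there is `z` with `InI p z` and `Φ y = Φ z`: a two-sided ideal of `QO T X Y Z` (closed under addition, negation and multiplication on both sides with all elements, so also under scalars). Let `Φ y = 0`, so `y ∈ K`.
By `QO.nu_c3`, `QO.nu_c2`, `QO.nu_c1` and `QO.eq_comb`: `(ν² y_i) • 1 ∈ K` for `i = 3, 2, 1, 0` (for `i = 0`: `ν² y0 = ν² y - ν² y1 a - ν² y2 b - ν² y3 ab`). Suppose `y_i ∉ p`; then `s = ν² y_i ∉ p` (`p` prime, `ν ∉ p`), `q = p ⊔ span {s} > p`, and by `hmax`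
there is `1 ≠ g ∈ D.NQ q`: `σ g - 1 = Φ u`, `InI q u`, `u = u' + s • u''` with `InI p u'`. `s • 1 ∈ K`: `Φ (s • 1) = Φ z`, `InI p z`. So `Φ u = Φ (u' + z u'')` and `g ∈ D.NQ p = ⊥`: contradiction. -/
theorem ker_le {p : Ideal T} (hp : p.IsPrime) (hb : D.NQ p = ⊥)
    (hmax : ∀ q : Ideal T, p < q → D.NQ q ≠ ⊥) (hν : QO.nu X Y Z ∉ p) {y : QO T X Y Z}
    (hy : D.Φ y = 0) : InI p y := by
  -- the two-sided ideal of the elements which are `0` modulo the kernel and the ideal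
  have Kadd : ∀ {x x' : QO T X Y Z}, (∃ z, InI p z ∧ D.Φ x = D.Φ z) →
      (∃ z, InI p z ∧ D.Φ x' = D.Φ z) → ∃ z, InI p z ∧ D.Φ (x + x') = D.Φ z := by
    rintro x x' ⟨z, hz, h⟩ ⟨z', hz', h'⟩
    exact ⟨z + z', hz.add hz', by rw [map_add, map_add, h, h']⟩
  have Kneg : ∀ {x : QO T X Y Z}, (∃ z, InI p z ∧ D.Φ x = D.Φ z) →
      ∃ z, InI p z ∧ D.Φ (-x) = D.Φ z := by
    rintro x ⟨z, hz, h⟩
    exact ⟨-z, hz.neg, by rw [map_neg, map_neg, h]⟩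
  have Ksub : ∀ {x x' : QO T X Y Z}, (∃ z, InI p z ∧ D.Φ x = D.Φ z) →
      (∃ z, InI p z ∧ D.Φ x' = D.Φ z) → ∃ z, InI p z ∧ D.Φ (x - x') = D.Φ z := by
    intro x x' h h'
    rw [sub_eq_add_neg]
    exact Kadd h (Kneg h')
  have Kl : ∀ {x : QO T X Y Z} (t : QO T X Y Z), (∃ z, InI p z ∧ D.Φ x = D.Φ z) →
      ∃ z, InI p z ∧ D.Φ (t * x) = D.Φ z := by
    rintro x t ⟨z, hz, h⟩
    exact ⟨t * z, hz.mul_left t, by rw [map_mul, map_mul, h]⟩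
  have Kr : ∀ {x : QO T X Y Z} (t : QO T X Y Z), (∃ z, InI p z ∧ D.Φ x = D.Φ z) →
      ∃ z, InI p z ∧ D.Φ (x * t) = D.Φ z := by
    rintro x t ⟨z, hz, h⟩
    exact ⟨z * t, hz.mul_right t, by rw [map_mul, map_mul, h]⟩
  have Ks : ∀ {x : QO T X Y Z} (t : T), (∃ z, InI p z ∧ D.Φ x = D.Φ z) →
      ∃ z, InI p z ∧ D.Φ (t • x) = D.Φ z := by
    intro x t h
    have := Kl (t • (1 : QO T X Y Z)) h
    rwa [smul_mul_assoc, one_mul] at this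
  have Ky : ∃ z, InI p z ∧ D.Φ y = D.Φ z := ⟨0, InI.zero p, by rw [hy, map_zero]⟩
  have Ksc : ∀ {t : T} (x : QO T X Y Z), (∃ z, InI p z ∧ D.Φ (t • (1 : QO T X Y Z)) = D.Φ z) →
      ∃ z, InI p z ∧ D.Φ (t • x) = D.Φ z := by
    intro t x h
    have := Kr x h
    rwa [smul_mul_assoc, one_mul] at this
  have fin : ∀ {t : T}, (∃ z, InI p z ∧ D.Φ ((QO.nu X Y Z ^ 2 * t) • (1 : QO T X Y Z)) = D.Φ z) →
      t ∈ p := by
    intro t ht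
    rcases hp.mem_or_mem (scalar_mem D hb hmax ht) with h | h
    · exact absurd (hp.mem_of_pow_mem 2 h) hν
    · exact h
  have K3 : ∃ z, InI p z ∧ D.Φ ((QO.nu X Y Z ^ 2 * y.c3) • (1 : QO T X Y Z)) = D.Φ z := by
    rw [QO.nu_c3]
    have h1 : ∃ z, InI p z ∧ D.Φ ((QO.ga X Y Z * y - y * QO.ga X Y Z) * QO.gw X Y Z) = D.Φ z :=
      Kr _ (Ksub (Kl _ Ky) (Kr _ Ky))
    exact Kneg (Kr _ (Ksub (Kl _ h1) (Kr _ h1)))
  have K2 : ∃ z, InI p z ∧ D.Φ ((QO.nu X Y Z ^ 2 * y.c2) • (1 : QO T X Y Z)) = D.Φ z := by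
    rw [QO.nu_c2]
    exact Ksub (Ks _ (Kr _ (Ksub (Kl _ Ky) (Kr _ Ky)))) (Ksc _ K3)
  have K1 : ∃ z, InI p z ∧ D.Φ ((QO.nu X Y Z ^ 2 * y.c1) • (1 : QO T X Y Z)) = D.Φ z := by
    rw [QO.nu_c1]
    exact Ksub (Kneg (Ks _ (Kr _ (Ksub (Kl _ Ky) (Kr _ Ky))))) (Ksc _ K3)
  have K0 : ∃ z, InI p z ∧ D.Φ ((QO.nu X Y Z ^ 2 * y.c0) • (1 : QO T X Y Z)) = D.Φ z := by
    have e : (QO.nu X Y Z ^ 2 * y.c0) • (1 : QO T X Y Z) = QO.nu X Y Z ^ 2 • y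
        - (QO.nu X Y Z ^ 2 * y.c1) • QO.ga X Y Z - (QO.nu X Y Z ^ 2 * y.c2) • QO.gb X Y Z
        - (QO.nu X Y Z ^ 2 * y.c3) • (QO.ga X Y Z * QO.gb X Y Z) := by
      ext <;> simp
    rw [e]
    exact Ksub (Ksub (Ksub (Ks _ Ky) (Ksc _ K1)) (Ksc _ K2)) (Ksc _ K3)
  exact ⟨fin K0, fin K1, fin K2, fin K3⟩

end

end MP35
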