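import Pool.Agent.Lib_MP_3538b5.RData

/-! # Piece RPRIME: a maximal ideal with trivial congruence subgroup is prime -/

set_option autoImplicit false

namespace MP35

universe u v w

section

variable {G : Type u} [Group G] {T : Type v} [CommRing T] {X Y Z : T} {M : Type w} [Ring M]
  (D : RD G T X Y Z M)

/-- PROOF. `σ (h g h⁻¹) - 1 = σ h (σ g - 1) σ h⁻¹`, `D.rng`, `InI.mul_left`, `InI.mul_right`. -/
theorem NQ_normal (q : Ideal T) : (D.NQ q).Normal := by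
  refine ⟨fun g hg h => ?_⟩
  obtain ⟨y, hy, hy'⟩ := hg
  obtain ⟨u, hu⟩ := D.rng h
  obtain ⟨v, hv⟩ := D.rng h⁻¹
  refine ⟨u * y * v, (hy.mul_left u).mul_right v, ?_⟩
  rw [map_mul, map_mul, hu, hv, hy', map_mul, map_mul, mul_sub, sub_mul, mul_one, ← map_mul D.σ h h⁻¹,
    mul_inv_cancel, map_one]

/-- PROOF. `σ g - 1 = Φ 0 = 0`, injectivity. -/
theorem NQ_bot : D.NQ ⊥ = ⊥ := by
  rw [eq_bot_iff]
  intro g hg
  obtain ⟨y, hy, hy'⟩ := hg
  have h0 : y = 0 := by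
    obtain ⟨h0, h1, h2, h3⟩ := hy
    rw [Ideal.mem_bot] at h0 h1 h2 h3
    exact QO.ext h0 h1 h2 h3
  rw [h0, map_zero] at hy'
  have h1 : D.σ g = D.σ 1 := by rw [map_one]; exact (sub_eq_zero.mp hy'.symm)
  exact Subgroup.mem_bot.mpr (D.inj h1)

/-- PROOF. `σ g = Φ u` (`D.rng`), `σ g - 1 = Φ (u - 1)`. -/
theorem NQ_top : D.NQ ⊤ = ⊤ := by
  rw [eq_top_iff]
  intro g _
  obtain ⟨u, hu⟩ := D.rng g
  refine ⟨u - 1, ⟨Submodule.mem_top, Submodule.mem_top, Submodule.mem_top, Submodule.mem_top⟩, ?_⟩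
  rw [map_sub, hu, map_one]

/-- PROOF. `σ (g h) - σ (h g) = (σ g - 1)(σ h - 1) - (σ h - 1)(σ g - 1) = Φ (y z - z y)`, with `InI r (y z - z y)` (`InI.mul`; `q * p ≤ r` also), and `g h g⁻¹ h⁻¹ ∈ D.NQ r` as
`σ (g h g⁻¹ h⁻¹) - 1 = (σ (g h) - σ (h g)) σ (g⁻¹ h⁻¹)`. So if `D.NQ r = ⊥` then `g h = h g`. -/
theorem NQ_comm {p q r : Ideal T} (h : p * q ≤ r) (hr : D.NQ r = ⊥) {g k : G} (hg : g ∈ D.NQ p)
    (hk : k ∈ D.NQ q) : g * k = k * g := by
  obtain ⟨y, hy, hy'⟩ := hg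
  obtain ⟨z, hz, hz'⟩ := hk
  obtain ⟨u, hu⟩ := D.rng (k * g)⁻¹
  have h' : q * p ≤ r := by rw [mul_comm]; exact h
  have hx : InI r (y * z - z * y) := (InI.mul h hy hz).sub (InI.mul h' hz hy)
  have hm : (g * k) * (k * g)⁻¹ ∈ D.NQ r := by
    refine ⟨(y * z - z * y) * u, hx.mul_right u, ?_⟩
    have e1 : D.σ (k * g) * D.σ (k * g)⁻¹ = 1 := by rw [← map_mul, mul_inv_cancel, map_one]
    have e2 : D.Φ (y * z - z * y) = D.σ (g * k) - D.σ (k * g) := by
      rw [map_sub, map_mul, map_mul, hy', hz', map_mul, map_mul]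
      noncomm_ring
    rw [map_mul, e2, hu, sub_mul, e1, map_mul D.σ (g * k)]
  rw [hr, Subgroup.mem_bot] at hm
  exact mul_inv_eq_one.mp hm

variable [TopologicalSpace G] [IsTopologicalGroup G]

/-- PROOF. The set of ideals `q` with `D.NQ q = ⊥` contains `⊥`; let `p` be a maximal element (`T` noetherian; `set_has_maximal_iff_noetherian` or well-foundedness of `>`). `p ≠ ⊤` by `NQ_top` and `hnc`. Let `s t ∈ p` with `s, t ∉ p`, `I = p ⊔ span {s}`,
`J = p ⊔ span {t}`: both are larger than `p`, so `D.NQ I ≠ ⊥`, `D.NQ J ≠ ⊥`; `I * J ≤ p`, so by `NQ_comm` the normal subgroups `D.NQ I` and `D.NQ J` commute, and `GP.ncn` shows that `G` is commutative: contradiction. -/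
theorem exists_prime [IsNoetherianRing T] (hG : GP G) (hnc : ∃ x y : G, x * y ≠ y * x) :
    ∃ p : Ideal T, p.IsPrime ∧ D.NQ p = ⊥ ∧ ∀ q : Ideal T, p < q → D.NQ q ≠ ⊥ := by
  obtain ⟨p, hp, hmax⟩ := set_has_maximal_iff_noetherian.mpr (inferInstance : IsNoetherian T T)
    {q : Ideal T | D.NQ q = ⊥} ⟨⊥, NQ_bot D⟩
  have hp' : D.NQ p = ⊥ := hp
  have hmax' : ∀ q : Ideal T, p < q → D.NQ q ≠ ⊥ := fun q hq hq' => hmax q hq' hq
  have hncomm : ¬ ∀ x y : G, x * y = y * x := by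
    intro h
    obtain ⟨x, y, hxy⟩ := hnc
    exact hxy (h x y)
  refine ⟨p, ⟨?_, ?_⟩, hp', hmax'⟩
  · intro ht
    apply hncomm
    intro x y
    have h1 : (⊤ : Subgroup G) = ⊥ := by rw [← NQ_top D, ← hp', ht]
    have h2 : ∀ z : G, z = 1 := fun z => by
      have : z ∈ (⊤ : Subgroup G) := Subgroup.mem_top z
      rw [h1] at this
      exact Subgroup.mem_bot.mp this
    rw [h2 x, h2 y]
  · intro s t hst
    by_contra hc
    rw [not_or] at hc
    have hlt : ∀ s : T, s ∉ p → p < p ⊔ Ideal.span {s} := by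
      intro s hs
      refine lt_of_le_of_ne le_sup_left (fun he => hs ?_)
      rw [he]
      exact (le_sup_right : Ideal.span {s} ≤ p ⊔ Ideal.span {s}) (Ideal.mem_span_singleton_self s)
    have hI := hmax' _ (hlt s hc.1)
    have hJ := hmax' _ (hlt t hc.2)
    have hle : (p ⊔ Ideal.span {s}) * (p ⊔ Ideal.span {t}) ≤ p := by
      rw [Ideal.sup_mul, Ideal.mul_sup]
      refine sup_le (sup_le Ideal.mul_le_right Ideal.mul_le_left) ?_
      rw [Ideal.mul_sup]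
      refine sup_le Ideal.mul_le_right ?_
      rw [Ideal.span_singleton_mul_span_singleton, Ideal.span_singleton_le_iff_mem]
      exact hst
    exact hncomm (hG.ncn _ _ (NQ_normal D _) (NQ_normal D _) hI hJ
      (fun x hx y hy => NQ_comm D hle hp' hx hy))

end

end MP35
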